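import Pool.Agent.Lib.H50D3.Base
import Pool.Agent.Lib.H50D3.Data

/-!
# Distance 3: the instances

Roles: `false` = role 0, `true` = role 1. A row `l : List Bool` lists the types of its cells in the order
of the line (`true`: the clause contains the literal of the column).
-/

set_option autoImplicit false

namespace Pool.Agent.D3

/-! ### The two given matchings (pages) -/

/-- a cell -/
def cellW (ρ ty : Bool) : List Bool := uP ρ ++ bd ρ ty ++ lP ρ ++ wP ρ ++ rP ρ

/-- the cells of a row, each followed by `Ym`, the last one by `Ye` -/
def rowT (ρ : Bool) : List Bool → List Bool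
  | [] => []
  | [t] => cellW ρ t ++ Ye ρ
  | t :: l => cellW ρ t ++ Ym ρ ++ rowT ρ l

/-- a row -/
def rowW (ρ : Bool) (l : List Bool) : List Bool := Ys ρ ++ rowT ρ l

/-- the rows, with alternating roles, and the footer (`n` columns) -/
def rowsW (n : ℕ) : Bool → List (List Bool) → List Bool
  | ρ, [] => (List.replicate n (ft ρ)).flatten
  | ρ, r :: rs => rowW ρ r ++ rowsW n (!ρ) rs

/-- the header for `v` pairs of columns -/
def hdW (ρ : Bool) : ℕ → List Bool
  | 0 => []
  | v + 1 => hd1 ρ ++ hd2 ρ ++ hdW ρ v

/-- page `false` (the rows start with role 0, the header has role 1) and page `true` -/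
def pageW (ρ : Bool) (v : ℕ) (rows : List (List Bool)) : List Bool :=
  hdW (!ρ) v ++ rowsW (2 * v) ρ rows

/-! ### The middle matchings -/

/-- state of the window `yU` -/
def CS.u : CS → St
  | .UL | .UR => .P
  | .WL | .WR | .WLR => .M
  | .aM => .p
  | .aP => .m

/-- state of the window `yL` -/
def CS.l : CS → St
  | .UL | .WL | .WLR => .P
  | .UR | .WR => .M
  | .aM => .m
  | .aP => .p

/-- state of the window `yW` -/
def CS.w : CS → St
  | .WL | .WR | .WLR => .P
  | .UL | .UR => .M
  | .aM => .m
  | .aP => .p

/-- state of the window `yR` -/
def CS.r : CS → St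
  | .UR | .WR | .WLR => .P
  | .UL | .WL => .M
  | .aM => .m
  | .aP => .p

/-- state of the body -/
def CS.ch : CS → Ch
  | .UL => .c
  | .UR => .d
  | .WL => .b
  | .WR | .WLR => .a
  | .aM => .m
  | .aP => .p

/-- a cell with its type and state -/
def mCell (c : Bool × CS) : List Bool := mU c.2.u ++ mBd c.1 c.2.ch ++ mL c.2.l ++ mW c.2.w ++ mR c.2.r

/-- the cells of a row -/
def mRowT : List (Bool × CS) → List Bool
  | [] => []
  | [c] => mCell c ++ mY
  | c :: l => mCell c ++ mY ++ mRowT l

def mRow (l : List (Bool × CS)) : List Bool := mY ++ mRowT l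

def mRows (n : ℕ) : List (List (Bool × CS)) → List Bool
  | [] => (List.replicate n mf).flatten
  | r :: rs => mRow r ++ mRows n rs

def mHd : List (St × St) → List Bool
  | [] => []
  | h :: hs => mh1 h.1 ++ mh2 h.2 ++ mHd hs

/-- the middle matching for the header states `hs` (pairs of columns) and rows of cells with states -/
def midW (hs : List (St × St)) (rows : List (List (Bool × CS))) : List Bool :=
  mHd hs ++ mRows (2 * hs.length) rows

/-! ### The rows of a formula -/

/-- all variables of the formula are less than this number -/
def nv (F : List (List (ℕ × Bool))) : ℕ := (F.flatten.map fun l => l.1 + 1).foldr max 1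

/-- the row of a clause, in the order of the columns `(0, true), (0, false), (1, true), …` -/
def colT (v : ℕ) (C : List (ℕ × Bool)) : List Bool :=
  (List.range v).flatMap fun i => [decide ((i, true) ∈ C), decide ((i, false) ∈ C)]

/-- reverse every second row -/
def alt {α : Type} : Bool → List (List α) → List (List α)
  | _, [] => []
  | false, r :: rs => r :: alt true rs
  | true, r :: rs => r.reverse :: alt false rs

/-- the rows of a formula; the first row belongs to the clause `x₀ ∨ ¬ x₀` -/
def rowsOf (F : List (List (ℕ × Bool))) : List (List Bool) :=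
  alt false ((([(0, true), (0, false)] : List (ℕ × Bool)) :: F).map (colT (nv F)))

/-- the word of a page of the instance of a formula -/
def pgW (ρ : Bool) (F : List (List (ℕ × Bool))) : List Bool := pageW ρ (nv F) (rowsOf F)

/-! ### Lengths -/

@[simp] theorem uP_length (ρ : Bool) : (uP ρ).length = 30 := by cases ρ <;> exact bw_length _ _
@[simp] theorem bd_length (ρ t : Bool) : (bd ρ t).length = 380 := by
  cases ρ <;> cases t <;> exact bw_length _ _
@[simp] theorem lP_length (ρ : Bool) : (lP ρ).length = 30 := by cases ρ <;> exact bw_length _ _
@[simp] theorem wP_length (ρ : Bool) : (wP ρ).length = 46 := by cases ρ <;> exact bw_length _ _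
@[simp] theorem rP_length (ρ : Bool) : (rP ρ).length = 38 := by cases ρ <;> exact bw_length _ _
@[simp] theorem Ym_length (ρ : Bool) : (Ym ρ).length = 8 := by cases ρ <;> exact bw_length _ _
@[simp] theorem Ys_length (ρ : Bool) : (Ys ρ).length = 8 := by cases ρ <;> exact bw_length _ _
@[simp] theorem Ye_length (ρ : Bool) : (Ye ρ).length = 8 := by cases ρ <;> exact bw_length _ _
@[simp] theorem hd1_length (ρ : Bool) : (hd1 ρ).length = 42 := by cases ρ <;> exact bw_length _ _
@[simp] theorem hd2_length (ρ : Bool) : (hd2 ρ).length = 34 := by cases ρ <;> exact bw_length _ _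
@[simp] theorem ft_length (ρ : Bool) : (ft ρ).length = 4 := by cases ρ <;> exact bw_length _ _
@[simp] theorem mU_length (s : St) : (mU s).length = 30 := by cases s <;> exact bw_length _ _
@[simp] theorem mBd_length (t : Bool) (s : Ch) : (mBd t s).length = 380 := by
  cases t <;> cases s <;> exact bw_length _ _
@[simp] theorem mL_length (s : St) : (mL s).length = 30 := by cases s <;> exact bw_length _ _
@[simp] theorem mW_length (s : St) : (mW s).length = 46 := by cases s <;> exact bw_length _ _
@[simp] theorem mR_length (s : St) : (mR s).length = 38 := by cases s <;> exact bw_length _ _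
@[simp] theorem mY_length : mY.length = 8 := bw_length _ _
@[simp] theorem mh1_length (s : St) : (mh1 s).length = 42 := by cases s <;> exact bw_length _ _
@[simp] theorem mh2_length (s : St) : (mh2 s).length = 34 := by cases s <;> exact bw_length _ _
@[simp] theorem mf_length : mf.length = 4 := bw_length _ _

@[simp] theorem cellW_length (ρ t : Bool) : (cellW ρ t).length = 524 := by simp [cellW]
@[simp] theorem mCell_length (c : Bool × CS) : (mCell c).length = 524 := by simp [mCell]

theorem rowT_length (ρ : Bool) : ∀ l : List Bool, (rowT ρ l).length = 532 * l.length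
  | [] => rfl
  | [t] => by simp [rowT]
  | t :: t' :: l => by
    have := rowT_length ρ (t' :: l)
    simp only [rowT, List.length_append, this, List.length_cons, cellW_length, Ym_length]
    ring

@[simp] theorem rowW_length (ρ : Bool) (l : List Bool) : (rowW ρ l).length = 8 + 532 * l.length := by
  simp [rowW, rowT_length]

theorem mRowT_length : ∀ l : List (Bool × CS), (mRowT l).length = 532 * l.length
  | [] => rfl
  | [t] => by simp [mRowT]
  | t :: t' :: l => by
    have := mRowT_length (t' :: l)
    simp only [mRowT, List.length_append, this, List.length_cons, mCell_length, mY_length]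
    ring

@[simp] theorem mRow_length (l : List (Bool × CS)) : (mRow l).length = 8 + 532 * l.length := by
  simp [mRow, mRowT_length]

@[simp] theorem hdW_length (ρ : Bool) (v : ℕ) : (hdW ρ v).length = 76 * v := by
  induction v with
  | zero => rfl
  | succ v ih => simp only [hdW, List.length_append, ih, hd1_length, hd2_length]; ring

@[simp] theorem mHd_length (hs : List (St × St)) : (mHd hs).length = 76 * hs.length := by
  induction hs with
  | nil => rfl
  | cons h hs ih => simp only [mHd, List.length_append, ih, mh1_length, mh2_length, List.length_cons]; ring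

theorem rowsW_length {n : ℕ} : ∀ {ρ : Bool} {rows : List (List Bool)} (_ : ∀ r ∈ rows, r.length = n),
    (rowsW n ρ rows).length = (8 + 532 * n) * rows.length + 4 * n
  | ρ, [], _ => by simp [rowsW, List.length_flatten, mul_comm]
  | ρ, r :: rs, h => by
    have := rowsW_length (ρ := !ρ) (fun r hr => h r (List.mem_cons_of_mem _ hr))
    simp only [rowsW, List.length_append, this, rowW_length, h r List.mem_cons_self, List.length_cons]
    ring

theorem mRows_length {n : ℕ} : ∀ {rows : List (List (Bool × CS))} (_ : ∀ r ∈ rows, r.length = n),
    (mRows n rows).length = (8 + 532 * n) * rows.length + 4 * n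
  | [], _ => by simp [mRows, List.length_flatten, mul_comm]
  | r :: rs, h => by
    have := mRows_length (fun r hr => h r (List.mem_cons_of_mem _ hr))
    simp only [mRows, List.length_append, this, mRow_length, h r List.mem_cons_self, List.length_cons]
    ring

end Pool.Agent.D3
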