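import Pool.Agent.Lib.H50D3.Words
import Pool.Agent.Lib.H50D3.Inst

/-!
# Distance 3: occurrences of words, offsets
-/

set_option autoImplicit false

namespace Pool.Agent.D3

/-- the word `t` occurs in `w` at position `b` -/
def At (w : List Bool) (b : ℕ) (t : List Bool) : Prop := ∃ u z, w = u ++ t ++ z ∧ u.length = b

/-- role of row `j` on page `ρ` -/
def rl (ρ : Bool) (j : ℕ) : Bool := if j % 2 = 0 then ρ else !ρ

/-- offset of cell `i` of row `j` (`2 * v` columns) -/
def Bc (v j i : ℕ) : ℕ := 76 * v + (8 + 532 * (2 * v)) * j + 8 + 532 * i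

theorem At.trans {w t s : List Bool} {b c : ℕ} (h : At w b t) (h' : At t c s) : At w (b + c) s := by
  obtain ⟨u, z, rfl, rfl⟩ := h
  obtain ⟨u', z', rfl, rfl⟩ := h'
  exact ⟨u ++ u', z' ++ z, by simp, by simp⟩

theorem At.le {w t : List Bool} {b : ℕ} (h : At w b t) : b + t.length ≤ w.length := by
  obtain ⟨u, z, rfl, rfl⟩ := h
  simp

theorem At.arc {w t : List Bool} {b i j : ℕ} (h : At w b t) (ha : Arc t i j) : Arc w (b + i) (b + j) := by
  obtain ⟨u, z, rfl, rfl⟩ := h
  exact (Arc.local_iff ha.lt_length).2 ha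

theorem At.arc_iff {w t : List Bool} {b i j : ℕ} (h : At w b t) (hj : j < t.length) :
    Arc w (b + i) (b + j) ↔ Arc t i j := by
  obtain ⟨u, z, rfl, rfl⟩ := h
  exact Arc.local_iff hj

/-- to be evaluated -/
def atB (w : List Bool) (b : ℕ) (t : List Bool) : Bool := decide ((w.drop b).take t.length = t ∧ b + t.length ≤ w.length)

theorem atB_sound {w t : List Bool} {b : ℕ} (h : atB w b t = true) : At w b t := by
  obtain ⟨h1, h2⟩ := of_decide_eq_true h
  refine ⟨w.take b, (w.drop b).drop t.length, ?_, by simp; omega⟩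
  conv_lhs => rw [← List.take_append_drop b w, ← List.take_append_drop t.length (w.drop b), h1]
  simp

end Pool.Agent.D3
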