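import Pool.Agent.Lib.H50D3.Base

/-!
# Distance 3: the algebra of balanced connected words

`BC.append` and `BC.subst` (a neutral letter may be replaced by a balanced connected word).
-/

set_option autoImplicit false

namespace Pool.Agent.D3

/-! ### General facts on derivations -/

theorem Der.le {h g : ℕ → ℤ} {i j : ℕ} (d : Der h g i j) : i ≤ j := by
  induction d with
  | refl i => exact le_rfl
  | cat _ _ h1 h2 => exact h1.trans h2
  | edge _ _ h1 h2 _ _ => omega

theorem Al.congr {h h' : ℕ → ℤ} {i j : ℕ} (s : ℕ) (c : ℤ)
    (hh : ∀ t, i ≤ t → t ≤ j + 1 → h' (t + s) = h t + c) (a : Al h i j) :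
    Al h' (i + s) (j + s) := by
  obtain ⟨h1, h2, h3⟩ := a
  have e1 := hh i le_rfl (by omega)
  have e2 := hh (i + 1) (by omega) (by omega)
  have e3 := hh j (by omega) (by omega)
  have e4 := hh (j + 1) (by omega) (by omega)
  have r2 : i + 1 + s = i + s + 1 := by omega
  have r4 : j + 1 + s = j + s + 1 := by omega
  rw [r2] at e2
  rw [r4] at e4
  refine ⟨by omega, fun t ht1 ht2 => ?_, fun ⟨k1, k2⟩ => h3 ⟨?_, fun t ht1 ht2 => ?_⟩⟩
  · obtain ⟨u, rfl⟩ : ∃ u, t = u + s := ⟨t - s, by omega⟩
    have := h2 u (by omega) (by omega)
    rw [hh u (by omega) (by omega), e1, e2, e3, e4]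
    constructor
    · rw [min_add_add_right]
      linarith [this.1]
    · rw [min_add_add_right]
      linarith [this.2]
  · rw [e1, e4] at k1
    linarith
  · have := k2 (t + s) (by omega) (by omega)
    rw [e1, hh t (by omega) (by omega)] at this
    linarith

theorem Der.congr {h g h' g' : ℕ → ℤ} {i j : ℕ} (d : Der h g i j) (s : ℕ) (c c' : ℤ)
    (hh : ∀ t, i ≤ t → t ≤ j + 1 → h' (t + s) = h t + c)
    (hg : ∀ t, i ≤ t → t ≤ j + 1 → g' (t + s) = g t + c') : Der h' g' (i + s) (j + s) := by
  induction d with
  | refl i => exact .refl _
  | cat d1 d2 ih1 ih2 =>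
    have l1 := d1.le
    have l2 := d2.le
    exact .cat (ih1 (fun t h1 h2 => hh t h1 (by omega)) (fun t h1 h2 => hg t h1 (by omega)))
      (ih2 (fun t h1 h2 => hh t (by omega) h2) (fun t h1 h2 => hg t (by omega) h2))
  | edge d1 d2 a1 a2 ih1 ih2 =>
    have l1 := d1.le
    have l2 := d2.le
    have e1 := ih1 (fun t h1 h2 => hh t h1 (by omega)) (fun t h1 h2 => hg t h1 (by omega))
    have e2 := ih2 (fun t h1 h2 => hh t (by omega) h2) (fun t h1 h2 => hg t (by omega) h2)
    rw [Nat.add_right_comm] at e2
    exact .edge e1 e2 (a1.congr s c hh) (a2.congr s c' hg)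

/-! ### Heights of concatenations -/

theorem h1_append_left {X Y : List (ℤ × ℤ)} {t : ℕ} (h : t ≤ X.length) :
    h1 (X ++ Y) t = h1 X t := by
  unfold h1
  rw [List.take_append_of_le_length h]

theorem h2_append_left {X Y : List (ℤ × ℤ)} {t : ℕ} (h : t ≤ X.length) :
    h2 (X ++ Y) t = h2 X t := by
  unfold h2
  rw [List.take_append_of_le_length h]

theorem h1_append_right (X Y : List (ℤ × ℤ)) (t : ℕ) :
    h1 (X ++ Y) (X.length + t) = h1 X X.length + h1 Y t := by
  unfold h1
  rw [List.take_length_add_append, List.map_append, List.sum_append, List.take_length]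

theorem h2_append_right (X Y : List (ℤ × ℤ)) (t : ℕ) :
    h2 (X ++ Y) (X.length + t) = h2 X X.length + h2 Y t := by
  unfold h2
  rw [List.take_length_add_append, List.map_append, List.sum_append, List.take_length]

/-- the outermost chord is allowed if some interior height vanishes -/
theorem Al.outer {h : ℕ → ℤ} {n k : ℕ} (hk : 0 < k) (hkn : k ≤ n) (h0 : h 0 = 0)
    (hn : h (n + 1) = 0) (hkz : h k = 0) (hpos : ∀ t, t ≤ n → 0 ≤ h t) : Al h 0 n := by
  refine ⟨by omega, fun t h1 h2 => ⟨?_, ?_⟩, fun ⟨_, h2⟩ => ?_⟩
  · exact (min_le_left _ _).trans (by rw [h0]; exact hpos t h2)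
  · exact (min_le_right _ _).trans (by rw [hn]; exact hpos t h2)
  · have := h2 k hk hkn
    rw [h0, hkz] at this
    exact lt_irrefl _ this

theorem BC.append {X Y : List (ℤ × ℤ)} (hX : BC X) (hY : BC Y) : BC (X ++ Y) := by
  obtain ⟨x0, x1, x2, x3, x4⟩ := hX
  obtain ⟨y0, y1, y2, y3, y4⟩ := hY
  have lx : 0 < X.length := List.length_pos_iff.2 x0
  have ly : 0 < Y.length := List.length_pos_iff.2 y0
  have e1 : ∀ t, h1 (X ++ Y) (X.length + t) = h1 Y t := fun t => by
    rw [h1_append_right, x2, zero_add]
  have e2 : ∀ t, h2 (X ++ Y) (X.length + t) = h2 Y t := fun t => by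
    rw [h2_append_right, x3, zero_add]
  have hpos : ∀ t ≤ (X ++ Y).length, 0 ≤ h1 (X ++ Y) t ∧ 0 ≤ h2 (X ++ Y) t := by
    intro t ht
    rw [List.length_append] at ht
    by_cases h : t ≤ X.length
    · rw [h1_append_left h, h2_append_left h]
      exact x1 t h
    · obtain ⟨u, rfl⟩ : ∃ u, t = X.length + u := ⟨t - X.length, by omega⟩
      rw [e1, e2]
      exact y1 u (by omega)
  have z1 : h1 (X ++ Y) (X ++ Y).length = 0 := by
    rw [List.length_append, e1, y2]
  have z2 : h2 (X ++ Y) (X ++ Y).length = 0 := by
    rw [List.length_append, e2, y3]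
  refine ⟨by simp [x0], hpos, z1, z2, ?_⟩
  have hlen : (X ++ Y).length - 1 = X.length + Y.length - 1 := by rw [List.length_append]
  rw [hlen]
  have d1 : Der (h1 (X ++ Y)) (h2 (X ++ Y)) (0 + 0) (X.length - 1 + 0) := by
    refine x4.congr 0 0 0 (fun t _ ht => ?_) (fun t _ ht => ?_)
    · rw [add_zero, add_zero, h1_append_left (by omega)]
    · rw [add_zero, add_zero, h2_append_left (by omega)]
  have d2 : Der (h1 (X ++ Y)) (h2 (X ++ Y)) (0 + X.length) (Y.length - 1 + X.length) := by
    refine y4.congr X.length 0 0 (fun t _ ht => ?_) (fun t _ ht => ?_)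
    · rw [add_zero, add_comm t, e1]
    · rw [add_zero, add_comm t, e2]
  have r1 : 0 + X.length = X.length - 1 + 1 := by omega
  have r2 : Y.length - 1 + X.length = X.length + Y.length - 1 := by omega
  rw [r1, r2] at d2
  have hN : (X ++ Y).length = X.length + Y.length - 1 + 1 := by rw [List.length_append]; omega
  refine .edge d1 d2 ?_ ?_
  · refine Al.outer (k := X.length) lx (by omega) rfl ?_ ?_ ?_
    · rw [← hN]; exact z1
    · have := e1 0
      rw [add_zero] at this
      rw [this]; rfl
    · intro t ht
      exact (hpos t (by rw [hN]; omega)).1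
  · refine Al.outer (k := X.length) lx (by omega) rfl ?_ ?_ ?_
    · rw [← hN]; exact z2
    · have := e2 0
      rw [add_zero] at this
      rw [this]; rfl
    · intro t ht
      exact (hpos t (by rw [hN]; omega)).2

/-! ### Substitution -/

/-- new index of a left end -/
def sL (z l i : ℕ) : ℕ := if i < z then i else i + l

/-- new index of a right end -/
def sR (z l j : ℕ) : ℕ := if j ≤ z then j else j + l

/-- `h'` is obtained from `h` by replacing the neutral letter at `z` by `l + 1` letters with
nonnegative balanced heights -/
structure SubH (z l : ℕ) (h h' : ℕ → ℤ) : Prop where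
  left : ∀ t ≤ z, h' t = h t
  mid : ∀ s ≤ l + 1, h z ≤ h' (z + s)
  right : ∀ t, z < t → h' (t + l) = h t
  neutral : h (z + 1) = h z

theorem SubH.al {z l : ℕ} {h h' : ℕ → ℤ} (S : SubH z l h h') {i j : ℕ} (a : Al h i j) :
    Al h' (sL z l i) (sR z l j) := by
  obtain ⟨a1, a2, a3⟩ := a
  -- values at the ends
  have hz0 : h' z = h z := S.left z le_rfl
  have hz1 : h' (z + l + 1) = h z := by
    have := S.right (z + 1) (by omega)
    rw [show z + 1 + l = z + l + 1 by omega, S.neutral] at this
    exact this
  have hminL : min (h' (sL z l i)) (h' (sL z l i + 1)) = min (h i) (h (i + 1)) := by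
    unfold sL
    split_ifs with hi
    · rw [S.left i hi.le, S.left (i + 1) hi]
    · rcases Nat.lt_or_ge z i with hi' | hi'
      · rw [S.right i hi', show i + l + 1 = i + 1 + l by omega, S.right (i + 1) (by omega)]
      · obtain rfl : i = z := by omega
        rw [hz1, S.neutral, min_self, min_eq_right (S.mid l (by omega))]
  have hminR : min (h' (sR z l j)) (h' (sR z l j + 1)) = min (h j) (h (j + 1)) := by
    unfold sR
    split_ifs with hj
    · rcases Nat.lt_or_ge j z with hj' | hj'
      · rw [S.left j hj, S.left (j + 1) hj']
      · obtain rfl : j = z := by omega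
        rw [hz0, S.neutral, min_self, min_eq_left (S.mid 1 (by omega))]
    · rw [S.right j (by omega), show j + l + 1 = j + 1 + l by omega, S.right (j + 1) (by omega)]
  have hlt : sL z l i < sR z l j := by
    unfold sL sR
    split_ifs <;> omega
  refine ⟨hlt, fun t ht1 ht2 => ?_, fun ⟨k1, k2⟩ => ?_⟩
  · rw [hminL, hminR]
    -- an old index with a smaller height
    have key : ∃ u, i < u ∧ u ≤ j ∧ h u ≤ h' t := by
      unfold sL at ht1
      unfold sR at ht2
      by_cases h1 : t ≤ z
      · refine ⟨t, ?_, ?_, ?_⟩
        · split_ifs at ht1 <;> omega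
        · split_ifs at ht2 <;> omega
        · rw [S.left t h1]
      · by_cases h2 : t ≤ z + l
        · refine ⟨z, ?_, ?_, ?_⟩
          · split_ifs at ht1 <;> omega
          · split_ifs at ht2 <;> omega
          · have := S.mid (t - z) (by omega)
            rwa [show z + (t - z) = t by omega] at this
        · refine ⟨t - l, ?_, ?_, ?_⟩
          · split_ifs at ht1 <;> omega
          · split_ifs at ht2 <;> omega
          · have := S.right (t - l) (by omega)
            rw [show t - l + l = t by omega] at this
            rw [this]
    obtain ⟨u, u1, u2, u3⟩ := key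
    exact ⟨(a2 u u1 u2).1.trans u3, (a2 u u1 u2).2.trans u3⟩
  · -- the ends are not neutral
    have hi : i ≠ z := by
      rintro rfl
      have e : sL i l i = i + l := by unfold sL; simp
      rw [e] at hlt k1 k2
      have := k2 (i + l + 1) (by omega) (by omega)
      rw [hz1] at this
      exact absurd (S.mid l (by omega)) (by linarith)
    have hj : j ≠ z := by
      rintro rfl
      have e : sR j l j = j := by unfold sR; simp
      rw [e] at hlt k1 k2
      have := k2 j hlt le_rfl
      rw [k1, hz0] at this
      exact absurd (S.mid 1 (by omega)) (by linarith)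
    have eL : h' (sL z l i) = h i := by
      unfold sL
      split_ifs with hc
      · exact S.left i hc.le
      · exact S.right i (by omega)
    have eR : h' (sR z l j + 1) = h (j + 1) := by
      unfold sR
      split_ifs with hc
      · exact S.left (j + 1) (by omega)
      · rw [show j + l + 1 = j + 1 + l by omega]
        exact S.right (j + 1) (by omega)
    refine a3 ⟨by rw [← eL, ← eR]; exact k1, fun t ht1 ht2 => ?_⟩
    by_cases hc : t ≤ z
    · have := k2 t (by unfold sL; split_ifs <;> omega) (by unfold sR; split_ifs <;> omega)
      rwa [eL, S.left t hc] at this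
    · have := k2 (t + l) (by unfold sL; split_ifs <;> omega) (by unfold sR; split_ifs <;> omega)
      rwa [eL, S.right t (by omega)] at this

theorem Der.subst {z l : ℕ} {h g h' g' : ℕ → ℤ} (Sh : SubH z l h h') (Sg : SubH z l g g')
    (dz : Der h' g' z (z + l)) {i j : ℕ} (d : Der h g i j) (hij : i < j) :
    Der h' g' (sL z l i) (sR z l j) := by
  induction d with
  | refl i => exact absurd hij (lt_irrefl _)
  | @cat i k j d1 d2 ih1 ih2 =>
    have l1 := d1.le
    have l2 := d2.le
    rcases Nat.eq_or_lt_of_le l1 with rfl | h1
    · exact ih2 hij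
    rcases Nat.eq_or_lt_of_le l2 with rfl | h2
    · exact ih1 hij
    by_cases hk : k = z
    · subst hk
      have e1 := ih1 h1
      have e2 := ih2 h2
      have r1 : sR k l k = k := by unfold sR; simp
      have r2 : sL k l k = k + l := by unfold sL; simp
      rw [r1] at e1
      rw [r2] at e2
      exact (e1.cat dz).cat e2
    · have r : sR z l k = sL z l k := by
        unfold sR sL
        split_ifs <;> omega
      have e1 := ih1 h1
      rw [r] at e1
      exact e1.cat (ih2 h2)
  | @edge i k j d1 d2 a1 a2 ih1 ih2 =>
    have l1 := d1.le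
    have l2 := d2.le
    -- the position before the new start of `k + 1`
    have e1 : Der h' g' (sL z l i) (if k < z then k else k + l) := by
      rcases Nat.eq_or_lt_of_le l1 with rfl | h1
      · have : (if i < z then i else i + l) = sL z l i := rfl
        rw [this]
        exact .refl _
      · have e := ih1 h1
        by_cases hk : k = z
        · subst hk
          have r1 : sR k l k = k := by unfold sR; simp
          rw [r1] at e
          simp only [lt_irrefl, if_false]
          exact e.cat dz
        · have r : sR z l k = if k < z then k else k + l := by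
            unfold sR
            split_ifs <;> omega
          rw [r] at e
          exact e
    have e2 : Der h' g' ((if k < z then k else k + l) + 1) (sR z l j) := by
      have r0 : (if k < z then k else k + l) + 1 = if k + 1 ≤ z then k + 1 else k + 1 + l := by
        split_ifs <;> omega
      rw [r0]
      rcases Nat.eq_or_lt_of_le l2 with h2 | h2
      · subst h2
        exact .refl _
      · have e := ih2 h2
        by_cases hk : k + 1 = z
        · subst hk
          have r1 : sL (k + 1) l (k + 1) = k + 1 + l := by unfold sL; simp
          rw [r1] at e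
          simp only [le_refl, if_true]
          exact dz.cat e
        · have r : sL z l (k + 1) = if k + 1 ≤ z then k + 1 else k + 1 + l := by
            unfold sL
            split_ifs <;> omega
          rw [r] at e
          exact e
    exact .edge e1 e2 (Sh.al a1) (Sg.al a2)

theorem BC.subst {A B Z : List (ℤ × ℤ)} (h : BC (A ++ (0, 0) :: B)) (hZ : BC Z) :
    BC (A ++ Z ++ B) := by
  obtain ⟨-, o1, o2, o3, o4⟩ := h
  obtain ⟨z0, z1, z2, z3, z4⟩ := hZ
  have lz : 0 < Z.length := List.length_pos_iff.2 z0
  set O := A ++ (0, 0) :: B with hO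
  set W := A ++ Z ++ B with hW
  have lO : O.length = A.length + 1 + B.length := by
    rw [hO, List.length_append, List.length_cons]; omega
  have lW : W.length = A.length + Z.length + B.length := by
    rw [hW, List.length_append, List.length_append]
  obtain ⟨l, hl⟩ : ∃ l, Z.length = l + 1 := ⟨Z.length - 1, by omega⟩
  -- heights
  have mid1 : ∀ s ≤ l + 1, h1 W (A.length + s) = h1 O A.length + h1 Z s := by
    intro s hs
    rw [hW, h1_append_left (by rw [List.length_append]; omega), h1_append_right, hO,
      h1_append_left le_rfl]
  have mid2 : ∀ s ≤ l + 1, h2 W (A.length + s) = h2 O A.length + h2 Z s := by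
    intro s hs
    rw [hW, h2_append_left (by rw [List.length_append]; omega), h2_append_right, hO,
      h2_append_left le_rfl]
  have S1 : SubH A.length l (h1 O) (h1 W) := by
    refine ⟨fun t ht => ?_, fun s hs => ?_, fun t ht => ?_, ?_⟩
    · rw [hW, List.append_assoc, h1_append_left ht, hO, h1_append_left ht]
    · rw [mid1 s hs]
      have := (z1 s (by omega)).1
      linarith
    · obtain ⟨u, rfl⟩ : ∃ u, t = A.length + 1 + u := ⟨t - A.length - 1, by omega⟩
      have r1 : A.length + 1 + u + l = (A ++ Z).length + u := by
        rw [List.length_append]; omega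
      have r2 : O = (A ++ [(0, 0)]) ++ B := by rw [hO]; simp
      have r3 : A.length + 1 + u = (A ++ [((0 : ℤ), (0 : ℤ))]).length + u := by
        rw [List.length_append, List.length_singleton]
      rw [r1, hW, h1_append_right, r3, r2, h1_append_right, List.length_append,
        h1_append_right, z2, List.length_append, h1_append_right]
      simp [h1]
    · rw [hO, h1_append_right, h1_append_left le_rfl]
      simp [h1]
  have S2 : SubH A.length l (h2 O) (h2 W) := by
    refine ⟨fun t ht => ?_, fun s hs => ?_, fun t ht => ?_, ?_⟩
    · rw [hW, List.append_assoc, h2_append_left ht, hO, h2_append_left ht]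
    · rw [mid2 s hs]
      have := (z1 s (by omega)).2
      linarith
    · obtain ⟨u, rfl⟩ : ∃ u, t = A.length + 1 + u := ⟨t - A.length - 1, by omega⟩
      have r1 : A.length + 1 + u + l = (A ++ Z).length + u := by
        rw [List.length_append]; omega
      have r2 : O = (A ++ [(0, 0)]) ++ B := by rw [hO]; simp
      have r3 : A.length + 1 + u = (A ++ [((0 : ℤ), (0 : ℤ))]).length + u := by
        rw [List.length_append, List.length_singleton]
      rw [r1, hW, h2_append_right, r3, r2, h2_append_right, List.length_append,
        h2_append_right, z3, List.length_append, h2_append_right]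
      simp [h2]
    · rw [hO, h2_append_right, h2_append_left le_rfl]
      simp [h2]
  have hpos : ∀ t ≤ W.length, 0 ≤ h1 W t ∧ 0 ≤ h2 W t := by
    intro t ht
    by_cases c1 : t ≤ A.length
    · rw [S1.left t c1, S2.left t c1]
      exact o1 t (by omega)
    · by_cases c2 : t ≤ A.length + l + 1
      · have q1 := S1.mid (t - A.length) (by omega)
        have q2 := S2.mid (t - A.length) (by omega)
        rw [show A.length + (t - A.length) = t by omega] at q1 q2
        have q3 := o1 A.length (by omega)
        exact ⟨q3.1.trans q1, q3.2.trans q2⟩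
      · have q1 := S1.right (t - l) (by omega)
        have q2 := S2.right (t - l) (by omega)
        rw [show t - l + l = t by omega] at q1 q2
        rw [q1, q2]
        exact o1 _ (by omega)
  have t1 : h1 W W.length = 0 := by
    have := S1.right O.length (by omega)
    rw [show O.length + l = W.length by omega] at this
    rw [this, o2]
  have t2 : h2 W W.length = 0 := by
    have := S2.right O.length (by omega)
    rw [show O.length + l = W.length by omega] at this
    rw [this, o3]
  have dz : Der (h1 W) (h2 W) A.length (A.length + l) := by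
    have := z4.congr (h' := h1 W) (g' := h2 W) A.length (h1 O A.length) (h2 O A.length)
      (fun t _ ht => by rw [add_comm t, mid1 t (by omega), add_comm])
      (fun t _ ht => by rw [add_comm t, mid2 t (by omega), add_comm])
    rw [zero_add, hl, Nat.add_sub_cancel, add_comm l] at this
    exact this
  refine ⟨?_, hpos, t1, t2, ?_⟩
  · intro h0
    rw [h0] at lW
    simp only [List.length_nil] at lW
    omega
  · -- glue
    by_cases hB : B.length = 0
    · by_cases hA : A.length = 0
      · have r : W.length - 1 = A.length + l := by omega
        rw [r]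
        rw [hA] at dz ⊢
        exact dz
      · have d := Der.subst S1 S2 dz o4 (by omega)
        have r1 : sL A.length l 0 = 0 := by unfold sL; rw [if_pos (by omega)]
        have r2 : sR A.length l (O.length - 1) = A.length := by
          unfold sR; rw [if_pos (by omega)]; omega
        rw [r1, r2] at d
        have r : W.length - 1 = A.length + l := by omega
        rw [r]
        exact d.cat dz
    · have d := Der.subst S1 S2 dz o4 (by omega)
      have r2 : sR A.length l (O.length - 1) = W.length - 1 := by
        unfold sR; rw [if_neg (by omega)]; omega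
      rw [r2] at d
      by_cases hA : A.length = 0
      · have r1 : sL A.length l 0 = A.length + l := by unfold sL; rw [if_neg (by omega)]; omega
        rw [r1] at d
        have := dz.cat d
        rw [hA] at this
        exact this
      · have r1 : sL A.length l 0 = 0 := by unfold sL; rw [if_pos (by omega)]
        rw [r1] at d
        exact d

end Pool.Agent.D3
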