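import Mathlib

/-!
# Distance 3 in the tree-compatibility graph of matchings: definitions

* plane graphs on the points `0, …, N-1` (in convex position, in this cyclic order);
* `Matching n`: plane perfect matchings on `2 n` points; `dcg n`: the graph `DCG_S(𝒯)`;
* bracket words `w : List Bool` (`true` is an opening bracket), heights `ht`, matched pairs `Arc`;
* `Der`: derivations of connectedness (used for completeness);
* `BC`: balanced and connected words.
-/

set_option autoImplicit false

namespace Pool.Agent.D3

/-! ### The problem -/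

/-- the chords `ab` and `cd` cross (four points in convex position, numbered cyclically) -/
def Cross {N : ℕ} (a b c d : Fin N) : Prop :=
  (min a b < min c d ∧ min c d < max a b ∧ max a b < max c d) ∨
    (min c d < min a b ∧ min a b < max c d ∧ max c d < max a b)

/-- no two edges of the graph cross -/
def Plane {N : ℕ} (G : SimpleGraph (Fin N)) : Prop :=
  ∀ a b c d, G.Adj a b → G.Adj c d → ¬ Cross a b c d

/-- every vertex has exactly one neighbour -/
def IsPM {N : ℕ} (G : SimpleGraph (Fin N)) : Prop := ∀ a, ∃! b, G.Adj a b

/-- plane perfect matchings on `2 n` points in convex position -/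
def Matching (n : ℕ) : Type := {M : SimpleGraph (Fin (2 * n)) // Plane M ∧ IsPM M}

/-- disjoint compatible: the union is plane and there is no common edge -/
def DisjComp {N : ℕ} (G H : SimpleGraph (Fin N)) : Prop := Plane (G ⊔ H) ∧ Disjoint G H

/-- some plane spanning tree is disjoint compatible with both graphs -/
def TComp {N : ℕ} (G H : SimpleGraph (Fin N)) : Prop :=
  ∃ T : SimpleGraph (Fin N), T.IsTree ∧ Plane T ∧ DisjComp T G ∧ DisjComp T H

/-- the disjoint `𝒯`-compatibility graph of plane perfect matchings -/
def dcg (n : ℕ) : SimpleGraph (Matching n) where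
  Adj M M' := M ≠ M' ∧ TComp M.1 M'.1
  symm := ⟨by
    rintro M M' ⟨h, T, h1, h2, h3, h4⟩
    exact ⟨h.symm, T, h1, h2, h4, h3⟩⟩
  loopless := ⟨fun _ h => h.1 rfl⟩

/-! ### Bracket words -/

/-- the sign of a bracket -/
def sg (b : Bool) : ℤ := if b then 1 else -1

/-- the height of `w` before position `t` -/
def ht (w : List Bool) (t : ℕ) : ℤ := ((w.take t).map sg).sum

/-- balanced words -/
def Bal (w : List Bool) : Prop := (∀ t ≤ w.length, 0 ≤ ht w t) ∧ ht w w.length = 0

/-- the brackets at `i < j` are matched with each other -/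
def Arc (w : List Bool) (i j : ℕ) : Prop :=
  i < j ∧ j < w.length ∧ ht w i = ht w (j + 1) ∧ ∀ t, i < t → t ≤ j → ht w i < ht w t

/-- the matching of a balanced word, as a graph on `Fin N` -/
def mg (N : ℕ) (w : List Bool) : SimpleGraph (Fin N) where
  Adj a b := Arc w a b ∨ Arc w b a
  symm := ⟨fun _ _ h => Or.symm h⟩
  loopless := ⟨fun _ h => by
    rcases h with h | h
    · exact absurd h.1 (lt_irrefl _)
    · exact absurd h.1 (lt_irrefl _)⟩

/-! ### Derivations of connectedness -/

/-- In terms of the heights `h` of a bracket word (possibly with neutral letters): the chord `ij`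
(`i < j`) crosses no arc, and is not an arc. -/
def Al (h : ℕ → ℤ) (i j : ℕ) : Prop :=
  i < j ∧ (∀ t, i < t → t ≤ j → min (h i) (h (i + 1)) ≤ h t ∧ min (h j) (h (j + 1)) ≤ h t) ∧
    ¬ (h i = h (j + 1) ∧ ∀ t, i < t → t ≤ j → h i < h t)

/-- `Der h g i j`: the vertices `i, …, j` can be connected by pairwise noncrossing chords between
them which cross no arc of the two words with heights `h`, `g`, and are not such arcs -/
inductive Der (h g : ℕ → ℤ) : ℕ → ℕ → Prop
  | refl (i : ℕ) : Der h g i i
  | cat {i k j : ℕ} : Der h g i k → Der h g k j → Der h g i j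
  | edge {i k j : ℕ} : Der h g i k → Der h g (k + 1) j → Al h i j → Al g i j → Der h g i j

/-- heights of the first letters of a list of pairs of letters `1, -1, 0` -/
def h1 (X : List (ℤ × ℤ)) (t : ℕ) : ℤ := ((X.take t).map Prod.fst).sum

/-- heights of the second letters -/
def h2 (X : List (ℤ × ℤ)) (t : ℕ) : ℤ := ((X.take t).map Prod.snd).sum

/-- both words of letters `1, -1, 0` are balanced, and all vertices can be connected -/
def BC (X : List (ℤ × ℤ)) : Prop :=
  X ≠ [] ∧ (∀ t ≤ X.length, 0 ≤ h1 X t ∧ 0 ≤ h2 X t) ∧ h1 X X.length = 0 ∧ h2 X X.length = 0 ∧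
    Der (h1 X) (h2 X) 0 (X.length - 1)

/-- two bracket words of the same length as a list of pairs -/
def zp (w v : List Bool) : List (ℤ × ℤ) := (w.map sg).zip (v.map sg)

end Pool.Agent.D3
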