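import Pool.Agent.Lib.H50D3.Windows

/-!
# Distance 3: the logic of a cell
-/

set_option autoImplicit false

namespace Pool.Agent.D3

/-- a part of a word -/
def sub (C : List Bool) (o L : ℕ) : List Bool := (C.drop o).take L

theorem at_sub {C : List Bool} {o L : ℕ} (h : o + L ≤ C.length) : At C o (sub C o L) := by
  refine ⟨C.take o, (C.drop o).drop L, ?_, by simp; omega⟩
  unfold sub
  conv_lhs => rw [← List.take_append_drop o C, ← List.take_append_drop L (C.drop o)]
  simp

theorem sub_length {C : List Bool} {o L : ℕ} (h : o + L ≤ C.length) : (sub C o L).length = L := by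
  simp [sub]; omega

variable {N : ℕ} {E E' Q : ℕ → ℕ → Prop} {B : ℕ} {W W' C C' : List Bool}

theorem arc_side (hE : TreeR N E) (hC : CompR E (RW W)) {c d x y : ℕ} (ha : Arc W c d) (hxy : E x y) :
    (x < c ∨ d < x → y ≤ c ∨ d ≤ y) ∧ (c < x → x < d → c ≤ y ∧ y ≤ d) := by
  have hcd := ha.lt
  refine ⟨fun h => ?_, fun h h' => ⟨?_, ?_⟩⟩
  · by_contra hc
    rcases h with h | h
    · have := (hC x y hxy (by omega)).2 c d (by omega) (by omega) (Or.inl ha)
      omega
    · have := (hC y x (hE.symm hxy) (by omega)).2 d c (by omega) (by omega) (Or.inr ha)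
      omega
  · by_contra hc
    have := (hC y x (hE.symm hxy) (by omega)).2 c d (by omega) (by omega) (Or.inl ha)
    omega
  · by_contra hc
    have := (hC x y hxy (by omega)).2 d c (by omega) (by omega) (Or.inr ha)
    omega

/-- an edge leaves the anchor at `bY` -/
def Anch (E : ℕ → ℕ → Prop) (bY : ℕ) : Prop :=
  ∃ x y, bY < x ∧ x < bY + 5 ∧ (y < bY ∨ bY + 6 ≤ y) ∧ E x y

theorem pv_of (hE : TreeR N E) {b x y u v : ℕ} (hx : b + x ≤ v) (hy : v ≤ b + y)
    (hu : u < b ∨ b + 20 ≤ u) (h : E u v) : PV E b 20 x y :=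
  ⟨v - b, by omega, by omega, u, hu, by rw [show b + (v - b) = v by omega]; exact hE.symm h⟩

/-- a face with three sectors, the anchor in the middle -/
theorem face3 (h : Pg N W E) {b1 x1 y1 bY b3 x3 y3 : ℕ} (hY : Anch E bY)
    (a1 : Arc W (b1 + y1) bY) (a2 : Arc W (bY + 5) (b3 + x3)) (a3 : Arc W (b1 + x1) (b3 + y3))
    (g1 : b1 + 20 ≤ bY) (g2 : bY + 6 ≤ b3) (g3 : x1 ≤ y1) (g4 : x3 ≤ y3) :
    PV E b1 20 x1 y1 ∨ PV E b3 20 x3 y3 := by
  obtain ⟨x, y, h1, h2, h3, h4⟩ := hY
  have e1 := (arc_side h.tree h.comp a1 h4).1 (by omega)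
  have e2 := (arc_side h.tree h.comp a2 h4).1 (by omega)
  have := a1.lt
  have := a2.lt
  have e3 := (arc_side h.tree h.comp a3 h4).2 (by omega) (by omega)
  rcases (by omega : (b1 + x1 ≤ y ∧ y ≤ b1 + y1) ∨ (b3 + x3 ≤ y ∧ y ≤ b3 + y3)) with h5 | h5
  · exact Or.inl (pv_of h.tree h5.1 h5.2 (by omega) h4)
  · exact Or.inr (pv_of h.tree h5.1 h5.2 (by omega) h4)

/-- a face with two sectors, the anchor is the first one -/
theorem face2 (h : Pg N W E) {bY b3 x3 y3 : ℕ} (hY : Anch E bY)
    (a2 : Arc W (bY + 5) (b3 + x3)) (a3 : Arc W bY (b3 + y3))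
    (g2 : bY + 6 ≤ b3) (g4 : x3 ≤ y3) : PV E b3 20 x3 y3 := by
  obtain ⟨x, y, h1, h2, h3, h4⟩ := hY
  have e2 := (arc_side h.tree h.comp a2 h4).1 (by omega)
  have := a2.lt
  have e3 := (arc_side h.tree h.comp a3 h4).2 (by omega) (by omega)
  exact pv_of h.tree (v := y) (by omega) (by omega) (by omega) h4

/-- a face with two sectors, the anchor is the second one -/
theorem face2' (h : Pg N W E) {b1 x1 y1 bY : ℕ} (hY : Anch E bY)
    (a1 : Arc W (b1 + y1) bY) (a3 : Arc W (b1 + x1) (bY + 5))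
    (g1 : b1 + 20 ≤ bY) (g3 : x1 ≤ y1) : PV E b1 20 x1 y1 := by
  obtain ⟨x, y, h1, h2, h3, h4⟩ := hY
  have e1 := (arc_side h.tree h.comp a1 h4).1 (by omega)
  have := a1.lt
  have e3 := (arc_side h.tree h.comp a3 h4).2 (by omega) (by omega)
  exact pv_of h.tree (v := y) (by omega) (by omega) (by omega) h4

/-- a face with five sectors, the anchor is the second one -/
theorem face5 (h : Pg N W E) {b1 x1 y1 bY b3 x3 y3 b4 x4 y4 b5 x5 y5 : ℕ} (hY : Anch E bY)
    (a1 : Arc W (b1 + y1) bY) (a2 : Arc W (bY + 5) (b3 + x3)) (a3 : Arc W (b3 + y3) (b4 + x4))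
    (a4 : Arc W (b4 + y4) (b5 + x5)) (a5 : Arc W (b1 + x1) (b5 + y5))
    (g1 : b1 + 20 ≤ bY) (g2 : bY + 6 ≤ b3) (g3 : b3 + 20 ≤ b4) (g4 : b4 + 20 ≤ b5)
    (k1 : x1 ≤ y1) (k3 : x3 ≤ y3) (k4 : x4 ≤ y4) (k5 : x5 ≤ y5) :
    PV E b1 20 x1 y1 ∨ PV E b3 20 x3 y3 ∨ PV E b4 20 x4 y4 ∨ PV E b5 20 x5 y5 := by
  obtain ⟨x, y, h1, h2, h3, h4⟩ := hY
  have e1 := (arc_side h.tree h.comp a1 h4).1 (by omega)
  have e2 := (arc_side h.tree h.comp a2 h4).1 (by omega)
  have := a1.lt
  have := a2.lt
  have := a3.lt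
  have := a4.lt
  have e3 := (arc_side h.tree h.comp a3 h4).1 (by omega)
  have e4 := (arc_side h.tree h.comp a4 h4).1 (by omega)
  have e5 := (arc_side h.tree h.comp a5 h4).2 (by omega) (by omega)
  rcases (by omega : (b1 + x1 ≤ y ∧ y ≤ b1 + y1) ∨ (b3 + x3 ≤ y ∧ y ≤ b3 + y3) ∨
    (b4 + x4 ≤ y ∧ y ≤ b4 + y4) ∨ (b5 + x5 ≤ y ∧ y ≤ b5 + y5)) with h5 | h5 | h5 | h5
  · exact Or.inl (pv_of h.tree h5.1 h5.2 (by omega) h4)
  · exact Or.inr (Or.inl (pv_of h.tree h5.1 h5.2 (by omega) h4))
  · exact Or.inr (Or.inr (Or.inl (pv_of h.tree h5.1 h5.2 (by omega) h4)))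
  · exact Or.inr (Or.inr (Or.inr (pv_of h.tree h5.1 h5.2 (by omega) h4)))

/-! ### Inside a block -/

/-- the two pages, the two trees and the middle matching -/
structure Sit (N : ℕ) (W W' : List Bool) (E E' Q : ℕ → ℕ → Prop) : Prop where
  pg : Pg N W E
  pg' : Pg N W' E'
  q : MatchR N Q
  cq : CompR E Q
  cq' : CompR E' Q

theorem Sit.swap (h : Sit N W W' E E' Q) : Sit N W' W E' E Q := ⟨h.pg', h.pg, h.q, h.cq', h.cq⟩

theorem blkA (S : Sit N W W' E E' Q) (A : At W B C) (A' : At W' B C') (o : ℕ) (hB : 0 < B + o)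
    (ho : o + 20 ≤ C.length) (ho' : o + 20 ≤ C'.length)
    (c : (tokB (sub C o 20) wAM && tokB (sub C' o 20) wAP) = true) :
    ¬ ((PV E (B + o) 20 12 15 ∨ PV E (B + o) 20 16 17) ∧ PV E' (B + o) 20 2 3) := by
  rw [Bool.and_eq_true] at c
  exact A_excl S.pg S.pg' S.q S.cq S.cq' (by omega) (A.trans (at_sub ho)) (A'.trans (at_sub ho'))
    (sub_length ho) (sub_length ho') c.1 c.2

theorem blkU (S : Sit N W W' E E' Q) (A : At W B C) (A' : At W' B C') (o : ℕ) (hB : 0 < B + o)
    (ho : o + 20 ≤ C.length) (ho' : o + 20 ≤ C'.length)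
    (c : (tokB (sub C o 20) wUM && tokB (sub C' o 20) wUP) = true) :
    ¬ (PV E (B + o) 20 4 5 ∧ PV E' (B + o) 20 16 17) := by
  rw [Bool.and_eq_true] at c
  exact U_excl S.pg S.pg' S.q S.cq S.cq' (by omega) (A.trans (at_sub ho)) (A'.trans (at_sub ho'))
    (sub_length ho) (sub_length ho') c.1 c.2

theorem blkY (S : Sit N W W' E E' Q) (A : At W B C) (A' : At W' B C') (o : ℕ) (hB : 0 < B + o)
    (ho : o + 6 ≤ C.length) (ho' : o + 6 ≤ C'.length)
    (c : (tokB (sub C o 6) wYM && tokB (sub C' o 6) wYP) = true) : Anch E (B + o) := by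
  rw [Bool.and_eq_true] at c
  exact Y_anchor S.pg S.pg' S.q S.cq S.cq' (by omega) (A.trans (at_sub ho)) (A'.trans (at_sub ho'))
    (sub_length ho) (sub_length ho') c.1 c.2

theorem At.arcB {i j p q : ℕ} (A : At W B C) (h : D3.arcB C i j = true) (hp : p = B + i) (hq : q = B + j) :
    Arc W p q := by
  subst hp hq
  exact A.arc (arcB_sound h)

/-- the anchor at `oY` of the block and its face with the ports at `o1`, `o3` (to be evaluated) -/
def face3B (C C' : List Bool) (o1 x1 y1 oY o3 x3 y3 : ℕ) : Bool :=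
  tokB (sub C oY 6) wYM && tokB (sub C' oY 6) wYP && arcB C (o1 + y1) oY && arcB C (oY + 5) (o3 + x3) &&
    arcB C (o1 + x1) (o3 + y3) &&
    decide (o1 + 20 ≤ oY ∧ oY + 6 ≤ o3 ∧ x1 ≤ y1 ∧ x3 ≤ y3)

theorem blk3 (S : Sit N W W' E E' Q) (A : At W B C) (A' : At W' B C')
    (o1 x1 y1 oY o3 x3 y3 : ℕ) (hB : 0 < B + oY) (ho : oY + 6 ≤ C.length) (ho' : oY + 6 ≤ C'.length)
    (c : face3B C C' o1 x1 y1 oY o3 x3 y3 = true) :
    PV E (B + o1) 20 x1 y1 ∨ PV E (B + o3) 20 x3 y3 := by
  unfold face3B at c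
  rw [Bool.and_eq_true, Bool.and_eq_true, Bool.and_eq_true, Bool.and_eq_true, Bool.and_eq_true,
    decide_eq_true_iff] at c
  obtain ⟨⟨⟨⟨⟨c1, c2⟩, c3⟩, c4⟩, c5⟩, c6⟩ := c
  exact face3 S.pg (blkY S A A' oY hB ho ho' (by rw [c1, c2]; rfl)) (A.arcB c3 (by omega) rfl)
    (A.arcB c4 (by omega) (by omega)) (A.arcB c5 (by omega) (by omega)) (by omega) (by omega) c6.2.2.1 c6.2.2.2

def face5B (C C' : List Bool) (o1 x1 y1 oY o3 x3 y3 o4 x4 y4 o5 x5 y5 : ℕ) : Bool :=
  tokB (sub C oY 6) wYM && tokB (sub C' oY 6) wYP && arcB C (o1 + y1) oY && arcB C (oY + 5) (o3 + x3) &&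
    arcB C (o3 + y3) (o4 + x4) && arcB C (o4 + y4) (o5 + x5) && arcB C (o1 + x1) (o5 + y5) &&
    decide (o1 + 20 ≤ oY ∧ oY + 6 ≤ o3 ∧ o3 + 20 ≤ o4 ∧ o4 + 20 ≤ o5 ∧ x1 ≤ y1 ∧ x3 ≤ y3 ∧ x4 ≤ y4 ∧ x5 ≤ y5)

theorem blk5 (S : Sit N W W' E E' Q) (A : At W B C) (A' : At W' B C')
    (o1 x1 y1 oY o3 x3 y3 o4 x4 y4 o5 x5 y5 : ℕ) (hB : 0 < B + oY) (ho : oY + 6 ≤ C.length) (ho' : oY + 6 ≤ C'.length)
    (c : face5B C C' o1 x1 y1 oY o3 x3 y3 o4 x4 y4 o5 x5 y5 = true) :
    PV E (B + o1) 20 x1 y1 ∨ PV E (B + o3) 20 x3 y3 ∨ PV E (B + o4) 20 x4 y4 ∨ PV E (B + o5) 20 x5 y5 := by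
  unfold face5B at c
  rw [Bool.and_eq_true, Bool.and_eq_true, Bool.and_eq_true, Bool.and_eq_true, Bool.and_eq_true,
    Bool.and_eq_true, Bool.and_eq_true, decide_eq_true_iff] at c
  obtain ⟨⟨⟨⟨⟨⟨⟨c1, c2⟩, c3⟩, c4⟩, c5⟩, c6⟩, c7⟩, c8⟩ := c
  exact face5 S.pg (blkY S A A' oY hB ho ho' (by rw [c1, c2]; rfl)) (A.arcB c3 (by omega) rfl)
    (A.arcB c4 (by omega) (by omega)) (A.arcB c5 (by omega) (by omega)) (A.arcB c6 (by omega) (by omega))
    (A.arcB c7 (by omega) (by omega)) (by omega) (by omega) (by omega) (by omega)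
    c8.2.2.2.2.1 c8.2.2.2.2.2.1 c8.2.2.2.2.2.2.1 c8.2.2.2.2.2.2.2

/-! ### The logic -/

theorem logic_uw {am bm cm dm as' bs cs ds uam uas ubm ubs ta2 tas tb1 tbs tc2 tcs td1 tds U1 U2 U W1 W2 W : Prop}
    (c0 : am ∨ dm ∨ cm ∨ bm) (na : ¬ (am ∧ as')) (nb : ¬ (bm ∧ bs)) (nc : ¬ (cm ∧ cs)) (nd : ¬ (dm ∧ ds))
    (nta : ta2 → ¬ tas) (ntb : tb1 → ¬ tbs) (ntc : tc2 → ¬ tcs) (ntd : td1 → ¬ tds)
    (fa : as' ∨ tas) (fb : bs ∨ tbs) (fc : cs ∨ tcs) (fd : ds ∨ tds)
    (nua : ¬ (uam ∧ uas)) (nub : ¬ (ubm ∧ ubs)) (f1 : ubm ∨ tb1) (f2 : ta2 ∨ uam)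
    (f3 : U2 ∨ ubs) (f4 : U1 ∨ uas) (nU : ¬ ((U1 ∨ U2) ∧ U)) (f5 : tc2 ∨ W2) (f6 : td1 ∨ W1)
    (nW : ¬ ((W1 ∨ W2) ∧ W)) : ¬ (U ∧ W) := by
  rintro ⟨hU, hW⟩
  have u1 : ¬ U1 := fun h => nU ⟨Or.inl h, hU⟩
  have u2 : ¬ U2 := fun h => nU ⟨Or.inr h, hU⟩
  have w1 : ¬ W1 := fun h => nW ⟨Or.inl h, hW⟩
  have w2 : ¬ W2 := fun h => nW ⟨Or.inr h, hW⟩
  have e1 := f3.resolve_left u2
  have e2 := f4.resolve_left u1
  have e3 := f1.resolve_left fun h => nub ⟨h, e1⟩
  have e4 := f2.resolve_right fun h => nua ⟨h, e2⟩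
  have e5 := fa.resolve_right (nta e4)
  have e6 := fb.resolve_right (ntb e3)
  have e7 := fc.resolve_right (ntc (f5.resolve_right w2))
  have e8 := fd.resolve_right (ntd (f6.resolve_right w1))
  rcases c0 with h | h | h | h
  · exact na ⟨h, e5⟩
  · exact nd ⟨h, e8⟩
  · exact nc ⟨h, e7⟩
  · exact nb ⟨h, e6⟩

theorem logic_lr {am bm cm dm bs cs ds tb2 tbs tc1 tcs td2 tds L1 L2 L R1 R2 R : Prop}
    (c0 : am ∨ dm ∨ cm ∨ bm) (nb : ¬ (bm ∧ bs)) (nc : ¬ (cm ∧ cs)) (nd : ¬ (dm ∧ ds))
    (ntb : tb2 → ¬ tbs) (ntc : tc1 → ¬ tcs) (ntd : td2 → ¬ tds)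
    (fb : bs ∨ tbs) (fc : cs ∨ tcs) (fd : ds ∨ tds)
    (f1 : tb2 ∨ R2) (f2 : tc1 ∨ R1) (nR : ¬ ((R1 ∨ R2) ∧ R)) (f3 : td2 ∨ L2)
    (nL : ¬ ((L1 ∨ L2) ∧ L)) (ha : L → ¬ am) : ¬ (L ∧ R) := by
  rintro ⟨hL, hR⟩
  have r1 : ¬ R1 := fun h => nR ⟨Or.inl h, hR⟩
  have r2 : ¬ R2 := fun h => nR ⟨Or.inr h, hR⟩
  have l2 : ¬ L2 := fun h => nL ⟨Or.inr h, hL⟩
  have e6 := fb.resolve_right (ntb (f1.resolve_right r2))
  have e7 := fc.resolve_right (ntc (f2.resolve_right r1))
  have e8 := fd.resolve_right (ntd (f3.resolve_right l2))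
  rcases c0 with h | h | h | h
  · exact ha hL h
  · exact nd ⟨h, e8⟩
  · exact nc ⟨h, e7⟩
  · exact nb ⟨h, e6⟩


theorem ck_x_yU : (tokB (sub (cellW true false) 6 20) wAM && tokB (sub (cellW false false) 6 20) wAP) = true := by decide +kernel
theorem ck_x_aUb : (tokB (sub (cellW false false) 40 20) wUM && tokB (sub (cellW true false) 40 20) wUP) = true := by decide +kernel
theorem ck_x_a : (tokB (sub (cellW false false) 74 20) wUM && tokB (sub (cellW true false) 74 20) wUP) = true := by decide +kernel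
theorem ck_x_d : (tokB (sub (cellW false false) 116 20) wUM && tokB (sub (cellW true false) 116 20) wUP) = true := by decide +kernel
theorem ck_x_c : (tokB (sub (cellW false false) 150 20) wUM && tokB (sub (cellW true false) 150 20) wUP) = true := by decide +kernel
theorem ck_x_b : (tokB (sub (cellW false false) 184 20) wUM && tokB (sub (cellW true false) 184 20) wUP) = true := by decide +kernel
theorem ck_x_tb : (tokB (sub (cellW false false) 222 20) wAM && tokB (sub (cellW true false) 222 20) wAP) = true := by decide +kernel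
theorem ck_x_tc : (tokB (sub (cellW false false) 260 20) wAM && tokB (sub (cellW true false) 260 20) wAP) = true := by decide +kernel
theorem ck_x_td : (tokB (sub (cellW false false) 298 20) wAM && tokB (sub (cellW true false) 298 20) wAP) = true := by decide +kernel
theorem ck_x_ta : (tokB (sub (cellW false false) 336 20) wAM && tokB (sub (cellW true false) 336 20) wAP) = true := by decide +kernel
theorem ck_x_aUa : (tokB (sub (cellW false false) 378 20) wUM && tokB (sub (cellW true false) 378 20) wUP) = true := by decide +kernel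
theorem ck_x_yL : (tokB (sub (cellW false false) 416 20) wAM && tokB (sub (cellW true false) 416 20) wAP) = true := by decide +kernel
theorem ck_x_yW : (tokB (sub (cellW false false) 454 20) wAM && tokB (sub (cellW true false) 454 20) wAP) = true := by decide +kernel
theorem ck_x_yR : (tokB (sub (cellW false false) 500 20) wAM && tokB (sub (cellW true false) 500 20) wAP) = true := by decide +kernel
theorem cf_x_0_66 : face3B (cellW false false) (cellW true false) 40 4 5 66 222 12 15 = true := by decide +kernel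
theorem cf_x_0_108 : face5B (cellW false false) (cellW true false) 74 4 5 108 116 4 5 150 4 5 184 4 5 = true := by decide +kernel
theorem cf_x_0_248 : face3B (cellW false false) (cellW true false) 222 16 17 248 500 16 17 = true := by decide +kernel
theorem cf_x_0_286 : face3B (cellW false false) (cellW true false) 260 16 17 286 454 16 17 = true := by decide +kernel
theorem cf_x_0_324 : face3B (cellW false false) (cellW true false) 298 16 17 324 416 16 17 = true := by decide +kernel
theorem cf_x_0_362 : face3B (cellW false false) (cellW true false) 336 16 17 362 378 4 5 = true := by decide +kernel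
theorem cf_x_0_404 : face3B (cellW false false) (cellW true false) 336 12 15 404 416 12 15 = true := by decide +kernel
theorem cf_x_0_442 : face3B (cellW false false) (cellW true false) 298 12 15 442 454 12 15 = true := by decide +kernel
theorem cf_x_0_488 : face3B (cellW false false) (cellW true false) 260 12 15 488 500 12 15 = true := by decide +kernel
theorem cf_x_1_32 : face3B (cellW true false) (cellW false false) 6 16 17 32 40 16 17 = true := by decide +kernel
theorem cf_x_1_100 : face3B (cellW true false) (cellW false false) 74 16 17 100 336 2 3 = true := by decide +kernel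
theorem cf_x_1_142 : face3B (cellW true false) (cellW false false) 116 16 17 142 298 2 3 = true := by decide +kernel
theorem cf_x_1_176 : face3B (cellW true false) (cellW false false) 150 16 17 176 260 2 3 = true := by decide +kernel
theorem cf_x_1_210 : face3B (cellW true false) (cellW false false) 184 16 17 210 222 2 3 = true := by decide +kernel
theorem cf_x_1_370 : face3B (cellW true false) (cellW false false) 6 12 15 370 378 16 17 = true := by decide +kernel

/-- ports of a cell at `B`: `u` is the window `B + 6` of the role-0 page, `w` is `B + 454`, `l` is `B + 416`,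
`r` is `B + 500` of the role-1 page -/
theorem cell_x (S : Sit N W W' E E' Q) (hB : 0 < B) (A : At W B (cellW false false)) (A' : At W' B (cellW true false)) :
    ¬ (PV E (B + 6) 20 2 3 ∧ PV E' (B + 454) 20 2 3) ∧
      ¬ (PV E' (B + 416) 20 2 3 ∧ PV E' (B + 500) 20 2 3) := by
  have w_yU := blkA S.swap A' A 6 (by omega) (by simp) (by simp) ck_x_yU
  have w_aUb := blkU S A A' 40 (by omega) (by simp) (by simp) ck_x_aUb
  have w_a := blkU S A A' 74 (by omega) (by simp) (by simp) ck_x_a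
  have w_d := blkU S A A' 116 (by omega) (by simp) (by simp) ck_x_d
  have w_c := blkU S A A' 150 (by omega) (by simp) (by simp) ck_x_c
  have w_b := blkU S A A' 184 (by omega) (by simp) (by simp) ck_x_b
  have w_tb := blkA S A A' 222 (by omega) (by simp) (by simp) ck_x_tb
  have w_tc := blkA S A A' 260 (by omega) (by simp) (by simp) ck_x_tc
  have w_td := blkA S A A' 298 (by omega) (by simp) (by simp) ck_x_td
  have w_ta := blkA S A A' 336 (by omega) (by simp) (by simp) ck_x_ta
  have w_aUa := blkU S A A' 378 (by omega) (by simp) (by simp) ck_x_aUa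
  have w_yL := blkA S A A' 416 (by omega) (by simp) (by simp) ck_x_yL
  have w_yW := blkA S A A' 454 (by omega) (by simp) (by simp) ck_x_yW
  have w_yR := blkA S A A' 500 (by omega) (by simp) (by simp) ck_x_yR
  have f0_66 := blk3 S A A' 40 4 5 66 222 12 15 (by omega) (by simp) (by simp) cf_x_0_66
  have f0_108 := blk5 S A A' 74 4 5 108 116 4 5 150 4 5 184 4 5 (by omega) (by simp) (by simp) cf_x_0_108
  have f0_248 := blk3 S A A' 222 16 17 248 500 16 17 (by omega) (by simp) (by simp) cf_x_0_248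
  have f0_286 := blk3 S A A' 260 16 17 286 454 16 17 (by omega) (by simp) (by simp) cf_x_0_286
  have f0_324 := blk3 S A A' 298 16 17 324 416 16 17 (by omega) (by simp) (by simp) cf_x_0_324
  have f0_362 := blk3 S A A' 336 16 17 362 378 4 5 (by omega) (by simp) (by simp) cf_x_0_362
  have f0_404 := blk3 S A A' 336 12 15 404 416 12 15 (by omega) (by simp) (by simp) cf_x_0_404
  have f0_442 := blk3 S A A' 298 12 15 442 454 12 15 (by omega) (by simp) (by simp) cf_x_0_442
  have f0_488 := blk3 S A A' 260 12 15 488 500 12 15 (by omega) (by simp) (by simp) cf_x_0_488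
  have f1_32 := blk3 S.swap A' A 6 16 17 32 40 16 17 (by omega) (by simp) (by simp) cf_x_1_32
  have f1_100 := blk3 S.swap A' A 74 16 17 100 336 2 3 (by omega) (by simp) (by simp) cf_x_1_100
  have f1_142 := blk3 S.swap A' A 116 16 17 142 298 2 3 (by omega) (by simp) (by simp) cf_x_1_142
  have f1_176 := blk3 S.swap A' A 150 16 17 176 260 2 3 (by omega) (by simp) (by simp) cf_x_1_176
  have f1_210 := blk3 S.swap A' A 184 16 17 210 222 2 3 (by omega) (by simp) (by simp) cf_x_1_210
  have f1_370 := blk3 S.swap A' A 6 12 15 370 378 16 17 (by omega) (by simp) (by simp) cf_x_1_370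
  refine ⟨logic_uw f0_108 w_a w_b w_c w_d (fun h h' => w_ta ⟨Or.inr h, h'⟩) (fun h h' => w_tb ⟨Or.inl h, h'⟩)
    (fun h h' => w_tc ⟨Or.inr h, h'⟩) (fun h h' => w_td ⟨Or.inl h, h'⟩) f1_100 f1_210
    f1_176 f1_142 w_aUa w_aUb f0_66 f0_362
    f1_32 f1_370 w_yU f0_286 f0_442 w_yW, ?_⟩
  refine logic_lr f0_108 w_b w_c w_d (fun h h' => w_tb ⟨Or.inr h, h'⟩)
    (fun h h' => w_tc ⟨Or.inl h, h'⟩) (fun h h' => w_td ⟨Or.inr h, h'⟩) f1_210
    f1_176 f1_142 f0_248 f0_488 w_yR f0_324 w_yL ?_
  intro hL ha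
  have e1 := f0_404.resolve_right fun h => w_yL ⟨Or.inl h, hL⟩
  have e2 := f1_100.resolve_right fun h => w_ta ⟨Or.inl e1, h⟩
  exact w_a ⟨ha, e2⟩

theorem ck_o_yU : (tokB (sub (cellW true true) 6 20) wAM && tokB (sub (cellW false true) 6 20) wAP) = true := by decide +kernel
theorem ck_o_aUb : (tokB (sub (cellW false true) 40 20) wUM && tokB (sub (cellW true true) 40 20) wUP) = true := by decide +kernel
theorem ck_o_a : (tokB (sub (cellW false true) 74 20) wUM && tokB (sub (cellW true true) 74 20) wUP) = true := by decide +kernel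
theorem ck_o_d : (tokB (sub (cellW false true) 116 20) wUM && tokB (sub (cellW true true) 116 20) wUP) = true := by decide +kernel
theorem ck_o_c : (tokB (sub (cellW false true) 150 20) wUM && tokB (sub (cellW true true) 150 20) wUP) = true := by decide +kernel
theorem ck_o_b : (tokB (sub (cellW false true) 184 20) wUM && tokB (sub (cellW true true) 184 20) wUP) = true := by decide +kernel
theorem ck_o_tb : (tokB (sub (cellW false true) 222 20) wAM && tokB (sub (cellW true true) 222 20) wAP) = true := by decide +kernel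
theorem ck_o_tc : (tokB (sub (cellW false true) 260 20) wAM && tokB (sub (cellW true true) 260 20) wAP) = true := by decide +kernel
theorem ck_o_td : (tokB (sub (cellW false true) 298 20) wAM && tokB (sub (cellW true true) 298 20) wAP) = true := by decide +kernel
theorem ck_o_ta : (tokB (sub (cellW false true) 340 20) wAM && tokB (sub (cellW true true) 340 20) wAP) = true := by decide +kernel
theorem ck_o_aUa : (tokB (sub (cellW false true) 382 20) wUM && tokB (sub (cellW true true) 382 20) wUP) = true := by decide +kernel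
theorem ck_o_yL : (tokB (sub (cellW false true) 416 20) wAM && tokB (sub (cellW true true) 416 20) wAP) = true := by decide +kernel
theorem ck_o_yW : (tokB (sub (cellW false true) 454 20) wAM && tokB (sub (cellW true true) 454 20) wAP) = true := by decide +kernel
theorem ck_o_yR : (tokB (sub (cellW false true) 500 20) wAM && tokB (sub (cellW true true) 500 20) wAP) = true := by decide +kernel
theorem cf_o_0_66 : face3B (cellW false true) (cellW true true) 40 4 5 66 222 12 15 = true := by decide +kernel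
theorem cf_o_0_108 : face5B (cellW false true) (cellW true true) 74 4 5 108 116 4 5 150 4 5 184 4 5 = true := by decide +kernel
theorem cf_o_0_248 : face3B (cellW false true) (cellW true true) 222 16 17 248 500 16 17 = true := by decide +kernel
theorem cf_o_0_286 : face3B (cellW false true) (cellW true true) 260 16 17 286 454 16 17 = true := by decide +kernel
theorem cf_o_0_324 : face3B (cellW false true) (cellW true true) 298 16 17 324 416 16 17 = true := by decide +kernel
theorem cf_o_0_366 : face3B (cellW false true) (cellW true true) 340 16 17 366 382 4 5 = true := by decide +kernel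
theorem cf_o_0_442 : face3B (cellW false true) (cellW true true) 298 12 15 442 454 12 15 = true := by decide +kernel
theorem cf_o_0_488 : face3B (cellW false true) (cellW true true) 260 12 15 488 500 12 15 = true := by decide +kernel
theorem cf_o_1_32 : face3B (cellW true true) (cellW false true) 6 16 17 32 40 16 17 = true := by decide +kernel
theorem cf_o_1_100 : face3B (cellW true true) (cellW false true) 74 16 17 100 340 2 3 = true := by decide +kernel
theorem cf_o_1_142 : face3B (cellW true true) (cellW false true) 116 16 17 142 298 2 3 = true := by decide +kernel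
theorem cf_o_1_176 : face3B (cellW true true) (cellW false true) 150 16 17 176 260 2 3 = true := by decide +kernel
theorem cf_o_1_210 : face3B (cellW true true) (cellW false true) 184 16 17 210 222 2 3 = true := by decide +kernel
theorem cf_o_1_374 : face3B (cellW true true) (cellW false true) 6 12 15 374 382 16 17 = true := by decide +kernel

/-- ports of a cell at `B`: `u` is the window `B + 6` of the role-0 page, `w` is `B + 454`, `l` is `B + 416`,
`r` is `B + 500` of the role-1 page -/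
theorem cell_o (S : Sit N W W' E E' Q) (hB : 0 < B) (A : At W B (cellW false true)) (A' : At W' B (cellW true true)) :
    ¬ (PV E (B + 6) 20 2 3 ∧ PV E' (B + 454) 20 2 3) ∧
      ¬ (PV E (B + 6) 20 2 3 ∧ PV E' (B + 416) 20 2 3 ∧ PV E' (B + 500) 20 2 3) := by
  have w_yU := blkA S.swap A' A 6 (by omega) (by simp) (by simp) ck_o_yU
  have w_aUb := blkU S A A' 40 (by omega) (by simp) (by simp) ck_o_aUb
  have w_a := blkU S A A' 74 (by omega) (by simp) (by simp) ck_o_a
  have w_d := blkU S A A' 116 (by omega) (by simp) (by simp) ck_o_d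
  have w_c := blkU S A A' 150 (by omega) (by simp) (by simp) ck_o_c
  have w_b := blkU S A A' 184 (by omega) (by simp) (by simp) ck_o_b
  have w_tb := blkA S A A' 222 (by omega) (by simp) (by simp) ck_o_tb
  have w_tc := blkA S A A' 260 (by omega) (by simp) (by simp) ck_o_tc
  have w_td := blkA S A A' 298 (by omega) (by simp) (by simp) ck_o_td
  have w_ta := blkA S A A' 340 (by omega) (by simp) (by simp) ck_o_ta
  have w_aUa := blkU S A A' 382 (by omega) (by simp) (by simp) ck_o_aUa
  have w_yL := blkA S A A' 416 (by omega) (by simp) (by simp) ck_o_yL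
  have w_yW := blkA S A A' 454 (by omega) (by simp) (by simp) ck_o_yW
  have w_yR := blkA S A A' 500 (by omega) (by simp) (by simp) ck_o_yR
  have f0_66 := blk3 S A A' 40 4 5 66 222 12 15 (by omega) (by simp) (by simp) cf_o_0_66
  have f0_108 := blk5 S A A' 74 4 5 108 116 4 5 150 4 5 184 4 5 (by omega) (by simp) (by simp) cf_o_0_108
  have f0_248 := blk3 S A A' 222 16 17 248 500 16 17 (by omega) (by simp) (by simp) cf_o_0_248
  have f0_286 := blk3 S A A' 260 16 17 286 454 16 17 (by omega) (by simp) (by simp) cf_o_0_286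
  have f0_324 := blk3 S A A' 298 16 17 324 416 16 17 (by omega) (by simp) (by simp) cf_o_0_324
  have f0_366 := blk3 S A A' 340 16 17 366 382 4 5 (by omega) (by simp) (by simp) cf_o_0_366
  have f0_442 := blk3 S A A' 298 12 15 442 454 12 15 (by omega) (by simp) (by simp) cf_o_0_442
  have f0_488 := blk3 S A A' 260 12 15 488 500 12 15 (by omega) (by simp) (by simp) cf_o_0_488
  have f1_32 := blk3 S.swap A' A 6 16 17 32 40 16 17 (by omega) (by simp) (by simp) cf_o_1_32
  have f1_100 := blk3 S.swap A' A 74 16 17 100 340 2 3 (by omega) (by simp) (by simp) cf_o_1_100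
  have f1_142 := blk3 S.swap A' A 116 16 17 142 298 2 3 (by omega) (by simp) (by simp) cf_o_1_142
  have f1_176 := blk3 S.swap A' A 150 16 17 176 260 2 3 (by omega) (by simp) (by simp) cf_o_1_176
  have f1_210 := blk3 S.swap A' A 184 16 17 210 222 2 3 (by omega) (by simp) (by simp) cf_o_1_210
  have f1_374 := blk3 S.swap A' A 6 12 15 374 382 16 17 (by omega) (by simp) (by simp) cf_o_1_374
  refine ⟨logic_uw f0_108 w_a w_b w_c w_d (fun h h' => w_ta ⟨Or.inr h, h'⟩) (fun h h' => w_tb ⟨Or.inl h, h'⟩)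
    (fun h h' => w_tc ⟨Or.inr h, h'⟩) (fun h h' => w_td ⟨Or.inl h, h'⟩) f1_100 f1_210
    f1_176 f1_142 w_aUa w_aUb f0_66 f0_366
    f1_32 f1_374 w_yU f0_286 f0_442 w_yW, ?_⟩
  rintro ⟨hU, hL, hR⟩
  refine (logic_lr f0_108 w_b w_c w_d (fun h h' => w_tb ⟨Or.inr h, h'⟩)
    (fun h h' => w_tc ⟨Or.inl h, h'⟩) (fun h h' => w_td ⟨Or.inr h, h'⟩) f1_210
    f1_176 f1_142 f0_248 f0_488 w_yR f0_324 w_yL ?_) ⟨hL, hR⟩
  intro _ ha
  have e0 := f1_374.resolve_left fun h => w_yU ⟨Or.inl h, hU⟩
  have e1 := f0_366.resolve_right fun h => w_aUa ⟨h, e0⟩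
  have e2 := f1_100.resolve_right fun h => w_ta ⟨Or.inr e1, h⟩
  exact w_a ⟨ha, e2⟩

end Pool.Agent.D3
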