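import Pool.Agent.Lib.H50D3.Base

/-!
# Distance 3: a linear-time checker of derivation certificates

`chk_sound : chk X t = true → BC X`. The shape `t` of a derivation is stored as a number, see `dec`.
All functions use structural recursion and continuations, so that the kernel evaluates them fast.
-/

set_option autoImplicit false

namespace Pool.Agent.D3

/-- shapes of derivations: leaf, concatenation, edge -/
inductive Tr
  | l
  | c (a b : Tr)
  | e (a b : Tr)

/-! ### Decoding -/

/-- reads the lowest `n` bits of `c`, most significant bit first; the tokens (`none` is a leaf,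
`some false` a concatenation, `some true` an edge) are collected in reverse order -/
def toks (c : ℕ) : ℕ → Bool → List (Option Bool) → List (Option Bool)
  | 0, _, acc => acc
  | n + 1, false, acc => cond (Nat.testBit c n) (toks c n true acc) (toks c n false (none :: acc))
  | n + 1, true, acc => cond (Nat.testBit c n) (toks c n false (some true :: acc))
      (toks c n false (some false :: acc))

/-- builds the tree from the reversed tokens, with a stack -/
def bld : List (Option Bool) → List Tr → List Tr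
  | [], st => st
  | none :: r, st => bld r (Tr.l :: st)
  | some false :: r, a :: b :: st => bld r (Tr.c a b :: st)
  | some true :: r, a :: b :: st => bld r (Tr.e a b :: st)
  | _ :: r, st => bld r st

/-- prefix code, most significant bit first after a leading `1`: leaf `0`, concatenation `10`,
edge `11` -/
def dec (n : ℕ) : Tr :=
  match bld (toks n (Nat.log2 n) false []) [] with
  | t :: _ => t
  | [] => Tr.l

/-! ### The checker -/

/-- forces the evaluation of a number -/
def frc (n : ℕ) (k : ℕ → Bool) : Bool :=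
  match n with
  | 0 => k 0
  | m + 1 => k (m + 1)

theorem frc_eq (n : ℕ) (k : ℕ → Bool) : frc n k = k n := by
  cases n <;> rfl

/-- minimum -/
def mn (a b : ℕ) : ℕ := cond (Nat.ble a b) a b

theorem mn_eq (a b : ℕ) : mn a b = min a b := by
  unfold mn
  by_cases h : a ≤ b
  · rw [Nat.ble_eq_true_of_le h, min_eq_left h]; rfl
  · have : Nat.ble a b = false := by
      rw [← Bool.not_eq_true, Nat.ble_eq]; exact h
    rw [this, min_eq_right (by omega)]; rfl

/-- the test for `Al`: `a, a'` heights at `i, i + 1`; `b, b'` heights at `j, j + 1`; `m` the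
minimum of the heights between -/
def alb (a a' b b' m : ℕ) : Bool :=
  cond (cond (Nat.ble a m) true (Nat.ble a' m))
    (cond (cond (Nat.ble b m) true (Nat.ble b' m)) (cond (Nat.beq a b') (Nat.ble m a) true) false)
    false

theorem alb_iff {a a' b b' m : ℕ} (h : alb a a' b b' m = true) :
    min a a' ≤ m ∧ min b b' ≤ m ∧ ¬ (a = b' ∧ a < m) := by
  unfold alb at h
  cases h1 : Nat.ble a m <;> cases h2 : Nat.ble a' m <;> cases h3 : Nat.ble b m <;>
    cases h4 : Nat.ble b' m <;> cases h5 : Nat.beq a b' <;> cases h6 : Nat.ble m a <;>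
    simp only [h1, h2, h3, h4, h5, h6, cond_true, cond_false, Bool.false_eq_true] at h <;>
    (first
      | rw [← Bool.not_eq_true, Nat.ble_eq] at h1
      | rw [Nat.ble_eq] at h1) <;>
    (first
      | rw [← Bool.not_eq_true, Nat.ble_eq] at h2
      | rw [Nat.ble_eq] at h2) <;>
    (first
      | rw [← Bool.not_eq_true, Nat.ble_eq] at h3
      | rw [Nat.ble_eq] at h3) <;>
    (first
      | rw [← Bool.not_eq_true, Nat.ble_eq] at h4
      | rw [Nat.ble_eq] at h4) <;>
    (first
      | rw [← Bool.not_eq_true, Nat.beq_eq] at h5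
      | rw [Nat.beq_eq] at h5) <;>
    (first
      | rw [← Bool.not_eq_true, Nat.ble_eq] at h6
      | rw [Nat.ble_eq] at h6) <;>
    refine ⟨?_, ?_, ?_⟩ <;> omega

/-- Walks through a derivation of shape `t` starting at the vertex which is the head of `L`. The
continuation receives the minima of the two heights over `(i, j]` (`1000` if empty) and the rest
of the list of heights from the vertex `j` on. -/
def run : Tr → List (ℕ × ℕ) → (ℕ → ℕ → List (ℕ × ℕ) → Bool) → Bool
  | Tr.l, L, k => k 1000 1000 L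
  | Tr.c a b, L, k => run a L fun m n L1 => run b L1 fun m' n' L2 =>
      frc (mn m m') fun x => frc (mn n n') fun y => k x y L2
  | Tr.e a b, L, k => run a L fun m n L1 =>
      match L1 with
      | [] => false
      | _ :: T => run b T fun m' n' L2 =>
        match L, T, L2 with
        | (hi, gi) :: (hi1, gi1) :: _, (hk, gk) :: _, (hj, gj) :: (hj1, gj1) :: _ =>
          frc (mn m (mn hk m')) fun x => frc (mn n (mn gk n')) fun y =>
            cond (alb hi hi1 hj hj1 x) (cond (alb gi gi1 gj gj1 y) (k x y L2) false) false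
        | _, _, _ => false

/-- adds a letter to a height; fails if the result is negative or larger than `1000` -/
def stp (a : ℕ) (z : ℤ) (k : ℕ → Bool) : Bool :=
  match z with
  | Int.ofNat n => cond (Nat.ble (a + n) 1000) (frc (a + n) k) false
  | Int.negSucc n => cond (Nat.ble (n + 1) a) (frc (a - (n + 1)) k) false

/-- the list of heights -/
def hts : List (ℤ × ℤ) → ℕ → ℕ → (List (ℕ × ℕ) → Bool) → Bool
  | [], a, b, k => cond (Nat.beq a 0) (cond (Nat.beq b 0) (k [(a, b)]) false) false
  | (x, y) :: X, a, b, k => stp a x fun a' => stp b y fun b' => hts X a' b' fun L =>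
      k ((a, b) :: L)

/-- the checker -/
def chk (X : List (ℤ × ℤ)) (t : Tr) : Bool :=
  hts X 0 0 fun L => run t L fun _ _ R =>
    match R with
    | [_, _] => true
    | _ => false

/-! ### Soundness -/

theorem stp_sound {a : ℕ} (ha : a ≤ 1000) {z : ℤ} {k : ℕ → Bool} (h : stp a z k = true) :
    ∃ b : ℕ, (b : ℤ) = a + z ∧ b ≤ 1000 ∧ k b = true := by
  unfold stp at h
  rcases z with n | n
  · simp only [frc_eq] at h
    cases h1 : Nat.ble (a + n) 1000
    · rw [h1] at h; simp at h
    · rw [h1] at h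
      rw [Nat.ble_eq] at h1
      exact ⟨a + n, by simp, h1, h⟩
  · simp only [frc_eq] at h
    cases h1 : Nat.ble (n + 1) a
    · rw [h1] at h; simp at h
    · rw [h1] at h
      rw [Nat.ble_eq] at h1
      exact ⟨a - (n + 1), by rw [Nat.cast_sub h1]; simp [Int.negSucc_eq]; ring, by omega, h⟩

theorem hts_sound {X : List (ℤ × ℤ)} : ∀ {a b : ℕ}, a ≤ 1000 → b ≤ 1000 →
    ∀ {k : List (ℕ × ℕ) → Bool}, hts X a b k = true →
    ∃ L : List (ℕ × ℕ), L.length = X.length + 1 ∧ (∀ t p, L[t]? = some p →
      (p.1 : ℤ) = a + h1 X t ∧ (p.2 : ℤ) = b + h2 X t ∧ p.1 ≤ 1000 ∧ p.2 ≤ 1000) ∧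
      (a : ℤ) + h1 X X.length = 0 ∧ (b : ℤ) + h2 X X.length = 0 ∧ k L = true := by
  induction X with
  | nil =>
    intro a b ha hb k h
    unfold hts at h
    cases e1 : Nat.beq a 0
    · rw [e1] at h; simp at h
    cases e2 : Nat.beq b 0
    · rw [e1, e2] at h; simp at h
    rw [e1, e2] at h
    rw [Nat.beq_eq] at e1 e2
    subst e1
    subst e2
    refine ⟨[(0, 0)], rfl, ?_, by simp [h1], by simp [h2], h⟩
    intro t p hp
    rcases t with _ | t
    · simp only [List.length_cons, List.length_nil, Nat.zero_add, zero_lt_one,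
        List.getElem?_eq_getElem, List.getElem_cons_zero, Option.some.injEq] at hp
      subst hp
      simp [h1, h2]
    · simp at hp
  | cons x X ih =>
    obtain ⟨x, y⟩ := x
    intro a b ha hb k h
    unfold hts at h
    obtain ⟨a', ea, ha', h⟩ := stp_sound ha h
    obtain ⟨b', eb, hb', h⟩ := stp_sound hb h
    obtain ⟨L, l1, l2, l3, l4, l5⟩ := ih ha' hb' h
    have s1 : ∀ t, h1 ((x, y) :: X) (t + 1) = x + h1 X t := fun t => by
      simp [h1]
    have s2 : ∀ t, h2 ((x, y) :: X) (t + 1) = y + h2 X t := fun t => by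
      simp [h2]
    refine ⟨(a, b) :: L, by simp [l1], ?_, ?_, ?_, l5⟩
    · intro t p hp
      rcases t with _ | t
      · simp only [List.getElem?_cons_zero, Option.some.injEq] at hp
        subst hp
        simp [h1, h2, ha, hb]
      · rw [List.getElem?_cons_succ] at hp
        obtain ⟨q1, q2, q3, q4⟩ := l2 t p hp
        rw [s1, s2]
        exact ⟨by rw [q1, ea]; ring, by rw [q2, eb]; ring, q3, q4⟩
    · rw [List.length_cons, s1]
      rw [ea] at l3
      linarith
    · rw [List.length_cons, s2]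
      rw [eb] at l4
      linarith

theorem drop_cons {α : Type} {H : List α} {i : ℕ} {p : α} {T : List α} (h : H.drop i = p :: T) :
    H[i]? = some p ∧ H.drop (i + 1) = T := by
  constructor
  · have := List.getElem?_drop (xs := H) (i := i) (j := 0)
    rw [h, add_zero] at this
    rw [← this]
    rfl
  · rw [← List.tail_drop, h]
    rfl

/-- the data returned by `run` -/
structure Inv (h g : ℕ → ℤ) (i j m n : ℕ) : Prop where
  le : i ≤ j
  der : Der h g i j
  m_le : m ≤ 1000
  n_le : n ≤ 1000
  low : ∀ t, i < t → t ≤ j → (m : ℤ) ≤ h t ∧ (n : ℤ) ≤ g t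
  att : i < j → (∃ t, i < t ∧ t ≤ j ∧ h t = m) ∧ ∃ t, i < t ∧ t ≤ j ∧ g t = n
  emp : ¬ i < j → 1000 ≤ m ∧ 1000 ≤ n

/-- minimum of three values, one of them attained -/
theorem att3 {h : ℕ → ℤ} {i k j m q m' : ℕ} (hik : i ≤ k) (hkj : k + 1 ≤ j) (hq : (q : ℤ) = h (k + 1))
    (q1 : q ≤ 1000) (m0 : i < k → ∃ t, i < t ∧ t ≤ k ∧ h t = m)
    (m1 : ¬ i < k → 1000 ≤ m) (m2 : k + 1 < j → ∃ t, k + 1 < t ∧ t ≤ j ∧ h t = m')
    (m3 : ¬ k + 1 < j → 1000 ≤ m') :
    ∃ t, i < t ∧ t ≤ j ∧ h t = (min m (min q m') : ℕ) := by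
  by_cases c1 : q ≤ m ∧ q ≤ m'
  · refine ⟨k + 1, by omega, hkj, ?_⟩
    rw [← hq, min_eq_left c1.2, min_eq_right c1.1]
  · by_cases c2 : m ≤ m'
    · have c3 : m < q := by omega
      by_cases c4 : i < k
      · obtain ⟨t, t1, t2, t3⟩ := m0 c4
        exact ⟨t, t1, by omega, by rw [t3, min_eq_left (le_min c3.le c2)]⟩
      · have := m1 c4
        omega
    · have c3 : m' < q := by omega
      by_cases c4 : k + 1 < j
      · obtain ⟨t, t1, t2, t3⟩ := m2 c4
        exact ⟨t, by omega, t2, by rw [t3, min_eq_right c3.le, min_eq_right (by omega)]⟩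
      · have := m3 c4
        omega

theorem att2 {h : ℕ → ℤ} {i k j m m' : ℕ} (hik : i ≤ k) (hkj : k ≤ j) (hij : i < j)
    (m0 : i < k → ∃ t, i < t ∧ t ≤ k ∧ h t = m)
    (m1 : ¬ i < k → 1000 ≤ m) (m4 : m ≤ 1000) (m2 : k < j → ∃ t, k < t ∧ t ≤ j ∧ h t = m')
    (m3 : ¬ k < j → 1000 ≤ m') (m5 : m' ≤ 1000) :
    ∃ t, i < t ∧ t ≤ j ∧ h t = (min m m' : ℕ) := by
  by_cases c1 : i < k
  · by_cases c2 : k < j
    · obtain ⟨t, t1, t2, t3⟩ := m0 c1
      obtain ⟨s, s1, s2, s3⟩ := m2 c2
      rcases le_total m m' with c | c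
      · exact ⟨t, t1, by omega, by rw [t3, min_eq_left c]⟩
      · exact ⟨s, by omega, s2, by rw [s3, min_eq_right c]⟩
    · obtain ⟨t, t1, t2, t3⟩ := m0 c1
      have := m3 c2
      exact ⟨t, t1, by omega, by rw [t3, min_eq_left (by omega)]⟩
  · obtain ⟨s, s1, s2, s3⟩ := m2 (by omega)
    have := m1 c1
    exact ⟨s, by omega, s2, by rw [s3, min_eq_right (by omega)]⟩

theorem Inv.cat {h g : ℕ → ℤ} {i k j m n m' n' : ℕ} (A : Inv h g i k m n)
    (B : Inv h g k j m' n') : Inv h g i j (min m m') (min n n') where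
  le := A.le.trans B.le
  der := A.der.cat B.der
  m_le := (min_le_left _ _).trans A.m_le
  n_le := (min_le_left _ _).trans A.n_le
  low t t1 t2 := by
    rw [Nat.cast_min, Nat.cast_min]
    rcases Nat.lt_or_ge k t with h3 | h3
    · exact ⟨(min_le_right _ _).trans (B.low t h3 t2).1,
        (min_le_right _ _).trans (B.low t h3 t2).2⟩
    · exact ⟨(min_le_left _ _).trans (A.low t t1 h3).1,
        (min_le_left _ _).trans (A.low t t1 h3).2⟩
  att hij := ⟨att2 A.le B.le hij (fun c => (A.att c).1) (fun c => (A.emp c).1) A.m_le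
      (fun c => (B.att c).1) (fun c => (B.emp c).1) B.m_le,
    att2 A.le B.le hij (fun c => (A.att c).2) (fun c => (A.emp c).2) A.n_le
      (fun c => (B.att c).2) (fun c => (B.emp c).2) B.n_le⟩
  emp hij := by
    have hA := A.le
    have hB := B.le
    exact ⟨le_min (A.emp (by omega)).1 (B.emp (by omega)).1,
      le_min (A.emp (by omega)).2 (B.emp (by omega)).2⟩

theorem Al.of_alb {h : ℕ → ℤ} {i j a a' b b' m : ℕ} (hij : i < j) (ha : (a : ℤ) = h i)
    (ha' : (a' : ℤ) = h (i + 1)) (hb : (b : ℤ) = h j) (hb' : (b' : ℤ) = h (j + 1))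
    (low : ∀ t, i < t → t ≤ j → (m : ℤ) ≤ h t) (att : ∃ t, i < t ∧ t ≤ j ∧ h t = m)
    (hc : alb a a' b b' m = true) : Al h i j := by
  obtain ⟨c1, c2, c3⟩ := alb_iff hc
  refine ⟨hij, fun t t1 t2 => ⟨?_, ?_⟩, fun ⟨e1, e2⟩ => c3 ⟨?_, ?_⟩⟩
  · rw [← ha, ← ha', ← Nat.cast_min]
    exact (Nat.cast_le.2 c1).trans (low t t1 t2)
  · rw [← hb, ← hb', ← Nat.cast_min]
    exact (Nat.cast_le.2 c2).trans (low t t1 t2)
  · rw [← ha, ← hb'] at e1
    exact_mod_cast e1
  · obtain ⟨t, t1, t2, t3⟩ := att
    have := e2 t t1 t2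
    rw [← ha, t3] at this
    exact_mod_cast this

theorem run_sound {H : List (ℕ × ℕ)} {h g : ℕ → ℤ} (hH : ∀ t p, H[t]? = some p →
    (p.1 : ℤ) = h t ∧ (p.2 : ℤ) = g t ∧ p.1 ≤ 1000 ∧ p.2 ≤ 1000) (t : Tr) :
    ∀ {i : ℕ} {k : ℕ → ℕ → List (ℕ × ℕ) → Bool}, run t (H.drop i) k = true →
    ∃ j m n : ℕ, Inv h g i j m n ∧ k m n (H.drop j) = true := by
  induction t with
  | l =>
    intro i k hr
    exact ⟨i, 1000, 1000, ⟨le_rfl, .refl i, le_rfl, le_rfl, fun t h1 h2 => by omega,
      fun h1 => absurd h1 (lt_irrefl _), fun _ => ⟨le_rfl, le_rfl⟩⟩, hr⟩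
  | c a b iha ihb =>
    intro i k hr
    unfold run at hr
    obtain ⟨k1, m, n, A, hr⟩ := iha hr
    obtain ⟨j, m', n', B, hr⟩ := ihb hr
    simp only [frc_eq, mn_eq] at hr
    exact ⟨j, min m m', min n n', A.cat B, hr⟩
  | e a b iha ihb =>
    intro i k hr
    unfold run at hr
    obtain ⟨k1, m, n, A, hr⟩ := iha hr
    split at hr
    · exact absurd hr Bool.false_ne_true
    · rename_i _ p T hT
      obtain ⟨-, hT'⟩ := drop_cons hT
      rw [← hT'] at hr
      obtain ⟨j, m', n', B, hr⟩ := ihb hr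
      split at hr
      · rename_i _ _ _ hi gi hi1 gi1 T1 hk gk T2 hj gj hj1 gj1 T3 E1 E2 E3
        obtain ⟨a1, b1⟩ := drop_cons E1
        obtain ⟨a2, -⟩ := drop_cons b1
        obtain ⟨a3, -⟩ := drop_cons E2
        obtain ⟨a4, b4⟩ := drop_cons E3
        obtain ⟨a5, -⟩ := drop_cons b4
        have q1 := hH _ _ a1
        have q2 := hH _ _ a2
        have q3 := hH _ _ a3
        have q4 := hH _ _ a4
        have q5 := hH _ _ a5
        dsimp only at q1 q2 q3 q4 q5
        simp only [frc_eq, mn_eq] at hr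
        cases c1 : alb hi hi1 hj hj1 (min m (min hk m'))
        · rw [c1] at hr; simp at hr
        cases c2 : alb gi gi1 gj gj1 (min n (min gk n'))
        · rw [c1, c2] at hr; simp at hr
        rw [c1, c2] at hr
        have hA := A.le
        have hB := B.le
        have hij : i < j := by omega
        have low : ∀ t, i < t → t ≤ j → ((min m (min hk m') : ℕ) : ℤ) ≤ h t ∧
            ((min n (min gk n') : ℕ) : ℤ) ≤ g t := by
          intro t t1 t2
          rw [Nat.cast_min, Nat.cast_min, Nat.cast_min, Nat.cast_min]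
          rcases Nat.lt_or_ge k1 t with h3 | h3
          · rcases Nat.lt_or_ge (k1 + 1) t with h4 | h4
            · exact ⟨(min_le_right _ _).trans ((min_le_right _ _).trans (B.low t h4 t2).1),
                (min_le_right _ _).trans ((min_le_right _ _).trans (B.low t h4 t2).2)⟩
            · obtain rfl : t = k1 + 1 := by omega
              exact ⟨(min_le_right _ _).trans ((min_le_left _ _).trans q3.1.le),
                (min_le_right _ _).trans ((min_le_left _ _).trans q3.2.1.le)⟩
          · exact ⟨(min_le_left _ _).trans (A.low t t1 h3).1,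
              (min_le_left _ _).trans (A.low t t1 h3).2⟩
        have at1 := att3 (h := h) hA hB q3.1 q3.2.2.1 (fun c => (A.att c).1) (fun c => (A.emp c).1)
          (fun c => (B.att c).1) (fun c => (B.emp c).1)
        have at2 := att3 (h := g) hA hB q3.2.1 q3.2.2.2 (fun c => (A.att c).2)
          (fun c => (A.emp c).2) (fun c => (B.att c).2) (fun c => (B.emp c).2)
        refine ⟨j, _, _, ⟨by omega, .edge A.der B.der
          (Al.of_alb hij q1.1 q2.1 q4.1 q5.1 (fun t t1 t2 => (low t t1 t2).1) at1 c1)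
          (Al.of_alb hij q1.2.1 q2.2.1 q4.2.1 q5.2.1 (fun t t1 t2 => (low t t1 t2).2) at2 c2),
          (min_le_left _ _).trans A.m_le, (min_le_left _ _).trans A.n_le, low,
          fun _ => ⟨at1, at2⟩, fun c => absurd hij c⟩, ?_⟩
        exact hr
      · exact absurd hr Bool.false_ne_true

theorem chk_sound {X : List (ℤ × ℤ)} {t : Tr} (h : chk X t = true) : BC X := by
  unfold chk at h
  obtain ⟨L, l1, l2, l3, l4, h⟩ := hts_sound (by omega) (by omega) h
  have hL : ∀ t p, L[t]? = some p →
      (p.1 : ℤ) = h1 X t ∧ (p.2 : ℤ) = h2 X t ∧ p.1 ≤ 1000 ∧ p.2 ≤ 1000 := by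
    intro t p hp
    obtain ⟨q1, q2, q3, q4⟩ := l2 t p hp
    exact ⟨by rw [q1]; simp, by rw [q2]; simp, q3, q4⟩
  have h' : run t (L.drop 0) (fun _ _ R => match R with
    | [_, _] => true
    | _ => false) = true := h
  obtain ⟨j, m, n, I, hk⟩ := run_sound hL t h'
  have hlen : (L.drop j).length = 2 := by
    split at hk
    · rename_i R a b E
      rw [E]; rfl
    · exact absurd hk Bool.false_ne_true
  rw [List.length_drop] at hlen
  have hj : j = X.length - 1 := by omega
  refine ⟨?_, ?_, ?_, ?_, ?_⟩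
  · rintro rfl
    simp only [List.length_nil] at l1
    omega
  · intro t ht
    have ht' : t < L.length := by omega
    have e : L[t]? = some L[t] := List.getElem?_eq_getElem ht'
    obtain ⟨q1, q2, -, -⟩ := hL t _ e
    rw [← q1, ← q2]
    exact ⟨Int.natCast_nonneg _, Int.natCast_nonneg _⟩
  · simpa using l3
  · simpa using l4
  · rw [← hj]
    exact I.der

end Pool.Agent.D3
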