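import Pool.Agent.Lib.H50D3.BCAlg
import Pool.Agent.Lib.H50D3.Certs

/-!
# Distance 3: completeness, the words of the instances are balanced and connected
-/

set_option autoImplicit false

namespace Pool.Agent.D3

/-! ### Predicates -/

def vOK : St → St → Bool | .P, .M | .M, .P | .p, .p => true | _, _ => false
def hOK : St → St → Bool | .M, .M | .P, .P | .m, .p => true | _, _ => false
def hhOK : St × St → Bool | (.M, .P) | (.P, .M) | (.P, .P) | (.p, .p) => true | _ => false
def endOK : St → Bool | .P | .p => true | _ => false
def fOK : St → Bool | .P | .M | .p => true | _ => false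
def s1OK : CS → Bool | .aM => false | _ => true
def s0OK : Bool × CS → Bool | (_, .aP) => false | (false, .WLR) => false | _ => true
def adjOK : List (Bool × CS) → Bool
  | [] => true
  | [c] => endOK c.2.r
  | c :: c' :: l => vOK c.2.r c'.2.l && adjOK (c' :: l)
def row1OK (l : List (Bool × CS)) : Bool :=
  l.all (fun c => s1OK c.2) && (match l with | [] => true | c :: _ => endOK c.2.l) && adjOK l
def row0OK (l : List (Bool × CS)) : Bool := l.all s0OK
/-- the first row has role 1 -/
def chainOK (n : ℕ) : List (List (Bool × CS)) → Prop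
  | [] => True
  | [r] => r.length = n ∧ row1OK r ∧ ∀ c ∈ r, fOK c.2.w
  | r :: r' :: rs => r.length = n ∧ r'.length = n ∧ row1OK r ∧ row0OK r' ∧
      List.Forall₂ (fun c c' => vOK c.2.w c'.2.u) r r'.reverse ∧ chainOK n rs
def typs (rows : List (List (Bool × CS))) : List (List Bool) := rows.map (·.map Prod.fst)
def stRows : Bool → List (List Bool) → List (List (Bool × CS))
  | _, [] => []
  | b, r :: rs => r.map (fun t => (t, if b then .aP else .aM)) :: stRows (!b) rs

/-! ### The certificates, as statements on `BC` -/

theorem bc_bodyX {t : Bool × CS} (h : s0OK t = true) : BC (bodyX t) := by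
  obtain ⟨b, s⟩ := t
  cases b <;> cases s
  · exact chk_sound cert_bodyM_x_UL
  · exact chk_sound cert_bodyM_x_UR
  · exact chk_sound cert_bodyM_x_WL
  · exact chk_sound cert_bodyM_x_WR
  · exact absurd h Bool.false_ne_true
  · exact chk_sound cert_bodyM_x_allM
  · exact absurd h Bool.false_ne_true
  · exact chk_sound cert_bodyM_o_UL
  · exact chk_sound cert_bodyM_o_UR
  · exact chk_sound cert_bodyM_o_WL
  · exact chk_sound cert_bodyM_o_WR
  · exact chk_sound cert_bodyM_o_WLR
  · exact chk_sound cert_bodyM_o_allM
  · exact absurd h Bool.false_ne_true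

theorem bc_pblkX {t : Bool × CS} (h : s1OK t.2 = true) : BC (pblkX t) := by
  obtain ⟨b, s⟩ := t
  cases b <;> cases s
  · exact chk_sound cert_pblk_x_UL
  · exact chk_sound cert_pblk_x_UR
  · exact chk_sound cert_pblk_x_WL
  · exact chk_sound cert_pblk_x_WR
  · exact (chk_sound cert_pblk_x_WR : BC (pblkX (false, .WR)))
  · exact absurd h Bool.false_ne_true
  · exact chk_sound cert_pblk_x_allP
  · exact chk_sound cert_pblk_o_UL
  · exact chk_sound cert_pblk_o_UR
  · exact chk_sound cert_pblk_o_WL
  · exact chk_sound cert_pblk_o_WR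
  · exact (chk_sound cert_pblk_o_WR : BC (pblkX (true, .WR)))
  · exact absurd h Bool.false_ne_true
  · exact chk_sound cert_pblk_o_allP

theorem bc_T {r l : St} (h : vOK r l = true) :
    BC ((zR true r ++ zYm true) ++ (0, 0) :: zL true l) := by
  cases r <;> cases l
  case P.M => exact chk_sound cert_T_PM
  case M.P => exact chk_sound cert_T_MP
  case p.p => exact chk_sound cert_T_pp
  all_goals exact absurd h Bool.false_ne_true

theorem bc_S0 {l : St} (h : endOK l = true) : BC (zYs true ++ (0, 0) :: zL true l) := by
  cases l
  case P => exact chk_sound cert_S0_P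
  case p => exact chk_sound cert_S0_p
  all_goals exact absurd h Bool.false_ne_true

theorem bc_Tn {r : St} (h : endOK r = true) : BC (zR true r ++ zYe true) := by
  cases r
  case P => exact chk_sound cert_Tn_P
  case p => exact chk_sound cert_Tn_p
  all_goals exact absurd h Bool.false_ne_true

theorem bc_nest {w u : St} (h : vOK w u = true) :
    BC (zW true w ++ (0, 0) :: (zYm false ++ zU false u)) := by
  cases w <;> cases u
  case P.M => exact chk_sound cert_nest_PM
  case M.P => exact chk_sound cert_nest_MP
  case p.p => exact chk_sound cert_nest_pp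
  all_goals exact absurd h Bool.false_ne_true

theorem bc_foot {w : St} (h : fOK w = true) : BC (zW true w ++ (0, 0) :: zf false) := by
  cases w
  case P => exact chk_sound cert_foot_P
  case M => exact chk_sound cert_foot_M
  case p => exact chk_sound cert_foot_p
  all_goals exact absurd h Bool.false_ne_true

theorem bc_hdr0 {h : St × St} (hh : hhOK h = true) : BC (zh1 false h.1 ++ zh2 false h.2) := by
  obtain ⟨a, b⟩ := h
  cases a <;> cases b
  case M.P => exact chk_sound cert_hdr0_MP
  case P.M => exact chk_sound cert_hdr0_PM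
  case P.P => exact chk_sound cert_hdr0_PP
  case p.p => exact chk_sound cert_hdr0_pp
  all_goals exact absurd hh Bool.false_ne_true

theorem bc_hn1 {h u : St} (hh : hOK h u = true) :
    BC (zh1 true h ++ (0, 0) :: (zYm false ++ zU false u)) := by
  cases h <;> cases u
  case M.M => exact chk_sound cert_hn1_MM
  case P.P => exact chk_sound cert_hn1_PP
  case m.p => exact chk_sound cert_hn1_mp
  all_goals exact absurd hh Bool.false_ne_true

theorem bc_hn2 {h u : St} (hh : hOK h u = true) :
    BC (zh2 true h ++ (0, 0) :: (zYm false ++ zU false u)) := by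
  cases h <;> cases u
  case M.M => exact chk_sound cert_hn2_MM
  case P.P => exact chk_sound cert_hn2_PP
  case m.p => exact chk_sound cert_hn2_mp
  all_goals exact absurd hh Bool.false_ne_true

theorem bc_hn2b {h u : St} (hh : hOK h u = true) :
    BC (zh2 true h ++ (zYm false ++ zU false u)) := by
  cases h <;> cases u
  case M.M => exact chk_sound cert_hn2b_MM
  case P.P => exact chk_sound cert_hn2b_PP
  case m.p => exact chk_sound cert_hn2b_mp
  all_goals exact absurd hh Bool.false_ne_true

theorem bc_footc : BC (zf true) := chk_sound cert_footc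

/-- the end of a row of role 0 may be appended -/
theorem bc_Ye0 {Z : List (ℤ × ℤ)} (h : BC Z) : BC (Z ++ zYe false) := by
  have := BC.subst (chk_sound cert_oYc) h
  rwa [List.nil_append] at this

/-! ### Rows as lists of pairs -/

/-- a cell -/
def zC (ρ : Bool) (c : Bool × CS) : List (ℤ × ℤ) :=
  zU ρ c.2.u ++ zB ρ c.1 c.2.ch ++ zL ρ c.2.l ++ zW ρ c.2.w ++ zR ρ c.2.r

def zRowT (ρ : Bool) : List (Bool × CS) → List (ℤ × ℤ)
  | [] => []
  | [c] => zC ρ c ++ zYe ρ
  | c :: l => zC ρ c ++ zYm ρ ++ zRowT ρ l

def zRow (ρ : Bool) (l : List (Bool × CS)) : List (ℤ × ℤ) := zYs ρ ++ zRowT ρ l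

def zRows (n : ℕ) : Bool → List (List (Bool × CS)) → List (ℤ × ℤ)
  | ρ, [] => (List.replicate n (zf ρ)).flatten
  | ρ, r :: rs => zRow ρ r ++ zRows n (!ρ) rs

def zHd (ρ : Bool) : List (St × St) → List (ℤ × ℤ)
  | [] => []
  | h :: hs => zh1 ρ h.1 ++ zh2 ρ h.2 ++ zHd ρ hs

theorem zp_append {a b c d : List Bool} (h : a.length = c.length) :
    zp (a ++ b) (c ++ d) = zp a c ++ zp b d := by
  unfold zp
  rw [List.map_append, List.map_append, List.zip_append (by simpa using h)]

theorem zp_cell (ρ : Bool) (c : Bool × CS) : zp (cellW ρ c.1) (mCell c) = zC ρ c := by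
  unfold cellW mCell zC zU zB zL zW zR
  rw [zp_append (by simp), zp_append (by simp), zp_append (by simp), zp_append (by simp)]

theorem zp_rowT (ρ : Bool) : ∀ l : List (Bool × CS),
    zp (rowT ρ (l.map Prod.fst)) (mRowT l) = zRowT ρ l
  | [] => rfl
  | [c] => by
    show zp (cellW ρ c.1 ++ Ye ρ) (mCell c ++ mY) = zC ρ c ++ zYe ρ
    rw [zp_append (by simp), zp_cell]
    rfl
  | c :: c' :: l => by
    have := zp_rowT ρ (c' :: l)
    show zp (cellW ρ c.1 ++ Ym ρ ++ rowT ρ ((c' :: l).map Prod.fst)) (mCell c ++ mY ++ mRowT (c' :: l)) =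
      zC ρ c ++ zYm ρ ++ zRowT ρ (c' :: l)
    rw [zp_append (by simp), zp_append (by simp), zp_cell, this]
    rfl

theorem zp_row (ρ : Bool) (l : List (Bool × CS)) :
    zp (rowW ρ (l.map Prod.fst)) (mRow l) = zRow ρ l := by
  unfold rowW mRow zRow
  rw [zp_append (by simp), zp_rowT]
  rfl

theorem zp_foot (ρ : Bool) (n : ℕ) :
    zp (List.replicate n (ft ρ)).flatten (List.replicate n mf).flatten =
      (List.replicate n (zf ρ)).flatten := by
  induction n with
  | zero => rfl
  | succ n ih =>
    simp only [List.replicate_succ, List.flatten_cons]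
    rw [zp_append (by simp), ih]
    rfl

theorem zp_rows (n : ℕ) : ∀ (ρ : Bool) (rows : List (List (Bool × CS))),
    zp (rowsW n ρ (typs rows)) (mRows n rows) = zRows n ρ rows
  | ρ, [] => zp_foot ρ n
  | ρ, r :: rs => by
    show zp (rowW ρ (r.map Prod.fst) ++ rowsW n (!ρ) (typs rs)) (mRow r ++ mRows n rs) =
      zRow ρ r ++ zRows n (!ρ) rs
    rw [zp_append (by simp), zp_row, zp_rows n (!ρ) rs]

theorem zp_hd (ρ : Bool) (hs : List (St × St)) : zp (hdW ρ hs.length) (mHd hs) = zHd ρ hs := by
  induction hs with
  | nil => rfl
  | cons h hs ih =>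
    show zp (hd1 ρ ++ hd2 ρ ++ hdW ρ hs.length) (mh1 h.1 ++ mh2 h.2 ++ mHd hs) =
      zh1 ρ h.1 ++ zh2 ρ h.2 ++ zHd ρ hs
    rw [zp_append (by simp), zp_append (by simp), ih]
    rfl

theorem zp_page (ρ : Bool) (hs : List (St × St)) (rows : List (List (Bool × CS))) :
    zp (pageW ρ hs.length (typs rows)) (midW hs rows) =
      zHd (!ρ) hs ++ zRows (2 * hs.length) ρ rows := by
  unfold pageW midW
  rw [zp_append (by simp), zp_hd, zp_rows]

/-! ### The nests -/

/-- the rest of a row of role 1 from the window `W` of the cell `c` on, `ts` the next cells -/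
def tl1 : Bool × CS → List (Bool × CS) → List (ℤ × ℤ)
  | c, [] => zW true c.2.w ++ (zR true c.2.r ++ zYe true)
  | c, t :: ts => zW true c.2.w ++ (zR true c.2.r ++ zYm true ++ pblkX t ++ zL true t.2.l) ++
      tl1 t ts

/-- the beginning of a row of role 0, up to the window `U` of the cell `c`; `ts` the previous
cells in reverse order -/
def hd0 : Bool × CS → List (Bool × CS) → List (ℤ × ℤ)
  | c, [] => zYm false ++ zU false c.2.u
  | c, t :: ts => hd0 t ts ++ bodyX t ++ (zYm false ++ zU false c.2.u)

theorem zRowT_tl1 (c : Bool × CS) (ts : List (Bool × CS)) :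
    zRowT true (c :: ts) = pblkX c ++ zL true c.2.l ++ tl1 c ts := by
  induction ts generalizing c with
  | nil => simp [zRowT, zC, pblkX, tl1, List.append_assoc]
  | cons t ts ih =>
    show zC true c ++ zYm true ++ zRowT true (t :: ts) = _
    rw [ih]
    simp [zC, pblkX, tl1, List.append_assoc]

theorem zRow_hd0 (c : Bool × CS) (ts : List (Bool × CS)) :
    zRow false (c :: ts).reverse = hd0 c ts ++ bodyX c ++ zYe false := by
  -- a version with something appended
  have key : ∀ (ts : List (Bool × CS)) (c : Bool × CS) (l : List (Bool × CS)) (x : Bool × CS),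
      zYs false ++ zRowT false ((c :: ts).reverse ++ x :: l) =
        hd0 c ts ++ bodyX c ++ (zYm false ++ zRowT false (x :: l)) := by
    intro ts
    induction ts with
    | nil =>
      intro c l x
      show zYs false ++ (zC false c ++ zYm false ++ zRowT false (x :: l)) = _
      have e : zYs false = zYm false := rfl
      rw [e]
      simp [hd0, bodyX, zC, List.append_assoc]
    | cons t ts ih =>
      intro c l x
      have e : (c :: t :: ts).reverse ++ x :: l = (t :: ts).reverse ++ c :: (x :: l) := by simp
      rw [e, ih t (x :: l) c]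
      show hd0 t ts ++ bodyX t ++ (zYm false ++ (zC false c ++ zYm false ++ zRowT false (x :: l))) = _
      simp [hd0, bodyX, zC, List.append_assoc]
  cases ts with
  | nil =>
    show zYs false ++ (zC false c ++ zYe false) = _
    have e : zYs false = zYm false := rfl
    rw [e]
    simp [hd0, bodyX, zC, List.append_assoc]
  | cons t ts =>
    have e : (c :: t :: ts).reverse = (t :: ts).reverse ++ c :: [] := by simp
    unfold zRow
    rw [e, key ts t [] c]
    show hd0 t ts ++ bodyX t ++ (zYm false ++ (zC false c ++ zYe false)) = _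
    simp [hd0, bodyX, zC, List.append_assoc]

theorem bc_nests : ∀ (ts ts' : List (Bool × CS)) (c c' : Bool × CS),
    adjOK (c :: ts) = true → (∀ t ∈ ts, s1OK t.2 = true) → (∀ t ∈ ts', s0OK t = true) →
    vOK c.2.w c'.2.u = true → List.Forall₂ (fun c c' => vOK c.2.w c'.2.u = true) ts ts' →
    BC (tl1 c ts ++ hd0 c' ts') := by
  intro ts
  induction ts with
  | nil =>
    intro ts' c c' ha h1 h0 hv hF
    cases hF
    have := BC.subst (bc_nest hv) (bc_Tn (r := c.2.r) ha)
    simpa only [tl1, hd0, List.append_assoc] using this
  | cons t ts ih =>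
    intro ts' c c' ha h1 h0 hv hF
    cases hF with
    | @cons _ t' _ ts' hv' hF' =>
      simp only [adjOK, Bool.and_eq_true] at ha
      have e1 := BC.subst (bc_T ha.1) (bc_pblkX (h1 t List.mem_cons_self))
      have e2 := ih ts' t t' ha.2 (fun x hx => h1 x (List.mem_cons_of_mem _ hx))
        (fun x hx => h0 x (List.mem_cons_of_mem _ hx)) hv' hF'
      have e3 := (e1.append e2).append (bc_bodyX (h0 t' List.mem_cons_self))
      have e4 := BC.subst (bc_nest hv) e3
      simpa only [tl1, hd0, List.append_assoc] using e4

theorem bc_row10 {r r' : List (Bool × CS)} (hr : r ≠ []) (h1 : row1OK r = true)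
    (h0 : row0OK r' = true)
    (hF : List.Forall₂ (fun c c' => vOK c.2.w c'.2.u = true) r r'.reverse) :
    BC (zRow true r ++ zRow false r') := by
  obtain ⟨c, ts, rfl⟩ := List.exists_cons_of_ne_nil hr
  generalize hq : r'.reverse = q at hF
  cases hF with
  | @cons _ c' _ ts' hv hF' =>
    have hr' : r' = (c' :: ts').reverse := by rw [← hq, List.reverse_reverse]
    subst hr'
    unfold row1OK at h1
    simp only [Bool.and_eq_true, List.all_eq_true] at h1
    obtain ⟨⟨h1a, h1b⟩, h1c⟩ := h1
    unfold row0OK at h0
    simp only [List.all_eq_true, List.mem_reverse] at h0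
    have e1 := BC.subst (bc_S0 h1b) (bc_pblkX (h1a c List.mem_cons_self))
    have e2 := bc_nests ts ts' c c' h1c (fun t ht => h1a t (List.mem_cons_of_mem _ ht))
      (fun t ht => h0 t (List.mem_cons_of_mem _ ht)) hv hF'
    have e3 := bc_Ye0 ((e1.append e2).append (bc_bodyX (h0 c' List.mem_cons_self)))
    rw [zRow_hd0]
    unfold zRow
    rw [zRowT_tl1]
    simpa only [List.append_assoc] using e3

theorem bc_foots : ∀ (ts : List (Bool × CS)) (c : Bool × CS),
    adjOK (c :: ts) = true → (∀ t ∈ ts, s1OK t.2 = true) → (∀ t ∈ c :: ts, fOK t.2.w = true) →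
    BC (tl1 c ts ++ (List.replicate (ts.length + 1) (zf false)).flatten) := by
  intro ts
  induction ts with
  | nil =>
    intro c ha h1 hf
    have := BC.subst (bc_foot (hf c List.mem_cons_self)) (bc_Tn (r := c.2.r) ha)
    simpa only [tl1, List.append_assoc, List.length_nil, Nat.zero_add, List.replicate_succ,
      List.replicate_zero, List.flatten_cons, List.flatten_nil, List.append_nil] using this
  | cons t ts ih =>
    intro c ha h1 hf
    simp only [adjOK, Bool.and_eq_true] at ha
    have e1 := BC.subst (bc_T ha.1) (bc_pblkX (h1 t List.mem_cons_self))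
    have e2 := ih t ha.2 (fun x hx => h1 x (List.mem_cons_of_mem _ hx))
      (fun x hx => hf x (List.mem_cons_of_mem _ hx))
    have e4 := BC.subst (bc_foot (hf c List.mem_cons_self)) (e1.append e2)
    have e5 : (List.replicate ((t :: ts).length + 1) (zf false)).flatten =
        (List.replicate (ts.length + 1) (zf false)).flatten ++ zf false := by
      rw [List.length_cons, List.replicate_succ' (n := ts.length + 1), List.flatten_append]
      simp
    rw [e5]
    simpa only [tl1, List.append_assoc] using e4

theorem bc_rowf {r : List (Bool × CS)} {n : ℕ} (hn : r.length = n) (hn1 : 1 ≤ n)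
    (h1 : row1OK r = true) (hf : ∀ c ∈ r, fOK c.2.w = true) :
    BC (zRow true r ++ (List.replicate n (zf false)).flatten) := by
  cases r with
  | nil => simp at hn; omega
  | cons c ts =>
    unfold row1OK at h1
    simp only [Bool.and_eq_true, List.all_eq_true] at h1
    obtain ⟨⟨h1a, h1b⟩, h1c⟩ := h1
    have e1 := BC.subst (bc_S0 h1b) (bc_pblkX (h1a c List.mem_cons_self))
    have e2 := bc_foots ts c h1c (fun t ht => h1a t (List.mem_cons_of_mem _ ht)) hf
    have e3 := e1.append e2
    rw [← hn, List.length_cons]
    unfold zRow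
    rw [zRowT_tl1]
    simpa only [List.append_assoc] using e3

theorem bc_replicate {Z : List (ℤ × ℤ)} (h : BC Z) {n : ℕ} (hn : 1 ≤ n) :
    BC (List.replicate n Z).flatten := by
  induction n with
  | zero => omega
  | succ n ih =>
    rw [List.replicate_succ, List.flatten_cons]
    rcases Nat.eq_zero_or_pos n with rfl | h0
    · simpa using h
    · exact h.append (ih h0)

theorem bc_zRows {n : ℕ} (hn : 1 ≤ n) : ∀ {rows : List (List (Bool × CS))}, chainOK n rows →
    BC (zRows n true rows)
  | [], _ => bc_replicate bc_footc hn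
  | [r], h => by
    obtain ⟨h1, h2, h3⟩ := h
    exact bc_rowf h1 hn h2 h3
  | r :: r' :: rs, h => by
    obtain ⟨h1, h2, h3, h4, h5, h6⟩ := h
    have hr : r ≠ [] := by
      rintro rfl
      simp at h1
      omega
    have := (bc_row10 hr h3 h4 h5).append (bc_zRows hn h6)
    simpa only [zRows, List.append_assoc, Bool.not_true, Bool.not_false] using this

/-! ### Headers -/

theorem bc_zHd0 {hs : List (St × St)} (h0 : hs ≠ []) (hh : ∀ h ∈ hs, hhOK h = true) :
    BC (zHd false hs) := by
  induction hs with
  | nil => exact absurd rfl h0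
  | cons h hs ih =>
    have e1 := bc_hdr0 (hh h List.mem_cons_self)
    rcases List.eq_nil_or_concat' hs with h2 | h2
    · subst h2
      simpa only [zHd, List.append_nil] using e1
    · have h3 : hs ≠ [] := by
        obtain ⟨L, b, rfl⟩ := h2
        simp
      exact e1.append (ih h3 fun x hx => hh x (List.mem_cons_of_mem _ hx))

theorem bc_hdr1 : ∀ (hs : List (St × St)) (a b : St) (c0 c1 : Bool × CS)
    (ts : List (Bool × CS)), (∀ t ∈ c1 :: ts, s0OK t = true) → hOK a c0.2.u = true →
    hOK b c1.2.u = true →
    List.Forall₂ (fun h c => hOK h c.2.u = true) (hs.flatMap fun p => [p.1, p.2]) ts →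
    BC (zh1 true a ++ zh2 true b ++ zHd true hs ++ hd0 c0 (c1 :: ts)) := by
  intro hs
  induction hs with
  | nil =>
    intro a b c0 c1 ts h0 ha hb hF
    simp only [List.flatMap_nil, List.forall₂_nil_left_iff] at hF
    subst hF
    have e1 := (bc_hn2b hb).append (bc_bodyX (h0 c1 List.mem_cons_self))
    have e2 := BC.subst (bc_hn1 ha) e1
    simpa only [zHd, hd0, List.append_assoc, List.nil_append] using e2
  | cons h hs ih =>
    intro a b c0 c1 ts h0 ha hb hF
    simp only [List.flatMap_cons, List.cons_append, List.nil_append] at hF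
    cases hF with
    | @cons _ c2 _ ts hv hF =>
      cases hF with
      | @cons _ c3 _ ts hv' hF =>
        have e0 := ih h.1 h.2 c2 c3 ts (fun x hx => h0 x (List.mem_cons_of_mem _ (List.mem_cons_of_mem _ hx))) hv hv' hF
        have e1 := BC.subst (bc_hn2 hb) (e0.append (bc_bodyX (h0 c2 (List.mem_cons_of_mem _ List.mem_cons_self))))
        have e2 := BC.subst (bc_hn1 ha) (e1.append (bc_bodyX (h0 c1 List.mem_cons_self)))
        simpa only [zHd, hd0, List.append_assoc] using e2

theorem bc_hdrow {hs : List (St × St)} {r : List (Bool × CS)} (h0 : hs ≠ [])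
    (hr0 : row0OK r = true)
    (hF : List.Forall₂ (fun h c => hOK h c.2.u = true) (hs.flatMap fun p => [p.1, p.2])
      r.reverse) : BC (zHd true hs ++ zRow false r) := by
  obtain ⟨h, hs, rfl⟩ := List.exists_cons_of_ne_nil h0
  generalize hq : r.reverse = q at hF
  simp only [List.flatMap_cons, List.cons_append, List.nil_append] at hF
  cases hF with
  | @cons _ c0 _ ts hv hF =>
    cases hF with
    | @cons _ c1 _ ts hv' hF =>
      have hr' : r = (c0 :: c1 :: ts).reverse := by rw [← hq, List.reverse_reverse]
      subst hr'
      unfold row0OK at hr0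
      simp only [List.all_eq_true, List.mem_reverse] at hr0
      have e1 := bc_hdr1 hs h.1 h.2 c0 c1 ts (fun x hx => hr0 x (List.mem_cons_of_mem _ hx)) hv hv' hF
      have e2 := bc_Ye0 (e1.append (bc_bodyX (hr0 c0 List.mem_cons_self)))
      rw [zRow_hd0]
      simpa only [zHd, List.append_assoc] using e2

/-! ### Main statements -/

theorem bc_page1 {hs : List (St × St)} {rows : List (List (Bool × CS))} (h0 : hs ≠ [])
    (hh : ∀ h ∈ hs, hhOK h) (hr : chainOK (2 * hs.length) rows) :
    BC (zp (pageW true hs.length (typs rows)) (midW hs rows)) := by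
  rw [zp_page]
  have hl : 0 < hs.length := List.length_pos_iff.2 h0
  exact (bc_zHd0 h0 hh).append (bc_zRows (by omega) hr)

theorem bc_page0 {hs : List (St × St)} {r : List (Bool × CS)} {rows : List (List (Bool × CS))}
    (h0 : hs ≠ []) (hr0 : r.length = 2 * hs.length) (hr : row0OK r)
    (hh : List.Forall₂ (fun h c => hOK h c.2.u) (hs.flatMap fun p => [p.1, p.2]) r.reverse)
    (hrs : chainOK (2 * hs.length) rows) :
    BC (zp (pageW false hs.length (typs (r :: rows))) (midW hs (r :: rows))) := by
  rw [zp_page]
  have hl : 0 < hs.length := List.length_pos_iff.2 h0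
  have := (bc_hdrow h0 hr hh).append (bc_zRows (by omega) hrs)
  simpa only [zRows, List.append_assoc, Bool.not_true, Bool.not_false] using this

theorem typs_stRows : ∀ (b : Bool) (rows : List (List Bool)), typs (stRows b rows) = rows
  | _, [] => rfl
  | b, r :: rs => by
    show (r.map _).map Prod.fst :: typs (stRows (!b) rs) = _
    rw [typs_stRows (!b) rs, List.map_map]
    congr 1
    conv_rhs => rw [← List.map_id r]
    rfl

/-- a row with states `aP` -/
theorem row1OK_aP (r : List Bool) : row1OK (r.map fun t => (t, CS.aP)) = true := by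
  have h : ∀ r : List Bool, adjOK (r.map fun t => (t, CS.aP)) = true := by
    intro r
    induction r with
    | nil => rfl
    | cons t r ih =>
      cases r with
      | nil => rfl
      | cons t' r =>
        show (vOK _ _ && adjOK _) = true
        rw [Bool.and_eq_true]
        exact ⟨rfl, ih⟩
  unfold row1OK
  rw [h r]
  cases r with
  | nil => rfl
  | cons t r =>
    simp [s1OK, endOK, CS.l]

theorem row0OK_aM (r : List Bool) : row0OK (r.map fun t => (t, CS.aM)) = true := by
  unfold row0OK
  simp only [List.all_map, List.all_eq_true, Function.comp]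
  intro t _
  cases t <;> rfl

theorem forall₂_vOK (r r' : List Bool) (h : r.length = r'.length) :
    List.Forall₂ (fun c c' : Bool × CS => vOK c.2.w c'.2.u = true) (r.map fun t => (t, CS.aP))
      (r'.map fun t => (t, CS.aM)) := by
  induction r generalizing r' with
  | nil =>
    cases r' with
    | nil => exact .nil
    | cons => simp at h
  | cons t r ih =>
    cases r' with
    | nil => simp at h
    | cons t' r' => exact .cons rfl (ih r' (by simpa using h))

theorem chainOK_stRows {n : ℕ} : ∀ {rows : List (List Bool)}, (∀ r ∈ rows, r.length = n) →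
    chainOK n (stRows true rows)
  | [], _ => trivial
  | [r], h => by
    refine ⟨by simpa using h r List.mem_cons_self, row1OK_aP r, ?_⟩
    intro c hc
    simp only [if_true, List.mem_map] at hc
    obtain ⟨t, _, rfl⟩ := hc
    rfl
  | r :: r' :: rs, h => by
    have l1 := h r List.mem_cons_self
    have l2 := h r' (List.mem_cons_of_mem _ List.mem_cons_self)
    refine ⟨by simpa using l1, by simpa using l2, row1OK_aP r, row0OK_aM r', ?_, ?_⟩
    · rw [← List.map_reverse]
      exact forall₂_vOK r r'.reverse (by rw [List.length_reverse, l1, l2])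
    · exact chainOK_stRows fun r hr => h r (List.mem_cons_of_mem _ (List.mem_cons_of_mem _ hr))

theorem all_page1 {v : ℕ} {rows : List (List Bool)} (hv : 1 ≤ v) (hne : rows ≠ [])
    (hl : ∀ r ∈ rows, r.length = 2 * v) :
    BC (zp (pageW true v rows) (midW (List.replicate v (.p, .p)) (stRows true rows))) := by
  have := bc_page1 (hs := List.replicate v (.p, .p)) (rows := stRows true rows)
    (by simp; omega) (by
      intro h hh
      rw [List.eq_of_mem_replicate hh]
      rfl) (by simpa using chainOK_stRows hl)
  rwa [typs_stRows, List.length_replicate] at this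

theorem all_page0 {v : ℕ} {rows : List (List Bool)} (hv : 1 ≤ v) (hne : rows ≠ [])
    (hl : ∀ r ∈ rows, r.length = 2 * v) :
    BC (zp (pageW false v rows) (midW (List.replicate v (.m, .m)) (stRows false rows))) := by
  obtain ⟨r, rs, rfl⟩ := List.exists_cons_of_ne_nil hne
  have l1 := hl r List.mem_cons_self
  have hF : ∀ (v : ℕ) (q : List Bool), q.length = 2 * v →
      List.Forall₂ (fun (h : St) (c : Bool × CS) => hOK h c.2.u = true)
        ((List.replicate v (St.m, St.m)).flatMap fun p => [p.1, p.2]) (q.map fun t => (t, CS.aM)) := by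
    intro v
    induction v with
    | zero =>
      intro q hq
      have : q = [] := List.eq_nil_of_length_eq_zero (by omega)
      subst this
      exact .nil
    | succ v ih =>
      intro q hq
      match q with
      | [] => simp at hq
      | [_] => simp at hq; omega
      | t :: t' :: q =>
        rw [List.replicate_succ]
        exact .cons rfl (.cons rfl (ih q (by simp at hq; omega)))
  have := bc_page0 (hs := List.replicate v (.m, .m)) (r := r.map fun t => (t, CS.aM))
    (rows := stRows true rs) (by simp; omega) (by simpa using l1) (row0OK_aM r)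
    (by
      rw [← List.map_reverse]
      exact hF v r.reverse (by rw [List.length_reverse, l1]))
    (by simpa using chainOK_stRows fun r hr => hl r (List.mem_cons_of_mem _ hr))
  rw [List.length_replicate] at this
  have e : (r.map fun t => (t, CS.aM)) :: stRows true rs = stRows false (r :: rs) := rfl
  rw [e, typs_stRows] at this
  exact this

/-! ### The two middle matchings -/

theorem bc_cell12 (t : Bool) : BC (zp (mCell (t, .aM)) (mCell (t, .aP))) ∧
    BC (zp (mCell (t, .aP)) (mCell (t, .aM))) := by
  cases t
  · exact ⟨chk_sound cert_c12_x, chk_sound cert_c21_x⟩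
  · exact ⟨chk_sound cert_c12_o, chk_sound cert_c21_o⟩

theorem bc_cellb (b : Bool) (t : Bool) : BC (zp (mCell (t, if b then .aP else .aM))
    (mCell (t, if !b then .aP else .aM))) := by
  cases b
  · exact (bc_cell12 t).1
  · exact (bc_cell12 t).2

theorem bc_YY : BC (zp mY mY) := chk_sound cert_Y12

theorem bc_mRowT (b : Bool) : ∀ r : List Bool, r ≠ [] →
    BC (zp (mRowT (r.map fun t => (t, if b then .aP else .aM)))
      (mRowT (r.map fun t => (t, if !b then .aP else .aM))))
  | [], h => absurd rfl h
  | [t], _ => by
    show BC (zp (mCell (t, if b then .aP else .aM) ++ mY) (mCell (t, if !b then .aP else .aM) ++ mY))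
    rw [zp_append (by simp)]
    exact (bc_cellb b t).append bc_YY
  | t :: t' :: r, _ => by
    have ih := bc_mRowT b (t' :: r) (by simp)
    show BC (zp (mCell (t, if b then .aP else .aM) ++ mY ++ mRowT ((t' :: r).map _))
      (mCell (t, if !b then .aP else .aM) ++ mY ++ mRowT ((t' :: r).map _)))
    rw [zp_append (by simp), zp_append (by simp)]
    exact ((bc_cellb b t).append bc_YY).append ih

theorem bc_mRow (b : Bool) (r : List Bool) :
    BC (zp (mRow (r.map fun t => (t, if b then .aP else .aM)))
      (mRow (r.map fun t => (t, if !b then .aP else .aM)))) := by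
  unfold mRow
  rw [zp_append (by simp)]
  cases r with
  | nil =>
    have : zp (mRowT (([] : List Bool).map fun t => (t, if b then CS.aP else .aM)))
      (mRowT (([] : List Bool).map fun t => (t, if !b then CS.aP else .aM))) = [] := rfl
    rw [this, List.append_nil]
    exact bc_YY
  | cons t r => exact bc_YY.append (bc_mRowT b (t :: r) (by simp))

theorem bc_mRows {n : ℕ} (hn : 1 ≤ n) : ∀ (b : Bool) (rows : List (List Bool)),
    BC (zp (mRows n (stRows b rows)) (mRows n (stRows (!b) rows)))
  | b, [] => by
    have e : ∀ n : ℕ, zp (List.replicate n mf).flatten (List.replicate n mf).flatten =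
        (List.replicate n (zp mf mf)).flatten := by
      intro n
      induction n with
      | zero => rfl
      | succ n ih =>
        simp only [List.replicate_succ, List.flatten_cons]
        rw [zp_append rfl, ih]
    show BC (zp (List.replicate n mf).flatten (List.replicate n mf).flatten)
    rw [e]
    exact bc_replicate (chk_sound cert_f12) hn
  | b, r :: rs => by
    have ih := bc_mRows hn (!b) rs
    show BC (zp (mRow (r.map fun t => (t, if b then .aP else .aM)) ++ mRows n (stRows (!b) rs))
      (mRow (r.map fun t => (t, if !b then .aP else .aM)) ++ mRows n (stRows (!(!b)) rs)))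
    rw [zp_append (by simp)]
    exact (bc_mRow b r).append ih

theorem bc_mid {v : ℕ} {rows : List (List Bool)} (hv : 1 ≤ v) :
    BC (zp (midW (List.replicate v (.m, .m)) (stRows false rows))
      (midW (List.replicate v (.p, .p)) (stRows true rows))) := by
  unfold midW
  rw [zp_append (by simp), List.length_replicate, List.length_replicate]
  refine BC.append ?_ (bc_mRows (by omega) false rows)
  have e : ∀ v : ℕ, zp (mHd (List.replicate v (.m, .m))) (mHd (List.replicate v (.p, .p))) =
      (List.replicate v (zp (mh1 .m ++ mh2 .m) (mh1 .p ++ mh2 .p))).flatten := by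
    intro v
    induction v with
    | zero => rfl
    | succ v ih =>
      simp only [List.replicate_succ, List.flatten_cons]
      show zp (mh1 .m ++ mh2 .m ++ mHd _) (mh1 .p ++ mh2 .p ++ mHd _) = _
      rw [zp_append (by simp), ih]
  rw [e]
  exact bc_replicate (chk_sound cert_h12) hv

end Pool.Agent.D3
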