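import Mathlib

/-!
# Distance 3: the search through the partial matchings on a window (checker)
-/

set_option autoImplicit false

namespace Pool.Agent.D3

/-- not zero -/
def nz (x : ℕ) : Bool := not (Nat.beq x 0)

/-- static data of a page at one position `t` of a window -/
structure PInfo where
  /-- the set of `i < t` such that the chord `it` is compatible with the page -/
  al : ℕ
  /-- the arc of the page which ends at `t` (power of two of the left end, or `0`) -/
  cl : ℕ
  /-- edges may leave the window here -/
  ex : Bool
  /-- `t` is in the port, and not covered -/
  vi : Bool
  /-- there are such positions after `t` -/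
  vl : Bool

/-- the row of position `i`, `pw = 2 ^ i`, and the column of position `t` -/
def ccond (al col pw row : ℕ) : Bool :=
  or (nz (Nat.land row col)) (and (nz (Nat.land al pw)) (nz (Nat.land (Nat.shiftLeft row 1) col)))

/-- the column of a new position -/
def colAux (al tp : ℕ) : List (ℕ × ℕ) → ℕ → List (ℕ × ℕ) × ℕ
  | [], col => ([], col)
  | r :: rs, col =>
    match ccond al col r.1 r.2 with
    | true => ((r.1, Nat.lor r.2 tp) :: (colAux al tp rs (Nat.lor col r.1)).1,
        (colAux al tp rs (Nat.lor col r.1)).2)
    | false => (r :: (colAux al tp rs col).1, (colAux al tp rs col).2)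

/-- the interval from `i` (`pw = 2 ^ i`) to the new position splits into two connected parts -/
def splq (col pw row : ℕ) : Bool :=
  or (nz (Nat.land col pw)) (nz (Nat.land (Nat.shiftLeft row 1) col))

def hasSpl (xp col : ℕ) : List (ℕ × ℕ) → Bool
  | [] => false
  | r :: rs => or (and (Nat.beq r.1 xp) (splq col r.1 r.2)) (hasSpl xp col rs)

def anySpl (reach col : ℕ) : List (ℕ × ℕ) → Bool
  | [] => false
  | r :: rs => or (and (nz (Nat.land reach r.1)) (splq col r.1 r.2)) (anySpl reach col rs)

def anyEnd (reach tp : ℕ) : List (ℕ × ℕ) → Bool
  | [] => false
  | r :: rs => or (and (nz (Nat.land reach r.1)) (nz (Nat.land (Nat.shiftLeft r.2 1) tp))) (anyEnd reach tp rs)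

/-- the state of one page -/
structure PSt where
  rows : List (ℕ × ℕ)
  reach : ℕ
  v : Bool

/-- one step for one page; `xp` is the arc of the middle matching which ends here (or `0`);
`none` if a contradiction is found -/
def pstep (f : PInfo) (alq xp tp : ℕ) (unc : Bool) (s : PSt) : Option PSt :=
  match colAux (Nat.land alq f.al) tp s.rows tp with
  | (rows, col) =>
    match or (Nat.beq xp 0) (hasSpl xp col rows) with
    | false => none
    | true =>
      match or (Nat.beq f.cl 0) (hasSpl f.cl col rows) with
      | false => none
      | true =>
        match or s.v (and unc f.vi) with
        | false =>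
          match f.vl with
          | false => none
          | true =>
            match and (and unc f.ex) (or (nz (Nat.land col 1)) (anySpl s.reach col rows)) with
            | true => some ⟨(tp, tp) :: rows, Nat.lor s.reach tp, false⟩
            | false => some ⟨(tp, tp) :: rows, s.reach, false⟩
        | true =>
          match and (and unc f.ex) (or (nz (Nat.land col 1)) (anySpl s.reach col rows)) with
          | true => some ⟨(tp, tp) :: rows, Nat.lor s.reach tp, true⟩
          | false => some ⟨(tp, tp) :: rows, s.reach, true⟩

def lenLt {α β : Type} : List α → List β → Bool
  | [], [] => false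
  | [], _ :: _ => true
  | _ :: _, [] => false
  | _ :: l, _ :: m => lenLt l m

def nilB {α : Type} : List α → Bool
  | [] => true
  | _ :: _ => false

/-- the search: `true` if no contradiction-free leaf exists -/
def dfs : List (PInfo × PInfo) → ℕ → List (ℕ × ℕ) → ℕ → PSt → PSt → Bool
  | [], tp, stk, _, s, s' =>
    match stk with
    | _ :: _ => true
    | [] => not (and (and (anyEnd s.reach tp s.rows) (anyEnd s'.reach tp s'.rows)) (and s.v s'.v))
  | f :: fs, tp, stk, am, s, s' =>
    and
      -- open
      (match stk with
        | _ :: _ => true
        | [] =>
          match pstep f.1 am 0 tp true s with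
          | none => true
          | some u =>
            match pstep f.2 am 0 tp true s' with
            | none => true
            | some u' => dfs fs (Nat.shiftLeft tp 1) [] tp u u')
    (and
      -- pending
      (match lenLt stk fs with
        | false => true
        | true =>
          match pstep f.1 am 0 tp (nilB stk) s with
          | none => true
          | some u =>
            match pstep f.2 am 0 tp (nilB stk) s' with
            | none => true
            | some u' => dfs fs (Nat.shiftLeft tp 1) ((tp, am) :: stk) tp u u')
      -- closed
      (match stk with
        | [] => true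
        | x :: r =>
          match pstep f.1 (Nat.lor (Nat.xor am x.1) x.2) x.1 tp (nilB r) s with
          | none => true
          | some u =>
            match pstep f.2 (Nat.lor (Nat.xor am x.1) x.2) x.1 tp (nilB r) s' with
            | none => true
            | some u' => dfs fs (Nat.shiftLeft tp 1) r (Nat.lor (Nat.lor x.2 x.1) tp) u u'))

end Pool.Agent.D3
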