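import Pool.Agent.Lib.H50D3.Lang
import Pool.Agent.Lib.PolyTime.PL
import Pool.Agent.Lib.CookLevin.ThreeCol

/-!
# Distance 3: the instances are computed in polynomial time (chunk P)

The variables are renamed first (`ren`): the numbers of the variables of a formula can be exponential in
its size.
-/

set_option autoImplicit false

namespace Pool.Agent.D3

open Pool.Agent.PolyTime Pool.Agent.Lib.CookLevin

/-! ### Renaming the variables -/

/-- the new number of the variable `v`: its first position in the list of the variables -/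
def posV (F : List (List (ℕ × Bool))) (v : ℕ) : ℕ :=
  ((F.flatten.map Prod.fst).takeWhile fun w => decide (w ≠ v)).length

/-- the formula with renamed variables -/
def ren (F : List (List (ℕ × Bool))) : List (List (ℕ × Bool)) :=
  F.map fun C => C.map fun l => (posV F l.1, l.2)

theorem takeWhile_getD : ∀ (L : List ℕ) (v : ℕ), v ∈ L →
    L.getD ((L.takeWhile fun w => decide (w ≠ v)).length) 0 = v
  | [], v, h => absurd h List.not_mem_nil
  | a :: L, v, h => by
    by_cases hav : a = v
    · subst hav
      simp
    · have h1 : v ∈ L := by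
        rcases List.mem_cons.1 h with h | h
        · exact absurd h.symm hav
        · exact h
      have h2 := takeWhile_getD L v h1
      rw [List.takeWhile_cons, if_pos (by simpa using hav)]
      simpa using h2

theorem cnfSat_ren (F : List (List (ℕ × Bool))) : CNFSat (ren F) ↔ CNFSat F := by
  constructor
  · rintro ⟨s, hs⟩
    refine ⟨fun v => s (posV F v), fun cl hcl => ?_⟩
    obtain ⟨l', hl', h⟩ := hs _ (List.mem_map.2 ⟨cl, hcl, rfl⟩)
    obtain ⟨l, hl, rfl⟩ := List.mem_map.1 hl'
    exact ⟨l, hl, h⟩
  · rintro ⟨s, hs⟩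
    refine ⟨fun i => s ((F.flatten.map Prod.fst).getD i 0), fun cl' hcl' => ?_⟩
    obtain ⟨cl, hcl, rfl⟩ := List.mem_map.1 hcl'
    obtain ⟨l, hl, h⟩ := hs cl hcl
    refine ⟨_, List.mem_map.2 ⟨l, hl, rfl⟩, ?_⟩
    show s ((F.flatten.map Prod.fst).getD (posV F l.1) 0) = l.2
    rw [← h]
    unfold posV
    rw [takeWhile_getD]
    exact List.mem_map.2 ⟨l, List.mem_flatten.2 ⟨cl, hcl, hl⟩, rfl⟩

theorem PT_ren : PT ren := by
  have hL : PT fun F : List (List (ℕ × Bool)) => F.flatten.map Prod.fst :=
    PT.map (f := fun (_ : List (List (ℕ × Bool))) (l : ℕ × Bool) => l.1) (by fun_prop)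
      (PT.flatten PT.id)
  have hp : PT fun p : List (List (ℕ × Bool)) × ℕ => posV p.1 p.2 := by
    unfold posV
    refine PT.length ?_
    refine PT.takeWhile (f := fun (p : List (List (ℕ × Bool)) × ℕ) (w : ℕ) => decide (w ≠ p.2))
      ?_ (PT.comp (g := fun F : List (List (ℕ × Bool)) => F.flatten.map Prod.fst) hL
        (f := fun p : List (List (ℕ × Bool)) × ℕ => p.1) (by fun_prop))
    exact PT.decide_not (p := fun q : (List (List (ℕ × Bool)) × ℕ) × ℕ => q.2 = q.1.2)
      (PT.decide_eq (by fun_prop) (by fun_prop))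
  unfold ren
  refine PT.map (f := fun (F : List (List (ℕ × Bool))) (C : List (ℕ × Bool)) =>
    C.map fun l => (posV F l.1, l.2)) ?_ PT.id
  refine PT.map (f := fun (q : List (List (ℕ × Bool)) × List (ℕ × Bool)) (l : ℕ × Bool) =>
    (posV q.1 l.1, l.2)) ?_ (by fun_prop)
  refine PT.pair ?_ (by fun_prop)
  exact PT.comp hp (f := fun r : (List (List (ℕ × Bool)) × List (ℕ × Bool)) × (ℕ × Bool) =>
    (r.1.1, r.2.1)) (by fun_prop)

/-! ### The number of variables -/

theorem foldl_max_mem (l : List ℕ) : ∀ s : ℕ, l.foldl max s = s ∨ l.foldl max s ∈ l := by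
  induction l with
  | nil => intro s; exact Or.inl rfl
  | cons a l ih =>
    intro s
    rw [List.foldl_cons]
    rcases ih (max s a) with h | h
    · rw [h]
      rcases le_total s a with h2 | h2
      · rw [max_eq_right h2]
        exact Or.inr List.mem_cons_self
      · rw [max_eq_left h2]
        exact Or.inl rfl
    · exact Or.inr (List.mem_cons_of_mem _ h)

theorem PT_nv : PT nv := by
  have hL : PT fun F : List (List (ℕ × Bool)) => F.flatten.map fun l => l.1 + 1 :=
    PT.map (f := fun (_ : List (List (ℕ × Bool))) (l : ℕ × Bool) => l.1 + 1) (by fun_prop)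
      (PT.flatten PT.id)
  have h := PT.foldl (g := fun (_ : List (List (ℕ × Bool))) (s : ℕ) (b : ℕ) => max s b)
    (s := fun _ => 1) (l := fun F => F.flatten.map fun l => l.1 + 1) (by fun_prop) (PT.const 1) hL
    (B := fun F => sz (F.flatten.map fun l => l.1 + 1) + sz (1 : ℕ))
    ((PT.bdd hL).add (PBd.const _)) (by
      intro F l1 l2 h
      rcases foldl_max_mem l1 1 with h1 | h1
      · have : l1.foldl (fun (s : ℕ) (b : ℕ) => max s b) 1 = 1 := h1
        rw [this]
        omega
      · have h2 : l1.foldl (fun (s : ℕ) (b : ℕ) => max s b) 1 ∈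
            F.flatten.map fun l => l.1 + 1 := by
          rw [h]
          exact List.mem_append_left _ h1
        have := sz_le_of_mem h2
        omega)
  refine h.congr fun F => ?_
  unfold nv
  exact List.foldl_eq_foldr ..

theorem posV_le (F : List (List (ℕ × Bool))) (v : ℕ) :
    posV F v ≤ (F.flatten.map Prod.fst).length :=
  (List.takeWhile_sublist _).length_le

theorem foldr_max_le {l : List ℕ} {B : ℕ} (h1 : 1 ≤ B) (h : ∀ x ∈ l, x ≤ B) :
    l.foldr max 1 ≤ B := by
  induction l with
  | nil => exact h1
  | cons a l ih =>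
    rw [List.foldr_cons]
    exact max_le (h a List.mem_cons_self) (ih fun x hx => h x (List.mem_cons_of_mem _ hx))

theorem nv_ren_le (F : List (List (ℕ × Bool))) : nv (ren F) ≤ F.flatten.length + 1 := by
  unfold nv
  refine foldr_max_le (by omega) ?_
  intro x hx
  obtain ⟨l, hl, rfl⟩ := List.mem_map.1 hx
  obtain ⟨C', hC', hl⟩ := List.mem_flatten.1 hl
  obtain ⟨C, hC, rfl⟩ := List.mem_map.1 hC'
  obtain ⟨m, hm, rfl⟩ := List.mem_map.1 hl
  have := posV_le F m.1
  rw [List.length_map] at this
  show posV F m.1 + 1 ≤ _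
  omega

theorem PL_nv_ren : PL fun F => nv (ren F) := by
  refine PL.of_le (PT.comp PT_nv PT_ren) ?_ nv_ren_le
  exact (PL.length (PT.flatten (PT.id))).add (PL.const 1)

/-! ### The words -/

theorem hdW_eq (ρ : Bool) (v : ℕ) : hdW ρ v = (List.replicate v (hd1 ρ ++ hd2 ρ)).flatten := by
  induction v with
  | zero => rfl
  | succ v ih => rw [hdW, ih, List.replicate_succ, List.flatten_cons]

theorem rowT_eq (ρ : Bool) : ∀ l : List Bool, rowT ρ l =
    l.dropLast.flatMap (fun t => cellW ρ t ++ Ym ρ) ++
      l.getLast?.elim [] (fun t => cellW ρ t ++ Ye ρ)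
  | [] => rfl
  | [t] => by simp [rowT]
  | t :: t' :: l => by
    rw [rowT, rowT_eq ρ (t' :: l), List.dropLast_cons_cons, List.flatMap_cons,
      List.getLast?_cons_cons, List.append_assoc, List.append_assoc, List.append_assoc]
    exact fun h => by simp at h

/-- the role of the row number `k`, if the first row has the role `ρ` -/
def roleAt (ρ : Bool) (k : ℕ) : Bool := Bool.xor ρ (decide (k % 2 = 1))

theorem roleAt_succ (ρ : Bool) (k : ℕ) : roleAt ρ (k + 1) = !roleAt ρ k := by
  unfold roleAt
  rcases Nat.mod_two_eq_zero_or_one k with h | h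
  · have h1 : (k + 1) % 2 = 1 := by omega
    cases ρ <;> simp [h, h1]
  · have h1 : (k + 1) % 2 = 0 := by omega
    cases ρ <;> simp [h, h1]

theorem roleAt_zero (ρ : Bool) : roleAt ρ 0 = ρ := by cases ρ <;> rfl

theorem rowsW_eq (n : ℕ) (ρ : Bool) : ∀ (rows : List (List Bool)) (k : ℕ),
    rowsW n (roleAt ρ k) rows =
      (rows.zipIdx k).flatMap (fun p => rowW (roleAt ρ p.2) p.1) ++
        (List.replicate n (ft (roleAt ρ (k + rows.length)))).flatten
  | [], k => by simp [rowsW]
  | r :: rs, k => by
    have h := rowsW_eq n ρ rs (k + 1)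
    rw [roleAt_succ] at h
    rw [rowsW, h, List.zipIdx_cons, List.flatMap_cons, List.append_assoc, List.length_cons]
    have : k + 1 + rs.length = k + (rs.length + 1) := by omega
    rw [this]

theorem alt_eq {γ : Type} : ∀ (L : List (List γ)) (k : ℕ),
    alt (decide (k % 2 = 1)) L =
      (L.zipIdx k).map fun p => if p.2 % 2 = 1 then p.1.reverse else p.1
  | [], k => by cases h : decide (k % 2 = 1) <;> simp [alt]
  | r :: rs, k => by
    have h := alt_eq rs (k + 1)
    rw [List.zipIdx_cons, List.map_cons, ← h]
    rcases Nat.mod_two_eq_zero_or_one k with h0 | h0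
    · have h1 : (k + 1) % 2 = 1 := by omega
      simp [h0, h1, alt]
    · have h1 : (k + 1) % 2 = 0 := by omega
      simp [h0, h1, alt]

section words

variable {α : Type*} [Enc α]

theorem PT_rowW {ρ : α → Bool} {l : α → List Bool} (hρ : PT ρ) (hl : PT l) :
    PT fun a => rowW (ρ a) (l a) := by
  have h1 : PT fun p : α × Bool => cellW (ρ p.1) p.2 ++ Ym (ρ p.1) :=
    PT_bool2 (fun ρ t => cellW ρ t ++ Ym ρ) (PT.comp hρ (by fun_prop)) (by fun_prop)
  have h2 : PT fun p : α × Bool => cellW (ρ p.1) p.2 ++ Ye (ρ p.1) :=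
    PT_bool2 (fun ρ t => cellW ρ t ++ Ye ρ) (PT.comp hρ (by fun_prop)) (by fun_prop)
  have h3 : PT fun a => rowT (ρ a) (l a) := by
    have h := PT.append (PT.flatMap (f := fun (a : α) (t : Bool) => cellW (ρ a) t ++ Ym (ρ a))
      h1 (PT.dropLast hl)) (PT.optionElim (f := fun _ => ([] : List Bool))
        (g := fun p : α × Bool => cellW (ρ p.1) p.2 ++ Ye (ρ p.1)) (PT.getLast? hl) (PT.const []) h2)
    exact h.congr fun a => (rowT_eq _ _).symm
  unfold rowW
  exact PT.append (PT_bool1 Ys hρ) h3

theorem PT_roleAt {ρ : Bool} {k : α → ℕ} (hk : PT k) : PT fun a => roleAt ρ (k a) := by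
  unfold roleAt
  refine PT.xor (PT.const _) (PT.decide_eq ?_ (PT.const 1))
  fun_prop

theorem PT_rowsW (ρ : Bool) {n : α → ℕ} {rows : α → List (List Bool)} (hn : PL n)
    (hr : PT rows) : PT fun a => rowsW (n a) ρ (rows a) := by
  have h1 : PT fun a => ((rows a).zipIdx 0).flatMap (fun p => rowW (roleAt ρ p.2) p.1) := by
    refine PT.flatMap (f := fun (_ : α) (p : List Bool × ℕ) => rowW (roleAt ρ p.2) p.1) ?_
      (PT.zipIdx hr)
    exact PT_rowW (ρ := fun q : α × List Bool × ℕ => roleAt ρ q.2.2)
      (l := fun q : α × List Bool × ℕ => q.2.1)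
      (PT_roleAt (k := fun q : α × List Bool × ℕ => q.2.2) (by fun_prop)) (by fun_prop)
  have h2 : PT fun a => (List.replicate (n a) (ft (roleAt ρ (0 + (rows a).length)))).flatten := by
    refine PT.flatten (hn.replicate ?_)
    exact PT_bool1 ft (PT_roleAt (by fun_prop))
  refine (PT.append h1 h2).congr fun a => ?_
  rw [← rowsW_eq, roleAt_zero]

theorem PT_alt {γ : Type} [Enc γ] {L : α → List (List γ)} (hL : PT L) :
    PT fun a => alt false (L a) := by
  have h : PT fun a => ((L a).zipIdx 0).map fun p => if p.2 % 2 = 1 then p.1.reverse else p.1 := by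
    refine PT.map (f := fun (_ : α) (p : List γ × ℕ) => if p.2 % 2 = 1 then p.1.reverse else p.1)
      ?_ (PT.zipIdx hL)
    exact PT.ite (PT.decide_eq (by fun_prop) (PT.const 1)) (by fun_prop) (by fun_prop)
  exact h.congr fun a => (alt_eq (L a) 0).symm

theorem PT_colT {v : α → ℕ} {C : α → List (ℕ × Bool)} (hv : PL v) (hC : PT C) :
    PT fun a => colT (v a) (C a) := by
  unfold colT
  refine PT.flatMap (f := fun (a : α) (i : ℕ) =>
    [decide ((i, true) ∈ C a), decide ((i, false) ∈ C a)]) ?_ hv.range
  have hC' : PT fun p : α × ℕ => C p.1 := PT.comp hC (by fun_prop)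
  have h1 : ∀ x : Bool, PT fun p : α × ℕ => decide ((p.2, x) ∈ C p.1) := fun x =>
    (PT.mem (f := fun p : α × ℕ => (p.2, x)) (by fun_prop) hC').congr fun _ =>
      decide_eq_decide.2 Iff.rfl
  exact PT.cons (h1 true) (PT.cons (h1 false) (PT.const []))

theorem PT_rowsOf {F : α → List (List (ℕ × Bool))} (hv : PL fun a => nv (F a)) (hF : PT F) :
    PT fun a => rowsOf (F a) := by
  unfold rowsOf
  refine PT_alt ?_
  refine PT.map (f := fun (a : α) (C : List (ℕ × Bool)) => colT (nv (F a)) C) ?_
    (PT.cons (PT.const _) hF)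
  exact PT_colT (hv.comp (f := fun p : α × List (ℕ × Bool) => p.1) (by fun_prop)) (by fun_prop)

theorem PT_pgW (ρ : Bool) {F : α → List (List (ℕ × Bool))} (hv : PL fun a => nv (F a))
    (hF : PT F) : PT fun a => pgW ρ (F a) := by
  have h1 : PT fun a => hdW (!ρ) (nv (F a)) := by
    refine (PT.flatten (hv.replicate (PT.const (hd1 (!ρ) ++ hd2 (!ρ))))).congr fun a => ?_
    rw [hdW_eq]
  unfold pgW pageW
  exact PT.append h1 (PT_rowsW ρ ((PL.const 2).mul hv) (PT_rowsOf hv hF))

/-! ### The list of the arcs -/

/-- one step: flag, position, stack, arcs found (in reverse order) -/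
def arcStep (s : Bool × ℕ × List ℕ × List (ℕ × ℕ)) (b : Bool) :
    Bool × ℕ × List ℕ × List (ℕ × ℕ) :=
  bif b then (s.1, s.2.1 + 1, s.2.1 :: s.2.2.1, s.2.2.2)
  else (match s.2.2.1 with
    | [] => (false, s.2.1 + 1, [], s.2.2.2)
    | a :: st => (s.1, s.2.1 + 1, st, bif s.1 then (a, s.2.1) :: s.2.2.2 else s.2.2.2))

theorem PT_arcStep : PT fun p : (Bool × ℕ × List ℕ × List (ℕ × ℕ)) × Bool =>
    arcStep p.1 p.2 := by
  unfold arcStep
  refine PT.bif (by fun_prop) (by fun_prop) ?_
  have h := PT.listCases (l := fun p : (Bool × ℕ × List ℕ × List (ℕ × ℕ)) × Bool => p.1.2.2.1)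
    (f := fun p => (false, p.1.2.1 + 1, ([] : List ℕ), p.1.2.2.2))
    (g := fun p a st => (p.1.1, p.1.2.1 + 1, st,
      bif p.1.1 then (a, p.1.2.1) :: p.1.2.2.2 else p.1.2.2.2))
    (by fun_prop) (by fun_prop) (by
      refine PT.pair (by fun_prop) (PT.pair (by fun_prop) (PT.pair (by fun_prop) ?_))
      exact PT.bif (by fun_prop) (by fun_prop) (by fun_prop))
  refine h.congr fun p => ?_
  rcases p.1.2.2.1 with _ | ⟨a, st⟩ <;> rfl

theorem arcStep_dead (w : List Bool) : ∀ (i : ℕ) (st : List ℕ) (out : List (ℕ × ℕ)),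
    (w.foldl arcStep (false, i, st, out)).2.2.2 = out := by
  induction w with
  | nil => intro i st out; rfl
  | cons b w ih =>
    intro i st out
    rw [List.foldl_cons]
    cases b with
    | true => exact ih _ _ _
    | false =>
      cases st with
      | nil => exact ih _ _ _
      | cons a st => exact ih _ _ _

theorem arcStep_spec (w : List Bool) : ∀ (i : ℕ) (st : List ℕ) (out : List (ℕ × ℕ)),
    (w.foldl arcStep (true, i, st, out)).2.2.2.reverse = out.reverse ++ arcsGo w i st := by
  induction w with
  | nil => intro i st out; simp [arcsGo]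
  | cons b w ih =>
    intro i st out
    rw [List.foldl_cons]
    cases b with
    | true =>
      have h : arcStep (true, i, st, out) true = (true, i + 1, i :: st, out) := rfl
      rw [h, ih, arcsGo]
    | false =>
      cases st with
      | nil =>
        have h : arcStep (true, i, [], out) false = (false, i + 1, [], out) := rfl
        rw [h, arcStep_dead, arcsGo, List.append_nil]
      | cons a st =>
        have h : arcStep (true, i, a :: st, out) false = (true, i + 1, st, (a, i) :: out) := rfl
        rw [h, ih, arcsGo]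
        simp

/-- the states are small -/
theorem arcStep_bdd (w : List Bool) : ∀ (N i : ℕ) (f : Bool) (st : List ℕ) (out : List (ℕ × ℕ)),
    i + w.length ≤ N → st.length ≤ i → (∀ x ∈ st, x ≤ N) → out.length ≤ i →
    (∀ p ∈ out, p.1 ≤ N ∧ p.2 ≤ N) →
    let s := w.foldl arcStep (f, i, st, out)
    s.2.1 ≤ N ∧ s.2.2.1.length ≤ N ∧ (∀ x ∈ s.2.2.1, x ≤ N) ∧ s.2.2.2.length ≤ N ∧
      ∀ p ∈ s.2.2.2, p.1 ≤ N ∧ p.2 ≤ N := by
  induction w with
  | nil =>
    intro N i f st out h1 h2 h3 h4 h5
    simp only [List.length_nil] at h1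
    exact ⟨by simpa using h1, by simp only [List.foldl_nil]; omega, h3,
      by simp only [List.foldl_nil]; omega, h5⟩
  | cons b w ih =>
    intro N i f st out h1 h2 h3 h4 h5
    rw [List.length_cons] at h1
    rw [List.foldl_cons]
    cases b with
    | true =>
      refine ih N (i + 1) f (i :: st) out (by omega) (by simpa using h2) ?_ (by omega) h5
      intro x hx
      rcases List.mem_cons.1 hx with rfl | hx
      · omega
      · exact h3 x hx
    | false =>
      cases st with
      | nil => exact ih N (i + 1) false [] out (by omega) (by simp) (by simp) (by omega) h5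
      | cons a st =>
        rw [List.length_cons] at h2
        have h3' : ∀ x ∈ st, x ≤ N := fun x hx => h3 x (List.mem_cons_of_mem _ hx)
        cases f with
        | false => exact ih N (i + 1) false st out (by omega) (by omega) h3' (by omega) h5
        | true =>
          refine ih N (i + 1) true st ((a, i) :: out) (by omega) (by omega) h3'
            (by simpa using h4) ?_
          intro p hp
          rcases List.mem_cons.1 hp with rfl | hp
          · exact ⟨h3 a List.mem_cons_self, by show i ≤ N; omega⟩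
          · exact h5 p hp

theorem PT_arcs {w : α → List Bool} (hw : PT w) : PT fun a => arcs (w a) := by
  have hN : PBd fun a => (w a).length :=
    PBd.mono (fun a => (length_lt_sz (w a)).le) (PT.bdd hw)
  have hB : PBd fun a => 3 + ((4 * (w a).length + 1) + (((w a).length * (4 * (w a).length + 1 + 1)
      + 1) + ((w a).length * ((4 * (w a).length + 1) + (4 * (w a).length + 1) + 1 + 1) + 1) + 1) + 1)
      + 1 := by
    have h4 : PBd fun a => 4 * (w a).length + 1 := ((PBd.const 4).mul hN).add (PBd.const 1)
    exact (((PBd.const 3).add ((h4.add ((((hN.mul (h4.add (PBd.const 1))).add (PBd.const 1)).add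
      (((hN.mul (((h4.add h4).add (PBd.const 1)).add (PBd.const 1))).add (PBd.const 1)))).add
      (PBd.const 1))).add (PBd.const 1))).add (PBd.const 1))
  have h := PT.foldl (g := fun (_ : α) (s : Bool × ℕ × List ℕ × List (ℕ × ℕ)) (b : Bool) =>
    arcStep s b) (s := fun _ => (true, 0, [], [])) (l := w)
    (PT.comp PT_arcStep (f := fun p : α × (Bool × ℕ × List ℕ × List (ℕ × ℕ)) × Bool => p.2)
      (by fun_prop)) (PT.const _) hw hB (by
      intro a l1 l2 hl
      obtain ⟨h1, h2, h3, h4, h5⟩ := arcStep_bdd l1 (w a).length 0 true [] []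
        (by rw [hl, List.length_append]; omega) (by simp) (by simp) (by simp) (by simp)
      generalize l1.foldl arcStep (true, 0, [], []) = s at h1 h2 h3 h4 h5
      obtain ⟨f, i, st, out⟩ := s
      simp only at h1 h2 h3 h4 h5
      generalize (w a).length = N at h1 h2 h3 h4 h5 ⊢
      have e1 := sz_bool_le f
      have e2 := sz_nat_le_self i
      have e3 : sz st ≤ N * (4 * N + 1 + 1) + 1 := by
        have h := sz_list_le (l := st) (B := 4 * N + 1) (fun x hx => by
          have := sz_nat_le_self x
          have := h3 x hx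
          omega)
        refine h.trans ?_
        have := Nat.mul_le_mul_right (4 * N + 1 + 1) h2
        omega
      have e4 : sz out ≤ N * ((4 * N + 1) + (4 * N + 1) + 1 + 1) + 1 := by
        have h := sz_list_le (l := out) (B := (4 * N + 1) + (4 * N + 1) + 1) (fun p hp => by
          have := sz_nat_le_self p.1
          have := sz_nat_le_self p.2
          have := h5 p hp
          rw [sz_prod]
          omega)
        refine h.trans ?_
        have := Nat.mul_le_mul_right ((4 * N + 1) + (4 * N + 1) + 1 + 1) h4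
        omega
      rw [sz_pair, sz_pair, sz_pair]
      omega)
  refine (PT.reverse (PT.snd (PT.snd (PT.snd h)))).congr fun a => ?_
  have := arcStep_spec (w a) 0 [] []
  rw [List.reverse_nil, List.nil_append] at this
  exact this

theorem arcsGo_le {w : List Bool} : ∀ {i : ℕ} {st : List ℕ} {N : ℕ}, i + w.length ≤ N →
    (∀ x ∈ st, x ≤ N) → ∀ p ∈ arcsGo w i st, p.1 ≤ N ∧ p.2 ≤ N := by
  induction w with
  | nil => intro i st N _ _ p hp; simp [arcsGo] at hp
  | cons b w ih =>
    intro i st N h1 h2 p hp
    rw [List.length_cons] at h1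
    cases b with
    | true =>
      rw [arcsGo] at hp
      refine ih (by omega) ?_ p hp
      intro x hx
      rcases List.mem_cons.1 hx with rfl | hx
      · omega
      · exact h2 x hx
    | false =>
      cases st with
      | nil => simp [arcsGo] at hp
      | cons a st =>
        rw [arcsGo] at hp
        rcases List.mem_cons.1 hp with rfl | hp
        · exact ⟨h2 a List.mem_cons_self, by show i ≤ N; omega⟩
        · exact ih (by omega) (fun x hx => h2 x (List.mem_cons_of_mem _ hx)) p hp

theorem arcs_le {w : List Bool} {p : ℕ × ℕ} (hp : p ∈ arcs w) :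
    p.1 ≤ w.length ∧ p.2 ≤ w.length :=
  arcsGo_le (i := 0) (by omega) (by simp) p hp

/-! ### The encoding -/

theorem PT_una {n : α → ℕ} (hn : PL n) : PT fun a => una (n a) := by
  unfold una
  exact PT.append (hn.replicate (PT.const true)) (PT.const _)

theorem PT_enc {w w' : α → List Bool} (hw : PT w) (hw' : PT w') :
    PT fun a => enc ((w a).length / 2) (arcs (w a)) (arcs (w' a)) := by
  have hL : PL fun a => (w a).length + (w' a).length := (PL.length hw).add (PL.length hw')
  have h1 : PL fun a => (w a).length / 2 :=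
    PL.of_le (by fun_prop) (PL.length hw) fun a => Nat.div_le_self _ _
  have h2 : PT fun a => arcs (w a) ++ arcs (w' a) := PT.append (PT_arcs hw) (PT_arcs hw')
  have h3 : PT fun a => (arcs (w a) ++ arcs (w' a)).flatMap fun p =>
      una (Nat.min p.1 ((w a).length + (w' a).length)) ++
        una (Nat.min p.2 ((w a).length + (w' a).length)) := by
    refine PT.flatMap (f := fun (a : α) (p : ℕ × ℕ) =>
      una (Nat.min p.1 ((w a).length + (w' a).length)) ++
        una (Nat.min p.2 ((w a).length + (w' a).length))) ?_ h2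
    have hL' : PL fun q : α × (ℕ × ℕ) => (w q.1).length + (w' q.1).length :=
      hL.comp (f := fun q : α × (ℕ × ℕ) => q.1) (by fun_prop)
    exact PT.append (PT_una (PL.min (m := fun q : α × (ℕ × ℕ) => q.2.1) (by fun_prop) hL'))
      (PT_una (PL.min (m := fun q : α × (ℕ × ℕ) => q.2.2) (by fun_prop) hL'))
  refine (PT.append (PT_una h1) h3).congr fun a => ?_
  unfold enc
  congr 1
  refine List.flatMap_congr ?_
  intro p hp
  have h4 : p.1 ≤ (w a).length + (w' a).length ∧ p.2 ≤ (w a).length + (w' a).length := by
    rcases List.mem_append.1 hp with h | h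
    · have := arcs_le h
      omega
    · have := arcs_le h
      omega
  have h5 : Nat.min p.1 ((w a).length + (w' a).length) = p.1 := Nat.min_eq_left h4.1
  have h6 : Nat.min p.2 ((w a).length + (w' a).length) = p.2 := Nat.min_eq_left h4.2
  rw [h5, h6]

end words

/-- The instance of the formula with renamed variables is computed in polynomial time. -/
theorem PT_instE_ren : PT fun F => instE (ren F) := by
  unfold instE
  exact PT_enc (PT_pgW false PL_nv_ren PT_ren) (PT_pgW true PL_nv_ren PT_ren)

end Pool.Agent.D3
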