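import Pool.Agent.Lib.H50D3.At

/-!
# Distance 3: positions of the gadgets in the page words, the arcs between them
-/

set_option autoImplicit false

namespace Pool.Agent.D3

/-! ### Occurrences -/

theorem At.self (w : List Bool) : At w 0 w := ⟨[], [], by simp, rfl⟩

theorem At.right (u : List Bool) {w t : List Bool} {b : ℕ} (h : At w b t) : At (u ++ w) (u.length + b) t := by
  obtain ⟨x, z, rfl, rfl⟩ := h
  exact ⟨u ++ x, z, by simp, by simp⟩

theorem At.left {w t : List Bool} {b : ℕ} (h : At w b t) (z : List Bool) : At (w ++ z) b t := by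
  obtain ⟨x, y, rfl, rfl⟩ := h
  exact ⟨x, y ++ z, by simp, rfl⟩

theorem at_mid (u t z : List Bool) : At (u ++ t ++ z) u.length t := ⟨u, z, rfl, rfl⟩

theorem at_mid' {w u t z : List Bool} {b : ℕ} (h : w = u ++ t ++ z) (ghb : b = u.length) : At w b t :=
  ⟨u, z, h, ghb.symm⟩

theorem at_rows {n : ℕ} : ∀ {ρ : Bool} {rows : List (List Bool)} (_ : ∀ r ∈ rows, r.length = n)
    {j : ℕ} (hj : j < rows.length), At (rowsW n ρ rows) ((8 + 532 * n) * j) (rowW (rl ρ j) rows[j])
  | ρ, [], _, j, hj => absurd hj (Nat.not_lt_zero _)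
  | ρ, r :: rs, _, 0, _ => by
    have := (At.self (rowW ρ r)).left (rowsW n (!ρ) rs)
    simpa [rowsW, rl] using this
  | ρ, r :: rs, h, j + 1, hj => by
    have ih := at_rows (ρ := !ρ) (fun r hr => h r (List.mem_cons_of_mem _ hr)) (j := j) (by simpa using hj)
    have h1 := ih.right (rowW ρ r)
    have h2 : rl (!ρ) j = rl ρ (j + 1) := by
      unfold rl
      rcases Nat.mod_two_eq_zero_or_one j with h | h
      · rw [if_pos h, if_neg (by omega)]
      · rw [if_neg (by omega), if_pos (by omega), Bool.not_not]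
    rw [rowW_length, h r List.mem_cons_self, h2] at h1
    have h3 : (8 + 532 * n) * (j + 1) = 8 + 532 * n + (8 + 532 * n) * j := by ring
    rw [h3]
    exact h1

/-- two consecutive rows -/
theorem at_rows2 {n : ℕ} : ∀ {ρ : Bool} {rows : List (List Bool)} (_ : ∀ r ∈ rows, r.length = n)
    {j : ℕ} (hj : j + 1 < rows.length), At (rowsW n ρ rows) ((8 + 532 * n) * j)
      (rowW (rl ρ j) rows[j] ++ rowW (!(rl ρ j)) rows[j + 1])
  | ρ, [], _, j, hj => absurd hj (Nat.not_lt_zero _)
  | ρ, [r], _, j, hj => by simp at hj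
  | ρ, r :: r' :: rs, _, 0, _ => by
    have := (At.self (rowW ρ r ++ rowW (!ρ) r')).left (rowsW n (!!ρ) rs)
    simpa [rowsW, rl] using this
  | ρ, r :: r' :: rs, h, j + 1, hj => by
    have ih := at_rows2 (ρ := !ρ) (rows := r' :: rs) (fun r hr => h r (List.mem_cons_of_mem _ hr))
      (j := j) (by simpa using hj)
    have h1 := ih.right (rowW ρ r)
    have h2 : rl (!ρ) j = rl ρ (j + 1) := by
      unfold rl
      rcases Nat.mod_two_eq_zero_or_one j with h | h
      · rw [if_pos h, if_neg (by omega)]
      · rw [if_neg (by omega), if_pos (by omega), Bool.not_not]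
    rw [rowW_length, h r List.mem_cons_self, h2] at h1
    have h3 : (8 + 532 * n) * (j + 1) = 8 + 532 * n + (8 + 532 * n) * j := by ring
    rw [h3]
    exact h1

/-- the separator after cell `i` of `n` cells -/
def sepW (ρ : Bool) (n i : ℕ) : List Bool := if i + 1 = n then Ye ρ else Ym ρ

theorem at_rowT (ρ : Bool) : ∀ (l : List Bool) {i : ℕ} (hi : i < l.length),
    At (rowT ρ l) (532 * i) (cellW ρ l[i] ++ sepW ρ l.length i)
  | [], i, hi => absurd hi (Nat.not_lt_zero _)
  | [t], 0, _ => by simpa [rowT, sepW] using At.self (cellW ρ t ++ Ye ρ)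
  | [t], i + 1, hi => by simp at hi
  | t :: t' :: l, 0, _ => by
    have := (At.self (cellW ρ t ++ Ym ρ)).left (rowT ρ (t' :: l))
    simpa [rowT, sepW] using this
  | t :: t' :: l, i + 1, hi => by
    have ih := at_rowT ρ (t' :: l) (i := i) (by simpa using hi)
    have h1 := ih.right (cellW ρ t ++ Ym ρ)
    have h2 : 532 * (i + 1) = (cellW ρ t ++ Ym ρ).length + 532 * i := by simp; ring
    rw [h2]
    have h3 : sepW ρ (t :: t' :: l).length (i + 1) = sepW ρ (t' :: l).length i := by
      unfold sepW
      simp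
    rw [h3]
    exact h1

section
variable {v : ℕ} {rows : List (List Bool)} (hl : ∀ r ∈ rows, r.length = 2 * v)
include hl

theorem at_row (ρ : Bool) {j : ℕ} (hj : j < rows.length) :
    At (pageW ρ v rows) (76 * v + (8 + 532 * (2 * v)) * j) (rowW (rl ρ j) rows[j]) := by
  have := (at_rows (ρ := ρ) hl hj).right (hdW (!ρ) v)
  rwa [hdW_length] at this

theorem at_cs (ρ : Bool) {j i : ℕ} (hj : j < rows.length) (hi : i < rows[j].length) :
    At (pageW ρ v rows) (Bc v j i) (cellW (rl ρ j) rows[j][i] ++ sepW (rl ρ j) (2 * v) i) := by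
  have h1 := (at_rowT (rl ρ j) rows[j] hi).right (Ys (rl ρ j))
  have h2 := (at_row hl ρ hj).trans h1
  rw [Ys_length, hl _ (List.getElem_mem hj)] at h2
  unfold Bc
  convert h2 using 1
  ring

end
/-! ### The blocks -/

def gB0 (t : Bool) : List Bool := bd false t ++ lP false ++ wP false ++ rP false
def gTc (t : Bool) : List Bool := (rP true ++ Ym true) ++ (uP true ++ bd true t) ++ lP true
def gq0 : List Bool := Ym false ++ uP false

/-- the rest of a role-1 row after `lP` of a cell; the types of the cells which follow -/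
def gtl : List Bool → List Bool
  | [] => wP true ++ (rP true ++ Ye true)
  | t :: ts => wP true ++ (gTc t ++ gtl ts)

/-- cells of a role-0 row, types in reversed order -/
def ghb : List Bool → List Bool
  | [] => []
  | u :: us => ghb us ++ (gq0 ++ gB0 u)

@[simp] theorem gB0_length (t : Bool) : (gB0 t).length = 494 := by simp [gB0]
@[simp] theorem gTc_length (t : Bool) : (gTc t).length = 486 := by simp [gTc]
@[simp] theorem gq0_length : gq0.length = 38 := by simp [gq0]

theorem gtl_length (ts : List Bool) : (gtl ts).length = 92 + 532 * ts.length := by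
  induction ts with
  | nil => simp [gtl]
  | cons t ts ih => simp only [gtl, List.length_append, ih, gTc_length, wP_length, List.length_cons]; ring

theorem ghb_length (us : List Bool) : (ghb us).length = 532 * us.length := by
  induction us with
  | nil => simp [ghb]
  | cons t ts ih => simp only [ghb, List.length_append, ih, gq0_length, gB0_length, List.length_cons]; ring

theorem Ye_false : Ye false = Ym false := rfl
theorem Ys_false : Ys false = Ym false := rfl

theorem rowT_true (t : Bool) (ts : List Bool) :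
    rowT true (t :: ts) = (uP true ++ bd true t) ++ lP true ++ gtl ts := by
  induction ts generalizing t with
  | nil => simp [rowT, gtl, cellW]
  | cons t' ts ih => simp [rowT, gtl, cellW, gTc, ih]

theorem rowW_true (t : Bool) (ts : List Bool) :
    rowW true (t :: ts) = Ys true ++ (uP true ++ bd true t) ++ lP true ++ gtl ts := by
  simp [rowW, rowT_true]

theorem Ym_rowT (l : List Bool) :
    Ym false ++ rowT false l = (l.flatMap fun t => gq0 ++ gB0 t) ++ Ym false := by
  induction l with
  | nil => simp [rowT]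
  | cons t l ih =>
    cases l with
    | nil => simp [rowT, cellW, gq0, gB0, Ye_false]
    | cons t' l =>
      have h : Ym false ++ rowT false (t :: t' :: l) = (gq0 ++ gB0 t) ++ (Ym false ++ rowT false (t' :: l)) := by
        simp [rowT, cellW, gq0, gB0]
      rw [h, ih]
      simp

theorem ghb_reverse (l : List Bool) : ghb l.reverse = l.flatMap fun t => gq0 ++ gB0 t := by
  induction l using List.reverseRecOn with
  | nil => rfl
  | append_singleton l a ih => simp [ghb, ih]

theorem rowW_false (l : List Bool) : rowW false l = ghb l.reverse ++ Ym false := by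
  rw [rowW, Ys_false, Ym_rowT, ghb_reverse]

theorem bal_Ym : Bal (Ym false) := balB_sound (by decide +kernel)
theorem bal_B0 (t : Bool) : Bal (gB0 t) := by cases t <;> exact balB_sound (by decide +kernel)
theorem bal_pblk (t : Bool) : Bal (uP true ++ bd true t) := by cases t <;> exact balB_sound (by decide +kernel)
theorem bal_Tc (t : Bool) : Bal (gTc t) :=
  Bal.insert (balB_sound (by decide +kernel)) (bal_pblk t)
theorem bal_end : Bal (rP true ++ Ye true) := balB_sound (by decide +kernel)
theorem bal_S0 (t : Bool) : Bal (Ys true ++ (uP true ++ bd true t) ++ lP true) :=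
  Bal.insert (balB_sound (by decide +kernel)) (bal_pblk t)
theorem bal_ft (ρ : Bool) (hρ : ρ = true) : Bal (ft ρ) := by subst hρ; exact balB_sound (by decide +kernel)

theorem bal_nest {Z : List Bool} (hZ : Bal Z) (u : Bool) : Bal (wP true ++ Z ++ (gq0 ++ gB0 u)) := by
  refine Bal.insert ?_ hZ
  cases u <;> exact balB_sound (by decide +kernel)

theorem nest_eq_nil (u : Bool) :
    gtl [] ++ ghb [u] = wP true ++ (rP true ++ Ye true) ++ (gq0 ++ gB0 u) := by simp [gtl, ghb]

theorem nest_eq_cons (t u : Bool) (ts us : List Bool) :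
    gtl (t :: ts) ++ ghb (u :: us) = wP true ++ (gTc t ++ (gtl ts ++ ghb us)) ++ (gq0 ++ gB0 u) := by
  simp [gtl, ghb]

theorem bal_tl1_hb : ∀ {ts us : List Bool}, us.length = ts.length + 1 → Bal (gtl ts ++ ghb us)
  | [], [u], _ => by
    rw [nest_eq_nil]
    exact bal_nest bal_end u
  | [], [], h => by simp at h
  | [], _ :: _ :: _, h => by simp at h
  | _ :: _, [], h => by simp at h
  | t :: ts, u :: us, h => by
    rw [nest_eq_cons]
    exact bal_nest ((bal_Tc t).append (bal_tl1_hb (by simpa using h))) u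

theorem arc_nest {Z : List Bool} (hZ : Bal Z) (u : Bool) :
    Arc (wP true ++ Z ++ (gq0 ++ gB0 u)) 16 (63 + Z.length) ∧
      Arc (wP true ++ Z ++ (gq0 ++ gB0 u)) 45 (62 + Z.length) := by
  have h1 : Arc (wP true ++ (gq0 ++ gB0 u)) 16 ((wP true).length + 17) := by
    cases u <;> exact arcB_sound (by decide +kernel)
  have h2 : Arc (wP true ++ (gq0 ++ gB0 u)) 45 ((wP true).length + 16) := by
    cases u <;> exact arcB_sound (by decide +kernel)
  have h3 := h1.insert (by simp) hZ
  have h4 := h2.insert (by simp) hZ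
  rw [wP_length] at h3 h4
  exact ⟨by convert h3 using 1; ring, by convert h4 using 1; ring⟩

theorem arc_K : ∀ {ts us : List Bool} {i : ℕ}, us.length = ts.length + 1 → i ≤ ts.length →
    Arc (gtl ts ++ ghb us) (532 * i + 16) (109 + 1064 * ts.length - 532 * i) ∧
      Arc (gtl ts ++ ghb us) (532 * i + 45) (108 + 1064 * ts.length - 532 * i)
  | [], [], _, h, _ => by simp at h
  | [], _ :: _ :: _, _, h, _ => by simp at h
  | _ :: _, [], _, h, _ => by simp at h
  | [], [u], i, _, hi => by
    have hi : i = 0 := by simpa using hi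
    subst hi
    rw [nest_eq_nil]
    have := arc_nest bal_end u
    simpa using this
  | t :: ts, u :: us, 0, h, _ => by
    rw [nest_eq_cons]
    have hl : us.length = ts.length + 1 := by simpa using h
    have h1 := arc_nest ((bal_Tc t).append (bal_tl1_hb hl)) u
    have h2 : (gTc t ++ (gtl ts ++ ghb us)).length = 46 + 1064 * (ts.length + 1) := by
      simp only [List.length_append, gTc_length, gtl_length, ghb_length, hl]
      ring
    rw [h2] at h1
    refine ⟨?_, ?_⟩
    · convert h1.1 using 1
      simp only [List.length_cons]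
      ring_nf
      omega
    · convert h1.2 using 1
      simp only [List.length_cons]
      ring_nf
      omega
  | t :: ts, u :: us, i + 1, h, hi => by
    rw [nest_eq_cons]
    have hl : us.length = ts.length + 1 := by simpa using h
    have hi' : i ≤ ts.length := by simpa using hi
    obtain ⟨h1, h2⟩ := arc_K hl hi'
    have hA : At (wP true ++ (gTc t ++ (gtl ts ++ ghb us)) ++ (gq0 ++ gB0 u)) 532 (gtl ts ++ ghb us) := by
      refine at_mid' (u := wP true ++ gTc t) (z := gq0 ++ gB0 u) ?_ ?_
      · simp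
      · simp
    refine ⟨?_, ?_⟩
    · convert hA.arc h1 using 1
      · ring
      · simp only [List.length_cons]
        omega
    · convert hA.arc h2 using 1
      · ring
      · simp only [List.length_cons]
        omega

/-! ### The header -/

theorem hd_eq (v : ℕ) (u u' : Bool) (us : List Bool) : hdW true (v + 1) ++ ghb (u :: u' :: us) =
    hd1 true ++ (hd2 true ++ (hdW true v ++ ghb us) ++ (gq0 ++ gB0 u')) ++ (gq0 ++ gB0 u) := by
  simp [hdW, ghb]

theorem bal_hd1 {Z : List Bool} (hZ : Bal Z) (u : Bool) : Bal (hd1 true ++ Z ++ (gq0 ++ gB0 u)) := by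
  refine Bal.insert ?_ hZ
  cases u <;> exact balB_sound (by decide +kernel)

theorem bal_hd2 {Z : List Bool} (hZ : Bal Z) (u : Bool) : Bal (hd2 true ++ Z ++ (gq0 ++ gB0 u)) := by
  refine Bal.insert ?_ hZ
  cases u <;> exact balB_sound (by decide +kernel)

theorem bal_H : ∀ {v : ℕ} {us : List Bool}, us.length = 2 * v → Bal (hdW true v ++ ghb us)
  | 0, [], _ => Bal.nil
  | 0, _ :: _, h => by simp at h
  | v + 1, [], h => by simp at h
  | v + 1, [_], h => by simp at h; omega
  | v + 1, u :: u' :: us, h => by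
    rw [hd_eq]
    exact bal_hd1 (bal_hd2 (bal_H (by simp at h; omega)) u') u

theorem arc_hd1 {Z : List Bool} (hZ : Bal Z) (u : Bool) :
    Arc (hd1 true ++ Z ++ (gq0 ++ gB0 u)) 7 28 ∧
    Arc (hd1 true ++ Z ++ (gq0 ++ gB0 u)) 33 (58 + Z.length) ∧
      Arc (hd1 true ++ Z ++ (gq0 ++ gB0 u)) 6 (59 + Z.length) := by
  have h0 : Arc (hd1 true) 7 28 := arcB_sound (by decide +kernel)
  have h1 : Arc (hd1 true ++ (gq0 ++ gB0 u)) 33 ((hd1 true).length + 16) := by
    cases u <;> exact arcB_sound (by decide +kernel)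
  have h2 : Arc (hd1 true ++ (gq0 ++ gB0 u)) 6 ((hd1 true).length + 17) := by
    cases u <;> exact arcB_sound (by decide +kernel)
  have h3 := h1.insert (by simp) hZ
  have h4 := h2.insert (by simp) hZ
  have h5 := (((At.self (hd1 true)).left Z).left (gq0 ++ gB0 u)).arc h0
  rw [hd1_length] at h3 h4
  refine ⟨by simpa using h5, by convert h3 using 1; ring, by convert h4 using 1; ring⟩

theorem arc_hd2 {Z : List Bool} (hZ : Bal Z) (u : Bool) :
    Arc (hd2 true ++ Z ++ (gq0 ++ gB0 u)) 7 28 ∧
    Arc (hd2 true ++ Z ++ (gq0 ++ gB0 u)) 33 (50 + Z.length) ∧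
      Arc (hd2 true ++ Z ++ (gq0 ++ gB0 u)) 6 (51 + Z.length) := by
  have h0 : Arc (hd2 true) 7 28 := arcB_sound (by decide +kernel)
  have h1 : Arc (hd2 true ++ (gq0 ++ gB0 u)) 33 ((hd2 true).length + 16) := by
    cases u <;> exact arcB_sound (by decide +kernel)
  have h2 : Arc (hd2 true ++ (gq0 ++ gB0 u)) 6 ((hd2 true).length + 17) := by
    cases u <;> exact arcB_sound (by decide +kernel)
  have h3 := h1.insert (by simp) hZ
  have h4 := h2.insert (by simp) hZ
  have h5 := (((At.self (hd2 true)).left Z).left (gq0 ++ gB0 u)).arc h0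
  rw [hd2_length] at h3 h4
  refine ⟨by simpa using h5, by convert h3 using 1; ring, by convert h4 using 1; ring⟩

theorem arc_H : ∀ {v : ℕ} {us : List Bool} {q : ℕ}, us.length = 2 * v → q < v →
    Arc (hdW true v ++ ghb us) (76 * q + 7) (76 * q + 28) ∧
    Arc (hdW true v ++ ghb us) (76 * q + 33) (76 * v + 16 + 532 * (2 * v - 1 - 2 * q)) ∧
    Arc (hdW true v ++ ghb us) (76 * q + 6) (76 * v + 17 + 532 * (2 * v - 1 - 2 * q)) ∧
    Arc (hdW true v ++ ghb us) (76 * q + 49) (76 * q + 70) ∧
    Arc (hdW true v ++ ghb us) (76 * q + 75) (76 * v + 16 + 532 * (2 * v - 2 - 2 * q)) ∧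
    Arc (hdW true v ++ ghb us) (76 * q + 48) (76 * v + 17 + 532 * (2 * v - 2 - 2 * q))
  | 0, [], _, _, h => absurd h (Nat.not_lt_zero _)
  | 0, _ :: _, _, h, _ => by simp at h
  | v + 1, [], _, h, _ => by simp at h
  | v + 1, [_], _, h, _ => by simp at h; omega
  | v + 1, u :: u' :: us, 0, h, hq => by
    have hl : us.length = 2 * v := by simp at h; omega
    rw [hd_eq]
    have hH := bal_H hl
    have hlen : (hdW true v ++ ghb us).length = 1140 * v := by
      simp only [List.length_append, hdW_length, ghb_length, hl]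
      ring
    obtain ⟨a1, a2, a3⟩ := arc_hd1 (bal_hd2 hH u') u
    obtain ⟨b1, b2, b3⟩ := arc_hd2 hH u'
    have hA : At (hd1 true ++ (hd2 true ++ (hdW true v ++ ghb us) ++ (gq0 ++ gB0 u')) ++ (gq0 ++ gB0 u)) 42
        (hd2 true ++ (hdW true v ++ ghb us) ++ (gq0 ++ gB0 u')) := at_mid' rfl (by simp)
    have c1 := hA.arc b1
    have c2 := hA.arc b2
    have c3 := hA.arc b3
    have hlen2 : (hd2 true ++ (hdW true v ++ ghb us) ++ (gq0 ++ gB0 u')).length = 566 + 1140 * v := by
      rw [List.length_append, List.length_append, hlen]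
      simp
      ring
    rw [hlen2] at a2 a3
    rw [hlen] at c2 c3
    refine ⟨a1, ?_, ?_, c1, ?_, ?_⟩
    · convert a2 using 1; omega
    · convert a3 using 1; omega
    · convert c2 using 1; omega
    · convert c3 using 1; omega
  | v + 1, u :: u' :: us, q + 1, h, hq => by
    have hl : us.length = 2 * v := by simp at h; omega
    rw [hd_eq]
    obtain ⟨a1, a2, a3, a4, a5, a6⟩ := arc_H hl (q := q) (by omega)
    have hA : At (hd1 true ++ (hd2 true ++ (hdW true v ++ ghb us) ++ (gq0 ++ gB0 u')) ++ (gq0 ++ gB0 u)) 76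
        (hdW true v ++ ghb us) := by
      refine at_mid' (u := hd1 true ++ hd2 true) (z := (gq0 ++ gB0 u') ++ (gq0 ++ gB0 u)) ?_ (by simp)
      simp
    refine ⟨?_, ?_, ?_, ?_, ?_, ?_⟩
    · convert hA.arc a1 using 1 <;> omega
    · convert hA.arc a2 using 1 <;> omega
    · convert hA.arc a3 using 1 <;> omega
    · convert hA.arc a4 using 1 <;> omega
    · convert hA.arc a5 using 1 <;> omega
    · convert hA.arc a6 using 1 <;> omega

theorem at_hdW (ρ : Bool) : ∀ {v q : ℕ}, q < v → At (hdW ρ v) (76 * q) (hd1 ρ ++ hd2 ρ)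
  | 0, _, h => absurd h (Nat.not_lt_zero _)
  | v + 1, 0, _ => by
    have := (At.self (hd1 ρ ++ hd2 ρ)).left (hdW ρ v)
    simpa [hdW] using this
  | v + 1, q + 1, h => by
    have := (at_hdW ρ (v := v) (q := q) (by omega)).right (hd1 ρ ++ hd2 ρ)
    have h2 : 76 * (q + 1) = (hd1 ρ ++ hd2 ρ).length + 76 * q := by simp; ring
    rw [h2]
    simpa [hdW] using this

theorem bal_hdW_false (v : ℕ) : Bal (hdW false v) := by
  induction v with
  | zero => exact Bal.nil
  | succ v ih =>
    have h : Bal (hd1 false ++ hd2 false) := balB_sound (by decide +kernel)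
    exact h.append ih

/-! ### The footer -/

theorem bal_foot : ∀ {ts : List Bool}, Bal (gtl ts ++ (List.replicate (ts.length + 1) (ft false)).flatten)
  | [] => by
    have h : Bal (wP true ++ ft false) := balB_sound (by decide +kernel)
    have := h.insert bal_end
    simpa [gtl] using this
  | t :: ts => by
    have h : Bal (wP true ++ ft false) := balB_sound (by decide +kernel)
    have h2 := h.insert ((bal_Tc t).append (bal_foot (ts := ts)))
    have h3 : (List.replicate ((t :: ts).length + 1) (ft false)).flatten =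
        (List.replicate (ts.length + 1) (ft false)).flatten ++ ft false := by
      rw [List.length_cons, List.replicate_succ' (n := ts.length + 1)]
      simp
    rw [h3]
    simpa [gtl] using h2

theorem bal_replicate {w : List Bool} (h : Bal w) (n : ℕ) : Bal (List.replicate n w).flatten := by
  induction n with
  | zero => exact Bal.nil
  | succ n ih => rw [List.replicate_succ, List.flatten_cons]; exact h.append ih

theorem bal_rows {n : ℕ} (hn : 1 ≤ n) : ∀ {rows : List (List Bool)} (_ : ∀ r ∈ rows, r.length = n),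
    Bal (rowsW n true rows)
  | [], _ => bal_replicate (balB_sound (by decide +kernel)) n
  | [r], h => by
    have hr := h r List.mem_cons_self
    obtain ⟨t, ts, rfl⟩ : ∃ t ts, r = t :: ts := by
      cases r with
      | nil => simp at hr; omega
      | cons t ts => exact ⟨t, ts, rfl⟩
    have h1 := (bal_S0 t).append (bal_foot (ts := ts))
    simp only [List.length_cons] at hr
    subst hr
    simpa [rowsW, rowW_true] using h1
  | r :: r' :: rs, h => by
    have hr := h r List.mem_cons_self
    have hr' := h r' (List.mem_cons_of_mem _ List.mem_cons_self)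
    obtain ⟨t, ts, rfl⟩ : ∃ t ts, r = t :: ts := by
      cases r with
      | nil => simp at hr; omega
      | cons t ts => exact ⟨t, ts, rfl⟩
    have h1 : Bal (gtl ts ++ ghb r'.reverse) := bal_tl1_hb (by
      simp only [List.length_cons] at hr
      simp
      omega)
    have h2 := bal_rows hn (rows := rs) fun r hr => h r (List.mem_cons_of_mem _ (List.mem_cons_of_mem _ hr))
    have h3 := (((bal_S0 t).append h1).append bal_Ym).append h2
    simpa [rowsW, rowW_true, rowW_false] using h3

section
variable {v : ℕ} {rows : List (List Bool)} (hl : ∀ r ∈ rows, r.length = 2 * v) (hv : 1 ≤ v)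
include hl hv

theorem bal_page (hne : rows ≠ []) (ρ : Bool) : Bal (pageW ρ v rows) := by
  cases ρ
  · obtain ⟨r, rs, rfl⟩ := List.exists_cons_of_ne_nil hne
    have h1 : Bal (hdW true v ++ ghb r.reverse) := bal_H (by
      rw [List.length_reverse]; exact hl r List.mem_cons_self)
    have h2 := bal_rows (n := 2 * v) (by omega) (rows := rs) fun r hr => hl r (List.mem_cons_of_mem _ hr)
    have h3 := (h1.append bal_Ym).append h2
    simpa [pageW, rowsW, rowW_false] using h3
  · exact (bal_hdW_false v).append (bal_rows (by omega) hl)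

theorem at_cell (ρ : Bool) {j i : ℕ} (hj : j < rows.length) (hi : i < rows[j].length) :
    At (pageW ρ v rows) (Bc v j i) (cellW (rl ρ j) rows[j][i]) := by
  have := (at_cs hl ρ hj hi).trans ((At.self (cellW (rl ρ j) rows[j][i])).left (sepW (rl ρ j) (2 * v) i))
  simpa using this

theorem at_sep (ρ : Bool) {j i : ℕ} (hj : j < rows.length) (hi : i < rows[j].length) :
    At (pageW ρ v rows) (Bc v j i + 524) (sepW (rl ρ j) (2 * v) i) := by
  have := (at_cs hl ρ hj hi).trans ((At.self (sepW (rl ρ j) (2 * v) i)).right (cellW (rl ρ j) rows[j][i]))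
  simpa using this

theorem at_Ys (ρ : Bool) {j : ℕ} (hj : j < rows.length) :
    At (pageW ρ v rows) (Bc v j 0 - 8) (Ys (rl ρ j)) := by
  have := (at_row hl ρ hj).trans ((At.self (Ys (rl ρ j))).left (rowT (rl ρ j) rows[j]))
  convert this using 1
  unfold Bc
  omega

theorem at_Ym (ρ : Bool) {j i : ℕ} (hj : j < rows.length) (hi : i + 1 < 2 * v) :
    At (pageW ρ v rows) (Bc v j i + 524) (Ym (rl ρ j)) := by
  have := at_sep hl hv ρ hj (i := i) (by rw [hl _ (List.getElem_mem hj)]; omega)
  rwa [sepW, if_neg (by omega)] at this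

theorem at_Ye (ρ : Bool) {j i : ℕ} (hj : j < rows.length) (hi : i + 1 = 2 * v) :
    At (pageW ρ v rows) (Bc v j i + 524) (Ye (rl ρ j)) := by
  have := at_sep hl hv ρ hj (i := i) (by rw [hl _ (List.getElem_mem hj)]; omega)
  rwa [sepW, if_pos hi] at this

theorem arc_start (ρ : Bool) {j : ℕ} (hj : j < rows.length) (hr : rl ρ j = true) :
    Arc (pageW ρ v rows) (Bc v j 0 - 1) (Bc v j 0 + 418) ∧
      Arc (pageW ρ v rows) (Bc v j 0 - 6) (Bc v j 0 + 419) := by
  have hA := at_row hl ρ hj
  have hlen := hl _ (List.getElem_mem hj)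
  rw [hr] at hA
  obtain ⟨t, ts, hts⟩ : ∃ t ts, rows[j] = t :: ts := by
    cases h : rows[j] with
    | nil => rw [h] at hlen; simp at hlen; omega
    | cons t ts => exact ⟨t, ts, rfl⟩
  rw [hts, rowW_true] at hA
  have hA' := hA.trans ((At.self (Ys true ++ (uP true ++ bd true t) ++ lP true)).left (gtl ts))
  have h1 : Arc (Ys true ++ lP true) 7 ((Ys true).length + 8) := arcB_sound (by decide +kernel)
  have h2 : Arc (Ys true ++ lP true) 2 ((Ys true).length + 9) := arcB_sound (by decide +kernel)
  have h3 := hA'.arc (h1.insert (by simp) (bal_pblk t))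
  have h4 := hA'.arc (h2.insert (by simp) (bal_pblk t))
  simp only [Ys_length, List.length_append, uP_length, bd_length] at h3 h4
  unfold Bc
  exact ⟨by convert h3 using 1; omega, by convert h4 using 1; omega⟩

omit hl hv in
theorem at_rowT2 : ∀ (l : List Bool) {i : ℕ} (hi : i + 1 < l.length),
    At (rowT true l) (532 * i + 486) (gTc l[i + 1])
  | [], i, hi => absurd hi (Nat.not_lt_zero _)
  | [t], i, hi => by simp at hi
  | t :: t' :: l, 0, _ => by
    have h : rowT true (t :: t' :: l) = (uP true ++ bd true t ++ lP true ++ wP true) ++ gTc t' ++ gtl l := by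
      have := rowT_true t' l
      simp only [rowT, this, cellW, gTc]
      simp
    exact at_mid' h (by simp)
  | t :: t' :: l, i + 1, hi => by
    have ih := at_rowT2 (t' :: l) (i := i) (by simpa using hi)
    have h1 := ih.right (cellW true t ++ Ym true)
    have h2 : 532 * (i + 1) + 486 = (cellW true t ++ Ym true).length + (532 * i + 486) := by simp; ring
    rw [h2]
    exact h1

theorem arc_horiz (ρ : Bool) {j i : ℕ} (hj : j < rows.length) (hr : rl ρ j = true) (hi : i + 1 < 2 * v) :
    Arc (pageW ρ v rows) (Bc v j i + 503) (Bc v j i + 526) ∧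
      Arc (pageW ρ v rows) (Bc v j i + 531) (Bc v j (i + 1) + 418) ∧
      Arc (pageW ρ v rows) (Bc v j i + 502) (Bc v j (i + 1) + 419) := by
  have hlen := hl _ (List.getElem_mem hj)
  have hA := at_row hl ρ hj
  rw [hr] at hA
  have hA2 := hA.trans ((at_rowT2 rows[j] (i := i) (by omega)).right (Ys true))
  set t := rows[j][i + 1]
  have h1 : Arc (rP true ++ Ym true) 17 40 := arcB_sound (by decide +kernel)
  have h2 : Arc ((rP true ++ Ym true) ++ lP true) 45 ((rP true ++ Ym true).length + 8) :=
    arcB_sound (by decide +kernel)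
  have h3 : Arc ((rP true ++ Ym true) ++ lP true) 16 ((rP true ++ Ym true).length + 9) :=
    arcB_sound (by decide +kernel)
  have g1 := hA2.arc ((((At.self (rP true ++ Ym true)).left (uP true ++ bd true t)).left (lP true)).arc h1)
  have g2 := hA2.arc (h2.insert (by simp) (bal_pblk t))
  have g3 := hA2.arc (h3.insert (by simp) (bal_pblk t))
  simp only [Ys_length, List.length_append, uP_length, bd_length, rP_length, Ym_length] at g1 g2 g3
  unfold Bc
  refine ⟨by convert g1 using 1 <;> ring, by convert g2 using 1 <;> ring, by convert g3 using 1 <;> ring⟩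

theorem arc_end (ρ : Bool) {j i : ℕ} (hj : j < rows.length) (hr : rl ρ j = true) (hi : i + 1 = 2 * v) :
    Arc (pageW ρ v rows) (Bc v j i + 503) (Bc v j i + 526) ∧
      Arc (pageW ρ v rows) (Bc v j i + 502) (Bc v j i + 531) := by
  have hA := at_cs hl ρ hj (i := i) (by rw [hl _ (List.getElem_mem hj)]; omega)
  rw [hr, sepW, if_pos hi] at hA
  set t := rows[j][i]'(by rw [hl _ (List.getElem_mem hj)]; omega)
  have hB : At (cellW true t ++ Ye true) 486 (rP true ++ Ye true) := by
    refine at_mid' (u := uP true ++ bd true t ++ lP true ++ wP true) (z := []) ?_ (by simp)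
    simp [cellW]
  have h1 : Arc (rP true ++ Ye true) 17 40 := arcB_sound (by decide +kernel)
  have h2 : Arc (rP true ++ Ye true) 16 45 := arcB_sound (by decide +kernel)
  exact ⟨(hA.trans hB).arc h1, (hA.trans hB).arc h2⟩

theorem arc_vert (ρ : Bool) {j i : ℕ} (hj : j + 1 < rows.length) (hr : rl ρ j = true) (hi : i < 2 * v) :
    Arc (pageW ρ v rows) (Bc v j i + 457) (Bc v j i + 480) ∧
      Arc (pageW ρ v rows) (Bc v j i + 485) (Bc v (j + 1) (2 * v - 1 - i) + 8) ∧
      Arc (pageW ρ v rows) (Bc v j i + 456) (Bc v (j + 1) (2 * v - 1 - i) + 9) := by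
  have hj' : j < rows.length := by omega
  have hlen := hl _ (List.getElem_mem hj')
  have hlen' := hl _ (List.getElem_mem hj)
  refine ⟨?_, ?_⟩
  · have hA := at_cell hl hv ρ hj' (i := i) (by omega)
    rw [hr] at hA
    refine hA.arc ?_
    cases rows[j][i] <;> exact arcB_sound (by decide +kernel)
  · have hA := (at_rows2 (ρ := ρ) hl hj).right (hdW (!ρ) v)
    rw [hdW_length, hr] at hA
    change At (pageW ρ v rows) _ _ at hA
    obtain ⟨t, ts, hts⟩ : ∃ t ts, rows[j] = t :: ts := by
      cases h : rows[j] with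
      | nil => rw [h] at hlen; simp at hlen; omega
      | cons t ts => exact ⟨t, ts, rfl⟩
    rw [hts] at hA hlen
    simp only [List.length_cons] at hlen
    have hB : At (rowW true (t :: ts) ++ rowW (!true) rows[j + 1]) 448 (gtl ts ++ ghb rows[j + 1].reverse) := by
      refine at_mid' (u := Ys true ++ (uP true ++ bd true t) ++ lP true) (z := Ym false) ?_ (by simp)
      rw [rowW_true, Bool.not_true, rowW_false]
      simp
    obtain ⟨a1, a2⟩ := arc_K (ts := ts) (us := rows[j + 1].reverse) (i := i)
      (by rw [List.length_reverse]; omega) (by omega)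
    have c1 := (hA.trans hB).arc a1
    have c2 := (hA.trans hB).arc a2
    have e : (8 + 532 * (2 * v)) * (j + 1) = (8 + 532 * (2 * v)) * j + (8 + 532 * (2 * v)) := by ring
    unfold Bc
    rw [e]
    generalize (8 + 532 * (2 * v)) * j = X at *
    refine ⟨?_, ?_⟩
    · convert c2 using 1 <;> omega
    · convert c1 using 1 <;> omega

theorem at_hdr (_hne : rows ≠ []) (ρ : Bool) {q : ℕ} (hq : q < v) :
    At (pageW ρ v rows) (76 * q) (hd1 (!ρ) ++ hd2 (!ρ)) :=
  (at_hdW (!ρ) hq).left _

theorem arc_hdr (hne : rows ≠ []) {q : ℕ} (hq : q < v) :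
    Arc (pageW false v rows) (76 * q + 7) (76 * q + 28) ∧
      Arc (pageW false v rows) (76 * q + 33) (Bc v 0 (2 * v - 1 - 2 * q) + 8) ∧
      Arc (pageW false v rows) (76 * q + 6) (Bc v 0 (2 * v - 1 - 2 * q) + 9) ∧
      Arc (pageW false v rows) (76 * q + 49) (76 * q + 70) ∧
      Arc (pageW false v rows) (76 * q + 75) (Bc v 0 (2 * v - 2 - 2 * q) + 8) ∧
      Arc (pageW false v rows) (76 * q + 48) (Bc v 0 (2 * v - 2 - 2 * q) + 9) := by
  obtain ⟨r, rs, rfl⟩ := List.exists_cons_of_ne_nil hne
  have hA : At (pageW false v (r :: rs)) 0 (hdW true v ++ ghb r.reverse) := by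
    refine at_mid' (u := []) (z := Ym false ++ rowsW (2 * v) true rs) ?_ rfl
    simp [pageW, rowsW, rowW_false]
  obtain ⟨a1, a2, a3, a4, a5, a6⟩ := arc_H (v := v) (us := r.reverse) (q := q)
    (by rw [List.length_reverse]; exact hl r List.mem_cons_self) hq
  unfold Bc
  refine ⟨?_, ?_, ?_, ?_, ?_, ?_⟩
  · convert hA.arc a1 using 1 <;> omega
  · convert hA.arc a2 using 1 <;> omega
  · convert hA.arc a3 using 1 <;> omega
  · convert hA.arc a4 using 1 <;> omega
  · convert hA.arc a5 using 1 <;> omega
  · convert hA.arc a6 using 1 <;> omega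

end

end Pool.Agent.D3
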