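import Pool.Agent.Lib.H50D3.Base
import Pool.Agent.Lib.H50D3.Dfs

/-!
# Distance 3: plane trees on intervals
-/

set_option autoImplicit false

namespace Pool.Agent.D3

/-- a plane spanning tree on `0, …, N - 1`, as a relation on `ℕ` -/
structure TreeR (N : ℕ) (E : ℕ → ℕ → Prop) : Prop where
  symm : ∀ {x y}, E x y → E y x
  bd : ∀ {x y}, E x y → x < N
  nc : ∀ {u v x y}, E u v → E x y → u < x → x < v → u ≤ y ∧ y ≤ v
  conn : ∀ S : ℕ → Prop, (∃ x, x < N ∧ S x) → (∃ y, y < N ∧ ¬ S y) → ∃ x y, E x y ∧ S x ∧ ¬ S y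
  bridge : ∀ {u v}, E u v → ∃ S : ℕ → Prop, S u ∧ ¬ S v ∧
    ∀ x y, E x y → S x → ¬ S y → x = u ∧ y = v

/-- a plane perfect matching on `0, …, N - 1`, as a relation on `ℕ` -/
structure MatchR (N : ℕ) (Q : ℕ → ℕ → Prop) : Prop where
  symm : ∀ {x y}, Q x y → Q y x
  bd : ∀ {x y}, Q x y → x < N
  ex : ∀ {x}, x < N → ∃ y, Q x y
  uniq : ∀ {x y z}, Q x y → Q x z → y = z
  irr : ∀ {x}, ¬ Q x x
  nc : ∀ {u v x y}, Q u v → Q x y → u < x → x < v → u < y ∧ y < v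

/-- the tree is disjoint compatible with the matching -/
def CompR (E Q : ℕ → ℕ → Prop) : Prop :=
  ∀ u v, E u v → u < v → ¬ Q u v ∧ ∀ x y, u < x → x < v → Q x y → u ≤ y ∧ y ≤ v

/-- the interval `[i, j]` is connected (cut version) -/
def cn (E : ℕ → ℕ → Prop) (i j : ℕ) : Prop :=
  ∀ S : ℕ → Prop, (∃ x, i ≤ x ∧ x ≤ j ∧ S x) → (∃ y, i ≤ y ∧ y ≤ j ∧ ¬ S y) →
    ∃ x y, i ≤ x ∧ x ≤ j ∧ i ≤ y ∧ y ≤ j ∧ S x ∧ ¬ S y ∧ E x y

/-- the interval `[i, j]` is connected or splits into two connected intervals -/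
def spl (E : ℕ → ℕ → Prop) (i j : ℕ) : Prop :=
  cn E i j ∨ ∃ k, i ≤ k ∧ k < j ∧ cn E i k ∧ cn E (k + 1) j

variable {N : ℕ} {E Q : ℕ → ℕ → Prop}

theorem cn_self (i : ℕ) : cn E i i := by
  rintro S ⟨x, h1, h2, h3⟩ ⟨y, h4, h5, h6⟩
  have : x = i := by omega
  have : y = i := by omega
  subst x; subst y
  exact absurd h3 h6

/-- it suffices to look at sets without a given point `p` of the interval -/
theorem cn_of (hE : TreeR N E) {i j : ℕ} (p : ℕ)
    (h : ∀ D : ℕ → Prop, (∃ x, D x) → (∀ x, D x → i ≤ x ∧ x ≤ j) → ¬ D p →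
      ∃ x y, D x ∧ ¬ D y ∧ i ≤ y ∧ y ≤ j ∧ E x y) : cn E i j := by
  rintro S ⟨x, h1, h2, h3⟩ ⟨y, h4, h5, h6⟩
  by_cases hS : S p
  · obtain ⟨a, b, ha, hb, hb1, hb2, hab⟩ := h (fun z => i ≤ z ∧ z ≤ j ∧ ¬ S z) ⟨y, h4, h5, h6⟩
      (fun z hz => ⟨hz.1, hz.2.1⟩) (fun hz => hz.2.2 hS)
    refine ⟨b, a, hb1, hb2, ha.1, ha.2.1, ?_, ha.2.2, hE.symm hab⟩
    by_contra hc
    exact hb ⟨hb1, hb2, hc⟩
  · obtain ⟨a, b, ha, hb, hb1, hb2, hab⟩ := h (fun z => i ≤ z ∧ z ≤ j ∧ S z) ⟨x, h1, h2, h3⟩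
      (fun z hz => ⟨hz.1, hz.2.1⟩) (fun hz => hS hz.2.2)
    exact ⟨a, b, ha.1, ha.2.1, hb1, hb2, ha.2.2, fun hc => hb ⟨hb1, hb2, hc⟩, hab⟩

theorem exists_max {P : ℕ → Prop} {i t : ℕ} (hi : i ≤ t) (hP : P i) :
    ∃ k, i ≤ k ∧ k ≤ t ∧ P k ∧ ∀ x, k < x → x ≤ t → ¬ P x := by
  induction t with
  | zero =>
    have : i = 0 := by omega
    subst this
    exact ⟨0, le_rfl, le_rfl, hP, fun x h1 h2 => by omega⟩
  | succ t ih =>
    by_cases h : P (t + 1)
    · exact ⟨t + 1, hi, le_rfl, h, fun x h1 h2 => by omega⟩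
    · have hit : i ≤ t := by
        by_contra hc
        have : i = t + 1 := by omega
        exact h (this ▸ hP)
      obtain ⟨k, h1, h2, h3, h4⟩ := ih hit
      refine ⟨k, h1, by omega, h3, fun x h5 h6 h7 => ?_⟩
      rcases Nat.lt_or_ge t x with h8 | h8
      · have : x = t + 1 := by omega
        exact h (this ▸ h7)
      · exact h4 x h5 h8 h7

theorem split_of (hE : TreeR N E) {i t : ℕ} (hit : i < t) (S : ℕ → Prop) (hi : S i) (ht : ¬ S t)
    (H : ∀ D : ℕ → Prop, (∃ x, D x) → (∀ x, D x → i < x ∧ x < t) →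
      ∃ x y, D x ∧ ¬ D y ∧ i ≤ y ∧ y ≤ t ∧ (S x ↔ S y) ∧ E x y) :
    ∃ k, i ≤ k ∧ k < t ∧ cn E i k ∧ cn E (k + 1) t := by
  obtain ⟨k, hk1, hk2, hk3, hk4⟩ := exists_max (P := S) hit.le hi
  have hkt : k < t := lt_of_le_of_ne hk2 (fun h => ht (h ▸ hk3))
  have claim : ∀ x, i ≤ x → x ≤ k → S x := by
    intro y hy1 hy2
    by_contra hy3
    have hyi : y ≠ i := fun h => hy3 (h ▸ hi)
    have hyk : y ≠ k := fun h => hy3 (h ▸ hk3)
    obtain ⟨z, z', hz, hz', hz1, hz2, hzz, hE1⟩ := H (fun z => i < z ∧ z < k ∧ ¬ S z)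
      ⟨y, by omega, by omega, hy3⟩ (fun x hx => ⟨hx.1, by omega⟩)
    have hz'S : ¬ S z' := fun h => hz.2.2 (hzz.2 h)
    have hz'i : z' ≠ i := fun h => hz'S (h ▸ hi)
    have hz'k : k < z' := by
      have : z' ≠ k := fun h => hz'S (h ▸ hk3)
      by_contra hc
      exact hz' ⟨by omega, by omega, hz'S⟩
    obtain ⟨c, c', hc, hc', hc1, hc2, hcc, hE2⟩ := H (fun c => z < c ∧ c ≤ k ∧ S c)
      ⟨k, hz.2.1, le_rfl, hk3⟩ (fun x hx => ⟨by omega, by omega⟩)
    have hc'S : S c' := hcc.1 hc.2.2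
    have hc'k : c' ≤ k := by
      by_contra hcon
      exact hk4 c' (by omega) hc2 hc'S
    have hc'z : c' ≠ z := fun h => hz.2.2 (h ▸ hc'S)
    have hc'z2 : c' < z := by
      by_contra hcon
      exact hc' ⟨by omega, hc'k, hc'S⟩
    have := hE.nc hE1 hE2 hc.1 (by omega)
    omega
  refine ⟨k, hk1, hkt, cn_of hE i ?_, cn_of hE t ?_⟩
  · intro D hD hD2 hDi
    obtain ⟨x, y, h1, h2, h3, h4, h5, h6⟩ := H D hD (fun x hx => by
      have := hD2 x hx
      have : x ≠ i := fun h => hDi (h ▸ hx)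
      omega)
    refine ⟨x, y, h1, h2, h3, ?_, h6⟩
    have hx := hD2 x h1
    have : S y := h5.1 (claim x hx.1 hx.2)
    by_contra hc
    exact hk4 y (by omega) h4 this
  · intro D hD hD2 hDt
    obtain ⟨x, y, h1, h2, h3, h4, h5, h6⟩ := H D hD (fun x hx => by
      have := hD2 x hx
      have : x ≠ t := fun h => hDt (h ▸ hx)
      omega)
    refine ⟨x, y, h1, h2, ?_, h4, h6⟩
    have hx := hD2 x h1
    have hxS : ¬ S x := hk4 x (by omega) hx.2
    by_contra hc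
    exact hxS (h5.2 (claim y h3 (by omega)))

theorem cn_decomp (hE : TreeR N E) {i t : ℕ} (hit : i < t) (h : cn E i t) :
    (∃ k, i < k ∧ k < t ∧ cn E i k ∧ cn E k t) ∨
      (E i t ∧ ∃ k, i ≤ k ∧ k < t ∧ cn E i k ∧ cn E (k + 1) t) := by
  by_cases hit' : E i t
  · right
    obtain ⟨S, hi, ht, hS⟩ := hE.bridge hit'
    refine ⟨hit', split_of hE hit S hi ht ?_⟩
    rintro D ⟨x, hx⟩ hD
    have hDx := hD x hx
    obtain ⟨a, b, h1, h2, h3, h4, h5, h6, h7⟩ := h D ⟨x, hDx.1.le, hDx.2.le, hx⟩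
      ⟨i, le_rfl, hit.le, fun hi => absurd (hD i hi).1 (lt_irrefl _)⟩
    have ha := hD a h5
    refine ⟨a, b, h5, h6, h3, h4, ⟨fun hSa => ?_, fun hSb => ?_⟩, h7⟩
    · by_contra hSb
      have := hS a b h7 hSa hSb
      omega
    · by_contra hSa
      have := hS b a (hE.symm h7) hSb hSa
      omega
  · left
    obtain ⟨a, y, -, -, h3, h4, h5, h6, h7⟩ := h (fun x => x = i) ⟨i, le_rfl, hit.le, rfl⟩
      ⟨t, hit.le, le_rfl, by omega⟩
    subst h5
    obtain ⟨k, hk1, hk2, hk3, hk4⟩ := exists_max (P := fun x => a < x ∧ E a x) (i := y) h4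
      ⟨by omega, h7⟩
    have hkt : k ≠ t := fun hc => hit' (hc ▸ hk3.2)
    refine ⟨k, hk3.1, by omega, cn_of hE k ?_,
      cn_of hE k ?_⟩
    · rintro D ⟨x, hx⟩ hD hDk
      have hDx := hD x hx
      obtain ⟨u, v, g1, g2, g3, g4, g5, g6, g7⟩ := h D ⟨x, by omega, by omega, hx⟩
        ⟨k, by omega, by omega, hDk⟩
      refine ⟨u, v, g5, g6, g3, ?_, g7⟩
      have hu := hD u g5
      have huk : u ≠ k := fun hc => hDk (hc ▸ g5)
      by_contra hc
      rcases Nat.eq_or_lt_of_le hu.1 with h8 | h8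
      · subst h8
        exact hk4 v (by omega) g4 ⟨by omega, g7⟩
      · have := hE.nc hk3.2 g7 h8 (by omega)
        omega
    · rintro D ⟨x, hx⟩ hD hDk
      have hDx := hD x hx
      obtain ⟨u, v, g1, g2, g3, g4, g5, g6, g7⟩ := h D ⟨x, by omega, by omega, hx⟩
        ⟨k, by omega, by omega, hDk⟩
      refine ⟨u, v, g5, g6, ?_, g4, g7⟩
      have hu := hD u g5
      have huk : u ≠ k := fun hc => hDk (hc ▸ g5)
      by_contra hc
      rcases Nat.eq_or_lt_of_le g3 with h8 | h8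
      · subst h8
        exact hk4 u (by omega) hu.2 ⟨by omega, hE.symm g7⟩
      · have := hE.nc hk3.2 (hE.symm g7) h8 (by omega)
        omega

theorem spl_of_closed (hE : TreeR N E) {i t : ℕ} (hit : i < t) (htN : t < N)
    (hcl : ∀ x y, i < x → x < t → E x y → i ≤ y ∧ y ≤ t) : spl E i t := by
  by_cases hcn : cn E i t
  · exact Or.inl hcn
  right
  have key : ∃ S : ℕ → Prop, S i ∧ (∃ y, i ≤ y ∧ y ≤ t ∧ ¬ S y) ∧
      ∀ x y, i ≤ x → x ≤ t → i ≤ y → y ≤ t → E x y → (S x ↔ S y) := by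
    unfold cn at hcn
    push Not at hcn
    obtain ⟨S, ⟨x, hx1, hx2, hx3⟩, ⟨y, hy1, hy2, hy3⟩, hS⟩ := hcn
    have hS' : ∀ x y, i ≤ x → x ≤ t → i ≤ y → y ≤ t → E x y → (S x ↔ S y) := by
      intro a c h1 h2 h3 h4 h5
      constructor
      · intro h6
        by_contra h7
        exact hS a c h1 h2 h3 h4 h6 h7 h5
      · intro h6
        by_contra h7
        exact hS c a h3 h4 h1 h2 h6 h7 (hE.symm h5)
    by_cases hSi : S i
    · exact ⟨S, hSi, ⟨y, hy1, hy2, hy3⟩, hS'⟩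
    · exact ⟨fun z => ¬ S z, hSi, ⟨x, hx1, hx2, fun h => h hx3⟩,
        fun a c h1 h2 h3 h4 h5 => not_congr (hS' a c h1 h2 h3 h4 h5)⟩
  obtain ⟨S, hi, ⟨y0, hy1, hy2, hy3⟩, hS⟩ := key
  have hconn : ∀ D : ℕ → Prop, (∃ x, D x) → (∀ x, D x → i < x ∧ x < t) →
      ∃ x y, D x ∧ ¬ D y ∧ i ≤ y ∧ y ≤ t ∧ (S x ↔ S y) ∧ E x y := by
    rintro D ⟨x, hx⟩ hD
    have hDx := hD x hx
    obtain ⟨a, c, h1, h2, h3⟩ := hE.conn D ⟨x, by omega, hx⟩
      ⟨i, by omega, fun hi => absurd (hD i hi).1 (lt_irrefl _)⟩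
    have ha := hD a h2
    have hc := hcl a c ha.1 ha.2 h1
    exact ⟨a, c, h2, h3, hc.1, hc.2, hS a c ha.1.le ha.2.le hc.1 hc.2 h1, h1⟩
  refine split_of hE hit S hi (fun hSt => ?_) hconn
  obtain ⟨a, c, h1, h2, h3, h4, h5, h6⟩ := hconn (fun z => i ≤ z ∧ z ≤ t ∧ ¬ S z)
    ⟨y0, hy1, hy2, hy3⟩ (fun z hz => by
      have h1 : z ≠ i := fun h => hz.2.2 (h ▸ hi)
      have h2 : z ≠ t := fun h => hz.2.2 (h ▸ hSt)
      omega)
  exact h2 ⟨h3, h4, fun h => h1.2.2 (h5.2 h)⟩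

theorem cn_of_closed (hE : TreeR N E) {i t p : ℕ} (hp1 : i ≤ p) (hp2 : p ≤ t) (htN : t < N)
    (hcl : ∀ x y, i ≤ x → x ≤ t → x ≠ p → E x y → i ≤ y ∧ y ≤ t) : cn E i t := by
  refine cn_of hE p ?_
  rintro D ⟨x, hx⟩ hD hDp
  have hDx := hD x hx
  obtain ⟨a, c, h1, h2, h3⟩ := hE.conn D ⟨x, by omega, hx⟩ ⟨p, by omega, hDp⟩
  have ha := hD a h2
  have hc := hcl a c ha.1 ha.2 (fun h => hDp (h ▸ h2)) h1
  exact ⟨a, c, h2, h3, hc.1, hc.2, h1⟩

/-! ### Windows -/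

/-- an edge leaves the window `[b, b + L)` at position `b + e` -/
def Ext (E : ℕ → ℕ → Prop) (b L e : ℕ) : Prop := ∃ z, (z < b ∨ b + L ≤ z) ∧ E (b + e) z

variable {b L : ℕ}

theorem exits_spl (hE : TreeR N E) (hN : b + L ≤ N) {e f : ℕ} (hef : e < f) (hf : f < L)
    (h1 : Ext E b L e) (h2 : Ext E b L f) (h3 : ∀ x, e < x → x < f → ¬ Ext E b L x) :
    spl E (b + e) (b + f) := by
  refine spl_of_closed hE (by omega) (by omega) ?_
  intro x y hx1 hx2 hxy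
  obtain ⟨x', rfl⟩ : ∃ x', x = b + x' := ⟨x - b, by omega⟩
  have hx := h3 x' (by omega) (by omega)
  have hy : b ≤ y ∧ y < b + L := by
    by_contra hc
    exact hx ⟨y, by omega, hxy⟩
  obtain ⟨z, hz, hez⟩ := h1
  obtain ⟨z', hz', hez'⟩ := h2
  constructor
  · by_contra hc
    have := hE.nc (hE.symm hxy) hez (by omega) (by omega)
    omega
  · by_contra hc
    have := hE.nc hxy hez' (by omega) (by omega)
    omega

theorem first_exit (hE : TreeR N E) (hN : b + L ≤ N) {f : ℕ} (hf : f < L)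
    (h2 : Ext E b L f) (h3 : ∀ x, x < f → ¬ Ext E b L x) : cn E b (b + f) := by
  refine cn_of_closed hE (p := b + f) (by omega) le_rfl (by omega) ?_
  intro x y hx1 hx2 hxf hxy
  obtain ⟨x', rfl⟩ : ∃ x', x = b + x' := ⟨x - b, by omega⟩
  have hx := h3 x' (by omega)
  have hy : b ≤ y ∧ y < b + L := by
    by_contra hc
    exact hx ⟨y, by omega, hxy⟩
  obtain ⟨z', hz', hez'⟩ := h2
  refine ⟨hy.1, ?_⟩
  by_contra hc
  have := hE.nc hxy hez' (by omega) (by omega)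
  omega

theorem last_exit (hE : TreeR N E) (hN : b + L ≤ N) {f : ℕ} (hf : f < L)
    (h2 : Ext E b L f) (h3 : ∀ x, f < x → x < L → ¬ Ext E b L x) : cn E (b + f) (b + (L - 1)) := by
  refine cn_of_closed hE (p := b + f) le_rfl (by omega) (by omega) ?_
  intro x y hx1 hx2 hxf hxy
  obtain ⟨x', rfl⟩ : ∃ x', x = b + x' := ⟨x - b, by omega⟩
  have hx := h3 x' (by omega) (by omega)
  have hy : b ≤ y ∧ y < b + L := by
    by_contra hc
    exact hx ⟨y, by omega, hxy⟩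
  obtain ⟨z', hz', hez'⟩ := h2
  refine ⟨?_, by omega⟩
  by_contra hc
  have := hE.nc (hE.symm hxy) hez' (by omega) (by omega)
  omega

theorem exists_ext (hE : TreeR N E) (hN : b + L ≤ N) (hb : 0 < b) (hL : 0 < L) :
    ∃ e, e < L ∧ Ext E b L e := by
  obtain ⟨x, y, h1, h2, h3⟩ := hE.conn (fun x => b ≤ x ∧ x < b + L) ⟨b, by omega, le_rfl, by omega⟩
    ⟨0, by omega, by omega⟩
  exact ⟨x - b, by omega, y, by omega, by rwa [show b + (x - b) = x by omega]⟩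

/-! ### Bits -/

theorem nz_of {x i : ℕ} (h : x.testBit i = true) : nz x = true := by
  unfold nz
  cases hx : Nat.beq x 0
  · rfl
  · have := Nat.eq_of_beq_eq_true hx
    subst this
    simp at h

theorem tb_land (x y i : ℕ) : (Nat.land x y).testBit i = (x.testBit i && y.testBit i) :=
  Nat.testBit_and x y i

theorem tb_lor (x y i : ℕ) : (Nat.lor x y).testBit i = (x.testBit i || y.testBit i) :=
  Nat.testBit_or x y i

theorem tb_xor (x y i : ℕ) : (Nat.xor x y).testBit i = Bool.xor (x.testBit i) (y.testBit i) :=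
  Nat.testBit_xor x y i

theorem tb_shift (x i : ℕ) : (Nat.shiftLeft x 1).testBit (i + 1) = x.testBit i := by
  show (x <<< 1).testBit (i + 1) = x.testBit i
  rw [Nat.testBit_shiftLeft]
  simp

theorem tb_pow (i : ℕ) : (2 ^ i).testBit i = true := Nat.testBit_two_pow_self

theorem shift_pow (i : ℕ) : Nat.shiftLeft (2 ^ i) 1 = 2 ^ (i + 1) := by
  show (2 ^ i) <<< 1 = _
  rw [Nat.shiftLeft_eq, pow_one, ← pow_succ]

/-- the rows for the positions `i - 1, …, 0` -/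
def RowsOK (C : ℕ → ℕ → Prop) : ℕ → List (ℕ × ℕ) → Prop
  | 0, [] => True
  | 0, _ :: _ => False
  | _ + 1, [] => False
  | i + 1, r :: rs => r.1 = 2 ^ i ∧ (∀ k, C i k → r.2.testBit k = true) ∧ RowsOK C i rs

theorem RowsOK.mem {C : ℕ → ℕ → Prop} : ∀ {t : ℕ} {rows : List (ℕ × ℕ)}, RowsOK C t rows →
    ∀ i < t, ∃ r ∈ rows, r.1 = 2 ^ i ∧ ∀ k, C i k → r.2.testBit k = true
  | 0, [], _, i, hi => absurd hi (by omega)
  | 0, _ :: _, h, _, _ => absurd h (by simp [RowsOK])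
  | _ + 1, [], h, _, _ => absurd h (by simp [RowsOK])
  | t + 1, r :: rs, h, i, hi => by
    rcases Nat.lt_or_ge i t with h1 | h1
    · obtain ⟨r', h2, h3⟩ := RowsOK.mem h.2.2 i h1
      exact ⟨r', List.mem_cons_of_mem _ h2, h3⟩
    · have : i = t := by omega
      subst this
      exact ⟨r, List.mem_cons_self, h.1, h.2.1⟩

theorem RowsOK.mono {C D : ℕ → ℕ → Prop} (hCD : ∀ i k, D i k → C i k) :
    ∀ {t : ℕ} {rows : List (ℕ × ℕ)}, RowsOK C t rows → RowsOK D t rows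
  | 0, [], _ => trivial
  | 0, _ :: _, h => absurd h (by simp [RowsOK])
  | _ + 1, [], h => absurd h (by simp [RowsOK])
  | t + 1, _ :: _, h => ⟨h.1, fun k hk => h.2.1 k (hCD t k hk), RowsOK.mono hCD h.2.2⟩

theorem or_eq_true' {a b : Bool} : or a b = true ↔ a = true ∨ b = true := by cases a <;> cases b <;> simp

theorem and_eq_true' {a b : Bool} : and a b = true ↔ a = true ∧ b = true := by
  cases a <;> cases b <;> simp

/-- the pairs known before the column of `t` -/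
def Cb (E : ℕ → ℕ → Prop) (b t i k : ℕ) : Prop := i ≤ k ∧ k < t ∧ cn E (b + i) (b + k)

theorem colAux_ok (hE : TreeR N E) {t al : ℕ}
    (hal : ∀ i < t, E (b + i) (b + t) → al.testBit i = true) :
    ∀ (i : ℕ) (rows : List (ℕ × ℕ)) (col : ℕ), i ≤ t → RowsOK (Cb E b t) i rows →
      (∀ k, i ≤ k → k ≤ t → cn E (b + k) (b + t) → col.testBit k = true) →
      RowsOK (Cb E b (t + 1)) i (colAux al (2 ^ t) rows col).1 ∧
        ∀ k, k ≤ t → cn E (b + k) (b + t) → (colAux al (2 ^ t) rows col).2.testBit k = true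
  | 0, [], col, _, _, hcol => ⟨trivial, fun k hk => hcol k (Nat.zero_le _) hk⟩
  | 0, _ :: _, _, _, h, _ => absurd h (by simp [RowsOK])
  | _ + 1, [], _, _, h, _ => absurd h (by simp [RowsOK])
  | i + 1, r :: rs, col, hit, h, hcol => by
    obtain ⟨hr1, hr2, hrs⟩ := h
    have hcond : cn E (b + i) (b + t) → ccond al col r.1 r.2 = true := by
      intro hc
      unfold ccond
      rw [or_eq_true', and_eq_true']
      rcases cn_decomp hE (by omega) hc with ⟨k, h1, h2, h3, h4⟩ | ⟨h0, k, h1, h2, h3, h4⟩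
      · left
        obtain ⟨k', rfl⟩ : ∃ k', k = b + k' := ⟨k - b, by omega⟩
        refine nz_of (i := k') ?_
        rw [tb_land, hr2 k' ⟨by omega, by omega, h3⟩, hcol k' (by omega) (by omega) h4]
        rfl
      · right
        obtain ⟨k', rfl⟩ : ∃ k', k = b + k' := ⟨k - b, by omega⟩
        refine ⟨nz_of (i := i) ?_, nz_of (i := k' + 1) ?_⟩
        · rw [tb_land, hal i (by omega) h0, hr1, tb_pow]
          rfl
        · rw [tb_land, tb_shift, hr2 k' ⟨by omega, by omega, h3⟩,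
            hcol (k' + 1) (by omega) (by omega) (by rwa [show b + (k' + 1) = b + k' + 1 by omega])]
          rfl
    unfold colAux
    cases hcc : ccond al col r.1 r.2
    · have hnc : ¬ cn E (b + i) (b + t) := fun h => by simp [hcond h] at hcc
      have ih := colAux_ok hE hal i rs col (by omega) hrs (fun k hk1 hk2 hk3 => by
        rcases Nat.eq_or_lt_of_le hk1 with h1 | h1
        · subst h1; exact absurd hk3 hnc
        · exact hcol k h1 hk2 hk3)
      refine ⟨⟨hr1, fun k hk => ?_, ih.1⟩, ih.2⟩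
      rcases Nat.lt_or_ge k t with h1 | h1
      · exact hr2 k ⟨hk.1, h1, hk.2.2⟩
      · have : k = t := by have := hk.2.1; omega
        subst this
        exact absurd hk.2.2 hnc
    · have ih := colAux_ok hE hal i rs (Nat.lor col r.1) (by omega) hrs (fun k hk1 hk2 hk3 => by
        rw [tb_lor]
        rcases Nat.eq_or_lt_of_le hk1 with h1 | h1
        · subst h1; rw [hr1, tb_pow]; simp
        · rw [hcol k h1 hk2 hk3]; simp)
      refine ⟨⟨hr1, fun k hk => ?_, ih.1⟩, ih.2⟩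
      show (Nat.lor r.2 (2 ^ t)).testBit k = true
      rw [tb_lor]
      rcases Nat.lt_or_ge k t with h1 | h1
      · rw [hr2 k ⟨hk.1, h1, hk.2.2⟩]; simp
      · have : k = t := by have := hk.2.1; omega
        subst this
        rw [tb_pow]; simp

end Pool.Agent.D3
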