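import Pool.Agent.Lib.H50D3.Base

/-!
# Bracket words: heights, balanced words, matched pairs, the matching graph
-/

set_option autoImplicit false

namespace Pool.Agent.D3

/-! ### Heights -/

@[simp] theorem ht_zero (w : List Bool) : ht w 0 = 0 := by simp [ht]

@[simp] theorem ht_nil (t : ℕ) : ht [] t = 0 := by simp [ht]

theorem sg_eq_or (b : Bool) : sg b = 1 ∨ sg b = -1 := by cases b <;> simp [sg]

@[simp] theorem sg_true : sg true = 1 := rfl

@[simp] theorem sg_false : sg false = -1 := rfl

theorem ht_cons (b : Bool) (w : List Bool) (t : ℕ) : ht (b :: w) (t + 1) = sg b + ht w t := by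
  simp [ht]

theorem ht_succ {w : List Bool} {t : ℕ} (h : t < w.length) : ht w (t + 1) = ht w t + sg w[t] := by
  simp only [ht]
  rw [List.take_add_one, List.getElem?_eq_getElem h, List.map_append, List.sum_append]
  congr 1
  show (List.map sg [w[t]]).sum = sg w[t]
  rw [List.map_cons, List.map_nil, List.sum_singleton]

theorem ht_succ_eq_or {w : List Bool} {t : ℕ} (h : t < w.length) :
    ht w (t + 1) = ht w t + 1 ∨ ht w (t + 1) = ht w t - 1 := by
  rw [ht_succ h]
  rcases sg_eq_or w[t] with h | h <;> rw [h]
  · exact Or.inl rfl
  · exact Or.inr rfl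

theorem ht_of_length_le {w : List Bool} {t : ℕ} (h : w.length ≤ t) : ht w t = ht w w.length := by
  simp only [ht]
  rw [List.take_of_length_le h, List.take_length]

theorem ht_append_left {u v : List Bool} {t : ℕ} (h : t ≤ u.length) : ht (u ++ v) t = ht u t := by
  simp only [ht]
  rw [List.take_append_of_le_length h]

theorem ht_append_right (u v : List Bool) (t : ℕ) :
    ht (u ++ v) (u.length + t) = ht u u.length + ht v t := by
  simp only [ht]
  rw [List.take_length_add_append, List.take_length, List.map_append, List.sum_append]

theorem ht_append_length (u v : List Bool) :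
    ht (u ++ v) (u ++ v).length = ht u u.length + ht v v.length := by
  rw [List.length_append, ht_append_right]

/-! ### Balanced words -/

theorem Bal.nil : Bal [] := by simp [Bal]

theorem Bal.ht_nonneg {w : List Bool} (h : Bal w) (t : ℕ) : 0 ≤ ht w t := by
  rcases le_total t w.length with ht | ht
  · exact h.1 t ht
  · rw [ht_of_length_le ht]
    exact h.1 _ le_rfl

theorem Bal.append {u v : List Bool} (hu : Bal u) (hv : Bal v) : Bal (u ++ v) := by
  refine ⟨fun t ht' => ?_, ?_⟩
  · rcases le_total t u.length with h | h
    · rw [ht_append_left h]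
      exact hu.1 t h
    · obtain ⟨s, rfl⟩ := Nat.exists_eq_add_of_le h
      rw [ht_append_right, hu.2]
      simpa using hv.ht_nonneg s
  · rw [ht_append_length, hu.2, hv.2]
    simp

theorem Bal.insert {u z v : List Bool} (h : Bal (u ++ v)) (hz : Bal z) : Bal (u ++ z ++ v) := by
  refine ⟨fun t ht' => ?_, ?_⟩
  · rcases le_total t u.length with h1 | h1
    · rw [List.append_assoc, ht_append_left h1, ← ht_append_left (v := v) h1]
      exact h.ht_nonneg t
    · obtain ⟨s, rfl⟩ := Nat.exists_eq_add_of_le h1
      rcases le_total s z.length with h2 | h2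
      · rw [List.append_assoc, ht_append_right, ht_append_left h2]
        have e : 0 ≤ ht u u.length := by
          rw [← ht_append_left (v := v) le_rfl]
          exact h.ht_nonneg _
        have e' := hz.1 s h2
        omega
      · obtain ⟨r, rfl⟩ := Nat.exists_eq_add_of_le h2
        rw [List.append_assoc, ht_append_right, ht_append_right, hz.2]
        have e : 0 ≤ ht (u ++ v) (u.length + r) := h.ht_nonneg _
        rw [ht_append_right] at e
        omega
  · have e := h.2
    rw [ht_append_length] at e
    rw [ht_append_length, ht_append_length, hz.2]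
    omega

theorem Bal.wrap {u : List Bool} (h : Bal u) : Bal (true :: (u ++ [false])) := by
  refine ⟨fun t ht' => ?_, ?_⟩
  · cases t with
    | zero => simp
    | succ t =>
      rw [ht_cons]
      rcases le_total t u.length with h1 | h1
      · rw [ht_append_left h1]
        have := h.1 t h1
        simp only [sg_true]
        omega
      · obtain ⟨s, rfl⟩ := Nat.exists_eq_add_of_le h1
        rw [ht_append_right, h.2]
        cases s with
        | zero => simp
        | succ s => rw [ht_cons]; simp
  · simp only [List.length_cons, ht_cons, ht_append_length, h.2]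
    simp [ht]

/-! ### Matched pairs -/

theorem Arc.lt {w : List Bool} {i j : ℕ} (h : Arc w i j) : i < j := h.1

theorem Arc.lt_length {w : List Bool} {i j : ℕ} (h : Arc w i j) : j < w.length := h.2.1

theorem Arc.lt_length' {w : List Bool} {i j : ℕ} (h : Arc w i j) : i < w.length := h.1.trans h.2.1

theorem Arc.ht_eq {w : List Bool} {i j : ℕ} (h : Arc w i j) : ht w i = ht w (j + 1) := h.2.2.1

theorem Arc.ht_lt {w : List Bool} {i j : ℕ} (h : Arc w i j) {t : ℕ} (h1 : i < t) (h2 : t ≤ j) :
    ht w i < ht w t := h.2.2.2 t h1 h2

theorem Arc.getElem_left {w : List Bool} {i j : ℕ} (h : Arc w i j) :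
    w[i]'h.lt_length' = true := by
  have h1 := h.ht_lt (Nat.lt_succ_self i) h.lt
  rw [ht_succ h.lt_length'] at h1
  cases hb : w[i]'h.lt_length'
  · rw [hb, sg_false] at h1
    omega
  · rfl

theorem Arc.getElem_right {w : List Bool} {i j : ℕ} (h : Arc w i j) :
    w[j]'h.lt_length = false := by
  have h1 := h.ht_lt h.lt le_rfl
  have h2 := h.ht_eq
  rw [ht_succ h.lt_length] at h2
  cases hb : w[j]'h.lt_length
  · rfl
  · rw [hb, sg_true] at h2
    omega

theorem Arc.local_iff {u c z : List Bool} {i j : ℕ} (hj : j < c.length) :
    Arc (u ++ c ++ z) (u.length + i) (u.length + j) ↔ Arc c i j := by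
  have key : ∀ t ≤ c.length, ht (u ++ c ++ z) (u.length + t) = ht u u.length + ht c t := by
    intro t h
    rw [List.append_assoc, ht_append_right, ht_append_left h]
  constructor
  · rintro ⟨h1, h2, h3, h4⟩
    have hij : i < j := by omega
    refine ⟨hij, hj, ?_, fun t ht1 ht2 => ?_⟩
    · rw [add_assoc, key (j + 1) (by omega), key i (by omega)] at h3
      omega
    · have := h4 (u.length + t) (by omega) (by omega)
      rw [key t (by omega), key i (by omega)] at this
      omega
  · rintro ⟨h1, h2, h3, h4⟩
    refine ⟨by omega, ?_, ?_, fun t ht1 ht2 => ?_⟩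
    · simp only [List.length_append]
      omega
    · rw [add_assoc, key (j + 1) (by omega), key i (by omega), h3]
    · obtain ⟨s, rfl⟩ := Nat.exists_eq_add_of_le (show u.length ≤ t by omega)
      rw [key s (by omega), key i (by omega)]
      have := h4 s (by omega) (by omega)
      omega

theorem Arc.insert {c z d : List Bool} {a b : ℕ} (h : Arc (c ++ d) a (c.length + b))
    (ha : a < c.length) (hz : Bal z) : Arc (c ++ z ++ d) a (c.length + z.length + b) := by
  obtain ⟨h1, h2, h3, h4⟩ := h
  have hb : b < d.length := by
    simp only [List.length_append] at h2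
    omega
  have k1 : ∀ t ≤ c.length, ht (c ++ z ++ d) t = ht (c ++ d) t := by
    intro t h
    rw [List.append_assoc, ht_append_left h, ht_append_left h]
  have k2 : ∀ t ≤ z.length, ht (c ++ z ++ d) (c.length + t) = ht c c.length + ht z t := by
    intro t h
    rw [List.append_assoc, ht_append_right, ht_append_left h]
  have k3 : ∀ t, ht (c ++ z ++ d) (c.length + z.length + t) = ht (c ++ d) (c.length + t) := by
    intro t
    rw [List.append_assoc, add_assoc, ht_append_right, ht_append_right, ht_append_right, hz.2]
    omega
  refine ⟨by omega, ?_, ?_, fun t ht1 ht2 => ?_⟩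
  · simp only [List.length_append]
    omega
  · rw [add_assoc _ b 1, k1 a (by omega), k3 (b + 1), h3, add_assoc]
  · rw [k1 a (by omega)]
    rcases le_total t c.length with e | e
    · rw [k1 t e]
      exact h4 t ht1 (by omega)
    · obtain ⟨s, rfl⟩ := Nat.exists_eq_add_of_le e
      rcases le_total s z.length with e2 | e2
      · rw [k2 s e2]
        have e3 := hz.1 s e2
        have e4 := h4 c.length (by omega) (by omega)
        rw [ht_append_left le_rfl] at e4
        omega
      · obtain ⟨r, rfl⟩ := Nat.exists_eq_add_of_le e2
        rw [← add_assoc, k3 r]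
        exact h4 _ (by omega) (by omega)

theorem Arc.unique_right {w : List Bool} {a b c : ℕ} : Arc w a b → Arc w a c → b = c := by
  intro h h'
  by_contra hne
  rcases lt_or_gt_of_ne hne with hlt | hlt
  · have := h'.ht_lt (t := b + 1) (by have := h.lt; omega) (by omega)
    rw [h.ht_eq] at this
    exact absurd this (lt_irrefl _)
  · have := h.ht_lt (t := c + 1) (by have := h'.lt; omega) (by omega)
    rw [h'.ht_eq] at this
    exact absurd this (lt_irrefl _)

theorem Arc.unique_left {w : List Bool} {a b c : ℕ} : Arc w a c → Arc w b c → a = b := by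
  intro h h'
  by_contra hne
  rcases lt_or_gt_of_ne hne with hlt | hlt
  · have := h.ht_lt hlt h'.lt.le
    rw [h.ht_eq, h'.ht_eq] at this
    exact absurd this (lt_irrefl _)
  · have := h'.ht_lt hlt h.lt.le
    rw [h.ht_eq, h'.ht_eq] at this
    exact absurd this (lt_irrefl _)

theorem Arc.not_both {w : List Bool} {a b c : ℕ} : Arc w a b → ¬ Arc w b c := by
  intro h h'
  have h1 := h.ht_lt h.lt le_rfl
  have h2 := h'.ht_lt (Nat.lt_succ_self b) h'.lt
  rw [h.ht_eq] at h1
  exact absurd (h1.trans h2) (lt_irrefl _)

theorem Arc.noncross {w : List Bool} {a b c d : ℕ} :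
    Arc w a b → Arc w c d → ¬ (a < c ∧ c < b ∧ b < d) := by
  rintro h h' ⟨h1, h2, h3⟩
  have e1 := h.ht_lt h1 h2.le
  have e2 := h'.ht_lt (t := b + 1) (by omega) (by omega)
  rw [← h.ht_eq] at e2
  exact absurd (e1.trans e2) (lt_irrefl _)

theorem exists_partner {w : List Bool} (hw : Bal w) {i : ℕ} (hi : i < w.length) :
    ∃ j < w.length, Arc w i j ∨ Arc w j i := by
  classical
  rcases ht_succ_eq_or hi with h | h
  · -- an opening bracket
    have hex : ∃ t, i < t ∧ t ≤ w.length ∧ ht w t ≤ ht w i :=
      ⟨w.length, hi, le_rfl, by rw [hw.2]; exact hw.ht_nonneg i⟩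
    obtain ⟨h1, h2, h3⟩ := Nat.find_spec hex
    have hmin : ∀ s, i < s → s < Nat.find hex → ht w i < ht w s := by
      intro s hs1 hs2
      by_contra hc
      exact Nat.find_min hex hs2 ⟨hs1, by omega, not_lt.mp hc⟩
    set m := Nat.find hex with hm
    have hm1 : m ≠ i + 1 := by
      intro e
      rw [e, h] at h3
      omega
    obtain ⟨j, hj⟩ : ∃ j, m = j + 1 := ⟨m - 1, by omega⟩
    refine ⟨j, by omega, Or.inl ⟨by omega, by omega, ?_, fun t ht1 ht2 => hmin t ht1 (by omega)⟩⟩
    have e1 := hmin j (by omega) (by omega)
    rw [hj] at h3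
    rcases ht_succ_eq_or (w := w) (t := j) (by omega) with e | e <;> omega
  · -- a closing bracket
    have hex : ∃ t, t ≤ i ∧ ht w t ≤ ht w (i + 1) :=
      ⟨0, Nat.zero_le _, by rw [ht_zero]; exact hw.ht_nonneg _⟩
    -- the largest one
    have hg : ∃ t, t ≤ i ∧ ht w t ≤ ht w (i + 1) ∧ ∀ s, t < s → s ≤ i → ht w (i + 1) < ht w s := by
      obtain ⟨t0, h0, h0'⟩ := hex
      let P : ℕ → Prop := fun t => ht w t ≤ ht w (i + 1)
      have hsp : P (Nat.findGreatest P i) := Nat.findGreatest_spec (P := P) h0 h0'
      refine ⟨Nat.findGreatest P i, Nat.findGreatest_le i, hsp, fun s hs1 hs2 => ?_⟩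
      have := Nat.findGreatest_is_greatest hs1 hs2
      exact not_le.mp this
    obtain ⟨t, h1, h2, h3⟩ := hg
    have hti : t ≠ i := by
      rintro rfl
      omega
    refine ⟨t, by omega, Or.inr ⟨by omega, hi, ?_, ?_⟩⟩
    · have e1 := h3 (t + 1) (by omega) (by omega)
      rcases ht_succ_eq_or (w := w) (t := t) (by omega) with e | e <;> omega
    · intro s hs1 hs2
      have := h3 s hs1 hs2
      omega

/-! ### The matching graph -/

theorem mg_adj {N : ℕ} {w : List Bool} {a b : Fin N} :
    (mg N w).Adj a b ↔ Arc w a b ∨ Arc w b a := Iff.rfl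

theorem mg_adj_arc {N : ℕ} {w : List Bool} {a b : Fin N} (h : (mg N w).Adj a b) :
    Arc w (min a b : Fin N) (max a b : Fin N) := by
  rcases h with h | h
  · have hlt : a < b := h.lt
    rwa [min_eq_left hlt.le, max_eq_right hlt.le]
  · have hlt : b < a := h.lt
    rwa [min_eq_right hlt.le, max_eq_left hlt.le]

theorem mg_plane {N : ℕ} (w : List Bool) : Plane (mg N w) := by
  rintro a b c d hab hcd (⟨h1, h2, h3⟩ | ⟨h1, h2, h3⟩)
  · exact Arc.noncross (mg_adj_arc hab) (mg_adj_arc hcd) ⟨h1, h2, h3⟩
  · exact Arc.noncross (mg_adj_arc hcd) (mg_adj_arc hab) ⟨h1, h2, h3⟩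

theorem mg_isPM {N : ℕ} {w : List Bool} (hw : Bal w) (hN : w.length = N) : IsPM (mg N w) := by
  subst hN
  intro a
  obtain ⟨j, hj, h⟩ := exists_partner hw a.2
  refine ⟨⟨j, hj⟩, h, ?_⟩
  intro b hb
  apply Fin.ext
  show (b : ℕ) = j
  rcases h with h | h <;> rcases hb with hb | hb
  · exact Arc.unique_right hb h
  · exact absurd h (Arc.not_both hb)
  · exact absurd hb (Arc.not_both h)
  · exact Arc.unique_left hb h

/-! ### Checkers -/

/-- balanced when started from height `h` -/
def balGo : List Bool → ℕ → Bool
  | [], h => h == 0
  | true :: l, h => balGo l (h + 1)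
  | false :: l, h => !(h == 0) && balGo l (h - 1)

/-- a fast test for balanced words -/
def balB (w : List Bool) : Bool := balGo w 0

theorem balGo_sound {l : List Bool} {h : ℕ} (H : balGo l h = true) :
    (∀ t, -(h : ℤ) ≤ ht l t) ∧ ht l l.length = -(h : ℤ) := by
  induction l generalizing h with
  | nil =>
    have : h = 0 := by simpa [balGo] using H
    subst this
    simp
  | cons b l ih =>
    cases b with
    | true =>
      obtain ⟨h1, h2⟩ := ih (h := h + 1) (by simpa [balGo] using H)
      push_cast at h1 h2
      refine ⟨fun t => ?_, ?_⟩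
      · cases t with
        | zero => simp
        | succ t =>
          rw [ht_cons, sg_true]
          have := h1 t
          omega
      · rw [List.length_cons, ht_cons, sg_true, h2]
        omega
    | false =>
      have H' : h ≠ 0 ∧ balGo l (h - 1) = true := by simpa [balGo] using H
      obtain ⟨h1, h2⟩ := ih (h := h - 1) H'.2
      have hh : ((h - 1 : ℕ) : ℤ) = (h : ℤ) - 1 := by
        have := H'.1
        omega
      rw [hh] at h1 h2
      refine ⟨fun t => ?_, ?_⟩
      · cases t with
        | zero => simp
        | succ t =>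
          rw [ht_cons, sg_false]
          have := h1 t
          omega
      · rw [List.length_cons, ht_cons, sg_false, h2]
        omega

theorem balB_sound {w : List Bool} : balB w = true → Bal w := by
  intro H
  obtain ⟨h1, h2⟩ := balGo_sound H
  exact ⟨fun t _ => by simpa using h1 t, by simpa using h2⟩

theorem balGo_complete {l : List Bool} {h : ℕ} (H1 : ∀ t ≤ l.length, -(h : ℤ) ≤ ht l t)
    (H2 : ht l l.length = -(h : ℤ)) : balGo l h = true := by
  induction l generalizing h with
  | nil =>
    have : h = 0 := by simpa using H2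
    subst this
    simp [balGo]
  | cons b l ih =>
    rw [List.length_cons] at H1 H2
    rw [ht_cons] at H2
    cases b with
    | true =>
      simp only [balGo]
      apply ih
      · intro t ht'
        have := H1 (t + 1) (by omega)
        rw [ht_cons, sg_true] at this
        push_cast
        omega
      · rw [sg_true] at H2
        push_cast
        omega
    | false =>
      rw [sg_false] at H2
      have h0 : h ≠ 0 := by
        have := H1 1 (by omega)
        rw [show (1 : ℕ) = 0 + 1 from rfl, ht_cons, sg_false, ht_zero] at this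
        omega
      have hh : ((h - 1 : ℕ) : ℤ) = (h : ℤ) - 1 := by omega
      simp only [balGo, Bool.and_eq_true, Bool.not_eq_true', beq_eq_false_iff_ne]
      refine ⟨h0, ih ?_ ?_⟩
      · intro t ht'
        have := H1 (t + 1) (by omega)
        rw [ht_cons, sg_false] at this
        rw [hh]
        omega
      · rw [hh]
        omega

theorem balB_iff {w : List Bool} : balB w = true ↔ Bal w :=
  ⟨balB_sound, fun h => balGo_complete (by simpa using h.1) (by simpa using h.2)⟩

/-- `arcGo l h j`: from relative height `h + 1`, the first return to relative height `0` is at the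
letter with index `j` -/
def arcGo : List Bool → ℕ → ℕ → Bool
  | [], _, _ => false
  | true :: l, h, j => !(j == 0) && arcGo l (h + 1) (j - 1)
  | false :: l, h, j => cond (h == 0) (j == 0) (!(j == 0) && arcGo l (h - 1) (j - 1))

/-- a fast test for matched pairs -/
def arcB : List Bool → ℕ → ℕ → Bool
  | [], _, _ => false
  | b :: l, i, j => !(j == 0) && cond (i == 0) (b && arcGo l 0 (j - 1)) (arcB l (i - 1) (j - 1))

theorem arcGo_sound {l : List Bool} {h j : ℕ} (H : arcGo l h j = true) :
    j < l.length ∧ (∀ t ≤ j, -(h : ℤ) ≤ ht l t) ∧ ht l (j + 1) = -(h : ℤ) - 1 := by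
  induction l generalizing h j with
  | nil => simp [arcGo] at H
  | cons b l ih =>
    cases b with
    | true =>
      have H' : j ≠ 0 ∧ arcGo l (h + 1) (j - 1) = true := by simpa [arcGo] using H
      obtain ⟨h0, H'⟩ := H'
      obtain ⟨k, rfl⟩ : ∃ k, j = k + 1 := ⟨j - 1, by omega⟩
      rw [Nat.add_sub_cancel] at H'
      obtain ⟨h1, h2, h3⟩ := ih H'
      push_cast at h2 h3
      refine ⟨by simpa using h1, fun t ht' => ?_, ?_⟩
      · cases t with
        | zero => simp
        | succ t =>
          rw [ht_cons, sg_true]
          have := h2 t (by omega)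
          omega
      · rw [ht_cons, sg_true, h3]
        omega
    | false =>
      by_cases hh : h = 0
      · subst hh
        have hj : j = 0 := by simpa [arcGo] using H
        subst hj
        refine ⟨by simp, fun t ht' => ?_, ?_⟩
        · have : t = 0 := by omega
          subst this
          simp
        · rw [ht_cons]
          simp
      · have H' : j ≠ 0 ∧ arcGo l (h - 1) (j - 1) = true := by simpa [arcGo, hh] using H
        obtain ⟨h0, H'⟩ := H'
        obtain ⟨k, rfl⟩ : ∃ k, j = k + 1 := ⟨j - 1, by omega⟩
        obtain ⟨g, rfl⟩ : ∃ g, h = g + 1 := ⟨h - 1, by omega⟩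
        rw [Nat.add_sub_cancel, Nat.add_sub_cancel] at H'
        obtain ⟨h1, h2, h3⟩ := ih H'
        refine ⟨by simpa using h1, fun t ht' => ?_, ?_⟩
        · cases t with
          | zero =>
            rw [ht_zero]
            push_cast
            omega
          | succ t =>
            rw [ht_cons, sg_false]
            have := h2 t (by omega)
            push_cast
            omega
        · rw [ht_cons, sg_false, h3]
          push_cast
          omega

theorem arcB_sound {w : List Bool} {i j : ℕ} (H : arcB w i j = true) : Arc w i j := by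
  induction w generalizing i j with
  | nil => simp [arcB] at H
  | cons b l ih =>
    by_cases hi : i = 0
    · subst hi
      have H' : j ≠ 0 ∧ b = true ∧ arcGo l 0 (j - 1) = true := by simpa [arcB] using H
      obtain ⟨h0, rfl, H'⟩ := H'
      obtain ⟨k, rfl⟩ : ∃ k, j = k + 1 := ⟨j - 1, by omega⟩
      rw [Nat.add_sub_cancel] at H'
      obtain ⟨h1, h2, h3⟩ := arcGo_sound H'
      refine ⟨by omega, by simpa using h1, ?_, fun t ht1 ht2 => ?_⟩
      · rw [ht_zero, ht_cons, h3]
        simp
      · obtain ⟨s, rfl⟩ : ∃ s, t = s + 1 := ⟨t - 1, by omega⟩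
        rw [ht_zero, ht_cons, sg_true]
        have := h2 s (by omega)
        simp only [Nat.cast_zero, neg_zero] at this
        omega
    · have H' : j ≠ 0 ∧ arcB l (i - 1) (j - 1) = true := by simpa [arcB, hi] using H
      obtain ⟨h0, H'⟩ := H'
      obtain ⟨k, rfl⟩ : ∃ k, j = k + 1 := ⟨j - 1, by omega⟩
      obtain ⟨g, rfl⟩ : ∃ g, i = g + 1 := ⟨i - 1, by omega⟩
      rw [Nat.add_sub_cancel, Nat.add_sub_cancel] at H'
      have h := ih H'
      refine ⟨by have := h.lt; omega, by simpa using h.lt_length, ?_, fun t ht1 ht2 => ?_⟩
      · rw [ht_cons, ht_cons, h.ht_eq]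
      · obtain ⟨s, rfl⟩ : ∃ s, t = s + 1 := ⟨t - 1, by omega⟩
        rw [ht_cons, ht_cons]
        have := h.ht_lt (t := s) (by omega) (by omega)
        omega

/-- all pairs of a list are matched pairs -/
def arcsB (w : List Bool) (L : List (ℕ × ℕ)) : Bool := L.all fun p => arcB w p.1 p.2

theorem arcsB_sound {w : List Bool} {L : List (ℕ × ℕ)} (H : arcsB w L = true) :
    ∀ p ∈ L, Arc w p.1 p.2 := by
  intro p hp
  have := List.all_eq_true.mp H p hp
  exact arcB_sound this

/-! ### All matched pairs in linear time -/

/-- `arcsGo l i st`: the matched pairs closed in `l`, where `i` is the position of the first letter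
of `l` and `st` the stack of the open positions (most recent first) -/
def arcsGo : List Bool → ℕ → List ℕ → List (ℕ × ℕ)
  | [], _, _ => []
  | true :: l, i, st => arcsGo l (i + 1) (i :: st)
  | false :: _, _, [] => []
  | false :: l, i, a :: st => (a, i) :: arcsGo l (i + 1) st

/-- all matched pairs of the word, ordered by their right ends (linear time) -/
def arcs (w : List Bool) : List (ℕ × ℕ) := arcsGo w 0 []

/-- the stack condition -/
def StOK (w : List Bool) (i : ℕ) (st : List ℕ) : Prop :=
  ∀ (k : ℕ) (hk : k < st.length), st[k] < i ∧ ht w st[k] = ht w i - (k + 1) ∧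
    ∀ t, st[k] < t → t ≤ i → ht w st[k] < ht w t

theorem StOK.push {w : List Bool} {i : ℕ} {st : List ℕ} (hi : i < w.length)
    (hb : w[i] = true) (h : StOK w i st) : StOK w (i + 1) (i :: st) := by
  have hs : ht w (i + 1) = ht w i + 1 := by rw [ht_succ hi, hb, sg_true]
  intro k hk
  cases k with
  | zero =>
    refine ⟨by simp, ?_, fun t h1 h2 => ?_⟩
    · rw [List.getElem_cons_zero, hs]
      simp
    · rw [List.getElem_cons_zero] at h1 ⊢
      have : t = i + 1 := by omega
      subst this
      rw [hs]
      omega
  | succ k =>
    have hk' : k < st.length := by simpa using hk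
    obtain ⟨h1, h2, h3⟩ := h k hk'
    refine ⟨?_, ?_, fun t e1 e2 => ?_⟩
    · rw [List.getElem_cons_succ]
      omega
    · rw [List.getElem_cons_succ, h2, hs]
      push_cast
      ring
    · rw [List.getElem_cons_succ] at e1 ⊢
      rcases Nat.lt_or_ge i t with e | e
      · have : t = i + 1 := by omega
        subst this
        rw [hs, h2]
        omega
      · exact h3 t e1 e

theorem StOK.pop {w : List Bool} {i : ℕ} {a : ℕ} {st : List ℕ} (hi : i < w.length)
    (hb : w[i] = false) (h : StOK w i (a :: st)) : Arc w a i ∧ StOK w (i + 1) st := by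
  have hs : ht w (i + 1) = ht w i - 1 := by
    rw [ht_succ hi, hb, sg_false]
    ring
  obtain ⟨h1, h2, h3⟩ := h 0 (by simp)
  simp only [List.getElem_cons_zero, Nat.cast_zero] at h1 h2 h3
  refine ⟨⟨h1, hi, ?_, h3⟩, ?_⟩
  · rw [hs, h2]
    ring
  · intro k hk
    obtain ⟨g1, g2, g3⟩ := h (k + 1) (by simpa using hk)
    simp only [List.getElem_cons_succ] at g1 g2 g3
    push_cast at g2
    refine ⟨by omega, ?_, fun t e1 e2 => ?_⟩
    · rw [g2, hs]
      ring
    · rcases Nat.lt_or_ge i t with e | e
      · have : t = i + 1 := by omega
        subst this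
        rw [hs, g2]
        omega
      · exact g3 t e1 e

theorem arcsGo_sound {w u l : List Bool} (hw : w = u ++ l) {st : List ℕ}
    (hst : StOK w u.length st) : ∀ p ∈ arcsGo l u.length st, Arc w p.1 p.2 := by
  induction l generalizing u st with
  | nil => simp [arcsGo]
  | cons b l ih =>
    have hi : u.length < w.length := by simp [hw]
    have hb : w[u.length] = b := by
      subst hw
      simp
    have hw' : w = (u ++ [b]) ++ l := by simp [hw]
    have hl : (u ++ [b]).length = u.length + 1 := by simp
    cases b with
    | true =>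
      have := ih hw' (st := u.length :: st) (by rw [hl]; exact hst.push hi hb)
      rw [hl] at this
      simpa [arcsGo] using this
    | false =>
      cases st with
      | nil => simp [arcsGo]
      | cons a st =>
        obtain ⟨ha, hst'⟩ := hst.pop hi hb
        have := ih hw' (st := st) (by rw [hl]; exact hst')
        rw [hl] at this
        intro p hp
        rw [arcsGo, List.mem_cons] at hp
        rcases hp with rfl | hp
        · exact ha
        · exact this p hp

theorem arcs_sound {w : List Bool} {p : ℕ × ℕ} (hp : p ∈ arcs w) : Arc w p.1 p.2 :=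
  arcsGo_sound (w := w) (u := []) (l := w) rfl (st := []) (by intro k hk; simp at hk) p hp

theorem arcsGo_complete {w u l : List Bool} (hw : w = u ++ l) (hbal : ∀ t, 0 ≤ ht w t)
    {st : List ℕ} (hlen : (st.length : ℤ) = ht w u.length) {i j : ℕ} (hst : StOK w u.length st)
    (hj : u.length ≤ j) (h : Arc w i j) : (i, j) ∈ arcsGo l u.length st := by
  induction l generalizing u st with
  | nil =>
    have := h.lt_length
    rw [hw] at this
    simp at this
    omega
  | cons b l ih =>
    have hi : u.length < w.length := by simp [hw]
    have hb : w[u.length] = b := by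
      subst hw
      simp
    have hw' : w = (u ++ [b]) ++ l := by simp [hw]
    have hl : (u ++ [b]).length = u.length + 1 := by simp
    have hne : b = true → u.length ≠ j := by
      rintro rfl rfl
      rw [h.getElem_right] at hb
      exact absurd hb (by simp)
    cases b with
    | true =>
      have hs : ht w (u.length + 1) = ht w u.length + 1 := by rw [ht_succ hi, hb, sg_true]
      have := ih hw' (st := u.length :: st) (by rw [hl, hs, ← hlen]; simp)
        (by rw [hl]; exact hst.push hi hb)
        (by rw [hl]; have := hne rfl; omega)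
      rw [hl] at this
      simpa [arcsGo] using this
    | false =>
      have hs : ht w (u.length + 1) = ht w u.length - 1 := by
        rw [ht_succ hi, hb, sg_false]
        ring
      cases st with
      | nil =>
        exfalso
        have h1 := hbal (u.length + 1)
        rw [hs, ← hlen] at h1
        simp at h1
      | cons a st =>
        obtain ⟨ha, hst'⟩ := hst.pop hi hb
        rw [arcsGo, List.mem_cons]
        rcases Nat.eq_or_lt_of_le hj with e | e
        · left
          subst e
          rw [Arc.unique_left h ha]
        · right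
          have := ih hw' (st := st)
            (by rw [hl, hs, ← hlen]; simp)
            (by rw [hl]; exact hst') (by rw [hl]; omega)
          rwa [hl] at this

theorem arcs_complete {w : List Bool} (hw : Bal w) {i j : ℕ} (h : Arc w i j) :
    (i, j) ∈ arcs w :=
  arcsGo_complete (w := w) (u := []) (l := w) rfl hw.ht_nonneg (st := []) (by simp)
    (by intro k hk; simp at hk) (Nat.zero_le _) h

theorem mem_arcs_iff {w : List Bool} (hw : Bal w) {i j : ℕ} : (i, j) ∈ arcs w ↔ Arc w i j :=
  ⟨fun h => arcs_sound h, arcs_complete hw⟩

theorem mg_adj_iff_mem_arcs {N : ℕ} {w : List Bool} (hw : Bal w) {a b : Fin N} :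
    (mg N w).Adj a b ↔ ((a : ℕ), (b : ℕ)) ∈ arcs w ∨ ((b : ℕ), (a : ℕ)) ∈ arcs w := by
  rw [mg_adj, mem_arcs_iff hw, mem_arcs_iff hw]

theorem arcsGo_length {w u l : List Bool} (hw : w = u ++ l) (hbal : ∀ t, 0 ≤ ht w t)
    (hend : ht w w.length = 0) {st : List ℕ} (hlen : (st.length : ℤ) = ht w u.length) :
    2 * (arcsGo l u.length st).length = l.length + st.length := by
  induction l generalizing u st with
  | nil =>
    have : u = w := by simp [hw]
    rw [this, hend] at hlen
    have : st.length = 0 := by exact_mod_cast hlen
    simp [arcsGo, this]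
  | cons b l ih =>
    have hi : u.length < w.length := by simp [hw]
    have hb : w[u.length] = b := by
      subst hw
      simp
    have hw' : w = (u ++ [b]) ++ l := by simp [hw]
    have hl : (u ++ [b]).length = u.length + 1 := by simp
    cases b with
    | true =>
      have hs : ht w (u.length + 1) = ht w u.length + 1 := by rw [ht_succ hi, hb, sg_true]
      have := ih hw' (st := u.length :: st) (by rw [hl, hs, ← hlen]; simp)
      rw [hl] at this
      rw [arcsGo, this]
      simp
      omega
    | false =>
      have hs : ht w (u.length + 1) = ht w u.length - 1 := by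
        rw [ht_succ hi, hb, sg_false]
        ring
      cases st with
      | nil =>
        exfalso
        have h1 := hbal (u.length + 1)
        rw [hs, ← hlen] at h1
        simp at h1
      | cons a st =>
        have := ih hw' (st := st) (by rw [hl, hs, ← hlen]; simp)
        rw [hl] at this
        rw [arcsGo, List.length_cons, mul_add, this]
        simp
        omega

theorem arcs_length {w : List Bool} (hw : Bal w) : 2 * (arcs w).length = w.length := by
  simpa [arcs] using arcsGo_length (w := w) (u := []) (l := w) rfl hw.ht_nonneg hw.2 (st := [])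
    (by simp)

end Pool.Agent.D3
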