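import Pool.Agent.Lib.H50D3.Tree
import Pool.Agent.Lib.H50D3.Words
import Pool.Agent.Lib.H50D3.Local

/-!
# Distance 3: from words to graphs and back
-/

set_option autoImplicit false

namespace Pool.Agent.D3

theorem h1_zp {w v : List Bool} (h : w.length = v.length) : h1 (zp w v) = ht w := by
  funext t
  unfold h1 ht zp
  rw [List.map_take, List.map_fst_zip (by simp [h]), List.map_take]

theorem h2_zp {w v : List Bool} (h : w.length = v.length) : h2 (zp w v) = ht v := by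
  funext t
  unfold h2 ht zp
  rw [List.map_take, List.map_snd_zip (by simp [h]), List.map_take]

theorem BC.tComp {n : ℕ} {w v : List Bool} (hw : w.length = 2 * n) (hv : v.length = 2 * n)
    (h : BC (zp w v)) : Bal w ∧ Bal v ∧ TComp (mg (2 * n) w) (mg (2 * n) v) := by
  obtain ⟨g1, g2, g3, g4, g5⟩ := h
  have hlen : (zp w v).length = 2 * n := by simp [zp, hw, hv]
  rw [h1_zp (by omega), hlen] at g3 g5
  rw [h2_zp (by omega)] at g4 g5
  rw [hlen] at g4 g2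
  have hn : 1 ≤ n := by
    by_contra hc
    have : n = 0 := by omega
    subst this
    exact g1 (List.eq_nil_of_length_eq_zero hlen)
  have hbw : Bal w := ⟨fun t ht => by
    have := (g2 t (by omega)).1
    rwa [h1_zp (by omega)] at this, by rw [hw]; exact g3⟩
  have hbv : Bal v := ⟨fun t ht => by
    have := (g2 t (by omega)).2
    rwa [h2_zp (by omega)] at this, by rw [hv]; exact g4⟩
  exact ⟨hbw, hbv, Der.tComp hn hbw hbv hw hv g5⟩

/-! ### Distances -/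

theorem step_walk {n : ℕ} {A B : Matching n} (h : TComp A.1 B.1) :
    ∃ p : (dcg n).Walk A B, p.length ≤ 1 := by
  by_cases hAB : A = B
  · subst hAB
    exact ⟨.nil, by simp⟩
  · exact ⟨.cons (show (dcg n).Adj A B from ⟨hAB, h⟩) .nil, by simp⟩

theorem dist_le_three {n : ℕ} {A B C D : Matching n} (h1 : TComp A.1 B.1) (h2 : TComp B.1 C.1)
    (h3 : TComp C.1 D.1) : (dcg n).Reachable A D ∧ (dcg n).dist A D ≤ 3 := by
  obtain ⟨p, hp⟩ := step_walk h1
  obtain ⟨q, hq⟩ := step_walk h2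
  obtain ⟨r, hr⟩ := step_walk h3
  refine ⟨⟨(p.append q).append r⟩, (SimpleGraph.dist_le ((p.append q).append r)).trans ?_⟩
  rw [SimpleGraph.Walk.length_append, SimpleGraph.Walk.length_append]
  omega

theorem dist_le_two_iff {n : ℕ} {A D : Matching n} (hAD : A ≠ D) (hr : (dcg n).Reachable A D) :
    (dcg n).dist A D ≤ 2 ↔ ∃ B : Matching n, TComp A.1 B.1 ∧ TComp B.1 D.1 := by
  constructor
  · intro h
    obtain ⟨p, hp⟩ := hr.exists_walk_length_eq_dist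
    rw [← hp] at h
    cases p with
    | nil => exact absurd rfl hAD
    | cons e p =>
      cases p with
      | nil =>
        obtain ⟨-, T, h1, h2, h3, h4⟩ := e
        exact ⟨A, ⟨T, h1, h2, h3, h3⟩, ⟨T, h1, h2, h3, h4⟩⟩
      | cons e' p =>
        cases p with
        | nil => exact ⟨_, e.2, e'.2⟩
        | cons e'' p => simp at h
  · rintro ⟨B, h1, h2⟩
    obtain ⟨p, hp⟩ := step_walk h1
    obtain ⟨q, hq⟩ := step_walk h2
    refine (SimpleGraph.dist_le (p.append q)).trans ?_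
    rw [SimpleGraph.Walk.length_append]
    omega

/-! ### Relations on the natural numbers -/

/-- the adjacency relation on the natural numbers -/
def rel {N : ℕ} (G : SimpleGraph (Fin N)) (x y : ℕ) : Prop :=
  ∃ (hx : x < N) (hy : y < N), G.Adj ⟨x, hx⟩ ⟨y, hy⟩

theorem plane_rel {N : ℕ} {G : SimpleGraph (Fin N)} (hp : Plane G) {u v x y : ℕ} (h : rel G u v)
    (h' : rel G x y) (h1 : u < x) (h2 : x < v) : u ≤ y ∧ y ≤ v := by
  obtain ⟨hu, hv, huv⟩ := h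
  obtain ⟨hx, hy, hxy⟩ := h'
  have key := hp _ _ _ _ huv hxy
  constructor
  · by_contra hc
    refine key (Or.inr ⟨?_, ?_, ?_⟩) <;>
      simp only [Fin.lt_def, Fin.coe_min, Fin.coe_max] <;> omega
  · by_contra hc
    refine key (Or.inl ⟨?_, ?_, ?_⟩) <;>
      simp only [Fin.lt_def, Fin.coe_min, Fin.coe_max] <;> omega

theorem treeR_of {N : ℕ} {T : SimpleGraph (Fin N)} (h : T.IsTree) (hp : Plane T) : TreeR N (rel T) where
  symm := fun ⟨hx, hy, h⟩ => ⟨hy, hx, h.symm⟩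
  bd := fun ⟨hx, _, _⟩ => hx
  nc := fun h1 h2 h3 h4 => plane_rel hp h1 h2 h3 h4
  conn := by
    rintro S ⟨x, hx, hSx⟩ ⟨y, hy, hSy⟩
    obtain ⟨p⟩ := h.1.preconnected ⟨x, hx⟩ ⟨y, hy⟩
    obtain ⟨d, -, hd1, hd2⟩ := p.exists_boundary_dart {z | S z} hSx hSy
    exact ⟨d.fst, d.snd, ⟨d.fst.2, d.snd.2, d.adj⟩, hd1, hd2⟩
  bridge := by
    rintro u v ⟨hu, hv, huv⟩
    have hb := SimpleGraph.isAcyclic_iff_forall_adj_isBridge.1 h.2 huv
    rw [SimpleGraph.isBridge_iff] at hb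
    refine ⟨fun x => ∃ hx : x < N, (T.deleteEdges {s(⟨u, hu⟩, ⟨v, hv⟩)}).Reachable
      ⟨u, hu⟩ ⟨x, hx⟩, ⟨hu, .refl _⟩, fun ⟨_, h⟩ => hb h, ?_⟩
    rintro x y ⟨hx, hy, hxy⟩ ⟨_, hSx⟩ hSy
    by_contra hc
    refine hSy ⟨hy, hSx.trans (SimpleGraph.Adj.reachable ?_)⟩
    rw [SimpleGraph.deleteEdges_adj]
    refine ⟨hxy, fun h2 => ?_⟩
    have h3 : s((⟨x, hx⟩ : Fin N), ⟨y, hy⟩) = s(⟨u, hu⟩, ⟨v, hv⟩) := h2
    rw [Sym2.eq_iff] at h3
    rcases h3 with ⟨h3, h4⟩ | ⟨h3, h4⟩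
    · exact hc ⟨congrArg Fin.val h3, congrArg Fin.val h4⟩
    · rw [h3] at hSx
      exact hb hSx

theorem matchR_of {N : ℕ} {M : SimpleGraph (Fin N)} (hp : Plane M) (h : IsPM M) : MatchR N (rel M) := by
  have hs : ∀ {x y : ℕ}, rel M x y → rel M y x := fun ⟨hx, hy, h⟩ => ⟨hy, hx, h.symm⟩
  have hu : ∀ {x y z : ℕ}, rel M x y → rel M x z → y = z := by
    rintro x y z ⟨hx, hy, h1⟩ ⟨_, hz, h2⟩
    exact congrArg Fin.val ((h ⟨x, hx⟩).unique h1 h2)
  refine ⟨hs, fun ⟨hx, _, _⟩ => hx, fun {x} hx => ?_, hu, fun {x} ⟨_, _, h⟩ => M.irrefl h, ?_⟩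
  · obtain ⟨y, hy, -⟩ := h ⟨x, hx⟩
    exact ⟨y, hx, y.2, hy⟩
  · intro u v x y h1 h2 h3 h4
    have h5 := plane_rel hp h1 h2 h3 h4
    constructor
    · rcases Nat.eq_or_lt_of_le h5.1 with h6 | h6
      · subst h6
        have := hu h1 (hs h2)
        omega
      · exact h6
    · rcases Nat.eq_or_lt_of_le h5.2 with h6 | h6
      · subst h6
        have := hu (hs h1) (hs h2)
        omega
      · exact h6

theorem compR_of {N : ℕ} {T M : SimpleGraph (Fin N)} (h : DisjComp T M) : CompR (rel T) (rel M) := by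
  obtain ⟨hp, hd⟩ := h
  rintro u v ⟨hu, hv, huv⟩ hlt
  refine ⟨?_, ?_⟩
  · rintro ⟨_, _, h⟩
    have h2 : (T ⊓ M).Adj ⟨u, hu⟩ ⟨v, hv⟩ := ⟨huv, h⟩
    rw [disjoint_iff.1 hd] at h2
    exact h2
  · rintro x y h1 h2 ⟨hx, hy, hxy⟩
    exact plane_rel hp (G := T ⊔ M) ⟨hu, hv, Or.inl huv⟩ ⟨hx, hy, Or.inr hxy⟩ h1 h2

theorem rel_mg {N : ℕ} {w : List Bool} (h : w.length = N) {x y : ℕ} :
    rel (mg N w) x y ↔ Arc w x y ∨ Arc w y x := by
  constructor
  · rintro ⟨_, _, h⟩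
    exact h
  · intro h'
    have : x < N ∧ y < N := by
      rcases h' with h' | h'
      · exact ⟨h ▸ h'.lt_length', h ▸ h'.lt_length⟩
      · exact ⟨h ▸ h'.lt_length, h ▸ h'.lt_length'⟩
    exact ⟨this.1, this.2, h'⟩

end Pool.Agent.D3
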