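import Pool.Agent.Lib.H50D3.Words
import Pool.Agent.Lib.H50D3.Inst

/-!
# Distance 3: the language DIST3 and its instances
-/

set_option autoImplicit false

namespace Pool.Agent.D3

/-- the list of pairs lists the edges of the matching -/
def Rep {n : ℕ} (M : Matching n) (l : List (ℕ × ℕ)) : Prop :=
  l.length = n ∧ ∀ a b : Fin (2 * n), M.1.Adj a b ↔ ((a : ℕ), (b : ℕ)) ∈ l ∨ ((b : ℕ), (a : ℕ)) ∈ l

/-- `k` in unary -/
def una (k : ℕ) : List Bool := List.replicate k true ++ [false]

/-- the word of an instance: `n` and the two lists of pairs -/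
def enc (n : ℕ) (l l' : List (ℕ × ℕ)) : List Bool :=
  una n ++ (l ++ l').flatMap fun p => una p.1 ++ una p.2

/-- DIST3: the distance of the two plane perfect matchings on `2 n ≥ 10` points is 3 -/
def DIST3Lang (w : List Bool) : Prop :=
  ∃ n, 5 ≤ n ∧ ∃ (M M' : Matching n) (l l' : List (ℕ × ℕ)), Rep M l ∧ Rep M' l' ∧
    w = enc n l l' ∧ (dcg n).dist M M' = 3

/-- the matching of a balanced word -/
def mOf {n : ℕ} {w : List Bool} (h : Bal w) (hl : w.length = 2 * n) : Matching n :=
  ⟨mg (2 * n) w, mg_plane w, mg_isPM h hl⟩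

theorem rep_mOf {n : ℕ} {w : List Bool} (h : Bal w) (hl : w.length = 2 * n) :
    Rep (mOf h hl) (arcs w) := by
  refine ⟨?_, fun a b => ?_⟩
  · have := arcs_length h
    omega
  · exact mg_adj_iff_mem_arcs h

/-- the instance of a formula -/
def instE (F : List (List (ℕ × Bool))) : List Bool :=
  enc ((pgW false F).length / 2) (arcs (pgW false F)) (arcs (pgW true F))

end Pool.Agent.D3
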