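import Pool.Agent.Lib.H50D3.Lang

/-!
# Distance 3: the encoding is injective
-/

set_option autoImplicit false

namespace Pool.Agent.D3

theorem una_append_inj : ∀ {a b : ℕ} {x y : List Bool}, una a ++ x = una b ++ y → a = b ∧ x = y
  | 0, 0, x, y, h => by simpa [una] using h
  | 0, b + 1, x, y, h => by simp [una, List.replicate_succ] at h
  | a + 1, 0, x, y, h => by simp [una, List.replicate_succ] at h
  | a + 1, b + 1, x, y, h => by
    have h' : una a ++ x = una b ++ y := by
      simpa [una, List.replicate_succ] using h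
    obtain ⟨h1, h2⟩ := una_append_inj h'
    exact ⟨by omega, h2⟩

/-- the word of a list of pairs -/
def encP (l : List (ℕ × ℕ)) : List Bool := l.flatMap fun p => una p.1 ++ una p.2

theorem una_ne_nil (a : ℕ) : una a ≠ [] := by simp [una]

theorem encP_inj : ∀ {l k : List (ℕ × ℕ)}, encP l = encP k → l = k
  | [], [], _ => rfl
  | [], p :: k, h => by simp [encP, una] at h
  | p :: l, [], h => by simp [encP, una] at h
  | p :: l, q :: k, h => by
    have h' : una p.1 ++ (una p.2 ++ encP l) = una q.1 ++ (una q.2 ++ encP k) := by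
      simpa [encP] using h
    obtain ⟨h1, h2⟩ := una_append_inj h'
    obtain ⟨h3, h4⟩ := una_append_inj h2
    rw [encP_inj h4]
    congr 1
    exact Prod.ext h1 h3

theorem enc_inj {n m : ℕ} {l l' k k' : List (ℕ × ℕ)} (hl : l.length = n) (hk : k.length = m)
    (h : enc n l l' = enc m k k') : n = m ∧ l = k ∧ l' = k' := by
  unfold enc at h
  obtain ⟨h1, h2⟩ := una_append_inj h
  have h3 : l ++ l' = k ++ k' := encP_inj h2
  obtain ⟨h4, h5⟩ := List.append_inj h3 (by omega)
  exact ⟨h1, h4, h5⟩

theorem Rep.unique {n : ℕ} {M M' : Matching n} {l : List (ℕ × ℕ)} (h : Rep M l) (h' : Rep M' l) :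
    M = M' := by
  apply Subtype.ext
  ext a b
  rw [h.2, h'.2]

end Pool.Agent.D3
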