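import Pool.Agent.Lib.H50D3.Local

/-!
# Distance 3: soundness of the search
-/

set_option autoImplicit false

namespace Pool.Agent.D3

variable {N : ℕ} {E E' Q : ℕ → ℕ → Prop} {b L : ℕ}

/-- the data of position `t` of a page is correct; `w` is a position where an edge leaves (if `w < L`) -/
structure PGood (E : ℕ → ℕ → Prop) (b L w t : ℕ) (f : PInfo) : Prop where
  al : ∀ i < t, E (b + i) (b + t) → f.al.testBit i = true
  cl : f.cl ≠ 0 → ∃ y < t, f.cl = 2 ^ y ∧ spl E (b + y) (b + t)
  ex : Ext E b L t → f.ex = true
  vi : t = w → f.vi = true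
  vl : t < w → w < L → f.vl = true

structure PInv (E : ℕ → ℕ → Prop) (b L w t : ℕ) (s : PSt) : Prop where
  rows : RowsOK (Cb E b t) t s.rows
  reach : ∀ e < t, Ext E b L e → s.reach.testBit e = true
  v : s.v = true ∨ (t ≤ w ∧ w < L)

theorem splq_of {t x : ℕ} (hx : x < t) (h : spl E (b + x) (b + t)) {col : ℕ} {r : ℕ × ℕ}
    (hr1 : r.1 = 2 ^ x) (hr2 : ∀ k, Cb E b (t + 1) x k → r.2.testBit k = true)
    (hcol : ∀ k, k ≤ t → cn E (b + k) (b + t) → col.testBit k = true) : splq col r.1 r.2 = true := by
  unfold splq
  rw [or_eq_true']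
  rcases h with h | ⟨k, h1, h2, h3, h4⟩
  · left
    refine nz_of (i := x) ?_
    rw [tb_land, hcol x hx.le h, hr1, tb_pow]
    rfl
  · right
    obtain ⟨k', rfl⟩ : ∃ k', k = b + k' := ⟨k - b, by omega⟩
    refine nz_of (i := k' + 1) ?_
    rw [tb_land, tb_shift, hr2 k' ⟨by omega, by omega, h3⟩,
      hcol (k' + 1) (by omega) (by rwa [show b + (k' + 1) = b + k' + 1 by omega])]
    rfl

theorem hasSpl_of {xp col : ℕ} {rows : List (ℕ × ℕ)} {r : ℕ × ℕ} (hr : r ∈ rows) (h1 : r.1 = xp)
    (h2 : splq col r.1 r.2 = true) : hasSpl xp col rows = true := by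
  induction rows with
  | nil => simp at hr
  | cons a l ih =>
    unfold hasSpl
    rw [or_eq_true', and_eq_true']
    rcases List.mem_cons.1 hr with rfl | hr
    · exact Or.inl ⟨by rw [h1]; exact Nat.beq_refl xp, h2⟩
    · exact Or.inr (ih hr)

theorem anySpl_of {reach col x : ℕ} {rows : List (ℕ × ℕ)} {r : ℕ × ℕ} (hr : r ∈ rows)
    (h1 : r.1 = 2 ^ x) (hx : reach.testBit x = true)
    (h2 : splq col r.1 r.2 = true) : anySpl reach col rows = true := by
  induction rows with
  | nil => simp at hr
  | cons a l ih =>
    unfold anySpl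
    rw [or_eq_true', and_eq_true']
    rcases List.mem_cons.1 hr with rfl | hr
    · refine Or.inl ⟨nz_of (i := x) ?_, h2⟩
      rw [tb_land, hx, h1, tb_pow]
      rfl
    · exact Or.inr (ih hr)

theorem anyEnd_of {reach x t : ℕ} {rows : List (ℕ × ℕ)} {r : ℕ × ℕ} (hr : r ∈ rows)
    (h1 : r.1 = 2 ^ x) (hx : reach.testBit x = true)
    (h2 : r.2.testBit t = true) : anyEnd reach (2 ^ (t + 1)) rows = true := by
  induction rows with
  | nil => simp at hr
  | cons a l ih =>
    unfold anyEnd
    rw [or_eq_true', and_eq_true']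
    rcases List.mem_cons.1 hr with rfl | hr
    · refine Or.inl ⟨nz_of (i := x) ?_, nz_of (i := t + 1) ?_⟩
      · rw [tb_land, hx, h1, tb_pow]
        rfl
      · rw [tb_land, tb_shift, h2, tb_pow]
        rfl
    · exact Or.inr (ih hr)

theorem beq_zero_of_ne {x : ℕ} (h : Nat.beq x 0 = false) : x ≠ 0 := by
  rintro rfl
  simp at h

theorem pstep_ok (hE : TreeR N E) (hN : b + L ≤ N) {w t : ℕ} {f : PInfo} {s : PSt} {alq xp : ℕ}
    {unc : Bool} (htL : t < L) (hf : PGood E b L w t f) (hs : PInv E b L w t s)
    (halq : ∀ i < t, E (b + i) (b + t) → alq.testBit i = true)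
    (hxp : xp = 0 ∨ ∃ x < t, xp = 2 ^ x ∧ spl E (b + x) (b + t))
    (hunc : Ext E b L t → unc = true) (hw : w < L → Ext E b L w) :
    ∃ s', pstep f alq xp (2 ^ t) unc s = some s' ∧ PInv E b L w (t + 1) s' := by
  obtain ⟨hrows, hcol⟩ := colAux_ok hE (al := Nat.land alq f.al) (t := t) (fun i hi h => by
    rw [tb_land, halq i hi h, hf.al i hi h]; rfl) t s.rows (2 ^ t) le_rfl hs.rows (fun k h1 h2 _ => by
      have : k = t := by omega
      subst this; exact tb_pow k)
  obtain ⟨rows, col, hrc⟩ : ∃ rows col, colAux (Nat.land alq f.al) (2 ^ t) s.rows (2 ^ t) =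
    (rows, col) := ⟨_, _, rfl⟩
  rw [hrc] at hrows hcol
  have hspl : ∀ x < t, spl E (b + x) (b + t) → hasSpl (2 ^ x) col rows = true := by
    intro x hx h
    obtain ⟨r, hr, hr1, hr2⟩ := RowsOK.mem hrows x hx
    exact hasSpl_of hr hr1 (splq_of hx h hr1 hr2 hcol)
  have c1 : or (Nat.beq xp 0) (hasSpl xp col rows) = true := by
    rw [or_eq_true']
    rcases hxp with rfl | ⟨x, hx, rfl, h⟩
    · exact Or.inl rfl
    · exact Or.inr (hspl x hx h)
  have c2 : or (Nat.beq f.cl 0) (hasSpl f.cl col rows) = true := by
    rw [or_eq_true']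
    cases hcl : Nat.beq f.cl 0
    · obtain ⟨y, hy, h1, h2⟩ := hf.cl (beq_zero_of_ne hcl)
      right
      rw [h1]
      exact hspl y hy h2
    · exact Or.inl rfl
  have c3 : or s.v (and unc f.vi) = true ∨ (t < w ∧ w < L) := by
    rcases hs.v with h | ⟨h1, h2⟩
    · left; rw [h]; rfl
    · rcases Nat.eq_or_lt_of_le h1 with h3 | h3
      · left
        subst h3
        rw [hunc (hw h2), hf.vi rfl]
        cases s.v <;> rfl
      · exact Or.inr ⟨h3, h2⟩
  have c4 : Ext E b L t → and (and unc f.ex) (or (nz (Nat.land col 1)) (anySpl s.reach col rows)) = true := by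
    intro h
    rw [and_eq_true', and_eq_true', or_eq_true']
    refine ⟨⟨hunc h, hf.ex h⟩, ?_⟩
    by_cases hex : ∃ e, e < t ∧ Ext E b L e
    · right
      obtain ⟨e, he, hee⟩ := hex
      obtain ⟨k, hk1, hk2, hk3, hk4⟩ := exists_max (P := fun e => e < t ∧ Ext E b L e) (i := e) (t := t)
        he.le ⟨he, hee⟩
      have hsp := exits_spl hE hN hk3.1 htL hk3.2 h (fun x h1 h2 h3 => hk4 x h1 h2.le ⟨h2, h3⟩)
      obtain ⟨r, hr, hr1, hr2⟩ := RowsOK.mem hrows k hk3.1
      exact anySpl_of hr hr1 (hs.reach k hk3.1 hk3.2) (splq_of hk3.1 hsp hr1 hr2 hcol)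
    · left
      push Not at hex
      have h0 := first_exit hE hN htL h hex
      refine nz_of (i := 0) ?_
      rw [tb_land, hcol 0 (Nat.zero_le _) h0]
      rfl
  have hrows' : RowsOK (Cb E b (t + 1)) (t + 1) ((2 ^ t, 2 ^ t) :: rows) := by
    refine ⟨rfl, fun k hk => ?_, hrows⟩
    have : k = t := by have := hk.1; have := hk.2.1; omega
    subst this
    exact tb_pow k
  have hreach1 : ∀ e < t + 1, Ext E b L e → (Nat.lor s.reach (2 ^ t)).testBit e = true := by
    intro e he h
    rw [tb_lor]
    rcases Nat.lt_or_ge e t with h1 | h1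
    · rw [hs.reach e h1 h]; rfl
    · have : e = t := by omega
      subst this
      rw [tb_pow]; simp
  have hreach2 : ¬ Ext E b L t → ∀ e < t + 1, Ext E b L e → s.reach.testBit e = true := by
    intro hn e he h
    rcases Nat.lt_or_ge e t with h1 | h1
    · exact hs.reach e h1 h
    · have : e = t := by omega
      subst this
      exact absurd h hn
  unfold pstep
  simp only [hrc, c1, c2]
  cases h5 : or s.v (and unc f.vi)
  · have h6 : t < w ∧ w < L := by
      rcases c3 with h | h
      · rw [h5] at h; simp at h
      · exact h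
    simp only [hf.vl h6.1 h6.2]
    cases h7 : and (and unc f.ex) (or (nz (Nat.land col 1)) (anySpl s.reach col rows))
    · refine ⟨_, rfl, hrows', hreach2 (fun h => ?_), Or.inr ⟨h6.1, h6.2⟩⟩
      rw [c4 h] at h7; simp at h7
    · exact ⟨_, rfl, hrows', hreach1, Or.inr ⟨h6.1, h6.2⟩⟩
  · cases h7 : and (and unc f.ex) (or (nz (Nat.land col 1)) (anySpl s.reach col rows))
    · refine ⟨_, rfl, hrows', hreach2 (fun h => ?_), Or.inl rfl⟩
      rw [c4 h] at h7; simp at h7
    · exact ⟨_, rfl, hrows', hreach1, Or.inl rfl⟩

/-! ### The stack -/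

/-- `sv` contains the positions `i < x` which are visible from just before `x` -/
def AM (Q : ℕ → ℕ → Prop) (b x sv : ℕ) : Prop :=
  ∀ i < x, (∀ x' y, i < x' → x' < x → Q (b + x') y → b + i ≤ y ∧ y < b + x) → sv.testBit i = true

/-- the stack lists the arcs of the window with left end `< u` and right end `≥ t` -/
def StkOK (Q : ℕ → ℕ → Prop) (b L : ℕ) : ℕ → ℕ → List (ℕ × ℕ) → Prop
  | u, t, [] => t ≤ L ∧ ∀ x y, x < u → t ≤ y → y < L → ¬ Q (b + x) (b + y)
  | u, t, r :: rs => ∃ x y, x < u ∧ r.1 = 2 ^ x ∧ t ≤ y ∧ y < L ∧ Q (b + x) (b + y) ∧ AM Q b x r.2 ∧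
      (∀ x' y', x < x' → x' < u → t ≤ y' → y' < L → ¬ Q (b + x') (b + y')) ∧
      StkOK Q b L x (y + 1) rs

theorem StkOK.up {u u' t : ℕ} {stk : List (ℕ × ℕ)} (h : StkOK Q b L u t stk) (huu : u ≤ u')
    (h' : ∀ x y, u ≤ x → x < u' → t ≤ y → y < L → ¬ Q (b + x) (b + y)) : StkOK Q b L u' t stk := by
  cases stk with
  | nil =>
    refine ⟨h.1, fun x y h1 h2 h3 => ?_⟩
    rcases Nat.lt_or_ge x u with h4 | h4
    · exact h.2 x y h4 h2 h3
    · exact h' x y h4 h1 h2 h3
  | cons r rs =>
    obtain ⟨x, y, h1, h2, h3, h4, h5, h6, h7, h8⟩ := h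
    refine ⟨x, y, by omega, h2, h3, h4, h5, h6, fun x' y' g1 g2 g3 g4 => ?_, h8⟩
    rcases Nat.lt_or_ge x' u with g5 | g5
    · exact h7 x' y' g1 g5 g3 g4
    · exact h' x' y' g5 g2 g3 g4

theorem StkOK.raise {u t t' : ℕ} {stk : List (ℕ × ℕ)} (h : StkOK Q b L u t stk) (htt : t ≤ t')
    (htL : t' ≤ L) (h' : ∀ x y, x < u → t ≤ y → y < L → Q (b + x) (b + y) → t' ≤ y) :
    StkOK Q b L u t' stk := by
  cases stk with
  | nil => exact ⟨htL, fun x y h1 h2 h3 => h.2 x y h1 (by omega) h3⟩
  | cons r rs =>
    obtain ⟨x, y, h1, h2, h3, h4, h5, h6, h7, h8⟩ := h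
    exact ⟨x, y, h1, h2, h' x y h1 h3 h4 h5, h4, h5, h6,
      fun x' y' g1 g2 g3 g4 => h7 x' y' g1 g2 (by omega) g4, h8⟩

theorem StkOK.len : ∀ {u t : ℕ} {stk : List (ℕ × ℕ)}, StkOK Q b L u t stk → t + stk.length ≤ L
  | _, _, [], h => h.1
  | _, t, _ :: rs, h => by
    obtain ⟨x, y, h1, h2, h3, h4, h5, h6, h7, h8⟩ := h
    have := StkOK.len h8
    simp only [List.length_cons]
    omega

theorem lenLt_of {α β : Type} : ∀ {l : List α} {m : List β}, l.length < m.length → lenLt l m = true
  | [], [], h => absurd h (by simp)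
  | [], _ :: _, _ => rfl
  | _ :: _, [], h => absurd h (by simp)
  | _ :: l, _ :: m, h => by
    unfold lenLt
    exact lenLt_of (by simpa using h)

/-- all data are correct -/
def AllG (E E' : ℕ → ℕ → Prop) (b L w w' : ℕ) : ℕ → List (PInfo × PInfo) → Prop
  | _, [] => True
  | t, f :: fs => PGood E b L w t f.1 ∧ PGood E' b L w' t f.2 ∧ AllG E E' b L w w' (t + 1) fs

/-- an edge of the tree which leaves the window does not start below an arc -/
theorem ext_uncov (hC : CompR E Q) (hQ : MatchR N Q) {x y t : ℕ} (hy : y < L) (hxt : x < t) (hty : t < y)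
    (hq : Q (b + x) (b + y)) : (hE : TreeR N E) → ¬ Ext E b L t := by
  rintro hE ⟨z, hz, hez⟩
  rcases hz with hz | hz
  · have := (hC z (b + t) (hE.symm hez) (by omega)).2 (b + x) (b + y) (by omega) (by omega) hq
    omega
  · have := (hC (b + t) z hez (by omega)).2 (b + y) (b + x) (by omega) (by omega) (hQ.symm hq)
    omega

theorem dfs_ok (hE : TreeR N E) (hE' : TreeR N E') (hQ : MatchR N Q) (hC : CompR E Q)
    (hC' : CompR E' Q) (hN : b + L ≤ N) (hb : 0 < b) (hL : 0 < L) {w w' : ℕ} (hw : w < L → Ext E b L w)
    (hw' : w' < L → Ext E' b L w') :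
    ∀ (fs : List (PInfo × PInfo)) (t : ℕ) (stk : List (ℕ × ℕ)) (am : ℕ) (s s' : PSt),
      t + fs.length = L → AllG E E' b L w w' t fs → StkOK Q b L t t stk → AM Q b t am →
      PInv E b L w t s → PInv E' b L w' t s' → dfs fs (2 ^ t) stk am s s' = true → False
  | [], t, stk, am, s, s', ht, _, hstk, _, hs, hs', hd => by
    simp only [List.length_nil, Nat.add_zero] at ht
    subst ht
    cases stk with
    | cons r rs =>
      obtain ⟨x, y, h1, h2, h3, h4, h5, h6, h7, h8⟩ := hstk
      omega
    | nil =>
      have key : ∀ {E : ℕ → ℕ → Prop} {w : ℕ} {s : PSt}, TreeR N E → PInv E b t w t s →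
          anyEnd s.reach (2 ^ t) s.rows = true ∧ s.v = true := by
        intro E w s hE hs
        obtain ⟨e, he1, he2⟩ := exists_ext hE hN hb hL
        obtain ⟨k, hk1, hk2, hk3, hk4⟩ := exists_max (P := fun e => e < t ∧ Ext E b t e) (i := e) (t := t)
          he1.le ⟨he1, he2⟩
        have hl := last_exit hE hN hk3.1 hk3.2 (fun x h1 h2 h3 => hk4 x h1 h2.le ⟨h2, h3⟩)
        obtain ⟨r, hr, hr1, hr2⟩ := RowsOK.mem hs.rows k hk3.1
        refine ⟨?_, ?_⟩
        · obtain ⟨t', rfl⟩ : ∃ t', t = t' + 1 := ⟨t - 1, by omega⟩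
          exact anyEnd_of hr hr1 (hs.reach k hk3.1 hk3.2) (hr2 t' ⟨by omega, by omega, hl⟩)
        · rcases hs.v with h | h
          · exact h
          · omega
      obtain ⟨k1, k2⟩ := key hE hs
      obtain ⟨k3, k4⟩ := key hE' hs'
      unfold dfs at hd
      rw [k1, k2, k3, k4] at hd
      simp at hd
  | f :: fs, t, stk, am, s, s', ht, hG, hstk, ham, hs, hs', hd => by
    simp only [List.length_cons] at ht
    have htL : t < L := by omega
    obtain ⟨hf, hf', hG⟩ := hG
    unfold dfs at hd
    rw [and_eq_true', and_eq_true'] at hd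
    obtain ⟨hd1, hd2, hd3⟩ := hd
    rw [shift_pow] at hd1 hd2 hd3
    obtain ⟨y0, hy0⟩ := hQ.ex (x := b + t) (by omega)
    by_cases hout : y0 < b ∨ b + L ≤ y0
    · -- open
      clear hd2 hd3
      have hnoc : ∀ x y, x < t → t ≤ y → y < L → ¬ Q (b + x) (b + y) := by
        intro x y h1 h2 h3 h4
        rcases Nat.eq_or_lt_of_le h2 with h5 | h5
        · subst h5
          have := hQ.uniq hy0 (hQ.symm h4)
          omega
        · have := hQ.nc h4 hy0 (by omega) (by omega)
          omega
      cases stk with
      | cons r rs =>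
        obtain ⟨x, y, h1, h2, h3, h4, h5, h6, h7, h8⟩ := hstk
        exact hnoc x y h1 h3 h4 h5
      | nil =>
        have halq : ∀ {E : ℕ → ℕ → Prop}, CompR E Q → ∀ i < t, E (b + i) (b + t) →
            am.testBit i = true := by
          intro E hC i hi h
          refine ham i hi fun x' y h1 h2 h3 => ?_
          have h4 := (hC _ _ h (by omega)).2 (b + x') y (by omega) (by omega) h3
          refine ⟨h4.1, lt_of_le_of_ne h4.2 fun h5 => ?_⟩
          subst h5
          have := hQ.uniq hy0 (hQ.symm h3)
          omega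
        obtain ⟨u, hu, hu'⟩ := pstep_ok hE hN (alq := am) (xp := 0) (unc := true) htL hf hs
          (halq hC) (Or.inl rfl) (fun _ => rfl) hw
        obtain ⟨v, hv, hv'⟩ := pstep_ok hE' hN (alq := am) (xp := 0) (unc := true) htL hf' hs'
          (halq hC') (Or.inl rfl) (fun _ => rfl) hw'
        simp only [hu, hv] at hd1
        refine dfs_ok hE hE' hQ hC hC' hN hb hL hw hw' fs (t + 1) [] (2 ^ t) u v (by omega) hG
          ⟨by omega, fun x y h1 h2 h3 h4 => ?_⟩ (fun i hi h => ?_) hu' hv' hd1
        · rcases Nat.lt_or_ge x t with h5 | h5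
          · exact hnoc x y h5 (by omega) h3 h4
          · have : x = t := by omega
            subst this
            have := hQ.uniq hy0 h4
            omega
        · rcases Nat.lt_or_ge i t with h5 | h5
          · have := h t y0 h5 (by omega) hy0
            omega
          · have : i = t := by omega
            subst this
            exact tb_pow i
    · obtain ⟨y, rfl⟩ : ∃ y, y0 = b + y := ⟨y0 - b, by omega⟩
      have hyt : y ≠ t := by
        rintro rfl
        exact hQ.irr hy0
      rcases Nat.lt_or_ge t y with hty | hty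
      · -- pending
        clear hd1 hd3
        have hnest : ∀ x y', x < t → t ≤ y' → y' < L → Q (b + x) (b + y') → y + 1 ≤ y' := by
          intro x y' h1 h2 h3 h4
          rcases Nat.eq_or_lt_of_le h2 with h5 | h5
          · subst h5
            have := hQ.uniq hy0 (hQ.symm h4)
            omega
          · have := hQ.nc h4 hy0 (by omega) (by omega)
            omega
        have hstk' : StkOK Q b L (t + 1) (t + 1) ((2 ^ t, am) :: stk) :=
          ⟨t, y, by omega, rfl, by omega, by omega, hy0, ham, fun x' y' h1 h2 => by omega,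
            hstk.raise (by omega) (by omega) hnest⟩
        have hlen := hstk'.len
        simp only [List.length_cons] at hlen
        have hl : lenLt stk fs = true := lenLt_of (by omega)
        rw [hl] at hd2
        have halq : ∀ {E : ℕ → ℕ → Prop}, CompR E Q → ∀ i < t, E (b + i) (b + t) →
            am.testBit i = true := by
          intro E hC i hi h
          refine ham i hi fun x' y' h1 h2 h3 => ?_
          have h4 := (hC _ _ h (by omega)).2 (b + x') y' (by omega) (by omega) h3
          refine ⟨h4.1, lt_of_le_of_ne h4.2 fun h5 => ?_⟩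
          subst h5
          have := hQ.uniq hy0 (hQ.symm h3)
          omega
        have hunc : ∀ {E : ℕ → ℕ → Prop}, TreeR N E → CompR E Q → Ext E b L t → nilB stk = true := by
          intro E hE hC hext
          cases stk with
          | nil => rfl
          | cons r rs =>
            exfalso
            obtain ⟨x, y', h1, h2, h3, h4, h5, h6, h7, h8⟩ := hstk
            have := hnest x y' h1 h3 h4 h5
            exact ext_uncov hC hQ h4 h1 (by omega) h5 hE hext
        obtain ⟨u, hu, hu'⟩ := pstep_ok hE hN (alq := am) (xp := 0) (unc := nilB stk) htL hf hs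
          (halq hC) (Or.inl rfl) (hunc hE hC) hw
        obtain ⟨v, hv, hv'⟩ := pstep_ok hE' hN (alq := am) (xp := 0) (unc := nilB stk) htL hf' hs'
          (halq hC') (Or.inl rfl) (hunc hE' hC') hw'
        simp only [hu, hv] at hd2
        refine dfs_ok hE hE' hQ hC hC' hN hb hL hw hw' fs (t + 1) _ (2 ^ t) u v (by omega) hG
          hstk' (fun i hi h => ?_) hu' hv' hd2
        rcases Nat.lt_or_ge i t with h5 | h5
        · have := h t _ h5 (by omega) hy0
          omega
        · have : i = t := by omega
          subst this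
          exact tb_pow i
      · -- closed
        clear hd1 hd2
        have hyt' : y < t := by omega
        have hq : Q (b + y) (b + t) := hQ.symm hy0
        cases stk with
        | nil => exact absurd hq (hstk.2 y t hyt' le_rfl htL)
        | cons r rs =>
          obtain ⟨x, y', h1, h2, h3, h4, h5, h6, h7, h8⟩ := hstk
          have hxy : x = y := by
            rcases Nat.lt_trichotomy x y with h | h | h
            · exact absurd hq (h7 y t h hyt' le_rfl htL)
            · exact h
            · exfalso
              rcases Nat.eq_or_lt_of_le h3 with h9 | h9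
              · subst h9
                have := hQ.uniq hy0 (hQ.symm h5)
                omega
              · have := hQ.nc hq h5 (by omega) (by omega)
                omega
          subst hxy
          have hy't : y' = t := by
            have := hQ.uniq h5 hq
            omega
          subst hy't
          -- now the arc is `x y'`
          have hin : ∀ x' z, x' < x → Q (b + x') z → b + x' ≤ z ∨ True → z < b + y' + 1 → b ≤ z →
              z < b + x := by
            intro x' z g1 g2 _ g3 g4
            by_contra hc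
            rcases Nat.eq_or_lt_of_le (not_lt.1 hc) with g5 | g5
            · subst g5
              have := hQ.uniq hq (hQ.symm g2)
              omega
            · rcases Nat.lt_or_ge z (b + y') with g6 | g6
              · have := hQ.nc hq (hQ.symm g2) g5 g6
                omega
              · have : z = b + y' := by omega
                subst this
                have := hQ.uniq hy0 (hQ.symm g2)
                omega
          have halq : ∀ {E : ℕ → ℕ → Prop}, CompR E Q → ∀ i < y', E (b + i) (b + y') →
              (Nat.lor (Nat.xor am r.1) r.2).testBit i = true := by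
            intro E hC i hi h
            have hcc := hC _ _ h (by omega)
            rw [tb_lor, tb_xor, h2]
            rcases Nat.lt_trichotomy i x with g | g | g
            · rw [h6 i g fun x' z k1 k2 k3 => ?_]
              · simp
              · have k4 := hcc.2 (b + x') z (by omega) (by omega) k3
                exact ⟨k4.1, hin x' z k2 k3 (Or.inr trivial) (by omega) (by omega)⟩
            · subst g
              exact absurd hq hcc.1
            · rw [ham i hi fun x' z k1 k2 k3 => ?_]
              · rw [Nat.testBit_two_pow]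
                have : x ≠ i := by omega
                simp [this]
              · have k4 := hcc.2 (b + x') z (by omega) (by omega) k3
                refine ⟨k4.1, lt_of_le_of_ne k4.2 fun k5 => ?_⟩
                subst k5
                have := hQ.uniq hy0 (hQ.symm k3)
                omega
          have hunc : ∀ {E : ℕ → ℕ → Prop}, TreeR N E → CompR E Q → Ext E b L y' →
              nilB rs = true := by
            intro E hE hC hext
            cases rs with
            | nil => rfl
            | cons r2 rs2 =>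
              exfalso
              obtain ⟨x2, y2, g1, g2, g3, g4, g5, g6, g7, g8⟩ := h8
              exact ext_uncov hC hQ g4 (by omega) (by omega) g5 hE hext
          have hsp : ∀ {E : ℕ → ℕ → Prop}, TreeR N E → CompR E Q →
              r.1 = 0 ∨ ∃ x < y', r.1 = 2 ^ x ∧ spl E (b + x) (b + y') := by
            intro E hE hC
            refine Or.inr ⟨x, h1, h2, spl_of_closed hE (by omega) (by omega) fun c d k1 k2 k3 => ?_⟩
            constructor
            · by_contra hc
              have := (hC d c (hE.symm k3) (by omega)).2 (b + x) (b + y') (by omega) (by omega) hq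
              omega
            · by_contra hc
              have := (hC c d k3 (by omega)).2 (b + y') (b + x) (by omega) (by omega) (hQ.symm hq)
              omega
          obtain ⟨u, hu, hu'⟩ := pstep_ok hE hN (alq := Nat.lor (Nat.xor am r.1) r.2) (xp := r.1)
            (unc := nilB rs) htL hf hs (halq hC) (hsp hE hC) (hunc hE hC) hw
          obtain ⟨v, hv, hv'⟩ := pstep_ok hE' hN (alq := Nat.lor (Nat.xor am r.1) r.2) (xp := r.1)
            (unc := nilB rs) htL hf' hs' (halq hC') (hsp hE' hC') (hunc hE' hC') hw'
          simp only [hu, hv] at hd3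
          refine dfs_ok hE hE' hQ hC hC' hN hb hL hw hw' fs (y' + 1) rs
            (Nat.lor (Nat.lor r.2 r.1) (2 ^ y')) u v (by omega) hG
            (h8.up (by omega) fun c d k1 k2 k3 k4 k5 => ?_) (fun i hi h => ?_) hu' hv' hd3
          · rcases Nat.lt_trichotomy c y' with k6 | k6 | k6
            · rcases Nat.eq_or_lt_of_le k1 with k7 | k7
              · subst k7
                have := hQ.uniq hq k5
                omega
              · exact h7 c d k7 k6 (by omega) k4 k5
            · subst k6
              have := hQ.uniq hy0 k5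
              omega
            · omega
          · rw [tb_lor, tb_lor, h2]
            rcases Nat.lt_trichotomy i y' with k6 | k6 | k6
            · rcases Nat.lt_trichotomy i x with g | g | g
              · rw [h6 i g fun x' z k1 k2 k3 => ?_]
                · simp
                · have k4 := h x' z k1 (by omega) k3
                  exact ⟨k4.1, hin x' z k2 k3 (Or.inr trivial) (by omega) (by omega)⟩
              · subst g
                rw [tb_pow]; simp
              · have := h y' _ k6 (by omega) hy0
                omega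
            · subst k6
              rw [tb_pow]; simp
            · omega

end Pool.Agent.D3
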