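import Pool.Agent.Lib.H50D3.Complete
import Pool.Agent.Lib.CookLevin.ThreeCol

/-!
# Distance 3: a satisfying assignment gives states of the cells
-/

set_option autoImplicit false

namespace Pool.Agent.D3

open Pool.Agent.Lib.CookLevin

/-! ### One row: list of pairs (type, rail) -/

/-- state before the chosen cell -/
def sbL : Bool → CS | true => .WL | false => .UL
/-- state after the chosen cell -/
def sbR : Bool → CS | true => .WR | false => .UR

/-- the cells after the chosen one -/
def aft (l : List (Bool × Bool)) : List (Bool × CS) := l.map fun x => (x.1, sbR x.2)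

/-- the states of a row: the first cell `(true, true)` is chosen -/
def bef : List (Bool × Bool) → List (Bool × CS)
  | [] => []
  | x :: l => if x.1 && x.2 then (x.1, .WLR) :: aft l else (x.1, sbL x.2) :: bef l

theorem aft_fst (l : List (Bool × Bool)) : (aft l).map Prod.fst = l.map Prod.fst := by
  simp [aft]

theorem bef_fst (l : List (Bool × Bool)) : (bef l).map Prod.fst = l.map Prod.fst := by
  induction l with
  | nil => rfl
  | cons x l ih =>
    rw [bef]
    split_ifs
    · simp [aft_fst]
    · simp [ih]

/-- state of the vertical window of role 0 for a rail -/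
def fu (b : Bool) : St := if b then .M else .P
/-- state of the vertical window of role 1 for a rail -/
def fw (b : Bool) : St := if b then .P else .M

theorem aft_u (l : List (Bool × Bool)) : (aft l).map (fun c => c.2.u) = (l.map Prod.snd).map fu := by
  simp only [aft, List.map_map]
  apply List.map_congr_left
  intro x _
  rcases x with ⟨_, _ | _⟩ <;> rfl

theorem aft_w (l : List (Bool × Bool)) : (aft l).map (fun c => c.2.w) = (l.map Prod.snd).map fw := by
  simp only [aft, List.map_map]
  apply List.map_congr_left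
  intro x _
  rcases x with ⟨_, _ | _⟩ <;> rfl

theorem bef_u (l : List (Bool × Bool)) : (bef l).map (fun c => c.2.u) = (l.map Prod.snd).map fu := by
  induction l with
  | nil => rfl
  | cons x l ih =>
    rw [bef]
    split_ifs with h
    · rw [List.map_cons, aft_u, List.map_cons, List.map_cons]
      rcases x with ⟨_ | _, _ | _⟩ <;> first | rfl | simp at h
    · rw [List.map_cons, ih, List.map_cons, List.map_cons]
      rcases x with ⟨_, _ | _⟩ <;> rfl

theorem bef_w (l : List (Bool × Bool)) : (bef l).map (fun c => c.2.w) = (l.map Prod.snd).map fw := by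
  induction l with
  | nil => rfl
  | cons x l ih =>
    rw [bef]
    split_ifs with h
    · rw [List.map_cons, aft_w, List.map_cons, List.map_cons]
      rcases x with ⟨_ | _, _ | _⟩ <;> first | rfl | simp at h
    · rw [List.map_cons, ih, List.map_cons, List.map_cons]
      rcases x with ⟨_, _ | _⟩ <;> rfl

theorem aft_row0 (l : List (Bool × Bool)) : row0OK (aft l) = true := by
  rw [row0OK, List.all_eq_true]
  intro c hc
  obtain ⟨x, _, rfl⟩ := List.mem_map.1 hc
  rcases x with ⟨_ | _, _ | _⟩ <;> rfl

theorem bef_row0 (l : List (Bool × Bool)) : row0OK (bef l) = true := by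
  induction l with
  | nil => rfl
  | cons x l ih =>
    rw [bef]
    split_ifs with h
    · have h1 := aft_row0 l
      rw [row0OK] at h1 ⊢
      rw [List.all_cons, h1]
      rcases x with ⟨_ | _, _ | _⟩ <;> first | rfl | simp at h
    · rw [row0OK] at ih ⊢
      rw [List.all_cons, ih]
      rcases x with ⟨_ | _, _ | _⟩ <;> rfl

theorem aft_s1 (l : List (Bool × Bool)) : (aft l).all (fun c => s1OK c.2) = true := by
  rw [List.all_eq_true]
  intro c hc
  obtain ⟨x, _, rfl⟩ := List.mem_map.1 hc
  rcases x with ⟨_ | _, _ | _⟩ <;> rfl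

theorem bef_s1 (l : List (Bool × Bool)) : (bef l).all (fun c => s1OK c.2) = true := by
  induction l with
  | nil => rfl
  | cons x l ih =>
    rw [bef]
    split_ifs with h
    · rw [List.all_cons, aft_s1]; rfl
    · rw [List.all_cons, ih]
      rcases x with ⟨_, _ | _⟩ <;> rfl

theorem aft_adj (c : Bool × CS) (hc : c.2.r = .P) (l : List (Bool × Bool)) :
    adjOK (c :: aft l) = true := by
  induction l generalizing c with
  | nil =>
    show endOK c.2.r = true
    rw [hc]; rfl
  | cons x l ih =>
    have e : aft (x :: l) = (x.1, sbR x.2) :: aft l := rfl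
    rw [e, adjOK, hc, ih]
    · rcases x with ⟨_, _ | _⟩ <;> rfl
    · rcases x with ⟨_, _ | _⟩ <;> rfl

theorem bef_adj (c : Bool × CS) (hc : c.2.r = .M) (l : List (Bool × Bool))
    (hl : ∃ x ∈ l, x.1 = true ∧ x.2 = true) : adjOK (c :: bef l) = true := by
  induction l generalizing c with
  | nil => simp at hl
  | cons x l ih =>
    rw [bef]
    split_ifs with h
    · rw [adjOK, aft_adj _ rfl, hc]; rfl
    · rw [adjOK, hc, ih]
      · rcases x with ⟨_, _ | _⟩ <;> rfl
      · rcases x with ⟨_, _ | _⟩ <;> rfl
      · obtain ⟨y, hy, h1, h2⟩ := hl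
        rcases List.mem_cons.1 hy with rfl | hy
        · rw [h1, h2] at h; simp at h
        · exact ⟨y, hy, h1, h2⟩

theorem bef_row1 (l : List (Bool × Bool)) (hl : ∃ x ∈ l, x.1 = true ∧ x.2 = true) :
    row1OK (bef l) = true := by
  unfold row1OK
  rw [bef_s1]
  cases l with
  | nil => simp at hl
  | cons x l =>
    rw [bef]
    split_ifs with h
    · rw [aft_adj _ rfl]; rfl
    · rw [bef_adj]
      · rcases x with ⟨_, _ | _⟩ <;> rfl
      · rcases x with ⟨_, _ | _⟩ <;> rfl
      · obtain ⟨y, hy, h1, h2⟩ := hl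
        rcases List.mem_cons.1 hy with rfl | hy
        · rw [h1, h2] at h; simp at h
        · exact ⟨y, hy, h1, h2⟩

theorem bef_f (l : List (Bool × Bool)) : ∀ c ∈ bef l, fOK c.2.w = true := by
  intro c hc
  have h1 : c.2.w ∈ (bef l).map (fun c => c.2.w) := List.mem_map.2 ⟨c, hc, rfl⟩
  rw [bef_w] at h1
  obtain ⟨b, _, hb⟩ := List.mem_map.1 h1
  rw [← hb]
  cases b <;> rfl

@[simp] theorem bef_length (l : List (Bool × Bool)) : (bef l).length = l.length := by
  have := congrArg List.length (bef_fst l)
  simpa using this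

/-! ### Neighbouring rows -/

theorem forall₂_of_map {α β γ δ : Type} {R : γ → δ → Prop} {f : Bool → γ} {g : Bool → δ}
    (hR : ∀ b, R (f b) (g b)) {a : α → γ} {c : β → δ} : ∀ {L : List Bool} {A : List α} {B : List β},
    A.map a = L.map f → B.map c = L.map g → List.Forall₂ (fun x y => R (a x) (c y)) A B
  | [], A, B, h1, h2 => by
    have e1 : A = [] := by simpa using h1
    have e2 : B = [] := by simpa using h2
    subst e1 e2; exact .nil
  | b :: L, [], B, h1, _ => by simp at h1
  | b :: L, x :: A, [], _, h2 => by simp at h2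
  | b :: L, x :: A, y :: B, h1, h2 => by
    rw [List.map_cons, List.map_cons, List.cons.injEq] at h1 h2
    refine .cons ?_ (forall₂_of_map hR h1.2 h2.2)
    rw [h1.1, h2.1]; exact hR b

/-! ### The rows of a formula -/

/-- types and rails of the columns -/
def bas (σ : ℕ → Bool) (v : ℕ) (C : List (ℕ × Bool)) : List (Bool × Bool) :=
  (List.range v).flatMap fun i => [(decide ((i, true) ∈ C), σ i), (decide ((i, false) ∈ C), !(σ i))]

/-- the rails -/
def rails (σ : ℕ → Bool) (v : ℕ) : List Bool := (List.range v).flatMap fun i => [σ i, !(σ i)]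

theorem bas_fst (σ : ℕ → Bool) (v : ℕ) (C : List (ℕ × Bool)) :
    (bas σ v C).map Prod.fst = colT v C := by
  simp [bas, colT, List.map_flatMap]

theorem bas_snd (σ : ℕ → Bool) (v : ℕ) (C : List (ℕ × Bool)) :
    (bas σ v C).map Prod.snd = rails σ v := by
  simp [bas, rails, List.map_flatMap]

theorem bas_length (σ : ℕ → Bool) (v : ℕ) (C : List (ℕ × Bool)) : (bas σ v C).length = 2 * v := by
  simp [bas, List.length_flatMap, mul_comm]

theorem bas_sat {σ : ℕ → Bool} {v : ℕ} {C : List (ℕ × Bool)} {l : ℕ × Bool} (h : l ∈ C)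
    (hv : l.1 < v) (hs : σ l.1 = l.2) : ∃ x ∈ bas σ v C, x.1 = true ∧ x.2 = true := by
  obtain ⟨i, b⟩ := l
  simp only at hv hs
  cases b with
  | true =>
    exact ⟨(decide ((i, true) ∈ C), σ i), List.mem_flatMap.2 ⟨i, List.mem_range.2 hv, by simp⟩,
      by simpa using h, hs⟩
  | false =>
    exact ⟨(decide ((i, false) ∈ C), !(σ i)), List.mem_flatMap.2 ⟨i, List.mem_range.2 hv, by simp⟩,
      by simpa using h, by simp [hs]⟩

/-- types and rails in the order of the line -/
def ori (b : Bool) (l : List (Bool × Bool)) : List (Bool × Bool) := if b then l.reverse else l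

/-- the rows with states -/
def stR (σ : ℕ → Bool) (v : ℕ) : Bool → List (List (ℕ × Bool)) → List (List (Bool × CS))
  | _, [] => []
  | b, C :: Cs => bef (ori b (bas σ v C)) :: stR σ v (!b) Cs

theorem typs_stR (σ : ℕ → Bool) (v : ℕ) : ∀ (b : Bool) (Cs : List (List (ℕ × Bool))),
    typs (stR σ v b Cs) = alt b (Cs.map (colT v))
  | b, [] => by cases b <;> rfl
  | false, C :: Cs => by
    have ih := typs_stR σ v true Cs
    rw [typs] at ih ⊢
    rw [stR, List.map_cons, List.map_cons, alt, Bool.not_false, ih, bef_fst, ori]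
    simp [bas_fst]
  | true, C :: Cs => by
    have ih := typs_stR σ v false Cs
    rw [typs] at ih ⊢
    rw [stR, List.map_cons, List.map_cons, alt, Bool.not_true, ih, bef_fst, ori]
    simp [bas_fst]

theorem ori_ex {b : Bool} {l : List (Bool × Bool)} (h : ∃ x ∈ l, x.1 = true ∧ x.2 = true) :
    ∃ x ∈ ori b l, x.1 = true ∧ x.2 = true := by
  unfold ori
  split_ifs
  · simpa using h
  · exact h

theorem ori_length (b : Bool) (l : List (Bool × Bool)) : (ori b l).length = l.length := by
  unfold ori; split_ifs <;> simp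

theorem ori_rev (σ : ℕ → Bool) (v : ℕ) (b : Bool) (C C' : List (ℕ × Bool)) :
    ((ori (!b) (bas σ v C')).reverse).map Prod.snd = (ori b (bas σ v C)).map Prod.snd := by
  cases b
  · simp [ori, bas_snd]
  · simp [ori, bas_snd, List.map_reverse]

theorem stR_chain (σ : ℕ → Bool) (v : ℕ) : ∀ (b : Bool) (Cs : List (List (ℕ × Bool))),
    (∀ C ∈ Cs, ∃ x ∈ bas σ v C, x.1 = true ∧ x.2 = true) → chainOK (2 * v) (stR σ v b Cs)
  | b, [], _ => trivial
  | b, [C], h => by
    refine ⟨by rw [bef_length, ori_length, bas_length], bef_row1 _ (ori_ex (h C (by simp))), bef_f _⟩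
  | b, C :: C' :: Cs, h => by
    have ih := stR_chain σ v b Cs (fun C hC => h C (by simp [hC]))
    rw [stR, stR, Bool.not_not]
    refine ⟨by rw [bef_length, ori_length, bas_length], by rw [bef_length, ori_length, bas_length],
      bef_row1 _ (ori_ex (h C (by simp))), bef_row0 _, ?_, ih⟩
    refine forall₂_of_map (R := fun s s' => vOK s s' = true) (f := fw) (g := fu)
      (a := fun c : Bool × CS => c.2.w) (c := fun c : Bool × CS => c.2.u)
      (L := (ori b (bas σ v C)).map Prod.snd) (fun b => by cases b <;> rfl) (bef_w _) ?_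
    rw [List.map_reverse, bef_u, ← List.map_reverse, ← List.map_reverse, ori_rev]

theorem lt_nv {F : List (List (ℕ × Bool))} {C : List (ℕ × Bool)} (hC : C ∈ F) {l : ℕ × Bool}
    (hl : l ∈ C) : l.1 < nv F := by
  have key : ∀ (L : List ℕ) (x : ℕ), x ∈ L → x ≤ L.foldr max 1 := by
    intro L
    induction L with
    | nil => simp
    | cons y L ih =>
      intro x hx
      rcases List.mem_cons.1 hx with rfl | hx
      · exact le_max_left _ _
      · exact (ih x hx).trans (le_max_right _ _)
  exact key _ (l.1 + 1) (List.mem_map.2 ⟨l, List.mem_flatten.2 ⟨C, hC, hl⟩, rfl⟩)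

theorem one_le_nv (F : List (List (ℕ × Bool))) : 1 ≤ nv F := by
  have key : ∀ L : List ℕ, 1 ≤ L.foldr max 1 := by
    intro L
    induction L with
    | nil => simp
    | cons y L ih => exact ih.trans (le_max_right _ _)
  exact key _

theorem exists_states {F : List (List (ℕ × Bool))} (h : CNFSat F) : ∃ (hs : List (St × St)) (r : List (Bool × CS))
    (rows : List (List (Bool × CS))), hs.length = nv F ∧ typs (r :: rows) = rowsOf F ∧ (∀ h ∈ hs, hhOK h) ∧
    chainOK (2 * nv F) (r :: rows) ∧ row0OK r ∧
    List.Forall₂ (fun h c => hOK h c.2.u) (hs.flatMap fun p => [p.1, p.2]) r.reverse ∧ chainOK (2 * nv F) rows := by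
  obtain ⟨σ, hσ⟩ := h
  have hsat : ∀ C ∈ F, ∃ x ∈ bas σ (nv F) C, x.1 = true ∧ x.2 = true := by
    intro C hC
    obtain ⟨l, hl, hl2⟩ := hσ C hC
    exact bas_sat hl (lt_nv hC hl) hl2
  have hsat0 : ∃ x ∈ bas σ (nv F) [(0, true), (0, false)], x.1 = true ∧ x.2 = true := by
    apply bas_sat (l := (0, σ 0))
    · cases σ 0 <;> simp
    · exact one_le_nv F
    · rfl
  refine ⟨(List.range (nv F)).reverse.map fun i => (fu (!(σ i)), fu (σ i)),
    bef (bas σ (nv F) [(0, true), (0, false)]), stR σ (nv F) true F, by simp, ?_, ?_, ?_, bef_row0 _, ?_, ?_⟩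
  · exact typs_stR σ (nv F) false ([(0, true), (0, false)] :: F)
  · intro h hh
    obtain ⟨i, _, rfl⟩ := List.mem_map.1 hh
    cases σ i <;> rfl
  · exact stR_chain σ (nv F) false ([(0, true), (0, false)] :: F) (by
      intro C hC
      rcases List.mem_cons.1 hC with rfl | hC
      · exact hsat0
      · exact hsat C hC)
  · refine forall₂_of_map (R := fun s s' => hOK s s' = true) (f := fu) (g := fu)
      (a := fun s : St => s) (c := fun c : Bool × CS => c.2.u)
      (L := (rails σ (nv F)).reverse) (fun b => by cases b <;> rfl) ?_ ?_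
    · rw [List.map_id', rails, List.reverse_flatMap, List.map_flatMap, List.flatMap_map]
      rfl
    · rw [List.map_reverse, bef_u, ← List.map_reverse, bas_snd]
  · exact stR_chain σ (nv F) true F hsat

end Pool.Agent.D3
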