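import Pool.Agent.Lib.H50D3.SoundF
import Pool.Agent.Lib.H50D3.Complete
import Pool.Agent.Lib.H50D3.Glue
import Pool.Agent.Lib.H50D3.SatStates

/-!
# Distance 3: the instance of a formula
-/

set_option autoImplicit false

namespace Pool.Agent.D3

open Pool.Agent.Lib.CookLevin

theorem midW_length {hs : List (St × St)} {rows : List (List (Bool × CS))}
    (h : ∀ r ∈ rows, r.length = 2 * hs.length) :
    (midW hs rows).length = 76 * hs.length + ((8 + 532 * (2 * hs.length)) * rows.length + 4 * (2 * hs.length)) := by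
  rw [midW, List.length_append, mHd_length, mRows_length h]

theorem pageW_length {ρ : Bool} {v : ℕ} {rows : List (List Bool)} (h : ∀ r ∈ rows, r.length = 2 * v) :
    (pageW ρ v rows).length = 76 * v + ((8 + 532 * (2 * v)) * rows.length + 4 * (2 * v)) := by
  rw [pageW, List.length_append, hdW_length, rowsW_length h]

/-- half of the number of points of the instance -/
def hN (F : List (List (ℕ × Bool))) : ℕ := (pgW false F).length / 2

theorem pgW_length (ρ : Bool) (F : List (List (ℕ × Bool))) :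
    (pgW ρ F).length = 76 * nv F + ((8 + 532 * (2 * nv F)) * (F.length + 1) + 4 * (2 * nv F)) := by
  rw [pgW, pageW_length (rowsOf_row_length F), rowsOf_length]

theorem hN_eq (F : List (List (ℕ × Bool))) :
    hN F = 38 * nv F + ((4 + 532 * nv F) * (F.length + 1) + 4 * nv F) := by
  rw [hN, pgW_length]
  have : 76 * nv F + ((8 + 532 * (2 * nv F)) * (F.length + 1) + 4 * (2 * nv F)) =
      2 * (38 * nv F + ((4 + 532 * nv F) * (F.length + 1) + 4 * nv F)) := by ring
  rw [this]
  omega

theorem pgW_length2 (ρ : Bool) (F : List (List (ℕ × Bool))) : (pgW ρ F).length = 2 * hN F := by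
  rw [pgW_length, hN_eq]
  ring

theorem five_le (F : List (List (ℕ × Bool))) : 5 ≤ hN F := by
  have := nv_pos F
  rw [hN_eq]
  nlinarith

theorem bal_pgW (ρ : Bool) (F : List (List (ℕ × Bool))) : Bal (pgW ρ F) :=
  bal_page (rowsOf_row_length F) (nv_pos F) (rowsOf_ne F) ρ

/-- the two matchings of the instance -/
def mI (ρ : Bool) (F : List (List (ℕ × Bool))) : Matching (hN F) := mOf (bal_pgW ρ F) (pgW_length2 ρ F)

theorem instE_eq (F : List (List (ℕ × Bool))) :
    instE F = enc (hN F) (arcs (pgW false F)) (arcs (pgW true F)) := rfl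

theorem mI_ne (F : List (List (ℕ × Bool))) : mI false F ≠ mI true F := by
  intro h
  have h1 := (arc_hdr (rowsOf_row_length F) (nv_pos F) (rowsOf_ne F) (q := 0) (nv_pos F)).1
  have hA := at_hdr (rowsOf_row_length F) (nv_pos F) (rowsOf_ne F) true (q := 0) (nv_pos F)
  have h2 : Arc (hd1 (!true) ++ hd2 (!true)) 6 7 := arcB_sound (by decide +kernel)
  have h3 := hA.arc h2
  have h5 := five_le F
  have hlen := hA.le
  have hl2 : (pageW true (nv F) (rowsOf F)).length = 2 * hN F := pgW_length2 true F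
  rw [hl2] at hlen
  simp only [List.length_append, hd1_length, hd2_length] at hlen
  have h4 : (mI false F).1.Adj ⟨7, by omega⟩ ⟨28, by omega⟩ := Or.inl h1
  rw [h] at h4
  rcases h4 with h4 | h4
  · exact Arc.not_both h3 h4
  · have h6 : (28 : ℕ) < 7 := h4.lt
    omega

theorem tComp_mid {F : List (List (ℕ × Bool))} {ρ : Bool} {hs : List (St × St)}
    {rows : List (List (Bool × CS))} (h1 : hs.length = nv F) (h2 : typs rows = rowsOf F)
    (h : BC (zp (pageW ρ hs.length (typs rows)) (midW hs rows))) :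
    ∃ (hb : Bal (midW hs rows)) (hl : (midW hs rows).length = 2 * hN F),
      TComp (mI ρ F).1 (mOf hb hl).1 := by
  have hrl : ∀ r ∈ rows, r.length = 2 * hs.length := by
    intro r hr
    have h3 : r.map Prod.fst ∈ rowsOf F := by
      rw [← h2]
      exact List.mem_map_of_mem hr
    have := rowsOf_row_length F _ h3
    rw [h1]
    simpa using this
  have hrows : rows.length = F.length + 1 := by
    have := congrArg List.length h2
    rw [rowsOf_length] at this
    simpa [typs] using this
  have hl : (midW hs rows).length = 2 * hN F := by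
    rw [midW_length hrl, ← pgW_length2 false F, pgW_length, h1, hrows]
  rw [h2, h1] at h
  obtain ⟨-, g2, g3⟩ := BC.tComp (n := hN F) (pgW_length2 ρ F) hl h
  exact ⟨g2, hl, g3⟩

theorem sit_of {F : List (List (ℕ × Bool))} {B : Matching (hN F)} (h1 : TComp (mI false F).1 B.1)
    (h2 : TComp B.1 (mI true F).1) : ∃ E E' Q, Sit (2 * hN F) (pgW false F) (pgW true F) E E' Q := by
  obtain ⟨T, hT, hTp, hT1, hT2⟩ := h1
  obtain ⟨T', hT', hTp', hT1', hT2'⟩ := h2
  have key : ∀ {ρ : Bool} {T : SimpleGraph (Fin (2 * hN F))}, T.IsTree → Plane T →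
      DisjComp T (mI ρ F).1 → Pg (2 * hN F) (pgW ρ F) (rel T) := by
    intro ρ T hT hTp hT1
    refine ⟨pgW_length2 ρ F, bal_pgW ρ F, treeR_of hT hTp, ?_⟩
    have h := compR_of hT1
    have h2 : rel (mI ρ F).1 = RW (pgW ρ F) := by
      funext x y
      exact propext (rel_mg (pgW_length2 ρ F))
    rwa [h2] at h
  exact ⟨rel T, rel T', rel B.1, key hT hTp hT1, key hT' hTp' hT2', matchR_of B.2.1 B.2.2,
    compR_of hT2, compR_of hT1'⟩

/-- **The distance of the two matchings of the instance.** -/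
theorem dist_inst (F : List (List (ℕ × Bool))) :
    (dcg (hN F)).Reachable (mI false F) (mI true F) ∧ (dcg (hN F)).dist (mI false F) (mI true F) ≤ 3 ∧
      (CNFSat F ↔ (dcg (hN F)).dist (mI false F) (mI true F) ≤ 2) := by
  have hv := nv_pos F
  have e1 : (List.replicate (nv F) ((St.m, St.m) : St × St)).length = nv F := by simp
  have e2 : (List.replicate (nv F) ((St.p, St.p) : St × St)).length = nv F := by simp
  have t1 := typs_stRows false (rowsOf F)
  have t2 := typs_stRows true (rowsOf F)
  obtain ⟨b1, l1, c1⟩ := tComp_mid (ρ := false) e1 t1 (by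
    rw [e1, t1]; exact all_page0 hv (rowsOf_ne F) (rowsOf_row_length F))
  obtain ⟨b2, l2, c2⟩ := tComp_mid (ρ := true) e2 t2 (by
    rw [e2, t2]; exact all_page1 hv (rowsOf_ne F) (rowsOf_row_length F))
  have c3 := (BC.tComp (n := hN F) l1 l2 (bc_mid hv)).2.2
  have c2' : TComp (mOf b2 l2).1 (mI true F).1 := by
    obtain ⟨T, k1, k2, k3, k4⟩ := c2
    exact ⟨T, k1, k2, k4, k3⟩
  obtain ⟨hr, hd⟩ := dist_le_three (B := mOf b1 l1) (C := mOf b2 l2) c1 c3 c2'
  refine ⟨hr, hd, ?_⟩
  rw [dist_le_two_iff (mI_ne F) hr]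
  constructor
  · intro hsat
    obtain ⟨hs, r, rows, g1, g2, g3, g4, g5, g6, g7⟩ := exists_states hsat
    have hs0 : hs ≠ [] := by
      rintro rfl
      simp at g1
      omega
    have hr0 : r.length = 2 * hs.length := by
      have h3 : r.map Prod.fst ∈ rowsOf F := by rw [← g2]; simp [typs]
      have := rowsOf_row_length F _ h3
      rw [g1]
      simpa using this
    obtain ⟨b3, l3, c4⟩ := tComp_mid (ρ := false) g1 g2 (bc_page0 hs0 hr0 g5 g6 (by rw [g1]; exact g7))
    obtain ⟨b4, l4, c5⟩ := tComp_mid (ρ := true) g1 g2 (bc_page1 hs0 g3 (by rw [g1]; exact g4))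
    obtain ⟨T, k1, k2, k3, k4⟩ := c5
    exact ⟨mOf b3 l3, c4, T, k1, k2, k4, k3⟩
  · rintro ⟨B, h1, h2⟩
    obtain ⟨E, E', Q, S⟩ := sit_of h1 h2
    exact sat_of_sit S

end Pool.Agent.D3
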