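import Pool.Agent.Lib.H50D3.Cell
import Pool.Agent.Lib.H50D3.Geom

/-!
# Distance 3: soundness
-/

set_option autoImplicit false

namespace Pool.Agent.D3

variable {N v : ℕ} {E E' Q : ℕ → ℕ → Prop} {rows : List (List Bool)}

/-- the tree of a page -/
def pgE (E E' : ℕ → ℕ → Prop) : Bool → ℕ → ℕ → Prop
  | false => E
  | true => E'

theorem Sit.page (S : Sit N (pageW false v rows) (pageW true v rows) E E' Q) (ρ : Bool) :
    Sit N (pageW ρ v rows) (pageW (!ρ) v rows) (pgE E E' ρ) (pgE E E' (!ρ)) Q := by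
  cases ρ
  · exact S
  · exact S.swap

/-- the page on which row `j` has role 0 -/
def pg0 (j : ℕ) : Bool := decide (j % 2 = 1)

theorem rl_pg0 (j : ℕ) : rl (pg0 j) j = false := by
  unfold rl pg0
  rcases Nat.mod_two_eq_zero_or_one j with h | h <;> simp [h]

theorem rl_pg0' (j : ℕ) : rl (!(pg0 j)) j = true := by
  unfold rl pg0
  rcases Nat.mod_two_eq_zero_or_one j with h | h <;> simp [h]

theorem pg0_succ (j : ℕ) : pg0 (j + 1) = !(pg0 j) := by
  unfold pg0
  rcases Nat.mod_two_eq_zero_or_one j with h | h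
  · simp [h, Nat.add_mod]
  · simp [h, Nat.add_mod]

/-- the four ports of cell `i` of row `j` -/
def pU (E E' : ℕ → ℕ → Prop) (v j i : ℕ) : Prop := PV (pgE E E' (pg0 j)) (Bc v j i + 6) 20 2 3
def pW (E E' : ℕ → ℕ → Prop) (v j i : ℕ) : Prop := PV (pgE E E' (!(pg0 j))) (Bc v j i + 454) 20 2 3
def pL (E E' : ℕ → ℕ → Prop) (v j i : ℕ) : Prop := PV (pgE E E' (!(pg0 j))) (Bc v j i + 416) 20 2 3
def pR (E E' : ℕ → ℕ → Prop) (v j i : ℕ) : Prop := PV (pgE E E' (!(pg0 j))) (Bc v j i + 500) 20 2 3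

/-- the header port of column `k` -/
def pH (E : ℕ → ℕ → Prop) (v k : ℕ) : Prop :=
  PV E (76 * ((2 * v - 1 - k) / 2) + (if k % 2 = 1 then 2 else 44)) 20 4 5

theorem Bc_pos (v j i : ℕ) : 0 < Bc v j i := by unfold Bc; omega

variable (S : Sit N (pageW false v rows) (pageW true v rows) E E' Q)
  (hl : ∀ r ∈ rows, r.length = 2 * v) (hv : 1 ≤ v)

include S hl hv

theorem cell_logic {j i : ℕ} (hj : j < rows.length) (hi : i < rows[j].length) :
    ¬ (pU E E' v j i ∧ pW E E' v j i) ∧
      ((rows[j][i] = false ∨ pU E E' v j i) → ¬ (pL E E' v j i ∧ pR E E' v j i)) := by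
  have S' := S.page (pg0 j)
  have A := at_cell hl hv (pg0 j) hj hi
  have A' := at_cell hl hv (!(pg0 j)) hj hi
  rw [rl_pg0] at A
  rw [rl_pg0'] at A'
  cases ht : rows[j][i]
  · rw [ht] at A A'
    obtain ⟨h1, h2⟩ := cell_x S' (Bc_pos v j i) A A'
    exact ⟨h1, fun _ => h2⟩
  · rw [ht] at A A'
    obtain ⟨h1, h2⟩ := cell_o S' (Bc_pos v j i) A A'
    refine ⟨h1, fun h3 => ?_⟩
    rcases h3 with h3 | h3
    · exact absurd h3 (by simp)
    · exact fun h4 => h2 ⟨h3, h4.1, h4.2⟩

/-- the anchor of a block `Ym`, `Ys`, `Ye` on the page where the row has role 1 -/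
theorem anch_of {b : ℕ} {ρ : Bool} {C C' : List Bool} (hC : C.length = 8) (hC' : C'.length = 8)
    (A : At (pageW ρ v rows) b C) (A' : At (pageW (!ρ) v rows) b C')
    (c : (tokB (sub C 2 6) wYM && tokB (sub C' 2 6) wYP) = true) : Anch (pgE E E' ρ) (b + 2) :=
  blkY (S.page ρ) A A' 2 (by omega) (by omega) (by omega) c

theorem start_L {j : ℕ} (hj : j < rows.length) : pL E E' v j 0 := by
  have h0 := Bc_pos v j 0
  have hB : 8 ≤ Bc v j 0 := by unfold Bc; omega
  have A := at_Ys hl hv (!(pg0 j)) hj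
  have A' := at_Ys hl hv (!(!(pg0 j))) hj
  rw [rl_pg0'] at A
  have e : rl (!(!(pg0 j))) j = false := by rw [Bool.not_not]; exact rl_pg0 j
  rw [e] at A'
  have hY := anch_of S hl hv (by simp) (by simp) A A' (by decide +kernel)
  obtain ⟨a1, a2⟩ := arc_start hl hv (!(pg0 j)) hj (rl_pg0' j)
  refine face2 (S.page (!(pg0 j))).pg (bY := Bc v j 0 - 8 + 2) hY ?_ ?_ (by omega) (by omega)
  · rwa [show Bc v j 0 - 8 + 2 + 5 = Bc v j 0 - 1 by omega]
  · rwa [show Bc v j 0 - 8 + 2 = Bc v j 0 - 6 by omega]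

theorem end_R {j i : ℕ} (hj : j < rows.length) (hi : i + 1 = 2 * v) : pR E E' v j i := by
  have A := at_Ye hl hv (!(pg0 j)) hj hi
  have A' := at_Ye hl hv (!(!(pg0 j))) hj hi
  rw [rl_pg0'] at A
  have e : rl (!(!(pg0 j))) j = false := by rw [Bool.not_not]; exact rl_pg0 j
  rw [e] at A'
  have hY := anch_of S hl hv (by simp) (by simp) A A' (by decide +kernel)
  obtain ⟨a1, a2⟩ := arc_end hl hv (!(pg0 j)) hj (rl_pg0' j) hi
  exact face2' (S.page (!(pg0 j))).pg (bY := Bc v j i + 524 + 2) hY a1 a2 (by omega) (by omega)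

theorem horiz {j i : ℕ} (hj : j < rows.length) (hi : i + 1 < 2 * v) :
    pR E E' v j i ∨ pL E E' v j (i + 1) := by
  have A := at_Ym hl hv (!(pg0 j)) hj hi
  have A' := at_Ym hl hv (!(!(pg0 j))) hj hi
  rw [rl_pg0'] at A
  have e : rl (!(!(pg0 j))) j = false := by rw [Bool.not_not]; exact rl_pg0 j
  rw [e] at A'
  have hY := anch_of S hl hv (by simp) (by simp) A A' (by decide +kernel)
  obtain ⟨a1, a2, a3⟩ := arc_horiz hl hv (!(pg0 j)) hj (rl_pg0' j) hi
  have hB : Bc v j (i + 1) = Bc v j i + 532 := by unfold Bc; ring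
  exact face3 (S.page (!(pg0 j))).pg (bY := Bc v j i + 524 + 2) hY a1 a2 a3 (by omega) (by omega)
    (by omega) (by omega)

theorem vert {j i : ℕ} (hj : j + 1 < rows.length) (hi : i < 2 * v) :
    pW E E' v j i ∨ pU E E' v (j + 1) (2 * v - 1 - i) := by
  have hj' : j < rows.length := by omega
  have hi' : i < rows[j].length := by rw [hl _ (List.getElem_mem hj')]; exact hi
  have A := at_cell hl hv (!(pg0 j)) hj' hi'
  have A' := at_cell hl hv (!(!(pg0 j))) hj' hi'
  rw [rl_pg0'] at A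
  have e : rl (!(!(pg0 j))) j = false := by rw [Bool.not_not]; exact rl_pg0 j
  rw [e] at A'
  have hY : Anch (pgE E E' (!(pg0 j))) (Bc v j i + 480) := by
    refine blkY (S.page (!(pg0 j))) A A' 480 (by omega) (by simp) (by simp) ?_
    cases rows[j][i] <;> decide +kernel
  obtain ⟨a1, a2, a3⟩ := arc_vert hl hv (!(pg0 j)) hj (rl_pg0' j) hi
  have hB : Bc v j i + 532 ≤ Bc v (j + 1) (2 * v - 1 - i) := by
    unfold Bc
    have : (8 + 532 * (2 * v)) * (j + 1) = (8 + 532 * (2 * v)) * j + (8 + 532 * (2 * v)) := by ring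
    omega
  have := face3 (S.page (!(pg0 j))).pg (b1 := Bc v j i + 454) (bY := Bc v j i + 480)
    (b3 := Bc v (j + 1) (2 * v - 1 - i) + 6) (x1 := 2) (y1 := 3) (x3 := 2) (y3 := 3) hY a1 a2 a3
    (by omega) (by omega) (by omega) (by omega)
  unfold pW pU
  rw [pg0_succ]
  exact this

theorem head_or (hne : rows ≠ []) {k : ℕ} (hk : k < 2 * v) : pH E v k ∨ pU E E' v 0 k := by
  have hE : pgE E E' (pg0 0) = E := rfl
  have h0 : 76 * v + 8 ≤ Bc v 0 k := by unfold Bc; omega
  obtain ⟨q, hq, hkq⟩ : ∃ q, q < v ∧ (k = 2 * v - 1 - 2 * q ∨ k = 2 * v - 2 - 2 * q) :=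
    ⟨(2 * v - 1 - k) / 2, by omega, by omega⟩
  have A := at_hdr (rows := rows) hl hv hne false hq
  have A' := at_hdr (rows := rows) hl hv hne true hq
  obtain ⟨a1, a2, a3, a4, a5, a6⟩ := arc_hdr (rows := rows) hl hv hne hq
  have hq' : 76 * q + 76 ≤ 76 * v := by omega
  rcases hkq with rfl | rfl
  · have hY : Anch E (76 * q + 28) :=
      blkY S A A' 28 (by omega) (by simp) (by simp) (by decide +kernel)
    have := face3 S.pg (b1 := 76 * q + 2) (bY := 76 * q + 28)
      (b3 := Bc v 0 (2 * v - 1 - 2 * q) + 6) (x1 := 4) (y1 := 5) (x3 := 2) (y3 := 3) hY a1 a2 a3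
      (by omega) (by omega) (by omega) (by omega)
    unfold pH pU
    rw [hE, if_pos (by omega), show (2 * v - 1 - (2 * v - 1 - 2 * q)) / 2 = q by omega]
    exact this
  · have hY : Anch E (76 * q + 70) :=
      blkY S A A' 70 (by omega) (by simp) (by simp) (by decide +kernel)
    have := face3 S.pg (b1 := 76 * q + 44) (bY := 76 * q + 70)
      (b3 := Bc v 0 (2 * v - 2 - 2 * q) + 6) (x1 := 4) (y1 := 5) (x3 := 2) (y3 := 3) hY a4 a5 a6
      (by omega) (by omega) (by omega) (by omega)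
    unfold pH pU
    rw [hE, if_neg (by omega), show (2 * v - 1 - (2 * v - 2 - 2 * q)) / 2 = q by omega]
    exact this

theorem head_nand (hne : rows ≠ []) {i : ℕ} (hi : i < v) : ¬ (pH E v (2 * i) ∧ pH E v (2 * i + 1)) := by
  obtain ⟨q, hq, hkq⟩ : ∃ q, q < v ∧ i = v - 1 - q := ⟨v - 1 - i, by omega, by omega⟩
  have A := at_hdr (rows := rows) hl hv hne false hq
  have A' := at_hdr (rows := rows) hl hv hne true hq
  unfold pH
  rw [if_neg (by omega), if_pos (by omega), show (2 * v - 1 - 2 * i) / 2 = q by omega,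
    show (2 * v - 1 - (2 * i + 1)) / 2 = q by omega]
  have w1 := blkU S A A' 2 (by omega) (by simp) (by simp) (by decide +kernel)
  have w2 := blkU S A A' 44 (by omega) (by simp) (by simp) (by decide +kernel)
  have f := blk3 S.swap A' A 2 16 17 36 44 16 17 (by omega) (by simp) (by simp) (by decide +kernel)
  rintro ⟨h1, h2⟩
  rcases f with f | f
  · exact w1 ⟨h2, f⟩
  · exact w2 ⟨h1, f⟩

/-- in every row some cell absorbs -/
theorem row_absorb {j : ℕ} (hj : j < rows.length) : ∃ i, ∃ hi : i < rows[j].length,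
    rows[j][i] = true ∧ ¬ pU E E' v j i := by
  by_contra hcon
  push Not at hcon
  have hlen := hl _ (List.getElem_mem hj)
  have key : ∀ i < 2 * v, pL E E' v j i := by
    intro i
    induction i with
    | zero => exact fun _ => start_L S hl hv hj
    | succ i ih =>
      intro hi
      have h1 := ih (by omega)
      have h2 := (cell_logic S hl hv hj (i := i) (by omega)).2 (by
        by_cases h3 : rows[j][i] = true
        · exact Or.inr (hcon i (by omega) h3)
        · exact Or.inl (by simpa using h3))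
      exact (horiz S hl hv hj hi).resolve_left fun h => h2 ⟨h1, h⟩
  have h1 := key (2 * v - 1) (by omega)
  have h2 := (cell_logic S hl hv hj (i := 2 * v - 1) (by omega)).2 (by
    by_cases h3 : rows[j][2 * v - 1]'(by omega) = true
    · exact Or.inr (hcon (2 * v - 1) (by omega) h3)
    · exact Or.inl (by simpa using h3))
  exact h2 ⟨h1, end_R S hl hv hj (by omega)⟩

/-- the column of cell `i` of row `j` -/
def colI (v j i : ℕ) : ℕ := if j % 2 = 0 then i else 2 * v - 1 - i

theorem up_U (hne : rows ≠ []) : ∀ {j i : ℕ}, j < rows.length → i < 2 * v → ¬ pU E E' v j i →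
    pH E v (colI v j i)
  | 0, i, _, hi, h => (head_or S hl hv hne hi).resolve_right h
  | j + 1, i, hj, hi, h => by
    have h1 := vert S hl hv hj (i := 2 * v - 1 - i) (by omega)
    rw [show 2 * v - 1 - (2 * v - 1 - i) = i by omega] at h1
    have h2 := h1.resolve_right h
    have hlen := hl _ (List.getElem_mem (show j < rows.length by omega))
    have h3 := (cell_logic S hl hv (j := j) (i := 2 * v - 1 - i) (by omega) (by omega)).1
    have h4 := up_U hne (j := j) (i := 2 * v - 1 - i) (by omega) (by omega) fun h => h3 ⟨h, h2⟩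
    convert h4 using 1
    unfold colI
    rcases Nat.mod_two_eq_zero_or_one j with h5 | h5
    · rw [if_neg (by omega), if_pos h5]
    · rw [if_pos (by omega), if_neg (by omega)]
      omega

/-- **Soundness.** -/
theorem sound (hne : rows ≠ []) : ∃ H : ℕ → Prop, (∀ i < v, ¬ (H (2 * i) ∧ H (2 * i + 1))) ∧
    ∀ (j : ℕ) (hj : j < rows.length), ∃ (i : ℕ) (hi : i < rows[j].length),
      rows[j][i] = true ∧ H (colI v j i) := by
  refine ⟨pH E v, fun i hi => head_nand S hl hv hne hi, fun j hj => ?_⟩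
  obtain ⟨i, hi, h1, h2⟩ := row_absorb S hl hv hj
  exact ⟨i, hi, h1, up_U S hl hv hne hj (by rw [← hl _ (List.getElem_mem hj)]; exact hi) h2⟩

end Pool.Agent.D3
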