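import Pool.Agent.Lib.H50D3.Sound
import Pool.Agent.Lib.H50D3.Lang
import Pool.Agent.Lib.CookLevin.ThreeCol

/-!
# Distance 3: soundness for the instance of a formula
-/

set_option autoImplicit false

namespace Pool.Agent.D3

open Pool.Agent.Lib.CookLevin

theorem alt_length {α : Type} : ∀ (b : Bool) (rs : List (List α)), (alt b rs).length = rs.length
  | _, [] => rfl
  | false, _ :: rs => by simp [alt, alt_length true rs]
  | true, _ :: rs => by simp [alt, alt_length false rs]

theorem alt_getElem {α : Type} : ∀ (b : Bool) (rs : List (List α)) {j : ℕ} (hj : j < rs.length),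
    (alt b rs)[j]'(by rw [alt_length]; exact hj) = if rl b j then rs[j].reverse else rs[j]
  | _, [], j, hj => absurd hj (Nat.not_lt_zero _)
  | false, r :: rs, 0, _ => by simp [alt, rl]
  | true, r :: rs, 0, _ => by simp [alt, rl]
  | false, r :: rs, j + 1, hj => by
    have ih := alt_getElem true rs (j := j) (by simpa using hj)
    have h2 : rl false (j + 1) = rl true j := by
      unfold rl
      rcases Nat.mod_two_eq_zero_or_one j with h | h
      · rw [if_neg (by omega), if_pos h]; rfl
      · rw [if_pos (by omega), if_neg (by omega)]; rfl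
    rw [h2]
    simpa [alt] using ih
  | true, r :: rs, j + 1, hj => by
    have ih := alt_getElem false rs (j := j) (by simpa using hj)
    have h2 : rl true (j + 1) = rl false j := by
      unfold rl
      rcases Nat.mod_two_eq_zero_or_one j with h | h
      · rw [if_neg (by omega), if_pos h]; rfl
      · rw [if_pos (by omega), if_neg (by omega)]; rfl
    rw [h2]
    simpa [alt] using ih

theorem colT_succ (v : ℕ) (C : List (ℕ × Bool)) :
    colT (v + 1) C = colT v C ++ [decide ((v, true) ∈ C), decide ((v, false) ∈ C)] := by
  simp [colT, List.range_succ]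

@[simp] theorem colT_length (v : ℕ) (C : List (ℕ × Bool)) : (colT v C).length = 2 * v := by
  induction v with
  | zero => rfl
  | succ v ih => rw [colT_succ, List.length_append, ih]; simp; ring

theorem colT_getElem (v : ℕ) (C : List (ℕ × Bool)) {k : ℕ} (hk : k < (colT v C).length) :
    (colT v C)[k] = decide ((k / 2, decide (k % 2 = 0)) ∈ C) := by
  induction v with
  | zero => simp at hk
  | succ v ih =>
    have hk' : k < 2 * (v + 1) := by simpa using hk
    simp only [colT_succ]
    rcases Nat.lt_or_ge k (2 * v) with h | h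
    · rw [List.getElem_append_left (by simpa using h)]
      exact ih (by simpa using h)
    · rw [List.getElem_append_right (by simpa using h)]
      rcases (by omega : k = 2 * v ∨ k = 2 * v + 1) with rfl | rfl
      · simp
      · have h1 : (2 * v + 1) / 2 = v := by omega
        have h2 : ¬ (2 * v + 1) % 2 = 0 := by omega
        simp [h1]

theorem foldr_max_ge : ∀ (l : List ℕ) (a : ℕ), a ≤ l.foldr max a
  | [], _ => le_rfl
  | _ :: l, a => le_trans (foldr_max_ge l a) (le_max_right _ _)

theorem nv_pos (F : List (List (ℕ × Bool))) : 1 ≤ nv F := foldr_max_ge _ _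

theorem rowsOf_length (F : List (List (ℕ × Bool))) : (rowsOf F).length = F.length + 1 := by
  simp [rowsOf, alt_length]

theorem rowsOf_ne (F : List (List (ℕ × Bool))) : rowsOf F ≠ [] := by
  intro h
  have := rowsOf_length F
  rw [h] at this
  simp at this

theorem rowsOf_getElem (F : List (List (ℕ × Bool))) {j : ℕ} (hj : j < F.length + 1) :
    (rowsOf F)[j]'(by rw [rowsOf_length]; exact hj) =
      if rl false j then (colT (nv F) (([(0, true), (0, false)] :: F)[j])).reverse
        else colT (nv F) (([(0, true), (0, false)] :: F)[j]) := by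
  unfold rowsOf
  rw [alt_getElem false _ (by simpa using hj), List.getElem_map]

theorem rowsOf_row_length (F : List (List (ℕ × Bool))) : ∀ r ∈ rowsOf F, r.length = 2 * nv F := by
  intro r hr
  obtain ⟨j, hj, rfl⟩ := List.getElem_of_mem hr
  rw [rowsOf_getElem F (by rwa [rowsOf_length] at hj)]
  split <;> simp

theorem sat_of_sit {N : ℕ} {E E' Q : ℕ → ℕ → Prop} {F : List (List (ℕ × Bool))}
    (S : Sit N (pgW false F) (pgW true F) E E' Q) : CNFSat F := by
  classical
  obtain ⟨H, hH, hrow⟩ := sound (v := nv F) (rows := rowsOf F) S (rowsOf_row_length F) (nv_pos F)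
    (rowsOf_ne F)
  refine ⟨fun i => decide (H (2 * i)), fun C hC => ?_⟩
  obtain ⟨j, hj, rfl⟩ := List.getElem_of_mem hC
  have hjr : j + 1 < (rowsOf F).length := by rw [rowsOf_length]; omega
  obtain ⟨i, hi, h1, h2⟩ := hrow (j + 1) hjr
  have hi2 : i < 2 * nv F := by
    rwa [rowsOf_row_length F _ (List.getElem_mem _)] at hi
  have key : colI (nv F) (j + 1) i < 2 * nv F ∧
      (colI (nv F) (j + 1) i / 2, decide (colI (nv F) (j + 1) i % 2 = 0)) ∈ F[j] := by
    have h3 := rowsOf_getElem F (j := j + 1) (by omega)
    by_cases hp : (j + 1) % 2 = 0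
    · have hc : colI (nv F) (j + 1) i = i := if_pos hp
      have hr : rl false (j + 1) = false := if_pos hp
      rw [hc]
      rw [hr, if_neg (by simp)] at h3
      refine ⟨hi2, ?_⟩
      have h4 : (rowsOf F)[j + 1][i] = (colT (nv F) F[j])[i]'(by simpa using hi2) := by
        simp only [h3, List.getElem_cons_succ]
      rw [h4, colT_getElem] at h1
      exact of_decide_eq_true h1
    · have hc : colI (nv F) (j + 1) i = 2 * nv F - 1 - i := if_neg hp
      have hr : rl false (j + 1) = true := if_neg hp
      rw [hc]
      rw [hr, if_pos rfl] at h3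
      refine ⟨by omega, ?_⟩
      have h4 : (rowsOf F)[j + 1][i] = (colT (nv F) F[j])[2 * nv F - 1 - i]'(by simp; omega) := by
        simp only [h3, List.getElem_cons_succ, List.getElem_reverse, colT_length]
      rw [h4, colT_getElem] at h1
      exact of_decide_eq_true h1
  refine ⟨_, key.2, ?_⟩
  generalize colI (nv F) (j + 1) i = k at *
  rcases Nat.mod_two_eq_zero_or_one k with h | h
  · have : 2 * (k / 2) = k := by omega
    simp [h, this, h2]
  · have h5 : 2 * (k / 2) + 1 = k := by omega
    have h6 := hH (k / 2) (by omega)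
    rw [h5] at h6
    have h7 : ¬ H (2 * (k / 2)) := fun h8 => h6 ⟨h8, h2⟩
    simp [h, h7]

end Pool.Agent.D3
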