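import Pool.Agent.Lib.H50D3.Base

/-!
# From a derivation to a plane spanning tree (chunk T)
-/

set_option autoImplicit false

namespace Pool.Agent.D3

/-- the family of chords given by a derivation -/
structure Chords (h g : ℕ → ℤ) (i j : ℕ) (E : ℕ → ℕ → Prop) : Prop where
  le : i ≤ j
  rng : ∀ a b, E a b → i ≤ a ∧ a < b ∧ b ≤ j
  al1 : ∀ a b, E a b → Al h a b
  al2 : ∀ a b, E a b → Al g a b
  nc : ∀ a b c d, E a b → E c d → ¬ (a < c ∧ c < b ∧ b < d)
  conn : ∀ x, i ≤ x → x ≤ j → Relation.EqvGen E i x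

theorem Der.chords {h g : ℕ → ℤ} {i j : ℕ} (hd : Der h g i j) :
    ∃ E : ℕ → ℕ → Prop, Chords h g i j E := by
  induction hd with
  | refl i =>
    refine ⟨fun _ _ => False, le_refl _, ?_, ?_, ?_, ?_, ?_⟩
    · intro a b h; exact h.elim
    · intro a b h; exact h.elim
    · intro a b h; exact h.elim
    · intro a b c d h; exact h.elim
    · intro x h1 h2
      have : x = i := by omega
      subst this
      exact Relation.EqvGen.refl _
  | @cat i k j _ _ ih1 ih2 =>
    obtain ⟨E1, c1⟩ := ih1
    obtain ⟨E2, c2⟩ := ih2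
    have m1 : ∀ x y, Relation.EqvGen E1 x y → Relation.EqvGen (fun a b => E1 a b ∨ E2 a b) x y :=
      fun x y hxy => Relation.EqvGen.mono (fun a b hab => Or.inl hab) _ _ hxy
    have m2 : ∀ x y, Relation.EqvGen E2 x y → Relation.EqvGen (fun a b => E1 a b ∨ E2 a b) x y :=
      fun x y hxy => Relation.EqvGen.mono (fun a b hab => Or.inr hab) _ _ hxy
    refine ⟨fun a b => E1 a b ∨ E2 a b, c1.le.trans c2.le, ?_, ?_, ?_, ?_, ?_⟩
    · rintro a b (hab | hab)
      · have := c1.rng a b hab
        have := c2.le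
        omega
      · have := c2.rng a b hab
        have := c1.le
        omega
    · rintro a b (hab | hab)
      · exact c1.al1 a b hab
      · exact c2.al1 a b hab
    · rintro a b (hab | hab)
      · exact c1.al2 a b hab
      · exact c2.al2 a b hab
    · rintro a b c d (hab | hab) (hcd | hcd)
      · exact c1.nc a b c d hab hcd
      · have := c1.rng a b hab
        have := c2.rng c d hcd
        omega
      · have := c2.rng a b hab
        have := c1.rng c d hcd
        omega
      · exact c2.nc a b c d hab hcd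
    · intro x hx1 hx2
      by_cases hxk : x ≤ k
      · exact m1 _ _ (c1.conn x hx1 hxk)
      · exact (m1 _ _ (c1.conn k c1.le (le_refl _))).trans _ _ _ (m2 _ _ (c2.conn x (by omega) hx2))
  | @edge i k j _ _ hal1 hal2 ih1 ih2 =>
    obtain ⟨E1, c1⟩ := ih1
    obtain ⟨E2, c2⟩ := ih2
    have hik := c1.le
    have hkj := c2.le
    have m1 : ∀ x y, Relation.EqvGen E1 x y →
        Relation.EqvGen (fun a b => E1 a b ∨ E2 a b ∨ (a = i ∧ b = j)) x y :=
      fun x y hxy => Relation.EqvGen.mono (fun a b hab => Or.inl hab) _ _ hxy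
    have m2 : ∀ x y, Relation.EqvGen E2 x y →
        Relation.EqvGen (fun a b => E1 a b ∨ E2 a b ∨ (a = i ∧ b = j)) x y :=
      fun x y hxy => Relation.EqvGen.mono (fun a b hab => Or.inr (Or.inl hab)) _ _ hxy
    refine ⟨fun a b => E1 a b ∨ E2 a b ∨ (a = i ∧ b = j), by omega, ?_, ?_, ?_, ?_, ?_⟩
    · rintro a b (hab | hab | ⟨rfl, rfl⟩)
      · have := c1.rng a b hab
        omega
      · have := c2.rng a b hab
        omega
      · omega
    · rintro a b (hab | hab | ⟨rfl, rfl⟩)
      · exact c1.al1 a b hab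
      · exact c2.al1 a b hab
      · exact hal1
    · rintro a b (hab | hab | ⟨rfl, rfl⟩)
      · exact c1.al2 a b hab
      · exact c2.al2 a b hab
      · exact hal2
    · rintro a b c d (hab | hab | ⟨rfl, rfl⟩) (hcd | hcd | ⟨rfl, rfl⟩)
      · exact c1.nc a b c d hab hcd
      · have := c1.rng a b hab
        have := c2.rng c d hcd
        omega
      · have := c1.rng a b hab
        omega
      · have := c2.rng a b hab
        have := c1.rng c d hcd
        omega
      · exact c2.nc a b c d hab hcd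
      · have := c2.rng a b hab
        omega
      · have := c1.rng c d hcd
        omega
      · have := c2.rng c d hcd
        omega
      · omega
    · intro x hx1 hx2
      by_cases hxk : x ≤ k
      · exact m1 _ _ (c1.conn x hx1 hxk)
      · have e1 : Relation.EqvGen (fun a b => E1 a b ∨ E2 a b ∨ (a = i ∧ b = j)) i j :=
          Relation.EqvGen.rel _ _ (Or.inr (Or.inr ⟨rfl, rfl⟩))
        have e2 := m2 _ _ (c2.conn j (by omega) (le_refl _))
        have e3 := m2 _ _ (c2.conn x (by omega) hx2)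
        exact (e1.trans _ _ _ (e2.symm _ _)).trans _ _ _ e3

/-- two arcs do not cross -/
theorem arc_nc {w : List Bool} {a b c d : ℕ} (h1 : Arc w a b) (h2 : Arc w c d) :
    ¬ (a < c ∧ c < b ∧ b < d) := by
  rintro ⟨hac, hcb, hbd⟩
  have e1 := h1.2.2.2 c hac hcb.le
  have e2 := h2.2.2.2 (b + 1) (by omega) (by omega)
  have e3 := h1.2.2.1
  linarith

theorem al_arc_nc {w : List Bool} {a b c d : ℕ} (h1 : Al (ht w) a b) (h2 : Arc w c d) :
    ¬ (a < c ∧ c < b ∧ b < d) := by
  rintro ⟨hac, hcb, hbd⟩
  have e1 := (h1.2.1 c hac hcb.le).2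
  have e2 := h2.2.2.2 b (by omega) (by omega)
  have e3 := h2.2.2.2 (b + 1) (by omega) (by omega)
  have := lt_min e2 e3
  linarith

theorem arc_al_nc {w : List Bool} {a b c d : ℕ} (h1 : Al (ht w) a b) (h2 : Arc w c d) :
    ¬ (c < a ∧ a < d ∧ d < b) := by
  rintro ⟨hca, had, hdb⟩
  have e1 := (h1.2.1 (d + 1) (by omega) (by omega)).1
  have e2 := h2.2.2.2 a (by omega) (by omega)
  have e3 := h2.2.2.2 (a + 1) (by omega) (by omega)
  have e4 := h2.2.2.1
  have := lt_min e2 e3
  linarith

/-- the graph on `Fin N` of a relation contained in `<` -/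
def ug (N : ℕ) (E : ℕ → ℕ → Prop) (hE : ∀ a b, E a b → a < b) : SimpleGraph (Fin N) where
  Adj a b := E a b ∨ E b a
  symm := ⟨fun _ _ h => Or.symm h⟩
  loopless := ⟨fun _ h => by
    rcases h with h | h
    · exact absurd (hE _ _ h) (lt_irrefl _)
    · exact absurd (hE _ _ h) (lt_irrefl _)⟩

/-- noncrossing of two graphs given by relations -/
theorem not_cross_of {N : ℕ} {E F : ℕ → ℕ → Prop} (hE : ∀ a b, E a b → a < b)
    (hF : ∀ a b, F a b → a < b)
    (h1 : ∀ a b c d, E a b → F c d → ¬ (a < c ∧ c < b ∧ b < d))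
    (h2 : ∀ a b c d, E a b → F c d → ¬ (c < a ∧ a < d ∧ d < b))
    {a b c d : Fin N} (hab : E a b ∨ E b a) (hcd : F c d ∨ F d c) : ¬ Cross a b c d := by
  have key : ∀ a b c d : Fin N, E a b → F c d → ¬ Cross a b c d := by
    intro a b c d hab hcd hc
    have hab' : a < b := hE _ _ hab
    have hcd' : c < d := hF _ _ hcd
    unfold Cross at hc
    rw [min_eq_left hab'.le, max_eq_right hab'.le, min_eq_left hcd'.le, max_eq_right hcd'.le] at hc
    rcases hc with hc | hc
    · exact h1 _ _ _ _ hab hcd hc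
    · exact h2 _ _ _ _ hab hcd hc
  rcases hab with hab | hab <;> rcases hcd with hcd | hcd
  · exact key a b c d hab hcd
  · intro hc
    refine key a b d c hab hcd ?_
    unfold Cross at hc ⊢
    rwa [min_comm d c, max_comm d c]
  · intro hc
    refine key b a c d hab hcd ?_
    unfold Cross at hc ⊢
    rwa [min_comm b a, max_comm b a]
  · intro hc
    refine key b a d c hab hcd ?_
    unfold Cross at hc ⊢
    rwa [min_comm b a, max_comm b a, min_comm d c, max_comm d c]

theorem cross_symm {N : ℕ} {a b c d : Fin N} (h : Cross a b c d) : Cross c d a b := Or.symm h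

/-- arcs of a word form a plane graph -/
theorem mg_plane' {N : ℕ} (w : List Bool) : Plane (mg N w) := by
  intro a b c d hab hcd
  refine not_cross_of (E := Arc w) (F := Arc w) (fun a b h => h.1) (fun a b h => h.1)
    (fun a b c d h1 h2 => arc_nc h1 h2) (fun a b c d h1 h2 => arc_nc h2 h1) hab hcd

theorem disjComp_of {n : ℕ} {w : List Bool} {E : ℕ → ℕ → Prop}
    (hE : ∀ a b, E a b → a < b) (hal : ∀ a b, E a b → Al (ht w) a b)
    (hnc : ∀ a b c d, E a b → E c d → ¬ (a < c ∧ c < b ∧ b < d))
    {T : SimpleGraph (Fin (2 * n))} (hT : T ≤ ug (2 * n) E hE) :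
    DisjComp T (mg (2 * n) w) := by
  constructor
  · intro a b c d hab hcd
    rcases hab with hab | hab <;> rcases hcd with hcd | hcd
    · exact not_cross_of (E := E) (F := E) hE hE hnc (fun a b c d h1 h2 => hnc c d a b h2 h1)
        (hT hab) (hT hcd)
    · exact not_cross_of (E := E) (F := Arc w) hE (fun a b h => h.1)
        (fun a b c d h1 h2 => al_arc_nc (hal _ _ h1) h2)
        (fun a b c d h1 h2 => arc_al_nc (hal _ _ h1) h2) (hT hab) hcd
    · intro hc
      exact not_cross_of (E := E) (F := Arc w) hE (fun a b h => h.1)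
        (fun a b c d h1 h2 => al_arc_nc (hal _ _ h1) h2)
        (fun a b c d h1 h2 => arc_al_nc (hal _ _ h1) h2) (hT hcd) hab (cross_symm hc)
    · exact mg_plane' w a b c d hab hcd
  · rw [disjoint_iff_inf_le]
    intro a b hab
    obtain ⟨h1, h2⟩ := hab
    exfalso
    have key : ∀ a b : Fin (2 * n), E a b → ¬ Arc w a b := by
      intro a b hab harc
      exact (hal _ _ hab).2.2 ⟨harc.2.2.1, harc.2.2.2⟩
    rcases hT h1 with h1 | h1 <;> rcases h2 with h2 | h2
    · exact key a b h1 h2
    · exact absurd (hE _ _ h1) (not_lt.2 h2.1.le)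
    · exact absurd (hE _ _ h1) (not_lt.2 h2.1.le)
    · exact key b a h1 h2

theorem Der.tComp {n : ℕ} (hn : 1 ≤ n) {w v : List Bool} (_hw : Bal w) (_hv : Bal v)
    (_hwl : w.length = 2 * n) (_hvl : v.length = 2 * n)
    (h : Der (ht w) (ht v) 0 (2 * n - 1)) : TComp (mg (2 * n) w) (mg (2 * n) v) := by
  obtain ⟨E, c⟩ := h.chords
  have hE : ∀ a b, E a b → a < b := fun a b hab => (c.rng a b hab).2.1
  have hconn : (ug (2 * n) E hE).Connected := by
    have hpos : 0 < 2 * n := by omega
    have : Nonempty (Fin (2 * n)) := ⟨⟨0, hpos⟩⟩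
    have key : ∀ x y : ℕ, Relation.EqvGen E x y → ∀ (hx : x < 2 * n) (hy : y < 2 * n),
        (ug (2 * n) E hE).Reachable ⟨x, hx⟩ ⟨y, hy⟩ := by
      intro x y hxy
      -- all vertices of nontrivial classes are in range
      have : ∀ x y : ℕ, Relation.EqvGen E x y → (x = y ∨ (x < 2 * n ∧ y < 2 * n)) ∧
          ∀ (hx : x < 2 * n) (hy : y < 2 * n), (ug (2 * n) E hE).Reachable ⟨x, hx⟩ ⟨y, hy⟩ := by
        intro x y hxy
        induction hxy with
        | rel x y hxy =>
          have := c.rng x y hxy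
          refine ⟨Or.inr (by omega), fun hx hy => ?_⟩
          exact SimpleGraph.Adj.reachable (Or.inl hxy)
        | refl x => exact ⟨Or.inl rfl, fun hx hy => SimpleGraph.Reachable.refl _⟩
        | symm x y _ ih =>
          refine ⟨?_, fun hx hy => (ih.2 hy hx).symm⟩
          rcases ih.1 with h | h
          · exact Or.inl h.symm
          · exact Or.inr h.symm
        | trans x y z _ _ ih1 ih2 =>
          rcases ih1.1 with h1 | h1
          · subst h1
            exact ih2
          · rcases ih2.1 with h2 | h2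
            · subst h2
              exact ih1
            · exact ⟨Or.inr ⟨h1.1, h2.2⟩, fun hx hy => (ih1.2 hx h1.2).trans (ih2.2 h1.2 hy)⟩
      exact (this x y hxy).2
    have h0 : ∀ x : Fin (2 * n), (ug (2 * n) E hE).Reachable ⟨0, hpos⟩ x := by
      intro x
      exact key 0 x (c.conn x (Nat.zero_le _) (by have := x.2; omega)) hpos x.2
    exact ⟨fun x y => (h0 x).symm.trans (h0 y)⟩
  obtain ⟨T, hTle, hT⟩ := hconn.exists_isTree_le
  refine ⟨T, hT, ?_, ?_, ?_⟩
  · intro a b c' d hab hcd
    exact not_cross_of (E := E) (F := E) hE hE c.nc (fun x y z u h1 h2 => c.nc z u x y h2 h1)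
      (hTle hab) (hTle hcd)
  · exact disjComp_of hE c.al1 c.nc hTle
  · exact disjComp_of hE c.al2 c.nc hTle

end Pool.Agent.D3
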