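import Pool.Agent.Lib.H50D3.LocalDfs
import Pool.Agent.Lib.H50D3.At

/-!
# Distance 3: the windows (crossings `A`, turns `U`, anchors `Y`)
-/

set_option autoImplicit false

namespace Pool.Agent.D3

/-- the matched pairs of a word -/
def RW (w : List Bool) (x y : ℕ) : Prop := Arc w x y ∨ Arc w y x

theorem RW.symm {w : List Bool} {x y : ℕ} (h : RW w x y) : RW w y x := Or.symm h

/-- a plane spanning tree which is disjoint compatible with the matching of a word -/
structure Pg (N : ℕ) (w : List Bool) (E : ℕ → ℕ → Prop) : Prop where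
  len : w.length = N
  bal : Bal w
  tree : TreeR N E
  comp : CompR E (RW w)

/-! ### Tokens -/

/-- the partner of position `x` is outside (to be evaluated) -/
def opnB (t : List Bool) (x : ℕ) : Bool :=
  match t[x]? with
  | some true => (List.range (t.length + 1)).all fun y => decide (y ≤ x) || decide (ht t x < ht t y)
  | some false => (List.range (x + 1)).all fun y => decide (ht t (x + 1) < ht t y)
  | none => false

theorem opnB_sound {t : List Bool} {x : ℕ} (h : opnB t x = true) :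
    x < t.length ∧ ∀ y, ¬ Arc t x y ∧ ¬ Arc t y x := by
  unfold opnB at h
  split at h
  · rename_i h1
    obtain ⟨hx, hx'⟩ := List.getElem?_eq_some_iff.1 h1
    refine ⟨hx, fun y => ⟨fun ha => ?_, fun ha => ?_⟩⟩
    · have h2 := List.all_eq_true.1 h (y + 1) (List.mem_range.2 (by have := ha.lt_length; omega))
      rw [Bool.or_eq_true, decide_eq_true_iff, decide_eq_true_iff] at h2
      have h3 := ha.ht_eq
      have h4 := ha.lt
      rcases h2 with h2 | h2 <;> omega
    · have := ha.getElem_right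
      rw [hx'] at this
      exact Bool.noConfusion this
  · rename_i h1
    obtain ⟨hx, hx'⟩ := List.getElem?_eq_some_iff.1 h1
    refine ⟨hx, fun y => ⟨fun ha => ?_, fun ha => ?_⟩⟩
    · have := ha.getElem_left
      rw [hx'] at this
      exact Bool.noConfusion this
    · have h2 := List.all_eq_true.1 h y (List.mem_range.2 (by have := ha.lt; omega))
      rw [decide_eq_true_iff] at h2
      have h3 := ha.ht_eq
      omega
  · simp at h

/-- data of one page of a window -/
structure WPage where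
  arcs : List (ℕ × ℕ)
  opens : List ℕ
  ports : List ℕ
  exl : List ℕ
  infos : List PInfo

/-- the token has the arcs and the open positions of the window (to be evaluated) -/
def tokB (t : List Bool) (P : WPage) : Bool :=
  (P.arcs.all fun a => arcB t a.1 a.2) && P.opens.all (opnB t)

/-- the arcs and the open positions of a window at offset `b` -/
structure WOK (R : ℕ → ℕ → Prop) (b L : ℕ) (P : WPage) : Prop where
  arcs : ∀ a ∈ P.arcs, R (b + a.1) (b + a.2) ∧ a.1 < a.2 ∧ a.2 < L
  opens : ∀ x ∈ P.opens, ∃ y, (y < b ∨ b + L ≤ y) ∧ R (b + x) y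

theorem wok_of {w t : List Bool} {b : ℕ} {P : WPage} (hw : Bal w) (h : At w b t)
    (ht : tokB t P = true) : WOK (RW w) b t.length P := by
  unfold tokB at ht
  rw [Bool.and_eq_true, List.all_eq_true, List.all_eq_true] at ht
  refine ⟨fun a ha => ?_, fun x hx => ?_⟩
  · have h1 := arcB_sound (ht.1 a ha)
    exact ⟨Or.inl (h.arc h1), h1.lt, h1.lt_length⟩
  · obtain ⟨h1, h2⟩ := opnB_sound (ht.2 x hx)
    have h3 := h.le
    obtain ⟨y, hy, hy'⟩ := exists_partner hw (i := b + x) (by omega)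
    refine ⟨y, ?_, hy'⟩
    by_contra hc
    obtain ⟨y', rfl⟩ : ∃ y', y = b + y' := ⟨y - b, by omega⟩
    rcases hy' with hy' | hy'
    · exact (h2 y').1 ((h.arc_iff (by omega)).1 hy')
    · exact (h2 y').2 ((h.arc_iff h1).1 hy')

/-! ### The data -/

def covB (arcs : List (ℕ × ℕ)) (t : ℕ) : Bool := arcs.any fun a => decide (a.1 < t ∧ t < a.2)

def crossB (arcs : List (ℕ × ℕ)) (i t : ℕ) : Bool :=
  arcs.any fun a => decide ((i < a.1 ∧ a.1 < t ∧ t < a.2) ∨ (a.1 < i ∧ i < a.2 ∧ a.2 < t) ∨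
    (a.1 = i ∧ a.2 = t))

/-- the data of position `t` are correct (to be evaluated) -/
def infoB (L : ℕ) (P : WPage) (t : ℕ) (f : PInfo) : Bool :=
  (List.range t).all (fun i => f.al.testBit i || crossB P.arcs i t ||
      P.opens.any (fun x => decide (i < x ∧ x < t))) &&
    (decide (f.cl = 0) || P.arcs.any (fun a => decide (a.2 = t ∧ f.cl = 2 ^ a.1))) &&
    (f.ex || covB P.arcs t || !(P.exl.contains t)) &&
    (f.vi || covB P.arcs t || !(P.ports.contains t)) &&
    (f.vl || (List.range L).all (fun w => decide (w ≤ t) || covB P.arcs w || !(P.ports.contains w)))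

def infosB (L : ℕ) (P : WPage) : ℕ → List PInfo → Bool
  | _, [] => true
  | t, f :: fs => infoB L P t f && infosB L P (t + 1) fs

variable {N : ℕ} {E E' Q R R' : ℕ → ℕ → Prop} {b L w : ℕ} {P P' : WPage}

theorem not_ext_of_cov (hE : TreeR N E) (hC : CompR E R) (hs : ∀ x y, R x y → R y x)
    (hW : WOK R b L P) {t : ℕ} (hc : covB P.arcs t = true) : ¬ Ext E b L t := by
  rintro ⟨z, hz, hez⟩
  unfold covB at hc
  obtain ⟨a, ha, ha'⟩ := List.any_eq_true.1 hc
  rw [decide_eq_true_iff] at ha'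
  obtain ⟨h1, h2, h3⟩ := hW.arcs a ha
  rcases hz with hz | hz
  · have := (hC z (b + t) (hE.symm hez) (by omega)).2 (b + a.1) (b + a.2) (by omega) (by omega) h1
    omega
  · have := (hC (b + t) z hez (by omega)).2 (b + a.2) (b + a.1) (by omega) (by omega) (hs _ _ h1)
    omega

theorem pgood_of (hE : TreeR N E) (hC : CompR E R) (hs : ∀ x y, R x y → R y x) (hN : b + L ≤ N)
    (hW : WOK R b L P) {t : ℕ} (htL : t < L)
    {f : PInfo} (hf : infoB L P t f = true) (hex : ∀ e < L, Ext E b L e → e ∈ P.exl)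
    (hw : w < L → w ∈ P.ports ∧ Ext E b L w) : PGood E b L w t f := by
  unfold infoB at hf
  rw [Bool.and_eq_true, Bool.and_eq_true, Bool.and_eq_true, Bool.and_eq_true] at hf
  obtain ⟨⟨⟨⟨h1, h2⟩, h3⟩, h4⟩, h5⟩ := hf
  refine ⟨fun i hi h => ?_, fun hcl => ?_, fun h => ?_, fun h => ?_, fun h h' => ?_⟩
  · have h6 := List.all_eq_true.1 h1 i (List.mem_range.2 hi)
    rw [Bool.or_eq_true, Bool.or_eq_true] at h6
    have hcc := hC _ _ h (by omega)
    rcases h6 with (h6 | h6) | h6
    · exact h6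
    · exfalso
      unfold crossB at h6
      obtain ⟨a, ha, ha'⟩ := List.any_eq_true.1 h6
      rw [decide_eq_true_iff] at ha'
      obtain ⟨g1, g2, g3⟩ := hW.arcs a ha
      rcases ha' with ha' | ha' | ha'
      · have := hcc.2 (b + a.1) (b + a.2) (by omega) (by omega) g1
        omega
      · have := hcc.2 (b + a.2) (b + a.1) (by omega) (by omega) (hs _ _ g1)
        omega
      · rw [ha'.1, ha'.2] at g1
        exact hcc.1 g1
    · exfalso
      obtain ⟨x, hx, hx'⟩ := List.any_eq_true.1 h6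
      rw [decide_eq_true_iff] at hx'
      obtain ⟨y, hy, hy'⟩ := hW.opens x hx
      have := hcc.2 (b + x) y (by omega) (by omega) hy'
      omega
  · rw [Bool.or_eq_true, decide_eq_true_iff] at h2
    rcases h2 with h2 | h2
    · exact absurd h2 hcl
    · obtain ⟨a, ha, ha'⟩ := List.any_eq_true.1 h2
      rw [decide_eq_true_iff] at ha'
      obtain ⟨g1, g2, g3⟩ := hW.arcs a ha
      obtain ⟨rfl, h7⟩ := ha'
      refine ⟨a.1, g2, h7, spl_of_closed hE (by omega) (by omega) fun x y k1 k2 k3 => ?_⟩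
      constructor
      · by_contra hc
        have := (hC y x (hE.symm k3) (by omega)).2 (b + a.1) (b + a.2) (by omega) (by omega) g1
        omega
      · by_contra hc
        have := (hC x y k3 (by omega)).2 (b + a.2) (b + a.1) (by omega) (by omega) (hs _ _ g1)
        omega
  · rw [Bool.or_eq_true, Bool.or_eq_true] at h3
    rcases h3 with (h3 | h3) | h3
    · exact h3
    · exact absurd h (not_ext_of_cov hE hC hs hW h3)
    · exfalso
      have := hex t htL h
      simp [List.contains_iff_mem, this] at h3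
  · subst h
    rw [Bool.or_eq_true, Bool.or_eq_true] at h4
    obtain ⟨g1, g2⟩ := hw htL
    rcases h4 with (h4 | h4) | h4
    · exact h4
    · exact absurd g2 (not_ext_of_cov hE hC hs hW h4)
    · exfalso
      simp [List.contains_iff_mem, g1] at h4
  · rw [Bool.or_eq_true] at h5
    obtain ⟨g1, g2⟩ := hw h'
    rcases h5 with h5 | h5
    · exact h5
    · exfalso
      have h6 := List.all_eq_true.1 h5 w (List.mem_range.2 h')
      rw [Bool.or_eq_true, Bool.or_eq_true] at h6
      rcases h6 with (h6 | h6) | h6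
      · rw [decide_eq_true_iff] at h6
        omega
      · exact absurd g2 (not_ext_of_cov hE hC hs hW h6)
      · simp [List.contains_iff_mem, g1] at h6

theorem allG_of (hE : TreeR N E) (hC : CompR E R) (hs : ∀ x y, R x y → R y x)
    (hE' : TreeR N E') (hC' : CompR E' R') (hs' : ∀ x y, R' x y → R' y x) (hN : b + L ≤ N)
    (hW : WOK R b L P) (hW' : WOK R' b L P') {w w' : ℕ}
    (hex : ∀ e < L, Ext E b L e → e ∈ P.exl) (hex' : ∀ e < L, Ext E' b L e → e ∈ P'.exl)
    (hw : w < L → w ∈ P.ports ∧ Ext E b L w) (hw' : w' < L → w' ∈ P'.ports ∧ Ext E' b L w') :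
    ∀ (fs fs' : List PInfo) (t : ℕ), t + fs.length = L → t + fs'.length = L →
      infosB L P t fs = true → infosB L P' t fs' = true → AllG E E' b L w w' t (List.zip fs fs')
  | [], _, _, _, _, _, _ => by simp [AllG]
  | _ :: _, [], _, h1, h2, _, _ => by simp at h1 h2; omega
  | f :: fs, f' :: fs', t, h1, h2, h3, h4 => by
    unfold infosB at h3 h4
    rw [Bool.and_eq_true] at h3 h4
    simp only [List.length_cons] at h1 h2
    exact ⟨pgood_of hE hC hs hN hW (by omega) h3.1 hex hw,
      pgood_of hE' hC' hs' hN hW' (by omega) h4.1 hex' hw',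
      allG_of hE hC hs hE' hC' hs' hN hW hW' hex hex' hw hw' fs fs' (t + 1) (by omega) (by omega) h3.2 h4.2⟩

/-- the search (to be evaluated) -/
def winB (L : ℕ) (P P' : WPage) (v v' : Bool) : Bool :=
  infosB L P 0 P.infos && infosB L P' 0 P'.infos && Nat.beq P.infos.length L &&
    Nat.beq P'.infos.length L && dfs (List.zip P.infos P'.infos) 1 [] 0 ⟨[], 0, v⟩ ⟨[], 0, v'⟩

theorem window_false {v v' : Bool} (hwin : winB L P P' v v' = true)
    (hE : TreeR N E) (hC : CompR E R) (hs : ∀ x y, R x y → R y x)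
    (hE' : TreeR N E') (hC' : CompR E' R') (hs' : ∀ x y, R' x y → R' y x)
    (hQ : MatchR N Q) (hCQ : CompR E Q) (hCQ' : CompR E' Q) (hN : b + L ≤ N) (hb : 0 < b) (hL : 0 < L)
    (hW : WOK R b L P) (hW' : WOK R' b L P')
    (hex : ∀ e < L, Ext E b L e → e ∈ P.exl) (hex' : ∀ e < L, Ext E' b L e → e ∈ P'.exl)
    (hv : v = true ∨ ∃ w < L, w ∈ P.ports ∧ Ext E b L w)
    (hv' : v' = true ∨ ∃ w < L, w ∈ P'.ports ∧ Ext E' b L w) : False := by
  unfold winB at hwin
  rw [Bool.and_eq_true, Bool.and_eq_true, Bool.and_eq_true, Bool.and_eq_true] at hwin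
  obtain ⟨⟨⟨⟨h1, h2⟩, h3⟩, h4⟩, h5⟩ := hwin
  have h3 := Nat.eq_of_beq_eq_true h3
  have h4 := Nat.eq_of_beq_eq_true h4
  obtain ⟨w, hw, hwv⟩ : ∃ w, (w < L → w ∈ P.ports ∧ Ext E b L w) ∧ (v = true ∨ (0 ≤ w ∧ w < L)) := by
    rcases hv with hv | ⟨w, g1, g2, g3⟩
    · exact ⟨L, fun h => absurd h (lt_irrefl _), Or.inl hv⟩
    · exact ⟨w, fun _ => ⟨g2, g3⟩, Or.inr ⟨Nat.zero_le _, g1⟩⟩
  obtain ⟨w', hw', hwv'⟩ : ∃ w, (w < L → w ∈ P'.ports ∧ Ext E' b L w) ∧
      (v' = true ∨ (0 ≤ w ∧ w < L)) := by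
    rcases hv' with hv | ⟨w, g1, g2, g3⟩
    · exact ⟨L, fun h => absurd h (lt_irrefl _), Or.inl hv⟩
    · exact ⟨w, fun _ => ⟨g2, g3⟩, Or.inr ⟨Nat.zero_le _, g1⟩⟩
  have hG := allG_of hE hC hs hE' hC' hs' hN hW hW' hex hex' hw hw' P.infos P'.infos 0
    (by omega) (by omega) h1 h2
  refine dfs_ok hE hE' hQ hCQ hCQ' hN hb hL (fun h => (hw h).2) (fun h => (hw' h).2) _ 0 [] 0
    ⟨[], 0, v⟩ ⟨[], 0, v'⟩ ?_ hG ⟨by omega, fun x y h => absurd h (Nat.not_lt_zero _)⟩
    (fun i hi => absurd hi (Nat.not_lt_zero _)) ⟨trivial, fun e he => absurd he (Nat.not_lt_zero _), hwv⟩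
    ⟨trivial, fun e he => absurd he (Nat.not_lt_zero _), hwv'⟩ h5
  simp [h3, h4]

/-! ### The windows -/

/-- window A, the page with the ports `d1 = [12, 15]`, `d2 = [16, 17]` -/
def wAM : WPage where
  arcs := [(0, 7), (1, 6), (2, 3), (4, 5), (8, 11), (9, 10), (13, 14)]
  opens := [12, 15, 16, 17, 18, 19]
  ports := [12, 13, 14, 15, 16, 17]
  exl := [0, 1, 2, 3, 4, 5, 6, 7, 8, 9, 10, 11, 12, 13, 14, 15, 16, 17, 18, 19]
  infos := [⟨0, 0, true, false, true⟩, ⟨1, 0, false, false, true⟩, ⟨2, 0, false, false, true⟩, ⟨2, 4, false, false, true⟩, ⟨14, 0, false, false, true⟩, ⟨14, 16, false, false, true⟩, ⟨61, 2, false, false, true⟩, ⟨66, 1, true, false, true⟩, ⟨129, 0, true, false, true⟩, ⟨256, 0, false, false, true⟩, ⟨256, 512, false, false, true⟩, ⟨1665, 256, true, false, true⟩, ⟨2433, 0, true, true, true⟩, ⟨4096, 0, true, true, true⟩, ⟨4096, 8192, true, true, true⟩, ⟨28672, 0, true, true, true⟩, ⟨32768, 0, true, true, true⟩, ⟨65536, 0, true, true, false⟩, ⟨131072, 0,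 true, false, false⟩, ⟨262144, 0, true, false, false⟩]

/-- window A, the page with the port `s = [2, 3]` -/
def wAP : WPage where
  arcs := [(4, 19), (5, 10), (6, 7), (8, 9), (11, 12), (13, 14), (15, 16), (17, 18)]
  opens := [0, 1, 2, 3]
  ports := [2, 3]
  exl := [0, 1, 2, 3, 4, 5, 6, 7, 8, 9, 10, 11, 12, 13, 14, 15, 16, 17, 18, 19]
  infos := [⟨0, 0, true, false, true⟩, ⟨1, 0, true, false, true⟩, ⟨2, 0, true, true, true⟩, ⟨4, 0, true, true, false⟩, ⟨8, 0, true, false, false⟩, ⟨16, 0, false, false, false⟩, ⟨32, 0, false, false, false⟩, ⟨32, 64, false, false, false⟩, ⟨224, 0, false, false, false⟩, ⟨224, 256, false, false, false⟩, ⟨976, 32, false, false, false⟩, ⟨1072, 0, false, false, false⟩, ⟨1072, 2048, false, false, false⟩, ⟨7216, 0, false, false, false⟩, ⟨7216, 8192, false, false, false⟩, ⟨31792, 0, false, false, false⟩, ⟨31792, 32768, false, false, false⟩, ⟨130096, 0, false, false, false⟩, ⟨130096, 131072, false, false, false⟩, ⟨523304, 16, true, false, false⟩]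

/-- window U, the page with the port `m = [4, 5]` -/
def wUM : WPage where
  arcs := [(0, 1), (2, 3), (6, 9), (7, 8), (10, 19), (11, 18), (12, 13), (14, 15), (16, 17)]
  opens := [4, 5]
  ports := [4, 5]
  exl := [0, 1, 2, 3, 4, 5, 6, 7, 8, 9, 10, 11, 12, 13, 14, 15, 16, 17, 18, 19]
  infos := [⟨0, 0, true, false, true⟩, ⟨0, 1, true, false, true⟩, ⟨3, 0, true, false, true⟩, ⟨3, 4, true, false, true⟩, ⟨15, 0, true, true, true⟩, ⟨16, 0, true, true, false⟩, ⟨32, 0, true, false, false⟩, ⟨64, 0, false, false, false⟩, ⟨64, 128, false, false, false⟩, ⟨416, 64, true, false, false⟩, ⟨608, 0, true, false, false⟩, ⟨1024, 0, false, false, false⟩, ⟨2048, 0, false, false, false⟩, ⟨2048, 4096, false, false, false⟩, ⟨14336, 0, false, false, false⟩, ⟨14336, 16384, false, false, false⟩, ⟨63488, 0, false, false, false⟩, ⟨63488, 65536, false, false, false⟩, ⟨259072, 2048, false, false, false⟩, ⟨264800, 1024, true, false, false⟩]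

/-- window U, the page with the port `s = [16, 17]` -/
def wUP : WPage where
  arcs := [(0, 15), (1, 12), (2, 3), (4, 5), (6, 7), (8, 9), (10, 11), (13, 14)]
  opens := [16, 17, 18, 19]
  ports := [16, 17]
  exl := [0, 1, 2, 3, 4, 5, 6, 7, 8, 9, 10, 11, 12, 13, 14, 15, 16, 17, 18, 19]
  infos := [⟨0, 0, true, false, true⟩, ⟨1, 0, false, false, true⟩, ⟨2, 0, false, false, true⟩, ⟨2, 4, false, false, true⟩, ⟨14, 0, false, false, true⟩, ⟨14, 16, false, false, true⟩, ⟨62, 0, false, false, true⟩, ⟨62, 64, false, false, true⟩, ⟨254, 0, false, false, true⟩, ⟨254, 256, false, false, true⟩, ⟨1022, 0, false, false, true⟩, ⟨1022, 1024, false, false, true⟩, ⟨4093, 2, false, false, true⟩, ⟨4099, 0, false, false, true⟩, ⟨4099, 8192, false, false, true⟩, ⟨28674, 1, true, false, true⟩, ⟨32769, 0, true, true, true⟩, ⟨65536, 0, true, true, false⟩, ⟨131072, 0, true, false, false⟩, ⟨262144, 0, true, false, false⟩]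

/-- anchor, the open page -/
def wYM : WPage where
  arcs := [(1, 2), (3, 4)]
  opens := [0, 5]
  ports := []
  exl := [0, 5]
  infos := [⟨0, 0, true, false, false⟩, ⟨1, 0, false, false, false⟩, ⟨1, 2, false, false, false⟩, ⟨7, 0, false, false, false⟩, ⟨7, 8, false, false, false⟩, ⟨31, 0, true, false, false⟩]

/-- anchor, the closed page -/
def wYP : WPage where
  arcs := [(0, 5), (1, 4), (2, 3)]
  opens := []
  ports := []
  exl := [0, 1, 2, 3, 4, 5]
  infos := [⟨0, 0, true, false, false⟩, ⟨1, 0, false, false, false⟩, ⟨2, 0, false, false, false⟩, ⟨2, 4, false, false, false⟩, ⟨13, 2, false, false, false⟩, ⟨18, 1, true, false, false⟩]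

theorem winA : winB 20 wAM wAP false false = true := by decide +kernel
theorem winU : winB 20 wUM wUP false false = true := by decide +kernel
theorem winY : winB 6 wYM wYP true true = true := by decide +kernel

/-- an edge leaves the window `[b, b + L)` in the sector `[x, y]` of a port -/
def PV (E : ℕ → ℕ → Prop) (b L x y : ℕ) : Prop := ∃ w, x ≤ w ∧ w ≤ y ∧ Ext E b L w

section
variable {W W' : List Bool} {T T' : List Bool}

theorem A_excl (h : Pg N W E) (h' : Pg N W' E') (hQ : MatchR N Q) (hCQ : CompR E Q) (hCQ' : CompR E' Q)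
    (hb : 0 < b) (hT : At W b T) (hT' : At W' b T') (hT1 : T.length = 20) (hT1' : T'.length = 20)
    (hT2 : tokB T wAM = true) (hT2' : tokB T' wAP = true) :
    ¬ ((PV E b 20 12 15 ∨ PV E b 20 16 17) ∧ PV E' b 20 2 3) := by
  rintro ⟨h1, ⟨w', g1, g2, g3⟩⟩
  have hN := hT.le
  rw [hT1, h.len] at hN
  have hW := wok_of h.bal hT hT2
  have hW' := wok_of h'.bal hT' hT2'
  rw [hT1] at hW
  rw [hT1'] at hW'
  refine window_false winA h.tree h.comp (fun _ _ => RW.symm) h'.tree h'.comp (fun _ _ => RW.symm)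
    hQ hCQ hCQ' hN hb (by omega) hW hW' ?_ ?_ (Or.inr ?_) (Or.inr ?_)
  · intro e he _
    have : ∀ e < 20, e ∈ wAM.exl := by decide
    exact this e he
  · intro e he _
    have : ∀ e < 20, e ∈ wAP.exl := by decide
    exact this e he
  · have : ∀ w < 20, 12 ≤ w → w ≤ 17 → w ∈ wAM.ports := by decide
    rcases h1 with ⟨w, k1, k2, k3⟩ | ⟨w, k1, k2, k3⟩
    · exact ⟨w, by omega, this w (by omega) (by omega) (by omega), k3⟩
    · exact ⟨w, by omega, this w (by omega) (by omega) (by omega), k3⟩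
  · have : ∀ w < 20, 2 ≤ w → w ≤ 3 → w ∈ wAP.ports := by decide
    exact ⟨w', by omega, this w' (by omega) g1 g2, g3⟩

theorem U_excl (h : Pg N W E) (h' : Pg N W' E') (hQ : MatchR N Q) (hCQ : CompR E Q) (hCQ' : CompR E' Q)
    (hb : 0 < b) (hT : At W b T) (hT' : At W' b T') (hT1 : T.length = 20) (hT1' : T'.length = 20)
    (hT2 : tokB T wUM = true) (hT2' : tokB T' wUP = true) :
    ¬ (PV E b 20 4 5 ∧ PV E' b 20 16 17) := by
  rintro ⟨⟨w, k1, k2, k3⟩, ⟨w', g1, g2, g3⟩⟩
  have hN := hT.le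
  rw [hT1, h.len] at hN
  have hW := wok_of h.bal hT hT2
  have hW' := wok_of h'.bal hT' hT2'
  rw [hT1] at hW
  rw [hT1'] at hW'
  refine window_false winU h.tree h.comp (fun _ _ => RW.symm) h'.tree h'.comp (fun _ _ => RW.symm)
    hQ hCQ hCQ' hN hb (by omega) hW hW' ?_ ?_ (Or.inr ?_) (Or.inr ?_)
  · intro e he _
    have : ∀ e < 20, e ∈ wUM.exl := by decide
    exact this e he
  · intro e he _
    have : ∀ e < 20, e ∈ wUP.exl := by decide
    exact this e he
  · have : ∀ w < 20, 4 ≤ w → w ≤ 5 → w ∈ wUM.ports := by decide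
    exact ⟨w, by omega, this w (by omega) k1 k2, k3⟩
  · have : ∀ w < 20, 16 ≤ w → w ≤ 17 → w ∈ wUP.ports := by decide
    exact ⟨w', by omega, this w' (by omega) g1 g2, g3⟩

/-- an edge leaves an anchor on the open page, strictly inside the port -/
theorem Y_anchor (h : Pg N W E) (h' : Pg N W' E') (hQ : MatchR N Q) (hCQ : CompR E Q)
    (hCQ' : CompR E' Q) (hb : 0 < b) (hT : At W b T) (hT' : At W' b T') (hT1 : T.length = 6)
    (hT1' : T'.length = 6) (hT2 : tokB T wYM = true) (hT2' : tokB T' wYP = true) :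
    ∃ x y, b < x ∧ x < b + 5 ∧ (y < b ∨ b + 6 ≤ y) ∧ E x y := by
  by_contra hcon
  have hN := hT.le
  rw [hT1, h.len] at hN
  have hW := wok_of h.bal hT hT2
  have hW' := wok_of h'.bal hT' hT2'
  rw [hT1] at hW
  rw [hT1'] at hW'
  refine window_false winY h.tree h.comp (fun _ _ => RW.symm) h'.tree h'.comp (fun _ _ => RW.symm)
    hQ hCQ hCQ' hN hb (by omega) hW hW' ?_ ?_ (Or.inl rfl) (Or.inl rfl)
  · rintro e he ⟨z, hz, hez⟩
    have h1 : e = 0 ∨ e = 5 := by
      by_contra hc
      exact hcon ⟨b + e, z, by omega, by omega, hz, hez⟩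
    rcases h1 with rfl | rfl <;> decide
  · intro e he _
    have : ∀ e < 6, e ∈ wYP.exl := by decide
    exact this e he

end

end Pool.Agent.D3
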